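import Pool.Agent.H56.Defs

/-!
# Basic facts on the objects of `Defs`
-/

set_option autoImplicit false

open MeasureTheory Complex

namespace Pool.Agent.H56

instance : Countable K := by
  have h := Algebraic.countable ℚ ℂ
  have h2 : Countable {x : ℂ | IsAlgebraic ℚ x} := h.to_subtype
  exact Function.Injective.countable
    (f := fun x : K => (⟨(x : ℂ), mem_algebraicClosure_iff.1 x.2⟩ : {x : ℂ | IsAlgebraic ℚ x}))
    (fun x y hxy => Subtype.ext (by simpa using hxy))

/-! ### The function `E` -/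

theorem E_add (s t : ℝ) : E (s + t) = E s * E t := by
  unfold E
  rw [← Circle.exp_add]
  ring_nf

@[simp] theorem E_zero : E 0 = 1 := by
  unfold E
  simp

theorem E_neg (t : ℝ) : E (-t) = (E t)⁻¹ := by
  rw [eq_inv_iff_mul_eq_one, ← E_add]
  simp

theorem E_sub (s t : ℝ) : E (s - t) = E s / E t := by
  rw [sub_eq_add_neg, E_add, E_neg, div_eq_mul_inv]

theorem coe_E (t : ℝ) : (E t : ℂ) = Complex.exp ((2 * Real.pi * t : ℝ) * Complex.I) := by
  unfold E
  rw [Circle.coe_exp]

theorem E_re (t : ℝ) : (E t : ℂ).re = Real.cos (2 * Real.pi * t) := by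
  rw [coe_E, Complex.exp_ofReal_mul_I_re]

theorem E_im (t : ℝ) : (E t : ℂ).im = Real.sin (2 * Real.pi * t) := by
  rw [coe_E, Complex.exp_ofReal_mul_I_im]

theorem continuous_E : Continuous E := by
  unfold E
  exact Circle.exp.continuous.comp (by fun_prop)

theorem norm_E_sub_one (t : ℝ) : ‖(E t : ℂ) - 1‖ = 2 * |Real.sin (Real.pi * t)| := by
  rw [coe_E, mul_comm, Complex.norm_exp_I_mul_ofReal_sub_one, norm_mul, Real.norm_eq_abs,
    Real.norm_eq_abs, abs_two]
  congr 3
  ring

theorem norm_E_sub_one_le (t : ℝ) : ‖(E t : ℂ) - 1‖ ≤ 2 * Real.pi * |t| := by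
  rw [norm_E_sub_one]
  have h : |Real.sin (Real.pi * t)| ≤ |Real.pi * t| := Real.abs_sin_le_abs
  rw [abs_mul, abs_of_pos Real.pi_pos] at h
  linarith

/-- The lower bound `|e(t) - 1| ≥ 4 |t|` for `|t| ≤ 1/2`. -/
theorem le_norm_E_sub_one {t : ℝ} (ht : |t| ≤ 1 / 2) : 4 * |t| ≤ ‖(E t : ℂ) - 1‖ := by
  rw [norm_E_sub_one]
  have key : ∀ s : ℝ, 0 ≤ s → s ≤ 1 / 2 → 2 * s ≤ |Real.sin (Real.pi * s)| := by
    intro s hs0 hs
    have h1 : 2 / Real.pi * (Real.pi * s) ≤ Real.sin (Real.pi * s) :=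
      Real.mul_le_sin (by positivity) (by nlinarith [Real.pi_pos])
    have h2 : 2 / Real.pi * (Real.pi * s) = 2 * s := by
      field_simp
    rw [h2] at h1
    exact h1.trans (le_abs_self _)
  rcases le_total 0 t with h | h
  · rw [abs_of_nonneg h] at *
    linarith [key t h ht]
  · rw [abs_of_nonpos h] at *
    have h3 := key (-t) (by linarith) ht
    rw [show Real.pi * -t = -(Real.pi * t) by ring, Real.sin_neg, abs_neg] at h3
    linarith

theorem E_eq_one_iff (t : ℝ) : E t = 1 ↔ ∃ n : ℤ, t = n := by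
  unfold E
  rw [Circle.exp_eq_one]
  constructor
  · rintro ⟨n, hn⟩
    refine ⟨n, ?_⟩
    have := Real.pi_pos
    have h2 : 2 * Real.pi * (t - n) = 0 := by linarith
    rcases mul_eq_zero.1 h2 with h | h
    · linarith
    · linarith
  · rintro ⟨n, hn⟩
    refine ⟨n, ?_⟩
    rw [hn]
    ring

theorem E_int (n : ℤ) : E n = 1 := (E_eq_one_iff _).2 ⟨n, rfl⟩

/-- If `E t = 1` and `|t| < 1` then `t = 0`. -/
theorem eq_zero_of_E_eq_one {t : ℝ} (h : E t = 1) (ht : |t| < 1) : t = 0 := by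
  obtain ⟨n, rfl⟩ := (E_eq_one_iff t).1 h
  have : |n| < 1 := by exact_mod_cast ht
  have : n = 0 := Int.abs_lt_one_iff.1 this
  simp [this]

/-! ### Characters -/

theorem Hm_zero {χ : X} (h : χ ∈ Hm) : χ 0 = 1 := by
  have h1 := h 0 0
  rw [add_zero] at h1
  exact left_eq_mul.1 h1

theorem Hm_neg {χ : X} (h : χ ∈ Hm) (v : K) : χ (-v) = (χ v)⁻¹ := by
  rw [eq_inv_iff_mul_eq_one, ← h, neg_add_cancel, Hm_zero h]

theorem Hm_sub {χ : X} (h : χ ∈ Hm) (v w : K) : χ (v - w) = χ v / χ w := by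
  rw [sub_eq_add_neg, h, Hm_neg h, div_eq_mul_inv]

theorem Hm_natCast_mul {χ : X} (h : χ ∈ Hm) (n : ℕ) (v : K) : χ (n * v) = χ v ^ n := by
  induction n with
  | zero => simp [Hm_zero h]
  | succ n ih => rw [Nat.cast_add, Nat.cast_one, add_mul, one_mul, h, ih, pow_succ]

theorem Hm_intCast_mul {χ : X} (h : χ ∈ Hm) (n : ℤ) (v : K) : χ (n * v) = χ v ^ n := by
  obtain ⟨m, rfl | rfl⟩ := n.eq_nat_or_neg
  · rw [Int.cast_natCast, Hm_natCast_mul h, zpow_natCast]
  · rw [Int.cast_neg, Int.cast_natCast, neg_mul, Hm_neg h, Hm_natCast_mul h, zpow_neg,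
      zpow_natCast]

theorem Hm_sum {χ : X} (h : χ ∈ Hm) {ι : Type*} (s : Finset ι) (f : ι → K) :
    χ (∑ i ∈ s, f i) = ∏ i ∈ s, χ (f i) := by
  classical
  induction s using Finset.induction_on with
  | empty => simp [Hm_zero h]
  | insert a s ha ih => rw [Finset.sum_insert ha, Finset.prod_insert ha, h, ih]

theorem Hm_one : (1 : X) ∈ Hm := fun v w => by simp

theorem Hm_mul {χ χ' : X} (h : χ ∈ Hm) (h' : χ' ∈ Hm) : χ * χ' ∈ Hm := fun v w => by
  simp only [Pi.mul_apply]
  rw [h v w, h' v w]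
  exact mul_mul_mul_comm _ _ _ _

theorem Hm_div {χ χ' : X} (h : χ ∈ Hm) (h' : χ' ∈ Hm) : χ / χ' ∈ Hm := fun v w => by
  simp only [Pi.div_apply]
  rw [h v w, h' v w]
  exact mul_div_mul_comm _ _ _ _

theorem Hm_rho {χ : X} (h : χ ∈ Hm) (u : K) : rho u χ ∈ Hm := fun v w => by
  simp only [rho]
  rw [mul_add, h]

/-- The real character with frequency `ξ`. -/
noncomputable def realChar (ξ : ℂ) : X := fun v => E ((ξ * (v : ℂ)).re)

theorem realChar_mem (ξ : ℂ) : realChar ξ ∈ Hm := fun v w => by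
  simp only [realChar]
  rw [← E_add]
  congr 1
  simp [mul_add]

@[simp] theorem rho_apply (u : K) (χ : X) (v : K) : rho u χ v = χ (u * v) := rfl

theorem rho_rho (u v : K) (χ : X) : rho u (rho v χ) = rho (v * u) χ := by
  funext w
  simp [rho, mul_assoc]

theorem rho_comp (u v : K) : rho u ∘ rho v = rho (v * u) := by
  funext χ
  exact rho_rho u v χ

@[simp] theorem rho_one : rho 1 = id := by
  funext χ w
  simp [rho]

theorem rho_mul (u : K) (χ χ' : X) : rho u (χ * χ') = rho u χ * rho u χ' := rfl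

theorem rho_div (u : K) (χ χ' : X) : rho u (χ / χ') = rho u χ / rho u χ' := rfl

theorem continuous_rho (u : K) : Continuous (rho u) := by
  unfold rho
  fun_prop

theorem measurable_rho (u : K) : Measurable (rho u) := (continuous_rho u).measurable

theorem continuous_ev (v : K) : Continuous (ev v) := by
  unfold ev
  exact continuous_induced_dom.comp (continuous_apply v)

theorem measurable_ev (v : K) : Measurable (ev v) := (continuous_ev v).measurable

theorem stronglyMeasurable_ev (v : K) : StronglyMeasurable (ev v) :=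
  (continuous_ev v).stronglyMeasurable

@[simp] theorem norm_ev (v : K) (χ : X) : ‖ev v χ‖ = 1 := Circle.norm_coe _

theorem integrable_ev (μ : Measure X) [IsFiniteMeasure μ] (v : K) : Integrable (ev v) μ :=
  Integrable.of_bound (stronglyMeasurable_ev v).aestronglyMeasurable 1
    (Filter.Eventually.of_forall fun χ => by simp)

theorem ev_rho (v u : K) (χ : X) : ev v (rho u χ) = ev (u * v) χ := rfl

theorem ev_comp_rho (v u : K) : ev v ∘ rho u = ev (u * v) := rfl

theorem ev_add {χ : X} (h : χ ∈ Hm) (v w : K) : ev (v + w) χ = ev v χ * ev w χ := by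
  simp [ev, h v w]

theorem ev_zero {χ : X} (h : χ ∈ Hm) : ev 0 χ = 1 := by
  simp [ev, Hm_zero h]

theorem ev_neg {χ : X} (h : χ ∈ Hm) (v : K) : ev (-v) χ = (starRingEnd ℂ) (ev v χ) := by
  simp only [ev, Hm_neg h, Circle.coe_inv_eq_conj]

theorem ev_sub {χ : X} (h : χ ∈ Hm) (v w : K) :
    ev (v - w) χ = ev v χ * (starRingEnd ℂ) (ev w χ) := by
  rw [sub_eq_add_neg, ev_add h, ev_neg h]

theorem ev_mul_conj (v : K) (χ : X) : ev v χ * (starRingEnd ℂ) (ev v χ) = 1 := by
  rw [Complex.mul_conj, Complex.normSq_eq_norm_sq]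
  simp

theorem isClosed_Hm : IsClosed Hm := by
  have : Hm = ⋂ v : K, ⋂ w : K, {χ : X | χ (v + w) = χ v * χ w} := by
    ext χ
    simp [Hm]
  rw [this]
  refine isClosed_iInter fun v => isClosed_iInter fun w => isClosed_eq (by fun_prop) ?_
  exact (continuous_apply v).mul (continuous_apply w)

theorem measurableSet_Hm : MeasurableSet Hm := isClosed_Hm.measurableSet

/-! ### The embedding of the Gaussian integers -/

theorem c_injective : Function.Injective c := by
  intro x y h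
  have h2 : GaussianInt.toComplex x = GaussianInt.toComplex y := by
    rw [← coe_c, ← coe_c, h]
  exact GaussianInt.toComplex_inj.1 h2

@[simp] theorem c_eq_zero {z : GaussianInt} : c z = 0 ↔ z = 0 := by
  rw [← map_zero c]
  exact c_injective.eq_iff

theorem c_ne_zero {z : GaussianInt} (hz : z ≠ 0) : c z ≠ 0 := fun h => hz (c_eq_zero.1 h)

theorem star_ne_zero' {z : GaussianInt} (hz : z ≠ 0) : star z ≠ 0 := by
  simpa using hz

theorem coe_c_star (z : GaussianInt) : ((c (star z) : K) : ℂ) = (starRingEnd ℂ) (c z : K) := by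
  rw [coe_c, coe_c]
  exact GaussianInt.toComplex_star z

theorem norm_c_star (z : GaussianInt) : ‖((c (star z) : K) : ℂ)‖ = ‖((c z : K) : ℂ)‖ := by
  rw [coe_c_star, RCLike.norm_conj]

theorem coe_ne_zero {v : K} (hv : v ≠ 0) : (v : ℂ) ≠ 0 := by
  simpa using hv

theorem norm_un {z : GaussianInt} (hz : z ≠ 0) : ‖((un z : K) : ℂ)‖ = 1 := by
  unfold un
  have h1 : ‖((c z : K) : ℂ)‖ ≠ 0 := norm_ne_zero_iff.2 (coe_ne_zero (c_ne_zero hz))
  have h2 : ((c z / c (star z) : K) : ℂ) = (c z : K) / (c (star z) : K) := by simp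
  rw [h2, norm_div, norm_c_star, div_self h1]

theorem un_mul (z w : GaussianInt) : un (z * w) = un z * un w := by
  unfold un
  rw [star_mul, map_mul, map_mul, mul_comm (c (star w)), mul_div_mul_comm]

theorem un_ne_zero {z : GaussianInt} (hz : z ≠ 0) : un z ≠ 0 :=
  div_ne_zero (c_ne_zero hz) (c_ne_zero (star_ne_zero' hz))

theorem un_star (z : GaussianInt) : un (star z) = (un z)⁻¹ := by
  unfold un
  rw [star_star, inv_div]

@[simp] theorem un_one : un 1 = 1 := by simp [un]

theorem un_pow (z : GaussianInt) (n : ℕ) : un (z ^ n) = un z ^ n := by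
  induction n with
  | zero => simp
  | succ n ih => rw [pow_succ, un_mul, ih, pow_succ]

theorem gpi_ne_zero : gpi ≠ 0 := by decide

theorem gpi_mul_star : gpi * star gpi = 5 := by decide

theorem c_five : c 5 = 5 := map_ofNat c 5

theorem c_gpi_mul : c gpi * c (star gpi) = 5 := by
  rw [← map_mul, gpi_mul_star, c_five]

/-! ### Closedness and measurability -/

theorem isClosed_realOn (R : ℝ) (S : Set K) :
    IsClosed {χ : X | ∃ ξ : ℂ, ‖ξ‖ ≤ R ∧ RealOn χ ξ S} := by
  have h1 : IsCompact ((Metric.closedBall (0 : ℂ) R ×ˢ (Set.univ : Set X)) ∩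
      {p : ℂ × X | RealOn p.2 p.1 S}) := by
    refine ((isCompact_closedBall _ _).prod isCompact_univ).inter_right ?_
    have h2 : {p : ℂ × X | RealOn p.2 p.1 S} =
        ⋂ v ∈ S, {p : ℂ × X | p.2 v = E ((p.1 * (v : ℂ)).re)} := by
      ext p
      simp [RealOn]
    rw [h2]
    refine isClosed_biInter fun v _ => isClosed_eq ((continuous_apply v).comp continuous_snd) ?_
    exact continuous_E.comp (by fun_prop)
  have h3 : {χ : X | ∃ ξ : ℂ, ‖ξ‖ ≤ R ∧ RealOn χ ξ S} = Prod.snd ''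
      ((Metric.closedBall (0 : ℂ) R ×ˢ (Set.univ : Set X)) ∩ {p : ℂ × X | RealOn p.2 p.1 S}) := by
    ext χ
    constructor
    · rintro ⟨ξ, h1, h2⟩
      exact ⟨(ξ, χ), ⟨⟨by simpa using h1, trivial⟩, h2⟩, rfl⟩
    · rintro ⟨⟨ξ, χ'⟩, ⟨⟨h1, -⟩, h2⟩, rfl⟩
      exact ⟨ξ, by simpa using h1, h2⟩
  rw [h3]
  exact (h1.image continuous_snd).isClosed

theorem measurableSet_realOn (S : Set K) : MeasurableSet {χ : X | ∃ ξ : ℂ, RealOn χ ξ S} := by
  have h : {χ : X | ∃ ξ : ℂ, RealOn χ ξ S} =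
      ⋃ n : ℕ, {χ : X | ∃ ξ : ℂ, ‖ξ‖ ≤ (n : ℝ) ∧ RealOn χ ξ S} := by
    ext χ
    simp only [Set.mem_iUnion, Set.mem_ofPred_eq]
    constructor
    · rintro ⟨ξ, h⟩
      obtain ⟨n, hn⟩ := exists_nat_ge ‖ξ‖
      exact ⟨n, ξ, hn, h⟩
    · rintro ⟨n, ξ, -, h⟩
      exact ⟨ξ, h⟩
  rw [h]
  exact MeasurableSet.iUnion fun n => (isClosed_realOn _ _).measurableSet

theorem isClosed_EE (R : ℝ) (b : K) : IsClosed (EE R b) :=
  isClosed_Hm.inter (isClosed_realOn R (lat b))

theorem measurableSet_EE (R : ℝ) (b : K) : MeasurableSet (EE R b) := (isClosed_EE R b).measurableSet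

theorem measurableSet_Einf (b : K) : MeasurableSet (Einf b) :=
  measurableSet_Hm.inter (measurableSet_realOn (latInf b))

theorem measurableSet_Str : MeasurableSet Str := by
  have h : Str = ⋃ N : ℕ, ⋃ _ : 0 < N, Einf (N : K) := by
    ext χ
    simp [Str]
  rw [h]
  exact MeasurableSet.iUnion fun N => MeasurableSet.iUnion fun _ => measurableSet_Einf _

theorem measurableSet_RealQ : MeasurableSet RealQ :=
  measurableSet_Hm.inter (measurableSet_realOn Qi)

theorem measurable_div_X : Measurable (fun p : X × X => p.1 / p.2) :=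
  (continuous_fst.div' continuous_snd).measurable

instance (μ : Measure X) [IsFiniteMeasure μ] : IsFiniteMeasure (quo μ) := by
  unfold quo
  infer_instance

theorem quo_apply (μ : Measure X) {S : Set X} (hS : MeasurableSet S) :
    quo μ S = (μ.prod μ) {p : X × X | p.1 / p.2 ∈ S} :=
  Measure.map_apply measurable_div_X hS

theorem quo_map_rho (μ : Measure X) [IsFiniteMeasure μ] (u : K) (h : μ.map (rho u) = μ) :
    (quo μ).map (rho u) = quo μ := by
  unfold quo
  rw [Measure.map_map (measurable_rho u) measurable_div_X]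
  have h1 : rho u ∘ (fun p : X × X => p.1 / p.2) =
      (fun p : X × X => p.1 / p.2) ∘ Prod.map (rho u) (rho u) := rfl
  rw [h1, ← Measure.map_map measurable_div_X ((measurable_rho u).prodMap (measurable_rho u)),
    ← Measure.map_prod_map _ _ (measurable_rho u) (measurable_rho u), h]

theorem InvQ.quo {μ : Measure X} [IsFiniteMeasure μ] (h : InvQ μ) : InvQ (quo μ) :=
  fun z hz => quo_map_rho μ _ (h z hz)

theorem InvQ.measure_preimage {μ : Measure X} (h : InvQ μ) {z : GaussianInt} (hz : z ≠ 0)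
    {S : Set X} (hS : MeasurableSet S) : μ (rho (un z) ⁻¹' S) = μ S := by
  conv_rhs => rw [← h z hz]
  rw [Measure.map_apply (measurable_rho _) hS]

theorem InvK.measure_preimage {μ : Measure X} (h : InvK μ) {u : K} (hu : ‖(u : ℂ)‖ = 1)
    {S : Set X} (hS : MeasurableSet S) : μ (rho u ⁻¹' S) = μ S := by
  conv_rhs => rw [← h u hu]
  rw [Measure.map_apply (measurable_rho _) hS]

theorem InvK.invQ {μ : Measure X} (h : InvK μ) : InvQ μ := fun _ hz => h _ (norm_un hz)

end Pool.Agent.H56
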