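import Mathlib

/-!
# Definitions for the disproof of the polynomial bound for `L(r)`

`K` is the field of algebraic numbers in `ℂ`, `X = (K → Circle)` a compact metrizable space which
contains the dual group `Hm` of `K` as a closed subset.
-/

set_option autoImplicit false

open MeasureTheory Complex

namespace Pool.Agent.H56

/-- The field of complex algebraic numbers. -/
abbrev K : Type := ↥(algebraicClosure ℚ ℂ)

noncomputable instance : MeasurableSpace Circle := borel Circle
instance : BorelSpace Circle := ⟨rfl⟩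

/-- All maps from `K` to the circle; the characters of `K` are a closed subset `Hm`. -/
abbrev X : Type := K → Circle

/-- The set of characters of the additive group of `K`. -/
def Hm : Set X := {χ | ∀ v w : K, χ (v + w) = χ v * χ w}

/-- The action of `K` on `X` by multiplication in the variable. -/
noncomputable def rho (u : K) (χ : X) : X := fun v => χ (u * v)

/-- The evaluation at `v`, as a complex valued function on `X`. -/
def ev (v : K) (χ : X) : ℂ := (χ v : ℂ)

/-- `E t = exp(2 π i t)` as an element of the circle. -/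
noncomputable def E (t : ℝ) : Circle := Circle.exp (2 * Real.pi * t)

/-- The number `i` as an element of `K`. -/
noncomputable def iK : K := ⟨Complex.I, by
  have h : IsIntegral ℚ Complex.I := Complex.isIntegral_rat_I
  exact (mem_algebraicClosure_iff).2 h.isAlgebraic⟩

theorem coe_iK : ((iK : K) : ℂ) = Complex.I := rfl

theorem iK_mul_iK : iK * iK = ((-1 : ℤ) : K) := by
  apply Subtype.ext
  simp [coe_iK]

/-- The embedding of the Gaussian integers into `K`. -/
noncomputable def c : GaussianInt →+* K := Zsqrtd.lift ⟨iK, iK_mul_iK⟩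

theorem c_apply (z : GaussianInt) : c z = (z.re : K) + (z.im : K) * iK := by
  simp [c]

theorem coe_c (z : GaussianInt) : ((c z : K) : ℂ) = GaussianInt.toComplex z := by
  rw [c_apply, GaussianInt.toComplex_def]
  simp [coe_iK]

/-- The Gaussian prime `2 + i`. -/
def gpi : GaussianInt := ⟨2, 1⟩

/-- The norm one element `z / zbar`. -/
noncomputable def un (z : GaussianInt) : K := c z / c (star z)

/-- Invariance under the rational rotations. -/
def InvQ (μ : Measure X) : Prop := ∀ z : GaussianInt, z ≠ 0 → μ.map (rho (un z)) = μ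

/-- Invariance under all algebraic rotations. -/
def InvK (μ : Measure X) : Prop := ∀ u : K, ‖(u : ℂ)‖ = 1 → μ.map (rho u) = μ

/-- `χ` is given by the real character with frequency `ξ` on the set `S`. -/
def RealOn (χ : X) (ξ : ℂ) (S : Set K) : Prop := ∀ v ∈ S, χ v = E ((ξ * (v : ℂ)).re)

/-- The lattice `b ℤ[i]`. -/
def lat (b : K) : Set K := {v | ∃ z : GaussianInt, v = b * c z}

/-- The module `b ℤ[i][1/5]`. -/
def latInf (b : K) : Set K := {v | ∃ (z : GaussianInt) (k : ℕ), v = b * c z / 5 ^ k}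

/-- The field `ℚ(i)`. -/
def Qi : Set K := {v | ∃ (z : GaussianInt) (n : ℕ), 0 < n ∧ v = c z / n}

theorem gpi_dvd_iff (z : GaussianInt) : gpi ∣ z ↔ (5 : ℤ) ∣ z.re - 2 * z.im := by
  constructor
  · rintro ⟨w, rfl⟩
    refine ⟨-w.im, ?_⟩
    simp [gpi, Zsqrtd.re_mul, Zsqrtd.im_mul]
    ring
  · rintro ⟨k, hk⟩
    refine ⟨⟨2 * k + z.im, -k⟩, ?_⟩
    apply Zsqrtd.ext
    · simp [gpi, Zsqrtd.re_mul]
      linarith
    · simp [gpi, Zsqrtd.im_mul]

theorem not_gpi_dvd_one : ¬ gpi ∣ 1 := by
  rw [gpi_dvd_iff]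
  norm_num

theorem gpi_prime_aux (x y : GaussianInt) (h : gpi ∣ x * y) : gpi ∣ x ∨ gpi ∣ y := by
  rw [gpi_dvd_iff] at h
  rw [gpi_dvd_iff x, gpi_dvd_iff y]
  have h5 : Prime (5 : ℤ) := Int.prime_iff_natAbs_prime.2 (by norm_num)
  apply h5.dvd_or_dvd
  have h2 : (x.re - 2 * x.im) * (y.re - 2 * y.im) =
      (x * y).re - 2 * (x * y).im + 5 * (x.im * y.im) := by
    simp [Zsqrtd.re_mul, Zsqrtd.im_mul]
    ring
  rw [h2]
  exact dvd_add h (dvd_mul_right _ _)

/-- The localisation of `ℤ[i]` at `2 + i`, multiplied by `(2 + i) ^ k`. -/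
noncomputable def Qpi (k : ℤ) : AddSubgroup K where
  carrier := {v | ∃ a s : GaussianInt, ¬ gpi ∣ s ∧ v = c gpi ^ k * c a / c s}
  zero_mem' := ⟨0, 1, not_gpi_dvd_one, by simp⟩
  add_mem' := by
    rintro x y ⟨a, s, hs, rfl⟩ ⟨b, t, ht, rfl⟩
    refine ⟨a * t + b * s, s * t, fun h => (gpi_prime_aux _ _ h).elim hs ht, ?_⟩
    have hs0 : c s ≠ 0 := by
      intro h0
      apply hs
      have h1 : GaussianInt.toComplex s = 0 := by
        rw [← coe_c, h0]
        simp
      rw [GaussianInt.toComplex_eq_zero.1 h1]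
      exact dvd_zero _
    have ht0 : c t ≠ 0 := by
      intro h0
      apply ht
      have h1 : GaussianInt.toComplex t = 0 := by
        rw [← coe_c, h0]
        simp
      rw [GaussianInt.toComplex_eq_zero.1 h1]
      exact dvd_zero _
    simp only [map_add, map_mul]
    field_simp
  neg_mem' := by
    rintro x ⟨a, s, hs, rfl⟩
    exact ⟨-a, s, hs, by simp [neg_div]⟩

/-- The sigma algebra on `X` generated by the coordinates in `S`. -/
@[reducible] noncomputable def mS (S : Set K) : MeasurableSpace X :=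
  ⨆ v ∈ S, MeasurableSpace.comap (fun χ : X => χ v) inferInstance

/-- The function `conj(e_v) E[e_v | coordinates in π^k Q₀]`. -/
noncomputable def Gk (μ : Measure X) (k : ℤ) (v : K) (χ : X) : ℂ :=
  (starRingEnd ℂ) (ev v χ) * (μ[ev v | mS (Qpi k : Set K)]) χ

/-- The conditional probability of `χ` on `π^(k-1) Q₀` given `χ` on `π^k Q₀`. -/
noncomputable def pk (μ : Measure X) (k : ℤ) (χ : X) : ℂ :=
  (1 / 5) * ∑ j ∈ Finset.range 5, Gk μ k ((j : K) * c gpi ^ (k - 1)) χ

/-- The element with `π`-adic digits `d i` at the places `k - 1 - i`. -/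
noncomputable def digit (k : ℤ) {m : ℕ} (d : Fin m → Fin 5) : K :=
  ∑ i : Fin m, ((d i : ℕ) : K) * c gpi ^ (k - 1 - (i : ℕ))

/-- Characters which are real with frequency at most `R` on `b ℤ[i]`. -/
def EE (R : ℝ) (b : K) : Set X := {χ | χ ∈ Hm ∧ ∃ ξ : ℂ, ‖ξ‖ ≤ R ∧ RealOn χ ξ (lat b)}

/-- Characters which are real on `b ℤ[i][1/5]`. -/
def Einf (b : K) : Set X := {χ | χ ∈ Hm ∧ ∃ ξ : ℂ, RealOn χ ξ (latInf b)}

/-- Characters which are real on `N ℤ[i][1/5]` for some `N ≥ 1`. -/
def Str : Set X := {χ | ∃ N : ℕ, 0 < N ∧ χ ∈ Einf (N : K)}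

/-- Characters which are real on `ℚ(i)`. -/
def RealQ : Set X := {χ | χ ∈ Hm ∧ ∃ ξ : ℂ, RealOn χ ξ Qi}

/-- The law of the quotient of two independent points. -/
noncomputable def quo (μ : Measure X) : Measure X := (μ.prod μ).map (fun p : X × X => p.1 / p.2)

end Pool.Agent.H56
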