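import Mathlib
set_option autoImplicit false
namespace Pool.Agent.H56

open Filter Topology

/-- Averages of cosines. -/
theorem modColor_avg (t : ℝ) (ht : ∀ k : ℤ, t ≠ k) :
    Tendsto (fun M : ℕ => (∑ m ∈ Finset.range M, Real.cos (2 * Real.pi * (m * t))) / M) atTop
      (𝓝 0) := by
  set z : ℂ := Complex.exp ((2 * Real.pi * t : ℝ) * Complex.I) with hz
  have hz1 : z ≠ 1 := by
    intro h
    rw [hz, Complex.exp_eq_one_iff] at h
    obtain ⟨k, hk⟩ := h
    apply ht k
    have h1 : ((2 * Real.pi * t : ℝ) : ℂ) = ((2 * Real.pi * k : ℝ) : ℂ) := by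
      have h2 : ((2 * Real.pi * t : ℝ) : ℂ) * Complex.I = ((2 * Real.pi * k : ℝ) : ℂ) * Complex.I := by
        rw [hk]
        push_cast
        ring
      exact mul_right_cancel₀ Complex.I_ne_zero h2
    have h3 : 2 * Real.pi * t = 2 * Real.pi * k := by exact_mod_cast h1
    have := Real.pi_pos
    exact mul_left_cancel₀ (by positivity) h3
  have hnz : ‖z‖ = 1 := by
    rw [hz]
    exact Complex.norm_exp_ofReal_mul_I _
  have hsum : ∀ M : ℕ, ∑ m ∈ Finset.range M, Real.cos (2 * Real.pi * (m * t)) =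
      ((z ^ M - 1) / (z - 1)).re := by
    intro M
    rw [← geom_sum_eq hz1, Complex.re_sum]
    refine Finset.sum_congr rfl fun m _ => ?_
    rw [hz, ← Complex.exp_nat_mul]
    have : (m : ℂ) * (((2 * Real.pi * t : ℝ) : ℂ) * Complex.I) =
        ((2 * Real.pi * (m * t) : ℝ) : ℂ) * Complex.I := by
      push_cast
      ring
    rw [this, Complex.exp_ofReal_mul_I_re]
  have hpos : 0 < ‖z - 1‖ := norm_pos_iff.2 (sub_ne_zero.2 hz1)
  have hbound : ∀ M : ℕ, |(∑ m ∈ Finset.range M, Real.cos (2 * Real.pi * (m * t))) / M| ≤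
      (2 / ‖z - 1‖) / M := by
    intro M
    rw [abs_div, Nat.abs_cast]
    refine div_le_div_of_nonneg_right ?_ (Nat.cast_nonneg M)
    rw [hsum]
    refine (Complex.abs_re_le_norm _).trans ?_
    rw [norm_div]
    refine div_le_div_of_nonneg_right ?_ hpos.le
    calc ‖z ^ M - 1‖ ≤ ‖z ^ M‖ + ‖(1 : ℂ)‖ := norm_sub_le _ _
      _ = 2 := by rw [norm_pow, hnz]; norm_num
  refine squeeze_zero_norm (a := fun M : ℕ => (2 / ‖z - 1‖) / M) ?_ ?_
  · intro M
    rw [Real.norm_eq_abs]
    exact hbound M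
  · exact tendsto_const_div_atTop_nhds_zero_nat _

/-- A frequency separating finitely many nonzero numbers from the integers. -/
theorem modColor_freq (S : Finset ℂ) : ∃ ζ : ℂ, ∀ w ∈ S, w ≠ 0 → ∀ k : ℤ, (ζ * w).re ≠ k := by
  classical
  obtain ⟨t, ht⟩ : ∃ t : ℝ, t ∉ S.image fun w => w.re / w.im := Infinite.exists_notMem_finset _
  have h1 : ∀ w ∈ S, w ≠ 0 → w.re - t * w.im ≠ 0 := by
    intro w hw hne h0
    by_cases him : w.im = 0
    · apply hne
      rw [him] at h0
      apply Complex.ext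
      · simpa using h0
      · simpa using him
    · apply ht
      rw [Finset.mem_image]
      refine ⟨w, hw, ?_⟩
      rw [div_eq_iff him]
      linarith
  obtain ⟨C, hC0, hC⟩ : ∃ C : ℝ, 0 < C ∧ ∀ w ∈ S, |w.re - t * w.im| < C := by
    refine ⟨∑ w ∈ S, |w.re - t * w.im| + 1, by positivity, ?_⟩
    intro w hw
    have := Finset.single_le_sum (f := fun w : ℂ => |w.re - t * w.im|) (fun w _ => abs_nonneg _) hw
    linarith
  refine ⟨((1 / C : ℝ) : ℂ) * (1 + t * Complex.I), ?_⟩
  intro w hw hne k hk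
  have h2 : (((1 / C : ℝ) : ℂ) * (1 + t * Complex.I) * w).re = (w.re - t * w.im) / C := by
    simp [Complex.mul_re, Complex.mul_im]
    ring
  rw [h2] at hk
  have h3 : |(w.re - t * w.im) / C| < 1 := by
    rw [abs_div, abs_of_pos hC0, div_lt_one hC0]
    exact hC w hw
  have h4 : (w.re - t * w.im) / C ≠ 0 := div_ne_zero (h1 w hw hne) hC0.ne'
  rw [hk] at h3 h4
  have h5 : |k| < 1 := by exact_mod_cast h3
  have h6 : k = 0 := Int.abs_lt_one_iff.1 h5
  exact h4 (by simp [h6])

/-- The quadratic form is nonnegative. -/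
theorem modColor_quad {ι : Type} [Fintype ι] (v : ι → ℂ) (W : ι → ℝ)
    (δ : ℝ)
    (h : ∀ ξ : ℂ, -δ ≤ ∑ i, W i * Real.cos (2 * Real.pi * (ξ * v i).re))
    (P : Finset ℂ) (f : ℂ → ℝ) :
    0 ≤ δ * ∑ x ∈ P, f x ^ 2 +
      ∑ i, W i * ∑ x ∈ P, ∑ y ∈ P, if y = x + v i then f x * f y else 0 := by
  classical
  set S : Finset ℂ := (P ×ˢ P).image (fun p => p.1 - p.2) ∪
    Finset.univ.biUnion (fun i => (P ×ˢ P).image (fun p => p.1 - p.2 + v i) ∪
      (P ×ˢ P).image (fun p => p.1 - p.2 - v i)) with hS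
  obtain ⟨ζ, hζ⟩ := modColor_freq S
  -- the averages
  set av : ℕ → ℂ → ℝ := fun M w =>
    (∑ m ∈ Finset.range M, Real.cos (2 * Real.pi * (m * (ζ * w).re))) / M with hav
  have hlim : ∀ w ∈ S, Tendsto (fun M => av M w) atTop (𝓝 (if w = 0 then 1 else 0)) := by
    intro w hw
    split_ifs with h0
    · subst h0
      refine tendsto_const_nhds.congr' ?_
      filter_upwards [eventually_gt_atTop 0] with M hM
      have : (M : ℝ) ≠ 0 := by positivity
      simp [hav, this]
    · exact modColor_avg _ (hζ w hw h0)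
  have hnn : ∀ M : ℕ, 0 ≤ ∑ x ∈ P, ∑ y ∈ P, f x * f y * (δ * av M (x - y) +
      ∑ i, W i * ((av M (x - y + v i) + av M (x - y - v i)) / 2)) := by
    intro M
    have hm : ∀ m : ℕ, 0 ≤ ∑ x ∈ P, ∑ y ∈ P, f x * f y *
        (δ * Real.cos (2 * Real.pi * (m * (ζ * (x - y)).re)) +
        ∑ i, W i * ((Real.cos (2 * Real.pi * (m * (ζ * (x - y + v i)).re)) +
          Real.cos (2 * Real.pi * (m * (ζ * (x - y - v i)).re))) / 2)) := by
      intro m
      have h1 : ∑ x ∈ P, ∑ y ∈ P, f x * f y *
        (δ * Real.cos (2 * Real.pi * (m * (ζ * (x - y)).re)) +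
        ∑ i, W i * ((Real.cos (2 * Real.pi * (m * (ζ * (x - y + v i)).re)) +
          Real.cos (2 * Real.pi * (m * (ζ * (x - y - v i)).re))) / 2)) =
        ((∑ x ∈ P, f x * Real.cos (2 * Real.pi * (m * (ζ * x).re))) ^ 2 +
         (∑ x ∈ P, f x * Real.sin (2 * Real.pi * (m * (ζ * x).re))) ^ 2) *
        (δ + ∑ i, W i * Real.cos (2 * Real.pi * ((m : ℂ) * ζ * v i).re)) := by
        rw [sq, sq, Finset.sum_mul_sum, Finset.sum_mul_sum, ← Finset.sum_add_distrib,
          Finset.sum_mul]
        refine Finset.sum_congr rfl fun x _ => ?_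
        rw [← Finset.sum_add_distrib, Finset.sum_mul]
        refine Finset.sum_congr rfl fun y _ => ?_
        have e1 : Real.cos (2 * Real.pi * (m * (ζ * (x - y)).re)) =
            Real.cos (2 * Real.pi * (m * (ζ * x).re)) * Real.cos (2 * Real.pi * (m * (ζ * y).re)) +
            Real.sin (2 * Real.pi * (m * (ζ * x).re)) *
              Real.sin (2 * Real.pi * (m * (ζ * y).re)) := by
          rw [← Real.cos_sub]
          congr 1
          rw [mul_sub, Complex.sub_re]
          ring
        have e2 : ∀ i, (Real.cos (2 * Real.pi * (m * (ζ * (x - y + v i)).re)) +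
          Real.cos (2 * Real.pi * (m * (ζ * (x - y - v i)).re))) / 2 =
          Real.cos (2 * Real.pi * (m * (ζ * (x - y)).re)) *
            Real.cos (2 * Real.pi * ((m : ℂ) * ζ * v i).re) := by
          intro i
          have e3 : 2 * Real.pi * (m * (ζ * (x - y + v i)).re) =
              2 * Real.pi * (m * (ζ * (x - y)).re) + 2 * Real.pi * ((m : ℂ) * ζ * v i).re := by
            rw [mul_add, Complex.add_re, mul_assoc (m : ℂ)]
            have : ((m : ℂ) * (ζ * v i)).re = m * (ζ * v i).re := by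
              simp
            rw [this]
            ring
          have e4 : 2 * Real.pi * (m * (ζ * (x - y - v i)).re) =
              2 * Real.pi * (m * (ζ * (x - y)).re) - 2 * Real.pi * ((m : ℂ) * ζ * v i).re := by
            rw [mul_sub ζ (x - y), Complex.sub_re, mul_assoc (m : ℂ)]
            have : ((m : ℂ) * (ζ * v i)).re = m * (ζ * v i).re := by
              simp
            rw [this]
            ring
          rw [e3, e4, Real.cos_add, Real.cos_sub]
          ring
        simp only [e2]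
        have e5 : ∑ i, W i * (Real.cos (2 * Real.pi * (m * (ζ * (x - y)).re)) *
            Real.cos (2 * Real.pi * ((m : ℂ) * ζ * v i).re)) =
            Real.cos (2 * Real.pi * (m * (ζ * (x - y)).re)) *
              ∑ i, W i * Real.cos (2 * Real.pi * ((m : ℂ) * ζ * v i).re) := by
          rw [Finset.mul_sum]
          refine Finset.sum_congr rfl fun i _ => ?_
          ring
        rw [e5, e1]
        ring
      rw [h1]
      refine mul_nonneg (by positivity) ?_
      have := h ((m : ℂ) * ζ)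
      linarith
    have h2 : ∑ x ∈ P, ∑ y ∈ P, f x * f y * (δ * av M (x - y) +
        ∑ i, W i * ((av M (x - y + v i) + av M (x - y - v i)) / 2)) =
        (∑ m ∈ Finset.range M, ∑ x ∈ P, ∑ y ∈ P, f x * f y *
        (δ * Real.cos (2 * Real.pi * (m * (ζ * (x - y)).re)) +
        ∑ i, W i * ((Real.cos (2 * Real.pi * (m * (ζ * (x - y + v i)).re)) +
          Real.cos (2 * Real.pi * (m * (ζ * (x - y - v i)).re))) / 2))) / M := by
      rw [Finset.sum_comm (s := Finset.range M), Finset.sum_div]
      refine Finset.sum_congr rfl fun x _ => ?_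
      rw [Finset.sum_comm (s := Finset.range M), Finset.sum_div]
      refine Finset.sum_congr rfl fun y _ => ?_
      rw [← Finset.mul_sum, mul_div_assoc]
      congr 1
      rw [Finset.sum_add_distrib, ← Finset.mul_sum, Finset.sum_comm (s := Finset.range M), add_div,
        mul_div_assoc]
      congr 1
      rw [Finset.sum_div]
      refine Finset.sum_congr rfl fun i _ => ?_
      rw [← Finset.mul_sum, mul_div_assoc]
      congr 1
      rw [← Finset.sum_div, Finset.sum_add_distrib]
      simp only [hav]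
      ring
    rw [h2]
    exact div_nonneg (Finset.sum_nonneg fun m _ => hm m) (Nat.cast_nonneg M)
  -- the limit
  have hmem1 : ∀ x ∈ P, ∀ y ∈ P, x - y ∈ S := by
    intro x hx y hy
    rw [hS, Finset.mem_union]
    left
    exact Finset.mem_image.2 ⟨(x, y), Finset.mem_product.2 ⟨hx, hy⟩, rfl⟩
  have hmem2 : ∀ x ∈ P, ∀ y ∈ P, ∀ i, x - y + v i ∈ S := by
    intro x hx y hy i
    rw [hS, Finset.mem_union]
    right
    rw [Finset.mem_biUnion]
    refine ⟨i, Finset.mem_univ _, ?_⟩
    rw [Finset.mem_union]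
    left
    exact Finset.mem_image.2 ⟨(x, y), Finset.mem_product.2 ⟨hx, hy⟩, rfl⟩
  have hmem3 : ∀ x ∈ P, ∀ y ∈ P, ∀ i, x - y - v i ∈ S := by
    intro x hx y hy i
    rw [hS, Finset.mem_union]
    right
    rw [Finset.mem_biUnion]
    refine ⟨i, Finset.mem_univ _, ?_⟩
    rw [Finset.mem_union]
    right
    exact Finset.mem_image.2 ⟨(x, y), Finset.mem_product.2 ⟨hx, hy⟩, rfl⟩
  have hT : Tendsto (fun M => ∑ x ∈ P, ∑ y ∈ P, f x * f y * (δ * av M (x - y) +
      ∑ i, W i * ((av M (x - y + v i) + av M (x - y - v i)) / 2))) atTop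
      (𝓝 (∑ x ∈ P, ∑ y ∈ P, f x * f y * (δ * (if x - y = 0 then 1 else 0) +
        ∑ i, W i * (((if x - y + v i = 0 then 1 else 0) +
          (if x - y - v i = 0 then 1 else 0)) / 2)))) := by
    refine tendsto_finsetSum _ fun x hx => tendsto_finsetSum _ fun y hy => ?_
    refine Tendsto.const_mul _ (Tendsto.add (Tendsto.const_mul _ (hlim _ (hmem1 x hx y hy))) ?_)
    refine tendsto_finsetSum _ fun i _ => Tendsto.const_mul _ (Tendsto.div_const ?_ _)
    exact (hlim _ (hmem2 x hx y hy i)).add (hlim _ (hmem3 x hx y hy i))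
  have hge := ge_of_tendsto' hT hnn
  refine hge.trans (le_of_eq ?_)
  -- algebra
  have a1 : ∀ x ∈ P, ∀ y ∈ P, f x * f y * (δ * (if x - y = 0 then 1 else 0) +
        ∑ i, W i * (((if x - y + v i = 0 then (1 : ℝ) else 0) +
          (if x - y - v i = 0 then 1 else 0)) / 2)) =
      δ * (if y = x then f x * f y else 0) + ((∑ i, W i / 2 * (if y = x + v i then f x * f y else 0))
        + ∑ i, W i / 2 * (if x = y + v i then f y * f x else 0)) := by
    intro x _ y _
    have b1 : (x - y = 0) ↔ (y = x) := by rw [sub_eq_zero]; exact eq_comm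
    have b2 : ∀ i, (x - y + v i = 0) ↔ (y = x + v i) := by
      intro i
      constructor
      · intro h; linear_combination -h
      · intro h; linear_combination -h
    have b3 : ∀ i, (x - y - v i = 0) ↔ (x = y + v i) := by
      intro i
      constructor
      · intro h; linear_combination h
      · intro h; linear_combination h
    simp only [b1, b2, b3]
    rw [mul_add, ← Finset.sum_add_distrib, Finset.mul_sum]
    congr 1
    · split_ifs <;> ring
    · refine Finset.sum_congr rfl fun i _ => ?_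
      split_ifs <;> ring
  rw [Finset.sum_congr rfl fun x hx => Finset.sum_congr rfl fun y hy => a1 x hx y hy]
  simp only [Finset.sum_add_distrib]
  have c1 : ∑ x ∈ P, ∑ y ∈ P, δ * (if y = x then f x * f y else 0) = δ * ∑ x ∈ P, f x ^ 2 := by
    rw [Finset.mul_sum]
    refine Finset.sum_congr rfl fun x hx => ?_
    rw [← Finset.mul_sum, Finset.sum_ite_eq' P x, if_pos hx]
    ring
  have c2 : ∀ G : ι → ℂ → ℂ → ℝ, ∑ x ∈ P, ∑ y ∈ P, ∑ i, W i / 2 * G i x y =
      ∑ i, W i / 2 * ∑ x ∈ P, ∑ y ∈ P, G i x y := by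
    intro G
    have : ∀ x ∈ P, ∑ y ∈ P, ∑ i, W i / 2 * G i x y = ∑ i, ∑ y ∈ P, W i / 2 * G i x y :=
      fun x _ => Finset.sum_comm
    rw [Finset.sum_congr rfl this, Finset.sum_comm]
    simp only [Finset.mul_sum]
  rw [c1, c2, c2, ← Finset.sum_add_distrib]
  congr 1
  refine Finset.sum_congr rfl fun i _ => ?_
  have c3 : ∑ x ∈ P, ∑ y ∈ P, (if x = y + v i then f y * f x else 0) =
      ∑ x ∈ P, ∑ y ∈ P, if y = x + v i then f x * f y else 0 := Finset.sum_comm
  rw [c3]
  ring

/-- Boxes. -/
noncomputable def modColorBox {ι : Type} [Fintype ι] [DecidableEq ι] (v : ι → ℂ) (N : ℕ) :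
    Finset ℂ :=
  (Fintype.piFinset fun _ : ι => Finset.range N).image fun k => ∑ i, (k i : ℂ) * v i

theorem modColor_folner {ι : Type} [Fintype ι] [DecidableEq ι] (v : ι → ℂ) (ε : ℝ) (hε : 0 < ε) :
    ∃ N : ℕ, 0 < N ∧ ((modColorBox v (N + 1)).card : ℝ) ≤ (1 + ε) * (modColorBox v N).card := by
  by_contra hcon
  push Not at hcon
  have hgrow : ∀ N : ℕ, (1 + ε) ^ N ≤ (modColorBox v (N + 1)).card := by
    intro N
    induction N with
    | zero =>
      have : modColorBox v 1 = {0} := by
        unfold modColorBox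
        ext z
        simp only [Finset.mem_image, Fintype.mem_piFinset, Finset.mem_range, Finset.mem_singleton]
        constructor
        · rintro ⟨k, hk, rfl⟩
          refine Finset.sum_eq_zero fun i _ => ?_
          have := hk i
          have h0 : k i = 0 := by omega
          simp [h0]
        · rintro rfl
          exact ⟨fun _ => 0, fun _ => by norm_num, by simp⟩
      simp [this]
    | succ N ih =>
      have h1 := hcon (N + 1) (by omega)
      calc (1 + ε) ^ (N + 1) = (1 + ε) * (1 + ε) ^ N := by ring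
        _ ≤ (1 + ε) * (modColorBox v (N + 1)).card := by gcongr
        _ ≤ (modColorBox v (N + 1 + 1)).card := h1.le
  have hpoly : ∀ N : ℕ, ((modColorBox v N).card : ℝ) ≤ (N : ℝ) ^ Fintype.card ι := by
    intro N
    have h1 : (modColorBox v N).card ≤ N ^ Fintype.card ι := by
      refine Finset.card_image_le.trans ?_
      simp
    exact_mod_cast h1
  have hlim := tendsto_pow_const_div_const_pow_of_one_lt (Fintype.card ι) (r := 1 + ε) (by linarith)
  have h2 : ∀ᶠ N : ℕ in atTop, (N : ℝ) ^ Fintype.card ι / (1 + ε) ^ N < 1 / (1 + ε) :=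
    hlim.eventually_lt_const (by positivity)
  obtain ⟨N, hN, hN1⟩ := (h2.and (eventually_gt_atTop 0)).exists
  obtain ⟨N, rfl⟩ : ∃ M, N = M + 1 := ⟨N - 1, by omega⟩
  have h3 := (hgrow N).trans (hpoly (N + 1))
  rw [div_lt_div_iff₀ (by positivity) (by positivity)] at hN
  have h4 : (1 + ε) ^ (N + 1) = (1 + ε) ^ N * (1 + ε) := pow_succ _ _
  rw [one_mul, h4] at hN
  have h5 : (0 : ℝ) < 1 + ε := by positivity
  have := lt_of_mul_lt_mul_right hN h5.le
  linarith

theorem modColor_box_add {ι : Type} [Fintype ι] [DecidableEq ι] (v : ι → ℂ) (N : ℕ) (i : ι) (x : ℂ)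
    (hx : x ∈ modColorBox v N) : x + v i ∈ modColorBox v (N + 1) := by
  unfold modColorBox at *
  simp only [Finset.mem_image, Fintype.mem_piFinset, Finset.mem_range] at *
  obtain ⟨k, hk, rfl⟩ := hx
  refine ⟨Function.update k i (k i + 1), ?_, ?_⟩
  · intro j
    by_cases hj : j = i
    · subst hj
      rw [Function.update_self]
      have := hk j
      omega
    · rw [Function.update_of_ne hj]
      have := hk j
      omega
  · rw [← Finset.add_sum_erase _ _ (Finset.mem_univ i),
      ← Finset.add_sum_erase Finset.univ (fun i => (k i : ℂ) * v i) (Finset.mem_univ i)]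
    rw [Function.update_self]
    have : ∑ j ∈ Finset.univ.erase i, ((Function.update k i (k i + 1) j : ℕ) : ℂ) * v j =
        ∑ j ∈ Finset.univ.erase i, (k j : ℂ) * v j := by
      refine Finset.sum_congr rfl fun j hj => ?_
      rw [Function.update_of_ne (Finset.ne_of_mem_erase hj)]
    rw [this]
    push_cast
    ring

theorem modColor_box_mono {ι : Type} [Fintype ι] [DecidableEq ι] (v : ι → ℂ) (N : ℕ) :
    modColorBox v N ⊆ modColorBox v (N + 1) := by
  unfold modColorBox
  refine Finset.image_subset_image ?_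
  intro k hk
  rw [Fintype.mem_piFinset] at *
  intro i
  have := hk i
  rw [Finset.mem_range] at *
  omega

/-- No proper colouring of the translation graph of a large box. -/
theorem modColor_core {ι : Type} [Fintype ι] (v : ι → ℂ) (W : ι → ℝ) (hW : ∀ i, 0 ≤ W i)
    (hW1 : ∑ i, W i = 1) (δ : ℝ) (hδ : 0 < δ)
    (h : ∀ ξ : ℂ, -δ ≤ ∑ i, W i * Real.cos (2 * Real.pi * (ξ * v i).re))
    (n : ℕ) (hn : n * δ < 1) :
    ∃ P : Finset ℂ, ∀ col : ℂ → Fin n, ∃ i, ∃ x ∈ P, x + v i ∈ P ∧ col x = col (x + v i) := by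
  classical
  obtain ⟨N, hN, hcard⟩ := modColor_folner v δ hδ
  refine ⟨modColorBox v (N + 1), ?_⟩
  intro col
  by_contra hcon
  push Not at hcon
  set P := modColorBox v (N + 1) with hP
  have hn1 : 1 ≤ n := by
    have := (col 0).2
    omega
  have hn0 : (0 : ℝ) < n := by exact_mod_cast hn1
  -- the quadratic forms
  have hq : ∀ j : Fin n, 0 ≤ δ * ∑ x ∈ P, ((if col x = j then (1 : ℝ) else 0) - 1 / n) ^ 2 +
      ∑ i, W i * ∑ x ∈ P, ∑ y ∈ P, if y = x + v i then
        ((if col x = j then (1 : ℝ) else 0) - 1 / n) * ((if col y = j then (1 : ℝ) else 0) - 1 / n)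
        else 0 := fun j => modColor_quad v W δ h P _
  have hsum := Finset.sum_nonneg fun j (_ : j ∈ (Finset.univ : Finset (Fin n))) => hq j
  rw [Finset.sum_add_distrib, ← Finset.mul_sum] at hsum
  have hcs : ∀ x y : ℂ, ∑ j : Fin n, ((if col x = j then (1 : ℝ) else 0) - 1 / n) *
      ((if col y = j then (1 : ℝ) else 0) - 1 / n) = (if col x = col y then 1 else 0) - 1 / n := by
    intro x y
    have e1 : ∀ j : Fin n, ((if col x = j then (1 : ℝ) else 0) - 1 / n) *
      ((if col y = j then (1 : ℝ) else 0) - 1 / n) =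
      (if col x = j then (if col y = j then 1 else 0) else 0) - (if col x = j then 1 else 0) * (1 / n)
        - (if col y = j then 1 else 0) * (1 / n) + (1 / n) * (1 / n) := by
      intro j
      split_ifs <;> ring
    simp only [e1, Finset.sum_add_distrib, Finset.sum_sub_distrib, ← Finset.sum_mul]
    simp only [Finset.sum_ite_eq, Finset.mem_univ, if_true, Finset.sum_const, Finset.card_univ,
      Fintype.card_fin, nsmul_eq_mul]
    have e2 : (col y = col x) ↔ (col x = col y) := eq_comm
    simp only [e2]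
    field_simp
    ring
  have h1 : ∑ j : Fin n, ∑ x ∈ P, ((if col x = j then (1 : ℝ) else 0) - 1 / n) ^ 2 =
      (P.card : ℝ) * (1 - 1 / n) := by
    rw [Finset.sum_comm]
    have : ∀ x ∈ P, ∑ j : Fin n, ((if col x = j then (1 : ℝ) else 0) - 1 / n) ^ 2 =
        (1 : ℝ) - 1 / n := by
      intro x _
      have := hcs x x
      simp only [sq]
      rw [this]
      simp
    rw [Finset.sum_congr rfl this, Finset.sum_const, nsmul_eq_mul]
  have h2 : ∀ i, ∑ j : Fin n, W i * ∑ x ∈ P, ∑ y ∈ P, (if y = x + v i then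
        ((if col x = j then (1 : ℝ) else 0) - 1 / n) * ((if col y = j then (1 : ℝ) else 0) - 1 / n)
        else 0) ≤ W i * (-(1 / n) * (modColorBox v N).card) := by
    intro i
    rw [← Finset.mul_sum]
    refine mul_le_mul_of_nonneg_left ?_ (hW i)
    rw [Finset.sum_comm]
    have e1 : ∀ x ∈ P, ∑ j : Fin n, ∑ y ∈ P, (if y = x + v i then
        ((if col x = j then (1 : ℝ) else 0) - 1 / n) * ((if col y = j then (1 : ℝ) else 0) - 1 / n)
        else 0) = if x + v i ∈ P then -(1 / n : ℝ) else 0 := by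
      intro x hx
      have e2 : ∀ j : Fin n, ∑ y ∈ P, (if y = x + v i then
        ((if col x = j then (1 : ℝ) else 0) - 1 / n) * ((if col y = j then (1 : ℝ) else 0) - 1 / n)
        else 0) = if x + v i ∈ P then ((if col x = j then (1 : ℝ) else 0) - 1 / n) *
          ((if col (x + v i) = j then (1 : ℝ) else 0) - 1 / n) else 0 := by
        intro j
        rw [Finset.sum_ite_eq' P (x + v i)]
      simp only [e2]
      split_ifs with hxv
      · rw [hcs, if_neg (hcon i x hx hxv)]
        ring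
      · simp
    rw [Finset.sum_congr rfl e1, ← Finset.sum_filter, Finset.sum_const, nsmul_eq_mul]
    have e3 : (modColorBox v N).card ≤ (P.filter fun x => x + v i ∈ P).card := by
      refine Finset.card_le_card ?_
      intro x hx
      rw [Finset.mem_filter]
      exact ⟨modColor_box_mono v N hx, modColor_box_add v N i x hx⟩
    have e4 : ((modColorBox v N).card : ℝ) ≤ (P.filter fun x => x + v i ∈ P).card := by
      exact_mod_cast e3
    have e5 : (0 : ℝ) < 1 / n := by positivity
    nlinarith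
  have h3 : ∑ j : Fin n, ∑ i, W i * ∑ x ∈ P, ∑ y ∈ P, (if y = x + v i then
        ((if col x = j then (1 : ℝ) else 0) - 1 / n) * ((if col y = j then (1 : ℝ) else 0) - 1 / n)
        else 0) ≤ -(1 / n) * (modColorBox v N).card := by
    rw [Finset.sum_comm]
    refine (Finset.sum_le_sum fun i _ => h2 i).trans ?_
    rw [← Finset.sum_mul, hW1, one_mul]
  rw [h1] at hsum
  have h4 : 0 ≤ δ * (P.card * (1 - 1 / n)) + -(1 / n) * ((modColorBox v N).card : ℝ) := by
    linarith
  have h5 : (0 : ℝ) < (modColorBox v N).card := by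
    have : (0 : ℂ) ∈ modColorBox v N := by
      unfold modColorBox
      simp only [Finset.mem_image, Fintype.mem_piFinset, Finset.mem_range]
      exact ⟨fun _ => 0, fun _ => hN, by simp⟩
    exact_mod_cast Finset.card_pos.2 ⟨0, this⟩
  have h6 : ((modColorBox v N).card : ℝ) ≤ δ * ((n - 1) * P.card) := by
    have e1 : (n : ℝ) * (δ * (P.card * (1 - 1 / n)) + -(1 / n) * ((modColorBox v N).card : ℝ)) =
        δ * ((n - 1) * P.card) - (modColorBox v N).card := by
      field_simp
      ring
    have e2 := mul_nonneg hn0.le h4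
    rw [e1] at e2
    linarith
  have h7 : δ * ((n - 1) * (P.card : ℝ)) ≤
      δ * ((n - 1) * ((1 + δ) * (modColorBox v N).card)) := by
    have : (0 : ℝ) ≤ n - 1 := by
      have : (1 : ℝ) ≤ n := by exact_mod_cast hn1
      linarith
    gcongr
  have h8 : δ * ((n - 1) * ((1 + δ) * ((modColorBox v N).card : ℝ))) <
      (modColorBox v N).card := by
    have e1 : δ * ((n - 1) * (1 + δ)) < 1 := by
      have : (1 : ℝ) ≤ n := by exact_mod_cast hn1
      nlinarith
    calc δ * ((n - 1) * ((1 + δ) * ((modColorBox v N).card : ℝ)))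
        = (δ * ((n - 1) * (1 + δ))) * (modColorBox v N).card := by ring
      _ < 1 * (modColorBox v N).card := by gcongr
      _ = _ := one_mul _
  linarith

theorem not_colorable {ι : Type} [Fintype ι] (v : ι → ℂ) (W : ι → ℝ) (hW : ∀ i, 0 ≤ W i)
    (hW1 : ∑ i, W i = 1) (A : Finset ℝ) (hA : ∀ a ∈ A, 0 < a) (hv : ∀ i, ‖v i‖ ∈ A)
    (δ : ℝ) (hδ : 0 < δ)
    (h : ∀ ξ : ℂ, -δ ≤ ∑ i, W i * Real.cos (2 * Real.pi * (ξ * v i).re))
    (n : ℕ) (hn : n * δ < 1) :
    ∃ P : Finset (EuclideanSpace ℝ (Fin 2)),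
      ¬ (SimpleGraph.fromRel (fun x y : ↥P =>
        dist (x : EuclideanSpace ℝ (Fin 2)) (y : EuclideanSpace ℝ (Fin 2)) ∈ A)).Colorable n := by
  classical
  rcases Nat.eq_zero_or_pos n with rfl | hn0
  · refine ⟨{0}, ?_⟩
    intro hc
    obtain ⟨C⟩ := hc
    exact (C ⟨0, by simp⟩).elim0
  obtain ⟨P, hP⟩ := modColor_core v W hW hW1 δ hδ h n hn
  set e := Complex.orthonormalBasisOneI.repr with he
  refine ⟨P.image e, ?_⟩
  rintro ⟨C⟩
  obtain ⟨i, x, hx, hxv, hcol⟩ := hP fun x =>
    if hx : e x ∈ P.image e then C ⟨e x, hx⟩ else ⟨0, hn0⟩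
  have h1 : e x ∈ P.image e := Finset.mem_image_of_mem _ hx
  have h2 : e (x + v i) ∈ P.image e := Finset.mem_image_of_mem _ hxv
  simp only [dif_pos h1, dif_pos h2] at hcol
  have hpos := hA _ (hv i)
  have hdist : dist (e x) (e (x + v i)) = ‖v i‖ := by
    rw [e.dist_map, dist_eq_norm]
    simp
  have hadj : (SimpleGraph.fromRel (fun x y : ↥(P.image e) =>
        dist (x : EuclideanSpace ℝ (Fin 2)) (y : EuclideanSpace ℝ (Fin 2)) ∈ A)).Adj
        ⟨e x, h1⟩ ⟨e (x + v i), h2⟩ := by
    rw [SimpleGraph.fromRel_adj]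
    refine ⟨?_, Or.inl ?_⟩
    · intro heq
      have h3 : e x = e (x + v i) := congrArg Subtype.val heq
      rw [← h3, dist_self] at hdist
      linarith
    · simp only [hdist]
      exact hv i
  exact C.valid hadj hcol

end Pool.Agent.H56
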