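import Pool.Agent.H56.Basic
set_option autoImplicit false
open MeasureTheory Complex Filter Topology
namespace Pool.Agent.H56

/-- average of Dirac masses -/
noncomputable def limit_avg {ι : Type} [Fintype ι] (y : ι → X) : Measure X :=
  (Fintype.card ι : ENNReal)⁻¹ • ∑ i, Measure.dirac (y i)

theorem limit_avg_prob {ι : Type} [Fintype ι] [Nonempty ι] (y : ι → X) :
    IsProbabilityMeasure (limit_avg y) := by
  constructor
  unfold limit_avg
  rw [Measure.smul_apply, Measure.finsetSum_apply]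
  simp only [measure_univ, Finset.sum_const, Finset.card_univ, nsmul_eq_mul, mul_one, smul_eq_mul]
  exact ENNReal.inv_mul_cancel (by simp) (by simp)

theorem limit_integral_avg {ι : Type} [Fintype ι] [Nonempty ι] (y : ι → X) (f : X → ℝ) :
    ∫ χ, f χ ∂(limit_avg y) = (∑ i, f (y i)) / Fintype.card ι := by
  unfold limit_avg
  rw [integral_smul_measure, integral_finsetSum_measure]
  · simp only [ENNReal.toReal_inv, ENNReal.toReal_natCast, smul_eq_mul]
    rw [inv_mul_eq_div]
    congr 1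
    apply Finset.sum_congr rfl
    intro i _
    rw [integral_dirac]
  · intro i _
    exact integrable_dirac enorm_lt_top

theorem limit_rho_realChar (u : K) (ξ : ℂ) : rho u (realChar ξ) = realChar (ξ * (u : ℂ)) := by
  funext v
  simp only [rho_apply, realChar]
  congr 2
  push_cast
  ring

/-- the product of powers -/
noncomputable def limit_F (g : ℕ → K) (m : ℕ) (k : Fin (m + 1) → Fin (m + 2)) : K :=
  ∏ i : Fin (m + 1), g i ^ (k i : ℕ)

theorem limit_norm_F {g : ℕ → K} (hg : ∀ n, ‖(g n : ℂ)‖ = 1) (m : ℕ)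
    (k : Fin (m + 1) → Fin (m + 2)) : ‖(limit_F g m k : ℂ)‖ = 1 := by
  unfold limit_F
  have h : ((∏ i : Fin (m + 1), g i ^ (k i : ℕ) : K) : ℂ) =
      ∏ i : Fin (m + 1), (g i : ℂ) ^ (k i : ℕ) := by
    push_cast
    rfl
  rw [h, norm_prod]
  apply Finset.prod_eq_one
  intro i _
  rw [norm_pow, hg, one_pow]

theorem limit_shift (g : ℕ → K) (m : ℕ) (i : Fin (m + 1)) (ξ : ℂ) (f : X → ℝ) (C : ℝ)
    (hC : ∀ χ, |f χ| ≤ C) :
    |∑ k : Fin (m + 1) → Fin (m + 2), f (rho (g i) (realChar (ξ * (limit_F g m k : ℂ))))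
      - ∑ k : Fin (m + 1) → Fin (m + 2), f (realChar (ξ * (limit_F g m k : ℂ)))|
      ≤ (m + 2 : ℝ) ^ m * (2 * C) := by
  rw [← Finset.sum_sub_distrib]
  rw [← (Fin.insertNthEquiv (fun _ : Fin (m + 1) => Fin (m + 2)) i).sum_comp, Fintype.sum_prod_type,
    Finset.sum_comm]
  have key : ∀ k' : Fin m → Fin (m + 2),
      |∑ a : Fin (m + 2), (f (rho (g i) (realChar (ξ * (limit_F g m
        (Fin.insertNthEquiv (fun _ : Fin (m + 1) => Fin (m + 2)) i (a, k')) : ℂ))))
        - f (realChar (ξ * (limit_F g m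
          (Fin.insertNthEquiv (fun _ : Fin (m + 1) => Fin (m + 2)) i (a, k')) : ℂ))))| ≤ 2 * C := by
    intro k'
    set c' : K := ∏ j : Fin m, g (i.succAbove j) ^ (k' j : ℕ) with hc'
    have hF : ∀ a : Fin (m + 2), limit_F g m
        (Fin.insertNthEquiv (fun _ : Fin (m + 1) => Fin (m + 2)) i (a, k')) = g i ^ (a : ℕ) * c' := by
      intro a
      unfold limit_F
      rw [Fin.prod_univ_succAbove _ i]
      congr 1
      · simp [Fin.insertNthEquiv]
      · rw [hc']
        apply Finset.prod_congr rfl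
        intro j _
        simp [Fin.insertNthEquiv]
    set ψ : ℕ → ℝ := fun a => f (realChar (ξ * ((g i ^ a * c' : K) : ℂ))) with hψ
    have h1 : ∀ a : Fin (m + 2), (f (rho (g i) (realChar (ξ * (limit_F g m
        (Fin.insertNthEquiv (fun _ : Fin (m + 1) => Fin (m + 2)) i (a, k')) : ℂ))))
        - f (realChar (ξ * (limit_F g m
          (Fin.insertNthEquiv (fun _ : Fin (m + 1) => Fin (m + 2)) i (a, k')) : ℂ))))
        = ψ (a + 1) - ψ a := by
      intro a
      rw [hF, limit_rho_realChar]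
      simp only [hψ]
      congr 3
      push_cast
      ring
    rw [Finset.sum_congr rfl (fun a _ => h1 a),
      Fin.sum_univ_eq_sum_range (fun a => ψ (a + 1) - ψ a) (m + 2), Finset.sum_range_sub]
    calc |ψ (m + 2) - ψ 0| ≤ |ψ (m + 2)| + |ψ 0| := abs_sub _ _
      _ ≤ C + C := add_le_add (hC _) (hC _)
      _ = 2 * C := by ring
  calc _ ≤ ∑ k' : Fin m → Fin (m + 2), |∑ a : Fin (m + 2), (f (rho (g i) (realChar (ξ * (limit_F g m
        (Fin.insertNthEquiv (fun _ : Fin (m + 1) => Fin (m + 2)) i (a, k')) : ℂ))))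
        - f (realChar (ξ * (limit_F g m
          (Fin.insertNthEquiv (fun _ : Fin (m + 1) => Fin (m + 2)) i (a, k')) : ℂ))))| :=
        Finset.abs_sum_le_sum_abs _ _
    _ ≤ ∑ _k' : Fin m → Fin (m + 2), 2 * C := Finset.sum_le_sum fun k' _ => key k'
    _ = (m + 2 : ℝ) ^ m * (2 * C) := by
        rw [Finset.sum_const, Finset.card_univ, nsmul_eq_mul]
        congr 1
        simp

theorem limit_measure {s : ℕ} (w : Fin s → ℝ) (lam : Fin s → K) (δ : ℝ)
    (h : ∀ (ι : Type) [Fintype ι] [Nonempty ι] (F : ι → K), (∀ i, ‖(F i : ℂ)‖ = 1) →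
      ∃ ξ : ℂ, ∑ j, w j * ((∑ i, Real.cos (2 * Real.pi * (ξ * ((lam j * F i : K) : ℂ)).re)) /
        Fintype.card ι) ≤ -δ) :
    ∃ μ : Measure X, IsProbabilityMeasure μ ∧ InvK μ ∧ (∀ᵐ χ ∂μ, χ ∈ Hm) ∧
      ∑ j, w j * (∫ χ, ev (lam j) χ ∂μ).re ≤ -δ := by
  have hU : Nonempty {u : K // ‖(u : ℂ)‖ = 1} := ⟨⟨1, by simp⟩⟩
  obtain ⟨g', hg'⟩ := exists_surjective_nat {u : K // ‖(u : ℂ)‖ = 1}
  set g : ℕ → K := fun n => (g' n : K) with hgdef
  have hg : ∀ n, ‖(g n : ℂ)‖ = 1 := fun n => (g' n).2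
  have hgs : ∀ u : K, ‖(u : ℂ)‖ = 1 → ∃ n, g n = u := by
    intro u hu
    obtain ⟨n, hn⟩ := hg' ⟨u, hu⟩
    exact ⟨n, by rw [hgdef]; simp only [hn]⟩
  have hξ : ∀ m : ℕ, ∃ ξ : ℂ, ∑ j, w j * ((∑ k : Fin (m + 1) → Fin (m + 2),
      Real.cos (2 * Real.pi * (ξ * ((lam j * limit_F g m k : K) : ℂ)).re)) /
        Fintype.card (Fin (m + 1) → Fin (m + 2))) ≤ -δ :=
    fun m => h (Fin (m + 1) → Fin (m + 2)) (limit_F g m) (fun k => limit_norm_F hg m k)
  choose ξ hξ using hξ
  set y : (m : ℕ) → (Fin (m + 1) → Fin (m + 2)) → X :=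
    fun m k => realChar (ξ m * (limit_F g m k : ℂ)) with hy
  have hprob : ∀ m, IsProbabilityMeasure (limit_avg (y m)) := fun m => limit_avg_prob (y m)
  set μs : ℕ → ProbabilityMeasure X := fun m => ⟨limit_avg (y m), hprob m⟩ with hμs
  set 𝒰 : Ultrafilter ℕ := hyperfilter ℕ with h𝒰
  have h𝒰le : (𝒰 : Filter ℕ) ≤ atTop := by
    rw [← Nat.cofinite_eq_atTop]
    exact hyperfilter_le_cofinite
  have : CompactSpace (ProbabilityMeasure X) := inferInstance
  set μ : ProbabilityMeasure X := (𝒰.map μs).lim with hμ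
  have hlim : Tendsto μs 𝒰 (𝓝 μ) := (𝒰.map μs).le_nhds_lim
  have hlimf : ∀ f : X → ℝ, Continuous f →
      Tendsto (fun m => ∫ χ, f χ ∂(limit_avg (y m))) 𝒰 (𝓝 (∫ χ, f χ ∂(μ : Measure X))) := by
    intro f hf
    have h1 := (ProbabilityMeasure.tendsto_iff_forall_integral_tendsto.1 hlim)
      (BoundedContinuousFunction.mkOfCompact ⟨f, hf⟩)
    exact h1
  refine ⟨μ, inferInstance, ?_, ?_, ?_⟩
  · -- invariance
    intro u hu
    obtain ⟨i, rfl⟩ := hgs u hu
    have : IsProbabilityMeasure ((μ : Measure X).map (rho (g i))) :=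
      Measure.isProbabilityMeasure_map (measurable_rho _).aemeasurable
    apply ext_of_forall_integral_eq_of_IsFiniteMeasure
    intro f
    rw [integral_map (measurable_rho _).aemeasurable f.continuous.aestronglyMeasurable]
    have h1 := hlimf (fun χ => f (rho (g i) χ)) (f.continuous.comp (continuous_rho _))
    have h2 := hlimf f f.continuous
    have h3 := h1.sub h2
    have h4 : Tendsto (fun m => ∫ χ, f (rho (g i) χ) ∂(limit_avg (y m)) -
        ∫ χ, f χ ∂(limit_avg (y m))) 𝒰 (𝓝 0) := by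
      apply Tendsto.mono_left _ h𝒰le
      have hb : Tendsto (fun m : ℕ => 2 * ‖f‖ / ((m : ℝ) + 2)) atTop (𝓝 0) := by
        apply Tendsto.div_atTop tendsto_const_nhds
        exact tendsto_atTop_add_const_right _ _ tendsto_natCast_atTop_atTop
      apply squeeze_zero_norm' _ hb
      filter_upwards [eventually_ge_atTop i] with m hm
      rw [limit_integral_avg _ (fun χ => f (rho (g i) χ)),
        limit_integral_avg _ f, ← sub_div, norm_div, Real.norm_eq_abs]
      have h5 := limit_shift g m ⟨i, by omega⟩ (ξ m) f ‖f‖ (fun χ => f.norm_coe_le_norm χ)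
      have h6 : ‖((Fintype.card (Fin (m + 1) → Fin (m + 2)) : ℕ) : ℝ)‖ = (m + 2 : ℝ) ^ (m + 1) := by
        simp only [Fintype.card_pi, Fintype.card_fin, Finset.prod_const, Finset.card_univ]
        rw [Real.norm_of_nonneg (by positivity)]
        push_cast
        ring
      rw [h6, div_le_iff₀ (by positivity)]
      calc _ ≤ (m + 2 : ℝ) ^ m * (2 * ‖f‖) := h5
        _ = 2 * ‖f‖ / ((m : ℝ) + 2) * (m + 2 : ℝ) ^ (m + 1) := by
          rw [pow_succ]
          field_simp
    have h5 := tendsto_nhds_unique h3 h4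
    linarith
  · -- support
    have h1 : ∀ v w : K, ∀ᵐ χ ∂(μ : Measure X), χ (v + w) = χ v * χ w := by
      intro v w
      set f : X → ℝ := fun χ => ‖ev (v + w) χ - ev v χ * ev w χ‖ ^ 2 with hf
      have hfc : Continuous f :=
        (((continuous_ev _).sub ((continuous_ev _).mul (continuous_ev _))).norm).pow 2
      have h2 := hlimf f hfc
      have h3 : ∀ m, ∫ χ, f χ ∂(limit_avg (y m)) = 0 := by
        intro m
        rw [limit_integral_avg _ f]
        have h4 : ∀ k, f (y m k) = 0 := by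
          intro k
          have h5 : y m k ∈ Hm := realChar_mem _
          simp only [hf]
          rw [ev_add h5]
          simp
        rw [Finset.sum_eq_zero (fun k _ => h4 k), zero_div]
      simp_rw [h3] at h2
      have h5 : ∫ χ, f χ ∂(μ : Measure X) = 0 := (tendsto_nhds_unique tendsto_const_nhds h2).symm
      have hfi : Integrable f (μ : Measure X) := by
        apply Integrable.of_bound hfc.aestronglyMeasurable 4
        filter_upwards with χ
        simp only [hf]
        rw [Real.norm_of_nonneg (by positivity)]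
        have h6 : ‖ev (v + w) χ - ev v χ * ev w χ‖ ≤ 2 := by
          calc _ ≤ ‖ev (v + w) χ‖ + ‖ev v χ * ev w χ‖ := norm_sub_le _ _
            _ = 2 := by rw [norm_mul]; simp; norm_num
        nlinarith [norm_nonneg (ev (v + w) χ - ev v χ * ev w χ)]
      rw [integral_eq_zero_iff_of_nonneg (fun χ => by simp only [hf]; positivity) hfi] at h5
      filter_upwards [h5] with χ hχ
      have h7 : ev (v + w) χ - ev v χ * ev w χ = 0 := by
        simpa [hf] using hχ
      have h8 := sub_eq_zero.1 h7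
      apply Circle.ext
      simpa [ev] using h8
    have h2 : ∀ᵐ χ ∂(μ : Measure X), ∀ v w : K, χ (v + w) = χ v * χ w := by
      rw [ae_all_iff]
      intro v
      rw [ae_all_iff]
      intro w
      exact h1 v w
    exact h2
  · -- the inequality
    have h1 : ∀ j, (∫ χ, ev (lam j) χ ∂(μ : Measure X)).re
        = ∫ χ, (ev (lam j) χ).re ∂(μ : Measure X) := by
      intro j
      exact (integral_re (integrable_ev _ (lam j))).symm
    simp_rw [h1]
    have h2 : Tendsto (fun m => ∑ j, w j * ∫ χ, (ev (lam j) χ).re ∂(limit_avg (y m))) 𝒰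
        (𝓝 (∑ j, w j * ∫ χ, (ev (lam j) χ).re ∂(μ : Measure X))) := by
      apply tendsto_finsetSum
      intro j _
      exact (hlimf _ (Complex.continuous_re.comp (continuous_ev _))).const_mul _
    apply le_of_tendsto h2
    apply Filter.Eventually.of_forall
    intro m
    have h3 := hξ m
    refine le_trans (le_of_eq ?_) h3
    apply Finset.sum_congr rfl
    intro j _
    rw [limit_integral_avg _ (fun χ => (ev (lam j) χ).re)]
    congr 2
    apply Finset.sum_congr rfl
    intro k _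
    show ((realChar (ξ m * (limit_F g m k : ℂ)) (lam j) : Circle) : ℂ).re = _
    unfold realChar
    rw [E_re]
    congr 3
    push_cast
    ring_nf

end Pool.Agent.H56
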