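import Pool.Agent.H56.RealPart
import Pool.Agent.H56.ModLimit
import Pool.Agent.H56.ModColor

/-!
# Exponentially many colours are needed
-/

set_option autoImplicit false

open MeasureTheory Complex

namespace Pool.Agent.H56

theorem c_natCast (n : ℕ) : c (n : GaussianInt) = (n : K) := map_natCast c n

theorem gpi_dvd_natCast_iff (n : ℕ) : gpi ∣ (n : GaussianInt) ↔ 5 ∣ n := by
  rw [gpi_dvd_iff]
  simp
  norm_cast

theorem not_gpi_dvd_pow {L : ℕ} (hL : ¬ 5 ∣ L) (j : ℕ) : ¬ gpi ∣ ((L ^ j : ℕ) : GaussianInt) := by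
  rw [gpi_dvd_natCast_iff]
  intro h
  exact hL (Nat.Prime.dvd_of_dvd_pow (by norm_num) h)

/-- For every `s ≥ 1` there are `s` distances for which arbitrarily large finite point sets need
at least `2 ^ s / 4` colours. -/
theorem exists_distances (s : ℕ) (hs : 1 ≤ s) :
    ∃ A : Finset ℝ, A.card = s ∧ (∀ a ∈ A, 0 < a) ∧ ∀ n : ℕ, 4 * n < 2 ^ s →
      ∃ P : Finset (EuclideanSpace ℝ (Fin 2)),
        ¬ (SimpleGraph.fromRel (fun x y : ↥P =>
          dist (x : EuclideanSpace ℝ (Fin 2)) (y : EuclideanSpace ℝ (Fin 2)) ∈ A)).Colorable n := by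
  classical
  obtain ⟨J, hJ1, hinf, hzero, hJ⟩ := circle_avg ((un gpi : K) : ℂ) (norm_un gpi_ne_zero)
    un_gpi_pow_ne_one
  obtain ⟨L, hL2, hL5, hLP⟩ := lp_lower J hJ1 hinf hzero s hs
  have hp : (2 : ℝ) ≤ 2 ^ s := by
    calc (2 : ℝ) = 2 ^ 1 := by norm_num
      _ ≤ 2 ^ s := pow_le_pow_right₀ (by norm_num) hs
  set w : Fin s → ℝ := fun j => 2 ^ (j : ℕ) / (2 ^ s - 1) with hw
  have hw0 : ∀ j, 0 ≤ w j := fun j => by
    have : (0 : ℝ) < 2 ^ s - 1 := by linarith
    positivity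
  have hw1 : ∑ j, w j = 1 := by
    have h1 : ∑ j : Fin s, (2 : ℝ) ^ (j : ℕ) = 2 ^ s - 1 := by
      rw [← Finset.sum_range (fun j => (2 : ℝ) ^ j)]
      have := geom_sum_eq (x := (2 : ℝ)) (by norm_num) s
      rw [this]
      norm_num
    simp only [hw]
    rw [← Finset.sum_div, h1]
    exact div_self (by linarith)
  set lam : Fin s → K := fun j => (L : K) ^ (j : ℕ) with hlam
  have hnot : ¬ ∀ (ι : Type) [Fintype ι] [Nonempty ι] (F : ι → K), (∀ i, ‖(F i : ℂ)‖ = 1) →
      ∃ ξ : ℂ, ∑ j, w j * ((∑ i, Real.cos (2 * Real.pi * (ξ * ((lam j * F i : K) : ℂ)).re)) /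
        Fintype.card ι) ≤ -(4 / 2 ^ s) := by
    intro h
    obtain ⟨μ, hμ, hinv, hhom, hle⟩ := limit_measure w lam (4 / 2 ^ s) h
    have h1 : ∀ j, ∫ χ, ev (lam j) χ ∂μ = ∫ χ in RealQ, ev (lam j) χ ∂μ := by
      intro j
      have h2 := integral_ev_eq μ hinv hhom ((L ^ (j : ℕ) : ℕ) : GaussianInt)
        (not_gpi_dvd_pow hL5 j)
      rw [c_natCast] at h2
      simpa [hlam] using h2
    have h3 := real_lower μ hinv.invQ hhom w L J hJ (3 / 2 ^ s) (by positivity) hLP
    simp only [h1] at hle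
    have h4 : (3 : ℝ) / 2 ^ s < 4 / 2 ^ s := by
      apply div_lt_div_of_pos_right (by norm_num) (by positivity)
    simp only [hlam] at hle
    linarith
  push Not at hnot
  obtain ⟨ι, hι, hne, F, hF, hξ⟩ := hnot
  have hcard : (0 : ℝ) < Fintype.card ι := by exact_mod_cast Fintype.card_pos
  have hinj : Function.Injective fun j : Fin s => (L : ℝ) ^ (j : ℕ) := by
    intro i j hij
    have h1 : (1 : ℝ) < L := by exact_mod_cast (by omega : 1 < L)
    have := pow_right_injective₀ (by linarith) (ne_of_gt h1) hij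
    exact Fin.ext this
  refine ⟨Finset.univ.image fun j : Fin s => (L : ℝ) ^ (j : ℕ), ?_, ?_, ?_⟩
  · rw [Finset.card_image_of_injective _ hinj]
    simp
  · intro a ha
    obtain ⟨j, -, rfl⟩ := Finset.mem_image.1 ha
    have : (0 : ℝ) < L := by exact_mod_cast (by omega : 0 < L)
    positivity
  · intro n hn
    apply not_colorable (ι := Fin s × ι) (fun p => ((lam p.1 * F p.2 : K) : ℂ))
      (fun p => w p.1 / Fintype.card ι) (fun p => div_nonneg (hw0 _) hcard.le) ?_ _ ?_ ?_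
      (4 / 2 ^ s) (by positivity) ?_ n ?_
    · rw [Fintype.sum_prod_type]
      simp only [Finset.sum_const, Finset.card_univ, nsmul_eq_mul]
      rw [← hw1]
      refine Finset.sum_congr rfl fun j _ => ?_
      field_simp
    · intro a ha
      obtain ⟨j, -, rfl⟩ := Finset.mem_image.1 ha
      have : (0 : ℝ) < L := by exact_mod_cast (by omega : 0 < L)
      positivity
    · rintro ⟨j, i⟩
      apply Finset.mem_image.2
      refine ⟨j, Finset.mem_univ _, ?_⟩
      simp only [hlam, IntermediateField.coe_mul, IntermediateField.coe_pow]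
      rw [norm_mul, hF i, mul_one, norm_pow]
      have h4 : ((L : K) : ℂ) = (L : ℂ) := by simp
      rw [h4, Complex.norm_natCast]
    · intro ξ
      refine (hξ ξ).le.trans (le_of_eq ?_)
      rw [Fintype.sum_prod_type]
      refine Finset.sum_congr rfl fun j _ => ?_
      rw [Finset.sum_div, Finset.mul_sum]
      refine Finset.sum_congr rfl fun i _ => ?_
      ring
    · have h5 : (4 : ℝ) * n < 2 ^ s := by exact_mod_cast hn
      rw [mul_div_assoc', div_lt_one (by positivity)]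
      linarith

/-- The growth is faster than any power. -/
theorem main_theorem :
    ¬ (∃ C : ℝ, ∃ r₀ : ℕ, ∀ r : ℕ, r₀ ≤ r →
      ∀ P : Finset (EuclideanSpace ℝ (Fin 2)), ∀ A : Finset ℝ,
        A.card = r → (∀ a ∈ A, 0 < a) →
          ∃ k : ℕ, (k : ℝ) ≤ (r : ℝ) ^ C ∧
            (SimpleGraph.fromRel (fun x y : ↥P =>
              dist (x : EuclideanSpace ℝ (Fin 2)) (y : EuclideanSpace ℝ (Fin 2)) ∈ A)).Colorable k) := by
  rintro ⟨C, r₀, h⟩
  -- choose `s` large
  have h1 : Filter.Tendsto (fun s : ℕ => ((s : ℝ) ^ C) / (2 : ℝ) ^ s) Filter.atTop (nhds 0) := by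
    have h2 := (isLittleO_rpow_exp_pos_mul_atTop C (Real.log_pos (by norm_num : (1 : ℝ) < 2)))
    have h3 := h2.tendsto_div_nhds_zero.comp (tendsto_natCast_atTop_atTop (R := ℝ))
    refine h3.congr fun s => ?_
    simp only [Function.comp]
    congr 1
    rw [Real.exp_mul, Real.exp_log (by norm_num), Real.rpow_natCast]
  have h2 : ∀ᶠ s : ℕ in Filter.atTop, ((s : ℝ) ^ C) / (2 : ℝ) ^ s < 1 / 5 :=
    h1.eventually_lt_const (by norm_num)
  obtain ⟨s, hs1, hs2, hs3⟩ := (h2.and ((Filter.eventually_ge_atTop r₀).and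
    (Filter.eventually_ge_atTop 1))).exists
  obtain ⟨A, hA, hA0, hP⟩ := exists_distances s hs3
  have h3 : (s : ℝ) ^ C < 2 ^ s / 5 := by
    rw [div_lt_iff₀ (by positivity)] at hs1
    linarith
  have h4 : 4 * ⌊(s : ℝ) ^ C⌋₊ < 2 ^ s := by
    have h5 : (⌊(s : ℝ) ^ C⌋₊ : ℝ) ≤ (s : ℝ) ^ C := Nat.floor_le (by positivity)
    have h6 : (0 : ℝ) < 2 ^ s := by positivity
    have h7 : (4 : ℝ) * ⌊(s : ℝ) ^ C⌋₊ < 2 ^ s := by linarith
    exact_mod_cast h7
  obtain ⟨P, hP⟩ := hP _ h4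
  obtain ⟨k, hk, hcol⟩ := h s hs2 P A hA hA0
  apply hP
  exact hcol.mono (Nat.le_floor hk)

end Pool.Agent.H56
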