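import Mathlib

/-!
# The linear programming bound for lacunary distances
-/

set_option autoImplicit false

namespace Pool.Agent.H56

theorem lp_aux (J : ℝ → ℝ) (hJ1 : ∀ x, |J x| ≤ 1) (ε x0 x1 : ℝ) (hε : 0 ≤ ε)
    (h0 : ∀ x, 0 ≤ x → x ≤ x0 → 1 - ε ≤ J x) (h1 : ∀ x, x1 ≤ x → -ε ≤ J x)
    (hx0 : 0 < x0) (L : ℝ) (hL1 : 1 ≤ L) (hL : x1 ≤ L * x0) (x : ℝ) (hx : 0 ≤ x) (n : ℕ) :
    ((∀ j < n, x * L ^ j ≤ x0) →
      (1 - ε) * (2 ^ n - 1) ≤ ∑ j ∈ Finset.range n, 2 ^ j * J (x * L ^ j)) ∧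
    (¬ (∀ j < n, x * L ^ j ≤ x0) →
      -1 - ε * (2 ^ n - 1) ≤ ∑ j ∈ Finset.range n, 2 ^ j * J (x * L ^ j)) := by
  have hL0 : 0 < L := by linarith
  induction n with
  | zero => simp
  | succ n ih =>
    have hp : (0 : ℝ) < 2 ^ n := by positivity
    have hp1 : (1 : ℝ) ≤ 2 ^ n := one_le_pow₀ (by norm_num)
    have hx2 : 0 ≤ x * L ^ n := by positivity
    constructor
    · intro h
      have h2 := ih.1 fun j hj => h j (by omega)
      have h3 := h0 (x * L ^ n) hx2 (h n (by omega))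
      rw [Finset.sum_range_succ, pow_succ]
      nlinarith
    · intro h
      by_cases h4 : ∀ j < n, x * L ^ j ≤ x0
      · have h2 := ih.1 h4
        have h3 := (abs_le.1 (hJ1 (x * L ^ n))).1
        rw [Finset.sum_range_succ, pow_succ]
        nlinarith
      · have h2 := ih.2 h4
        push Not at h4
        obtain ⟨j, hj, hj2⟩ := h4
        have h5 : x1 ≤ x * L ^ n := by
          have h6 : L ^ (j + 1) ≤ L ^ n := pow_le_pow_right₀ hL1 (by omega)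
          have h7 : x * L ^ (j + 1) ≤ x * L ^ n := mul_le_mul_of_nonneg_left h6 hx
          have h8 : x * L ^ (j + 1) = L * (x * L ^ j) := by ring
          nlinarith
        have h3 := h1 _ h5
        rw [Finset.sum_range_succ, pow_succ]
        nlinarith

theorem lp_lower (J : ℝ → ℝ) (hJ1 : ∀ x, |J x| ≤ 1)
    (hinf : Filter.Tendsto J Filter.atTop (nhds 0))
    (hzero : Filter.Tendsto J (nhds 0) (nhds 1)) (s : ℕ) (hs : 1 ≤ s) :
    ∃ L : ℕ, 2 ≤ L ∧ ¬ 5 ∣ L ∧ ∀ x : ℝ, 0 ≤ x →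
      -(3 / 2 ^ s) ≤ ∑ j : Fin s, (2 ^ (j : ℕ) / (2 ^ s - 1)) * J (x * (L : ℝ) ^ (j : ℕ)) := by
  set ε : ℝ := 1 / (2 * 2 ^ s) with hεdef
  have hε : 0 < ε := by positivity
  obtain ⟨x0, hx0, h0⟩ : ∃ x0 : ℝ, 0 < x0 ∧ ∀ x, 0 ≤ x → x ≤ x0 → 1 - ε ≤ J x := by
    have h := Metric.tendsto_nhds_nhds.1 hzero ε hε
    obtain ⟨d, hd, h⟩ := h
    refine ⟨d / 2, by positivity, fun x hx hx2 => ?_⟩
    have h2 := h (x := x) (by rw [Real.dist_eq, sub_zero, abs_of_nonneg hx]; linarith)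
    rw [Real.dist_eq] at h2
    linarith [(abs_lt.1 h2).1]
  obtain ⟨x1, h1⟩ : ∃ x1 : ℝ, ∀ x, x1 ≤ x → -ε ≤ J x := by
    have h := Metric.tendsto_atTop.1 hinf ε hε
    obtain ⟨N, h⟩ := h
    refine ⟨N, fun x hx => ?_⟩
    have h2 := h x hx
    rw [Real.dist_eq, sub_zero] at h2
    linarith [(abs_lt.1 h2).1]
  obtain ⟨m, hm⟩ := exists_nat_ge (x1 / x0)
  refine ⟨5 * (m + 1) + 1, by omega, by omega, fun x hx => ?_⟩
  set L : ℕ := 5 * (m + 1) + 1 with hLdef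
  have hL1 : (1 : ℝ) ≤ (L : ℝ) := by exact_mod_cast (by omega : 1 ≤ L)
  have hL : x1 ≤ (L : ℝ) * x0 := by
    have h2 : (m : ℝ) ≤ (L : ℝ) := by exact_mod_cast (by omega : m ≤ L)
    have h3 : x1 / x0 ≤ (L : ℝ) := hm.trans h2
    rwa [div_le_iff₀ hx0] at h3
  have key := lp_aux J hJ1 ε x0 x1 hε.le h0 h1 hx0 L hL1 hL x hx s
  have hp : (2 : ℝ) ≤ 2 ^ s := by
    calc (2 : ℝ) = 2 ^ 1 := by norm_num
      _ ≤ 2 ^ s := pow_le_pow_right₀ (by norm_num) hs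
  have hε2 : ε * 2 ^ s = 1 / 2 := by
    rw [hεdef]
    field_simp
  have hε1 : ε ≤ 1 / 4 := by
    nlinarith
  have h5 : -1 - ε * (2 ^ s - 1) ≤ ∑ j ∈ Finset.range s, 2 ^ j * J (x * (L : ℝ) ^ j) := by
    by_cases h6 : ∀ j < s, x * (L : ℝ) ^ j ≤ x0
    · refine le_trans ?_ (key.1 h6)
      nlinarith
    · exact key.2 h6
  have h6 : ∑ j : Fin s, (2 ^ (j : ℕ) / (2 ^ s - 1)) * J (x * (L : ℝ) ^ (j : ℕ)) =
      (∑ j ∈ Finset.range s, 2 ^ j * J (x * (L : ℝ) ^ j)) / (2 ^ s - 1) := by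
    rw [Finset.sum_range (fun j => 2 ^ j * J (x * (L : ℝ) ^ j)), Finset.sum_div]
    refine Finset.sum_congr rfl fun j _ => ?_
    ring
  rw [h6, le_div_iff₀ (by linarith)]
  refine le_trans ?_ h5
  have h7 : (3 : ℝ) / 2 ^ s * 2 ^ s = 3 := by field_simp
  have h8 : (0 : ℝ) < 3 / 2 ^ s := by positivity
  nlinarith

end Pool.Agent.H56
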