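import Pool.Agent.H56.Basic
set_option autoImplicit false
open MeasureTheory Complex
namespace Pool.Agent.H56

/-- monotonicity: a finer lattice gives a smaller set -/
theorem EE_anti (R : ℝ) (b b' : K) (h : lat b ⊆ lat b') : EE R b' ⊆ EE R b := by
  rintro χ ⟨h1, ξ, h2, h3⟩
  exact ⟨h1, ξ, h2, fun v hv => h3 v (h hv)⟩

theorem bootA_coe_mul (u v : K) : ((u * v : K) : ℂ) = (u : ℂ) * (v : ℂ) := rfl

theorem bootA_norm_mul (u v : K) : ‖((u * v : K) : ℂ)‖ = ‖(u : ℂ)‖ * ‖(v : ℂ)‖ := by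
  rw [bootA_coe_mul, norm_mul]

/-- rotation of the sets `EE` -/
theorem bootA_rot (R : ℝ) (b u : K) (hu : ‖(u : ℂ)‖ = 1) :
    rho u ⁻¹' (EE R b) = EE R (u * b) := by
  have hu0 : (u : ℂ) ≠ 0 := by
    intro h
    rw [h, norm_zero] at hu
    exact zero_ne_one hu
  have huK : u ≠ 0 := by
    rintro rfl
    exact hu0 rfl
  ext χ
  constructor
  · rintro ⟨h1, ξ, h2, h3⟩
    refine ⟨?_, ξ / u, ?_, ?_⟩
    · intro v w
      have := h1 (u⁻¹ * v) (u⁻¹ * w)
      simp only [rho_apply, mul_add] at this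
      rw [mul_inv_cancel_left₀ huK, mul_inv_cancel_left₀ huK] at this
      exact this
    · rw [norm_div, hu, div_one]
      exact h2
    · rintro v ⟨z, rfl⟩
      have := h3 (b * c z) ⟨z, rfl⟩
      rw [rho_apply] at this
      rw [mul_assoc, this]
      congr 2
      rw [bootA_coe_mul u]
      field_simp
  · rintro ⟨h1, ξ, h2, h3⟩
    refine ⟨Hm_rho h1 u, ξ * u, ?_, ?_⟩
    · rw [norm_mul, hu, mul_one]
      exact h2
    · rintro v ⟨z, rfl⟩
      have := h3 (u * b * c z) ⟨z, rfl⟩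
      rw [rho_apply, ← mul_assoc, this]
      congr 2
      rw [mul_assoc, bootA_coe_mul u]
      ring

theorem bootA_consist {χ : X} {R : ℝ} {ξ₁ ξ₂ : ℂ} (h1 : ‖ξ₁‖ ≤ R) (h2 : ‖ξ₂‖ ≤ R)
    {S₁ S₂ : Set K} (hS1 : RealOn χ ξ₁ S₁) (hS2 : RealOn χ ξ₂ S₂) {d : K} (hd0 : d ≠ 0)
    (hd : 2 * R * ‖(d : ℂ)‖ < 1) (hs1 : ∀ z : GaussianInt, d * c z ∈ S₁)
    (hs2 : ∀ z : GaussianInt, d * c z ∈ S₂) : ξ₁ = ξ₂ := by
  have key : ∀ z : GaussianInt, ‖(c z : ℂ)‖ ≤ 1 →
      ((ξ₁ - ξ₂) * ((d : ℂ) * (c z : ℂ))).re = 0 := by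
    intro z hz
    have e1 := hS1 _ (hs1 z)
    have e2 := hS2 _ (hs2 z)
    rw [e1] at e2
    apply eq_zero_of_E_eq_one
    · rw [sub_mul, sub_re, E_sub]
      rw [bootA_coe_mul] at e2
      rw [e2, div_self']
    · calc |((ξ₁ - ξ₂) * ((d : ℂ) * (c z : ℂ))).re|
          ≤ ‖(ξ₁ - ξ₂) * ((d : ℂ) * (c z : ℂ))‖ := Complex.abs_re_le_norm _
        _ = ‖ξ₁ - ξ₂‖ * (‖(d : ℂ)‖ * ‖(c z : ℂ)‖) := by rw [norm_mul, norm_mul]
        _ ≤ (R + R) * (‖(d : ℂ)‖ * 1) := by
            have hRR : 0 ≤ R + R := by linarith [norm_nonneg ξ₁]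
            exact mul_le_mul ((norm_sub_le _ _).trans (add_le_add h1 h2))
              (mul_le_mul_of_nonneg_left hz (norm_nonneg _)) (by positivity) hRR
        _ = 2 * R * ‖(d : ℂ)‖ := by ring
        _ < 1 := hd
  have k1 := key 1 (by simp)
  have k2 := key ⟨0, 1⟩ (by
    rw [coe_c, GaussianInt.toComplex_def]
    simp)
  have e3 : (c ⟨0, 1⟩ : ℂ) = Complex.I := by
    rw [coe_c, GaussianInt.toComplex_def]
    simp
  rw [e3, ← mul_assoc] at k2
  have e4 : ((c 1 : K) : ℂ) = 1 := by simp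
  rw [e4, mul_one] at k1
  have h5 : (ξ₁ - ξ₂) * (d : ℂ) = 0 := by
    apply Complex.ext
    · simpa using k1
    · simp [Complex.mul_re] at k2
      simp
      linarith
  rcases mul_eq_zero.1 h5 with h | h
  · exact sub_eq_zero.1 h
  · exact absurd h (coe_ne_zero hd0)

theorem bootA_comb (R : ℝ) (b₁ b₂ b₃ d : K) (hd0 : d ≠ 0) (hd : 2 * R * ‖(d : ℂ)‖ < 1)
    (x y p q : GaussianInt) (h1 : d = b₁ * c x) (h2 : d = b₂ * c y)
    (h3 : b₃ = b₁ * c p + b₂ * c q) : EE R b₁ ∩ EE R b₂ ⊆ EE R b₃ := by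
  rintro χ ⟨⟨hm, ξ₁, hξ₁, hr₁⟩, ⟨-, ξ₂, hξ₂, hr₂⟩⟩
  have he : ξ₁ = ξ₂ := by
    refine bootA_consist hξ₁ hξ₂ hr₁ hr₂ hd0 hd ?_ ?_
    · intro z
      exact ⟨x * z, by rw [h1, map_mul, mul_assoc]⟩
    · intro z
      exact ⟨y * z, by rw [h2, map_mul, mul_assoc]⟩
  subst he
  refine ⟨hm, ξ₁, hξ₁, ?_⟩
  rintro v ⟨z, rfl⟩
  have e : b₃ * c z = b₁ * c (p * z) + b₂ * c (q * z) := by
    rw [h3, map_mul, map_mul]
    ring
  rw [e, hm, hr₁ _ ⟨_, rfl⟩, hr₂ _ ⟨_, rfl⟩, ← E_add]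
  congr 1
  rw [← Complex.add_re, ← mul_add]
  rfl

theorem bootA_norm_c_ge {z : GaussianInt} (hz : z ≠ 0) : 1 ≤ ‖(c z : ℂ)‖ := by
  have h1 : ‖(c z : ℂ)‖ ^ 2 = ((Zsqrtd.norm z : ℤ) : ℝ) := by
    rw [coe_c, ← Complex.normSq_eq_norm_sq, GaussianInt.intCast_real_norm]
  have h2 : 0 < Zsqrtd.norm z := by
    have := GaussianInt.norm_pos.2 hz
    exact this
  have h3 : (1 : ℝ) ≤ ((Zsqrtd.norm z : ℤ) : ℝ) := by exact_mod_cast h2
  rw [← h1] at h3
  by_contra h
  push Not at h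
  have : ‖(c z : ℂ)‖ ^ 2 < 1 := by
    have h0 : 0 ≤ ‖(c z : ℂ)‖ := norm_nonneg _
    nlinarith
  linarith

theorem bootA_cop_ne_zero {z : GaussianInt} (h : IsCoprime z (star z)) : z ≠ 0 := by
  rintro rfl
  rw [star_zero] at h
  obtain ⟨a, b, hab⟩ := h
  simp at hab

/-- measure of the difference of two sets, in terms of a superset of the intersection -/
theorem bootA_diff (ν : Measure X) [IsFiniteMeasure ν] (A B C : Set X)
    (hA : MeasurableSet A) (hB : MeasurableSet B) (hAB : A ∩ B ⊆ C) :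
    (ν A).toReal - (ν C).toReal ≤ (ν (A \ B)).toReal := by
  have h1 : ν A ≤ ν (A \ B) + ν C := by
    calc ν A ≤ ν ((A \ B) ∪ (A ∩ B)) := measure_mono (by
            intro x hx
            by_cases h : x ∈ B
            · exact Or.inr ⟨hx, h⟩
            · exact Or.inl ⟨hx, h⟩)
      _ ≤ ν (A \ B) + ν (A ∩ B) := measure_union_le _ _
      _ ≤ ν (A \ B) + ν C := by gcongr
  have h2 : (ν A).toReal ≤ (ν (A \ B) + ν C).toReal :=
    ENNReal.toReal_mono (by finiteness) h1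
  rw [ENNReal.toReal_add (by finiteness) (by finiteness)] at h2
  linarith

/-- A finite family of pairwise disjoint sets -/
theorem bootA_sum_le {ι : Type*} (ν : Measure X) [IsFiniteMeasure ν] (s : Finset ι)
    (T : ι → Set X) (hT : ∀ i ∈ s, MeasurableSet (T i))
    (hd : ∀ i ∈ s, ∀ j ∈ s, i ≠ j → Disjoint (T i) (T j)) :
    ∑ i ∈ s, (ν (T i)).toReal ≤ (ν Set.univ).toReal := by
  have h1 : ν (⋃ i ∈ s, T i) = ∑ i ∈ s, ν (T i) :=
    measure_biUnion_finset (fun i hi j hj hij => hd i hi j hj hij) hT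
  have h2 : ∑ i ∈ s, ν (T i) ≤ ν Set.univ := by
    rw [← h1]
    exact measure_mono (Set.subset_univ _)
  rw [← ENNReal.toReal_sum (fun i _ => by finiteness)]
  exact ENNReal.toReal_mono (by finiteness) h2

theorem bootA_coe_c_ne {z : GaussianInt} (hz : z ≠ 0) : c z ≠ 0 := c_ne_zero hz

theorem boot_sum (ν : Measure X) [IsFiniteMeasure ν] (hν : InvQ ν) (R : ℝ) (hR : 0 < R) (b : K)
    (hb : b ≠ 0) (Z : Finset GaussianInt) (hcop : ∀ z ∈ Z, IsCoprime z (star z))
    (hpair : ∀ z ∈ Z, ∀ w ∈ Z, z ≠ w → IsCoprime z w)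
    (hsmall : ∀ z ∈ Z, ‖(c z : ℂ)‖ ^ 2 * (2 * R * ‖(b : ℂ)‖) < 1) :
    ∑ z ∈ Z, ((ν (EE R b)).toReal - (ν (EE R (b / c z))).toReal) ≤ (ν Set.univ).toReal := by
  have hb' : 0 < ‖(b : ℂ)‖ := norm_pos_iff.2 (coe_ne_zero hb)
  have hRb : 0 < 2 * R * ‖(b : ℂ)‖ := by positivity
  have hz0 : ∀ z ∈ Z, z ≠ 0 := fun z hz => bootA_cop_ne_zero (hcop z hz)
  have hrot : ∀ z ∈ Z, ν (EE R (un (star z) * b)) = ν (EE R b) := by
    intro z hz
    rw [← bootA_rot R b (un (star z)) (norm_un (star_ne_zero' (hz0 z hz)))]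
    exact hν.measure_preimage (star_ne_zero' (hz0 z hz)) (measurableSet_EE R b)
  refine le_trans (Finset.sum_le_sum fun z hz => ?_)
    (bootA_sum_le ν Z (fun z => EE R (un (star z) * b) \ EE R b) ?_ ?_)
  · -- one term
    have h1 := bootA_diff ν (EE R (un (star z) * b)) (EE R b) (EE R (b / c z))
      (measurableSet_EE _ _) (measurableSet_EE _ _) (by
        obtain ⟨x, y, hxy⟩ := hcop z hz
        have hcz : c z ≠ 0 := c_ne_zero (hz0 z hz)
        have hcs : c (star z) ≠ 0 := c_ne_zero (star_ne_zero' (hz0 z hz))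
        refine bootA_comb R _ _ _ (b * c (star z)) (mul_ne_zero hb hcs) ?_ z (star z) y x ?_ rfl ?_
        · rw [bootA_norm_mul, norm_c_star]
          have h2 := hsmall z hz
          have h3 := bootA_norm_c_ge (hz0 z hz)
          nlinarith
        · unfold un
          rw [star_star]
          field_simp
        · have e : c x * c z + c y * c (star z) = 1 := by
            rw [← map_mul, ← map_mul, ← map_add, hxy, map_one]
          unfold un
          rw [star_star]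
          field_simp
          linear_combination (-1 : K) * e)
    rw [hrot z hz] at h1
    exact h1
  · intro z _
    exact (measurableSet_EE _ _).diff (measurableSet_EE _ _)
  · intro z hz w hw hzw
    rw [Set.disjoint_left]
    rintro χ ⟨hχ1, hχ2⟩ ⟨hχ3, -⟩
    apply hχ2
    have hcz : c z ≠ 0 := c_ne_zero (hz0 z hz)
    have hcs : c (star z) ≠ 0 := c_ne_zero (star_ne_zero' (hz0 z hz))
    have hcw : c w ≠ 0 := c_ne_zero (hz0 w hw)
    have hcsw : c (star w) ≠ 0 := c_ne_zero (star_ne_zero' (hz0 w hw))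
    have hc1 : IsCoprime (star z * w) (star w * z) := by
      have hzw' := hpair z hz w hw hzw
      have hstar : IsCoprime (star z) (star w) := by
        obtain ⟨a, a', ha⟩ := hzw'
        refine ⟨star a, star a', ?_⟩
        rw [← star_mul', ← star_mul', ← star_add, ha, star_one]
      refine IsCoprime.mul_left ?_ ?_
      · exact IsCoprime.mul_right hstar (hcop z hz).symm
      · exact IsCoprime.mul_right (hcop w hw) hzw'.symm
    obtain ⟨x, y, hxy⟩ := hc1
    have e : c x * (c (star z) * c w) + c y * (c (star w) * c z) = 1 := by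
      rw [← map_mul, ← map_mul, ← map_mul, ← map_mul, ← map_add, hxy, map_one]
    refine bootA_comb R (un (star z) * b) (un (star w) * b) b (b * c (star z) * c (star w))
      (mul_ne_zero (mul_ne_zero hb hcs) hcsw) ?_ (z * star w) (w * star z) (x * (z * w))
      (y * (z * w)) ?_ ?_ ?_ ⟨hχ1, hχ3⟩
    · rw [bootA_norm_mul, bootA_norm_mul, norm_c_star, norm_c_star]
      have h2 := hsmall z hz
      have h2' := hsmall w hw
      set s := ‖(c z : ℂ)‖
      set t := ‖(c w : ℂ)‖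
      have h4 : s * t ≤ (s ^ 2 + t ^ 2) / 2 := by nlinarith [sq_nonneg (s - t)]
      have h5 : 2 * R * (‖(b : ℂ)‖ * s * t) = (s * t) * (2 * R * ‖(b : ℂ)‖) := by ring
      rw [h5]
      have h6 : (s * t) * (2 * R * ‖(b : ℂ)‖) ≤ (s ^ 2 + t ^ 2) / 2 * (2 * R * ‖(b : ℂ)‖) := by
        gcongr
      linarith
    · unfold un
      rw [star_star, map_mul]
      field_simp
    · unfold un
      rw [star_star, map_mul]
      field_simp
    · unfold un
      simp only [star_star, map_mul]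
      field_simp
      linear_combination (-1 : K) * e

theorem bootA_unpow (z : GaussianInt) (hz : z ≠ 0) (j : ℕ) :
    un (star z ^ j) = c (star z) ^ j / c z ^ j := by
  rw [un_pow]
  unfold un
  rw [star_star, div_pow]

theorem boot_pow (ν : Measure X) [IsFiniteMeasure ν] (hν : InvQ ν) (R : ℝ) (hR : 0 < R) (b : K)
    (hb : b ≠ 0) (z : GaussianInt) (hcop : IsCoprime z (star z)) (J : ℕ)
    (hJ : ‖(c z : ℂ)‖ ^ J * (2 * R * ‖(b : ℂ)‖) < 1) :
    J * ((ν (EE R b)).toReal - (ν (EE R (b / c z))).toReal) ≤ (ν Set.univ).toReal := by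
  have hb' : 0 < ‖(b : ℂ)‖ := norm_pos_iff.2 (coe_ne_zero hb)
  have hRb : 0 < 2 * R * ‖(b : ℂ)‖ := by positivity
  have hz0 : z ≠ 0 := bootA_cop_ne_zero hcop
  have hcz : c z ≠ 0 := c_ne_zero hz0
  have hcs : c (star z) ≠ 0 := c_ne_zero (star_ne_zero' hz0)
  have hge := bootA_norm_c_ge hz0
  -- the rotations
  set u : ℕ → K := fun j => un (star z ^ j) with hu
  have hun : ∀ j, ‖(u j : ℂ)‖ = 1 := fun j => norm_un (pow_ne_zero _ (star_ne_zero' hz0))
  have hrot : ∀ (j : ℕ) (S : Set X), MeasurableSet S → ν (rho (u j) ⁻¹' S) = ν S := by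
    intro j S hS
    exact hν.measure_preimage (pow_ne_zero _ (star_ne_zero' hz0)) hS
  have hform : ∀ j, u j = c (star z) ^ j / c z ^ j := fun j => bootA_unpow z hz0 j
  rcases Nat.eq_zero_or_pos J with rfl | hJpos
  · simp
  have hone : (ν (EE R b)).toReal - (ν (EE R (b / c z))).toReal ≤
      (ν (EE R (u 1 * b) \ EE R b)).toReal := by
    have h1 := bootA_diff ν (EE R (u 1 * b)) (EE R b) (EE R (b / c z))
      (measurableSet_EE _ _) (measurableSet_EE _ _) (by
        obtain ⟨x, y, hxy⟩ := hcop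
        refine bootA_comb R _ _ _ (b * c (star z)) (mul_ne_zero hb hcs) ?_ z (star z) y x ?_ rfl ?_
        · rw [bootA_norm_mul, norm_c_star]
          have h3 : ‖(c z : ℂ)‖ ≤ ‖(c z : ℂ)‖ ^ J := le_self_pow₀ hge (by omega)
          nlinarith
        · rw [hform]
          field_simp
        · have e : c x * c z + c y * c (star z) = 1 := by
            rw [← map_mul, ← map_mul, ← map_add, hxy, map_one]
          rw [hform]
          field_simp
          linear_combination (-1 : K) * e)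
    rw [← bootA_rot R b (u 1) (hun 1), hrot 1 _ (measurableSet_EE R b)] at h1
    rw [← bootA_rot R b (u 1) (hun 1)]
    exact h1
  have hT : ∀ j : ℕ, (ν (EE R (u (j + 1) * b) \ EE R (u j * b))).toReal =
      (ν (EE R (u 1 * b) \ EE R b)).toReal := by
    intro j
    have h1 : EE R (u (j + 1) * b) \ EE R (u j * b) =
        rho (u j) ⁻¹' (EE R (u 1 * b) \ EE R b) := by
      rw [Set.preimage_sdiff, bootA_rot R _ (u j) (hun j), bootA_rot R _ (u j) (hun j)]
      congr 2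
      rw [← mul_assoc]
      congr 1
      rw [hform, hform, hform]
      field_simp
      ring
    rw [h1, hrot j _ ((measurableSet_EE _ _).diff (measurableSet_EE _ _))]
  have hsum := bootA_sum_le ν (Finset.range J)
    (fun j => EE R (u (j + 1) * b) \ EE R (u j * b))
    (fun j _ => (measurableSet_EE _ _).diff (measurableSet_EE _ _)) (by
      have main : ∀ j k : ℕ, j < k → k < J →
          Disjoint (EE R (u (j + 1) * b) \ EE R (u j * b))
            (EE R (u (k + 1) * b) \ EE R (u k * b)) := by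
        intro j k hjk hkJ
        rw [Set.disjoint_left]
        rintro χ ⟨hχ1, -⟩ ⟨hχ3, hχ4⟩
        apply hχ4
        obtain ⟨m, rfl⟩ : ∃ m, k = j + 1 + m := ⟨k - (j + 1), by omega⟩
        obtain ⟨x, y, hxy⟩ := (hcop.pow (m := m + 1) (n := m + 1))
        have e : c x * c z ^ (m + 1) + c y * c (star z) ^ (m + 1) = 1 := by
          rw [← map_pow, ← map_pow, ← map_mul, ← map_mul, ← map_add, hxy, map_one]
        refine bootA_comb R (u (j + 1) * b) (u (j + 1 + m + 1) * b) (u (j + 1 + m) * b)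
          (u (j + 1) * b * c (star z) ^ (m + 1)) ?_ ?_ (star z ^ (m + 1)) (z ^ (m + 1))
          (x * (star z ^ m * z)) (y * (star z ^ m * z)) ?_ ?_ ?_ ⟨hχ1, hχ3⟩
        · rw [hform]
          exact mul_ne_zero (mul_ne_zero (div_ne_zero (pow_ne_zero _ hcs) (pow_ne_zero _ hcz)) hb)
            (pow_ne_zero _ hcs)
        · rw [bootA_norm_mul, bootA_norm_mul, hun, one_mul]
          have e2 : ‖((c (star z) ^ (m + 1) : K) : ℂ)‖ = ‖(c z : ℂ)‖ ^ (m + 1) := by
            rw [← norm_c_star z, ← norm_pow]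
            rfl
          rw [e2]
          have h3 : ‖(c z : ℂ)‖ ^ (m + 1) ≤ ‖(c z : ℂ)‖ ^ J := pow_le_pow_right₀ hge (by omega)
          nlinarith
        · rw [map_pow]
        · rw [hform, hform, map_pow]
          field_simp
          ring
        · rw [hform, hform, hform, map_mul, map_mul, map_mul, map_mul, map_pow]
          have e3 : c (star z) ^ (j + 1 + m) / c z ^ (j + 1 + m) * b =
              (c (star z) ^ (j + 1 + m) / c z ^ (j + 1 + m) * b) *
              (c x * c z ^ (m + 1) + c y * c (star z) ^ (m + 1)) := by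
            rw [e, mul_one]
          rw [e3]
          field_simp
          ring
      intro i hi j hj hij
      rw [Finset.mem_range] at hi hj
      rcases lt_or_gt_of_ne hij with h | h
      · exact main i j h hj
      · exact (main j i h hi).symm)
  simp only [hT] at hsum
  rw [Finset.sum_const, Finset.card_range, nsmul_eq_mul] at hsum
  refine le_trans ?_ hsum
  gcongr

theorem bootA_lat_mono (b : K) (m n : ℕ) (hmn : m ≤ n) : lat (b / 5 ^ m) ⊆ lat (b / 5 ^ n) := by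
  rintro v ⟨z, rfl⟩
  obtain ⟨k, rfl⟩ := Nat.exists_eq_add_of_le hmn
  refine ⟨5 ^ k * z, ?_⟩
  rw [map_mul, map_pow, c_five]
  field_simp
  ring

theorem boot_inf (ν : Measure X) [IsFiniteMeasure ν] (R : ℝ) (hR : 0 < R) (b : K) (hb : b ≠ 0)
    (hsmall : 2 * R * ‖(b : ℂ)‖ < 1) (g : ℝ) (hg : 0 < g)
    (h : ∀ k : ℕ, g ≤ (ν (EE R (b / 5 ^ k))).toReal) : ν (Einf b) ≠ 0 := by
  have hanti : Antitone (fun k : ℕ => EE R (b / 5 ^ k)) := by
    intro m n hmn
    exact EE_anti R _ _ (bootA_lat_mono b m n hmn)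
  have hsub : (⋂ k : ℕ, EE R (b / 5 ^ k)) ⊆ Einf b := by
    intro χ hχ
    rw [Set.mem_iInter] at hχ
    obtain ⟨hm, ξ₀, hξ₀, hr₀⟩ := hχ 0
    refine ⟨hm, ξ₀, ?_⟩
    rintro v ⟨z, k, rfl⟩
    obtain ⟨-, ξ, hξ, hr⟩ := hχ k
    have he : ξ₀ = ξ := by
      refine bootA_consist hξ₀ hξ hr₀ hr hb hsmall ?_ ?_
      · intro w
        exact ⟨w, by simp⟩
      · intro w
        refine ⟨5 ^ k * w, ?_⟩
        rw [map_mul, map_pow, c_five]
        field_simp
    subst he
    exact hr _ ⟨z, by field_simp⟩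
  have hlim := tendsto_measure_iInter_atTop (μ := ν)
    (s := fun k : ℕ => EE R (b / 5 ^ k))
    (fun k => (measurableSet_EE R _).nullMeasurableSet) hanti ⟨0, by finiteness⟩
  have hge : ENNReal.ofReal g ≤ ν (⋂ k : ℕ, EE R (b / 5 ^ k)) := by
    refine ge_of_tendsto' hlim fun k => ?_
    exact ENNReal.ofReal_le_of_le_toReal (h k)
  intro h0
  have h1 : ν (⋂ k : ℕ, EE R (b / 5 ^ k)) = 0 := measure_mono_null hsub h0
  rw [h1] at hge
  have h2 : 0 < ENNReal.ofReal g := ENNReal.ofReal_pos.2 hg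
  exact absurd hge (not_le.2 h2)

end Pool.Agent.H56
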