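import Pool.Agent.H56.ModPrimes
import Pool.Agent.H56.ModBootA
set_option autoImplicit false
open MeasureTheory Complex
namespace Pool.Agent.H56

theorem bootB_exists_z (p : ℕ) (hp : p.Prime) (h4 : p % 4 = 1) :
    ∃ z : GaussianInt, z * star z = (p : GaussianInt) ∧ IsCoprime z (star z) := by
  have := Fact.mk hp
  obtain ⟨a, b, hab⟩ := Nat.Prime.sq_add_sq (p := p) (by omega)
  have hmul : (⟨a, b⟩ : GaussianInt) * star (⟨a, b⟩ : GaussianInt) = (p : GaussianInt) := by
    rw [← hab]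
    apply Zsqrtd.ext
    · rw [Zsqrtd.re_natCast, Zsqrtd.re_mul]
      simp
      ring
    · rw [Zsqrtd.im_natCast, Zsqrtd.im_mul]
      simp
      ring
  refine ⟨⟨a, b⟩, hmul, ?_⟩
  have hp5 : 5 ≤ p := by
    have := hp.two_le
    omega
  have hcopN : Nat.Coprime (2 * a) p := by
    refine ((Nat.Prime.coprime_iff_not_dvd hp).2 ?_).symm
    intro hdvd
    rcases (Nat.Prime.dvd_mul hp).1 hdvd with h2 | ha
    · have := Nat.le_of_dvd (by norm_num) h2
      omega
    · rcases Nat.eq_zero_or_pos a with h0 | h0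
      · subst h0
        have hb : b ^ 2 = p := by simpa using hab
        have := hp
        rw [← hb] at this
        exact (Nat.Prime.not_prime_pow (le_refl 2)) this
      · have h1 := Nat.le_of_dvd h0 ha
        nlinarith
  have hcop : IsCoprime ((2 * a : ℕ) : ℤ) (p : ℤ) := Nat.isCoprime_iff_coprime.2 hcopN
  obtain ⟨s, t, hst⟩ := hcop
  refine ⟨(s : GaussianInt) + t * star (⟨a, b⟩ : GaussianInt), (s : GaussianInt), ?_⟩
  have h1 : ((s : GaussianInt) + t * star (⟨a, b⟩ : GaussianInt)) * (⟨a, b⟩ : GaussianInt) +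
      (s : GaussianInt) * star (⟨a, b⟩ : GaussianInt) =
      s * ((⟨a, b⟩ : GaussianInt) + star (⟨a, b⟩ : GaussianInt)) +
        t * ((⟨a, b⟩ : GaussianInt) * star (⟨a, b⟩ : GaussianInt)) := by ring
  have h2 : (⟨a, b⟩ : GaussianInt) + star (⟨a, b⟩ : GaussianInt) = ((2 * a : ℕ) : GaussianInt) := by
    apply Zsqrtd.ext
    · simp
      ring
    · simp
  rw [h1, hmul, h2]
  exact_mod_cast congrArg (Int.cast : ℤ → GaussianInt) hst

theorem bootB_norm_sq {p : ℕ} {z : GaussianInt} (h : z * star z = (p : GaussianInt)) :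
    ‖((c z : K) : ℂ)‖ ^ 2 = p := by
  have h1 : c z * c (star z) = (p : K) := by
    rw [← map_mul, h, map_natCast]
  have h2 : ((c z : K) : ℂ) * ((c (star z) : K) : ℂ) = (p : ℂ) := by
    have := congrArg (fun x : K => (x : ℂ)) h1
    simpa using this
  have h3 := congrArg norm h2
  rw [norm_mul, norm_c_star, Complex.norm_natCast] at h3
  rw [sq, h3]

theorem bootB_coprime {p q : ℕ} (hp : p.Prime) (hq : q.Prime) (hpq : p ≠ q) {z w : GaussianInt}
    (hz : z * star z = (p : GaussianInt)) (hw : w * star w = (q : GaussianInt)) :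
    IsCoprime z w := by
  have h1 : IsCoprime (p : ℤ) (q : ℤ) := Nat.isCoprime_iff_coprime.2 ((Nat.coprime_primes hp hq).2 hpq)
  have h2 : IsCoprime (p : GaussianInt) (q : GaussianInt) := by
    have := h1.map (Int.castRingHom GaussianInt)
    simpa using this
  rw [← hz, ← hw] at h2
  exact h2.of_mul_left_left.of_mul_right_left

/-- one step of the chain -/
theorem bootB_step (c1 x0 : ℝ)
    (hprimes : ∀ x : ℝ, x0 ≤ x →
      x ^ c1 ≤ (((Finset.range (⌊x⌋₊ + 1)).filter (fun p => p.Prime ∧ p % 4 = 1)).card : ℝ))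
    (ν : Measure X) [IsFiniteMeasure ν] (hν : InvQ ν) (R : ℝ) (hR : 0 < R) (b : K) (hb : b ≠ 0)
    (hx : x0 ≤ 1 / (4 * R * ‖(b : ℂ)‖)) :
    ∃ z : GaussianInt, z ≠ 0 ∧ 2 ≤ ‖((c z : K) : ℂ)‖ ∧
      (ν (EE R b)).toReal - (ν (EE R (b / c z))).toReal ≤
        (ν Set.univ).toReal / (1 / (4 * R * ‖(b : ℂ)‖)) ^ c1 := by
  classical
  have hbn : 0 < ‖(b : ℂ)‖ := norm_pos_iff.2 (coe_ne_zero hb)
  set x : ℝ := 1 / (4 * R * ‖(b : ℂ)‖) with hxdef
  have hxpos : 0 < x := by positivity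
  set P : Finset ℕ := (Finset.range (⌊x⌋₊ + 1)).filter (fun p => p.Prime ∧ p % 4 = 1) with hP
  have hch : ∀ p : ℕ, ∃ z : GaussianInt, (p.Prime ∧ p % 4 = 1) →
      (z * star z = (p : GaussianInt) ∧ IsCoprime z (star z)) := by
    intro p
    by_cases h : p.Prime ∧ p % 4 = 1
    · obtain ⟨z, hz⟩ := bootB_exists_z p h.1 h.2
      exact ⟨z, fun _ => hz⟩
    · exact ⟨0, fun h' => absurd h' h⟩
  choose f hf using hch
  have hPmem : ∀ p ∈ P, (p.Prime ∧ p % 4 = 1) ∧ (p : ℝ) ≤ x := by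
    intro p hp
    rw [hP, Finset.mem_filter, Finset.mem_range] at hp
    refine ⟨hp.2, ?_⟩
    have h1 : p ≤ ⌊x⌋₊ := by omega
    exact (Nat.le_floor_iff hxpos.le).1 h1
  have hinj : Set.InjOn f (P : Set ℕ) := by
    intro p hp q hq hpq
    have h1 := bootB_norm_sq (hf p (hPmem p hp).1).1
    have h2 := bootB_norm_sq (hf q (hPmem q hq).1).1
    rw [hpq, h2] at h1
    exact_mod_cast h1.symm
  set Z : Finset GaussianInt := P.image f with hZ
  have hcard : Z.card = P.card := Finset.card_image_of_injOn hinj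
  have hZcard : x ^ c1 ≤ (Z.card : ℝ) := by
    rw [hcard]
    exact hprimes x hx
  have hZmem : ∀ z ∈ Z, ∃ p ∈ P, f p = z := by
    intro z hz
    simpa [hZ] using hz
  have hsum := boot_sum ν hν R hR b hb Z
    (by
      intro z hz
      obtain ⟨p, hp, rfl⟩ := hZmem z hz
      exact (hf p (hPmem p hp).1).2)
    (by
      intro z hz w hw hzw
      obtain ⟨p, hp, rfl⟩ := hZmem z hz
      obtain ⟨q, hq, rfl⟩ := hZmem w hw
      refine bootB_coprime (hPmem p hp).1.1 (hPmem q hq).1.1 ?_ (hf p (hPmem p hp).1).1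
        (hf q (hPmem q hq).1).1
      rintro rfl
      exact hzw rfl)
    (by
      intro z hz
      obtain ⟨p, hp, rfl⟩ := hZmem z hz
      rw [bootB_norm_sq (hf p (hPmem p hp).1).1]
      have h1 : (p : ℝ) ≤ x := (hPmem p hp).2
      have h2 : (p : ℝ) * (2 * R * ‖(b : ℂ)‖) ≤ x * (2 * R * ‖(b : ℂ)‖) := by
        apply mul_le_mul_of_nonneg_right h1 (by positivity)
      have h3 : x * (2 * R * ‖(b : ℂ)‖) = 1 / 2 := by
        rw [hxdef]
        field_simp
        norm_num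
      linarith)
  have hxc : 0 < x ^ c1 := Real.rpow_pos_of_pos hxpos c1
  have hne : Z.Nonempty := by
    rw [← Finset.card_pos]
    have : (0 : ℝ) < Z.card := lt_of_lt_of_le hxc hZcard
    exact_mod_cast this
  have hT : 0 ≤ (ν Set.univ).toReal := ENNReal.toReal_nonneg
  obtain ⟨z, hz, hzle⟩ := Finset.exists_le_of_sum_le hne
    (f := fun z => (ν (EE R b)).toReal - (ν (EE R (b / c z))).toReal)
    (g := fun _ => (ν Set.univ).toReal / x ^ c1)
    (by
      refine hsum.trans ?_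
      rw [Finset.sum_const, nsmul_eq_mul, mul_div_assoc', le_div_iff₀ hxc, mul_comm]
      exact mul_le_mul_of_nonneg_right hZcard hT)
  obtain ⟨p, hp, rfl⟩ := hZmem z hz
  have hns := bootB_norm_sq (hf p (hPmem p hp).1).1
  have hp5 : 5 ≤ p := by
    have h1 := (hPmem p hp).1.1.two_le
    have h2 := (hPmem p hp).1.2
    omega
  have hp5' : (5 : ℝ) ≤ p := by exact_mod_cast hp5
  have h2le : 2 ≤ ‖((c (f p) : K) : ℂ)‖ := by
    by_contra hcon
    push Not at hcon
    have h0 : 0 ≤ ‖((c (f p) : K) : ℂ)‖ := norm_nonneg _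
    nlinarith
  refine ⟨f p, ?_, h2le, hzle⟩
  intro h0
  rw [h0] at h2le
  simp at h2le
  linarith

/-- the chain -/
theorem bootB_chain (c1 x0 : ℝ) (hc1 : 0 < c1)
    (hprimes : ∀ x : ℝ, x0 ≤ x →
      x ^ c1 ≤ (((Finset.range (⌊x⌋₊ + 1)).filter (fun p => p.Prime ∧ p % 4 = 1)).card : ℝ))
    (ν : Measure X) [IsFiniteMeasure ν] (hν : InvQ ν) (R : ℝ) (hR : 0 < R) (b0 : K) (hb : b0 ≠ 0)
    (hx : x0 ≤ 1 / (4 * R * ‖(b0 : ℂ)‖)) :
    ∃ b : ℕ → K, (∀ k, b k ≠ 0) ∧ (∀ k, ‖(b k : ℂ)‖ ≤ ‖(b0 : ℂ)‖ / 2 ^ k) ∧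
      (∀ k, ∃ w : GaussianInt, b0 = b k * c w) ∧
      (∀ k, (ν (EE R b0)).toReal - (ν (EE R (b k))).toReal ≤
        (ν Set.univ).toReal * (4 * R * ‖(b0 : ℂ)‖) ^ c1 / (1 - (2 : ℝ) ^ (-c1))) := by
  classical
  let S : Type := {b : K // b ≠ 0 ∧ x0 ≤ 1 / (4 * R * ‖(b : ℂ)‖)}
  have hstep : ∀ b : S, ∃ z : GaussianInt, z ≠ 0 ∧ 2 ≤ ‖((c z : K) : ℂ)‖ ∧
      (ν (EE R b.1)).toReal - (ν (EE R (b.1 / c z))).toReal ≤
        (ν Set.univ).toReal / (1 / (4 * R * ‖(b.1 : ℂ)‖)) ^ c1 := fun b =>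
    bootB_step c1 x0 hprimes ν hν R hR b.1 b.2.1 b.2.2
  choose f hf0 hf2 hfle using hstep
  have hnorm : ∀ b : S, ‖((b.1 / c (f b) : K) : ℂ)‖ ≤ ‖(b.1 : ℂ)‖ / 2 := by
    intro b
    have h1 : ((b.1 / c (f b) : K) : ℂ) = (b.1 : ℂ) / ((c (f b) : K) : ℂ) := by simp
    rw [h1, norm_div]
    exact div_le_div_of_nonneg_left (norm_nonneg _) (by norm_num) (hf2 b)
  have hne : ∀ b : S, b.1 / c (f b) ≠ 0 := fun b => div_ne_zero b.2.1 (c_ne_zero (hf0 b))
  have hmem : ∀ b : S, x0 ≤ 1 / (4 * R * ‖((b.1 / c (f b) : K) : ℂ)‖) := by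
    intro b
    have hbn : 0 < ‖(b.1 : ℂ)‖ := norm_pos_iff.2 (coe_ne_zero b.2.1)
    have hbn' : 0 < ‖((b.1 / c (f b) : K) : ℂ)‖ := norm_pos_iff.2 (coe_ne_zero (hne b))
    refine b.2.2.trans ?_
    apply one_div_le_one_div_of_le (by positivity)
    have := hnorm b
    apply mul_le_mul_of_nonneg_left _ (by positivity)
    linarith
  let next : S → S := fun b => ⟨b.1 / c (f b), hne b, hmem b⟩
  let s : ℕ → S := fun k => next^[k] ⟨b0, hb, hx⟩
  have hs0 : s 0 = ⟨b0, hb, hx⟩ := rfl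
  have hsk : ∀ k, s (k + 1) = next (s k) := fun k => Function.iterate_succ_apply' next k _
  have hT : 0 ≤ (ν Set.univ).toReal := ENNReal.toReal_nonneg
  have hb0n : 0 < ‖(b0 : ℂ)‖ := norm_pos_iff.2 (coe_ne_zero hb)
  have hnk : ∀ k, ‖((s k).1 : ℂ)‖ ≤ ‖(b0 : ℂ)‖ / 2 ^ k := by
    intro k
    induction k with
    | zero => simp [hs0]
    | succ k ih =>
      rw [hsk]
      refine (hnorm (s k)).trans ?_
      rw [pow_succ, ← div_div]
      linarith
  refine ⟨fun k => (s k).1, fun k => (s k).2.1, hnk, ?_, ?_⟩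
  · intro k
    induction k with
    | zero => exact ⟨1, by simp [hs0]⟩
    | succ k ih =>
      obtain ⟨w, hw⟩ := ih
      refine ⟨f (s k) * w, ?_⟩
      show b0 = (s (k + 1)).1 * c (f (s k) * w)
      have h1 : (s (k + 1)).1 = (s k).1 / c (f (s k)) := by rw [hsk]
      rw [h1, map_mul]
      have h2 := c_ne_zero (hf0 (s k))
      rw [← mul_assoc, div_mul_cancel₀ _ h2]
      exact hw
  · set q : ℝ := (2 : ℝ) ^ (-c1) with hq
    have hq0 : 0 < q := Real.rpow_pos_of_pos (by norm_num) _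
    have hq1 : q < 1 := by
      rw [hq]
      exact Real.rpow_lt_one_of_one_lt_of_neg (by norm_num) (by linarith)
    have hloss : ∀ k, (ν (EE R (s k).1)).toReal - (ν (EE R (s (k + 1)).1)).toReal ≤
        (ν Set.univ).toReal * (4 * R * ‖(b0 : ℂ)‖) ^ c1 * q ^ k := by
      intro k
      have h1 := hfle (s k)
      have h2 : (s (k + 1)).1 = (s k).1 / c (f (s k)) := by rw [hsk]
      rw [h2]
      refine h1.trans ?_
      have hkn : 0 < ‖((s k).1 : ℂ)‖ := norm_pos_iff.2 (coe_ne_zero (s k).2.1)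
      have h3 : (1 / (4 * R * ‖((s k).1 : ℂ)‖)) ^ c1 = ((4 * R * ‖((s k).1 : ℂ)‖) ^ c1)⁻¹ := by
        rw [one_div, Real.inv_rpow (by positivity)]
      rw [h3, div_inv_eq_mul, mul_assoc (ν Set.univ).toReal]
      apply mul_le_mul_of_nonneg_left _ hT
      have h4 : q ^ k = ((1 / 2 : ℝ) ^ k) ^ c1 := by
        rw [hq, ← Real.rpow_natCast, ← Real.rpow_mul (by norm_num), ← Real.rpow_natCast (1 / 2),
          ← Real.rpow_mul (by norm_num), one_div, Real.inv_rpow (by norm_num), ← Real.rpow_neg (by norm_num)]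
        congr 1
        ring
      rw [h4, ← Real.mul_rpow (by positivity) (by positivity)]
      apply Real.rpow_le_rpow (by positivity) _ hc1.le
      have h5 := hnk k
      have h6 : 4 * R * ‖((s k).1 : ℂ)‖ ≤ 4 * R * (‖(b0 : ℂ)‖ / 2 ^ k) :=
        mul_le_mul_of_nonneg_left h5 (by positivity)
      refine h6.trans (le_of_eq ?_)
      rw [one_div, inv_pow]
      ring
    intro k
    have htel : (ν (EE R b0)).toReal - (ν (EE R (s k).1)).toReal ≤
        (ν Set.univ).toReal * (4 * R * ‖(b0 : ℂ)‖) ^ c1 * ∑ j ∈ Finset.range k, q ^ j := by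
      induction k with
      | zero => simp [hs0]
      | succ k ih =>
        rw [Finset.sum_range_succ, mul_add]
        have := hloss k
        linarith
    refine htel.trans ?_
    rw [div_eq_mul_inv]
    apply mul_le_mul_of_nonneg_left _ (by positivity)
    have hgeom : ∑ j ∈ Finset.range k, q ^ j ≤ ∑' j : ℕ, q ^ j :=
      (summable_geometric_of_lt_one hq0.le hq1).sum_le_tsum _ (fun j _ => by positivity)
    rw [tsum_geometric_of_lt_one hq0.le hq1] at hgeom
    exact hgeom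

theorem bootB_norm_gpi : ‖((c gpi : K) : ℂ)‖ ^ 2 = 5 := by
  have h : gpi * star gpi = ((5 : ℕ) : GaussianInt) := by
    rw [gpi_mul_star]
    norm_num
  have := bootB_norm_sq h
  simpa using this

theorem bootB_cop_gpi : IsCoprime gpi (star gpi) := by
  refine ⟨star gpi - 1, -1, ?_⟩
  decide

/-- dividing by a fixed Gaussian integer coprime to its conjugate costs nothing in the limit -/
theorem bootB_div (ν : Measure X) [IsFiniteMeasure ν] (hν : InvQ ν) (R : ℝ) (hR : 0 < R)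
    (b : ℕ → K) (hb : ∀ k, b k ≠ 0)
    (hlim : Filter.Tendsto (fun k => ‖(b k : ℂ)‖) Filter.atTop (nhds 0)) (z : GaussianInt)
    (hcop : IsCoprime z (star z)) (h : ℝ)
    (hev : ∀ ε : ℝ, 0 < ε → ∀ᶠ k in Filter.atTop, h - ε ≤ (ν (EE R (b k))).toReal) :
    ∀ ε : ℝ, 0 < ε → ∀ᶠ k in Filter.atTop, h - ε ≤ (ν (EE R (b k / c z))).toReal := by
  intro ε hε
  obtain ⟨J, hJ⟩ := exists_nat_gt (2 * (ν Set.univ).toReal / ε)
  have hT : 0 ≤ (ν Set.univ).toReal := ENNReal.toReal_nonneg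
  have hJ0 : (0 : ℝ) < J := lt_of_le_of_lt (by positivity) hJ
  have hlim2 : Filter.Tendsto (fun k => ‖((c z : K) : ℂ)‖ ^ J * (2 * R * ‖(b k : ℂ)‖))
      Filter.atTop (nhds 0) := by
    have := (hlim.const_mul (2 * R)).const_mul (‖((c z : K) : ℂ)‖ ^ J)
    simpa using this
  have h1 : ∀ᶠ k in Filter.atTop, ‖((c z : K) : ℂ)‖ ^ J * (2 * R * ‖(b k : ℂ)‖) < 1 :=
    hlim2.eventually_lt_const (by norm_num)
  filter_upwards [h1, hev (ε / 2) (by positivity)] with k hk1 hk2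
  have h2 := boot_pow ν hν R hR (b k) (hb k) z hcop J hk1
  have h3 : (ν (EE R (b k))).toReal - (ν (EE R (b k / c z))).toReal ≤ ε / 2 := by
    rw [div_lt_iff₀ hε] at hJ
    by_contra hcon
    push Not at hcon
    have h4 : (J : ℝ) * (ε / 2) < J * ((ν (EE R (b k))).toReal - (ν (EE R (b k / c z))).toReal) :=
      mul_lt_mul_of_pos_left hcon hJ0
    linarith
  linarith

theorem boot : ∃ κ : ℝ, 0 < κ ∧ ∀ (ν : Measure X) [IsFiniteMeasure ν], InvQ ν →
    ∀ (R : ℝ), 0 < R → ∀ (D : GaussianInt), D ≠ 0 → ∀ c0 : ℝ, 0 < c0 →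
    (∀ n : ℕ, c0 * Real.exp (-κ * n) ≤ (ν (EE R (1 / c (D * gpi ^ n)))).toReal) →
    ∃ M : GaussianInt, M ≠ 0 ∧ ν (Einf (1 / c M)) ≠ 0 := by
  obtain ⟨c1, hc1, x0, hprimes⟩ := primes_lower
  refine ⟨c1 / 2, by positivity, ?_⟩
  intro ν _ hν R hR D hD c0 hc0 hlow
  have hT : 0 ≤ (ν Set.univ).toReal := ENNReal.toReal_nonneg
  have hDn : 0 < ‖((c D : K) : ℂ)‖ := norm_pos_iff.2 (coe_ne_zero (c_ne_zero hD))
  have hg2 : 2 ≤ ‖((c gpi : K) : ℂ)‖ := by
    have h1 := bootB_norm_gpi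
    have h0 : 0 ≤ ‖((c gpi : K) : ℂ)‖ := norm_nonneg _
    nlinarith
  set B : ℕ → K := fun n => 1 / c (D * gpi ^ n) with hB
  have hMne : ∀ n, D * gpi ^ n ≠ 0 := fun n => mul_ne_zero hD (pow_ne_zero _ gpi_ne_zero)
  have hBne : ∀ n, B n ≠ 0 := fun n => one_div_ne_zero (c_ne_zero (hMne n))
  have hBn : ∀ n, ‖(B n : ℂ)‖ ≤ (1 / ‖((c D : K) : ℂ)‖) * (1 / 2) ^ n := by
    intro n
    have h1 : (B n : ℂ) = 1 / (((c D : K) : ℂ) * ((c gpi : K) : ℂ) ^ n) := by
      simp [hB]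
    rw [h1, norm_div, norm_mul, norm_pow, norm_one, one_div_pow, one_div_mul_one_div]
    apply one_div_le_one_div_of_le (by positivity)
    apply mul_le_mul_of_nonneg_left _ hDn.le
    exact pow_le_pow_left₀ (by norm_num) hg2 n
  have hBn0 : ∀ n, 0 < ‖(B n : ℂ)‖ := fun n => norm_pos_iff.2 (coe_ne_zero (hBne n))
  have hBlim : Filter.Tendsto (fun n => ‖(B n : ℂ)‖) Filter.atTop (nhds 0) := by
    have h1 : Filter.Tendsto (fun n : ℕ => (1 / ‖((c D : K) : ℂ)‖) * (1 / 2 : ℝ) ^ n)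
        Filter.atTop (nhds 0) := by
      have := (tendsto_pow_atTop_nhds_zero_of_lt_one (r := (1 / 2 : ℝ)) (by norm_num)
        (by norm_num)).const_mul (1 / ‖((c D : K) : ℂ)‖)
      simpa using this
    exact squeeze_zero (fun n => norm_nonneg _) hBn h1
  set q : ℝ := (2 : ℝ) ^ (-c1) with hq
  have hq0 : 0 < q := Real.rpow_pos_of_pos (by norm_num) _
  have hq1 : q < 1 := Real.rpow_lt_one_of_one_lt_of_neg (by norm_num) (by linarith)
  -- the loss compared with the lower bound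
  have hr : q * Real.exp (c1 / 2) < 1 := by
    rw [hq, Real.rpow_def_of_pos (by norm_num : (0 : ℝ) < 2), ← Real.exp_add]
    rw [← Real.exp_zero]
    apply Real.exp_lt_exp.2
    have := Real.log_two_gt_d9
    nlinarith
  have hloss : ∀ᶠ n : ℕ in Filter.atTop,
      (ν Set.univ).toReal * (4 * R * ‖(B n : ℂ)‖) ^ c1 / (1 - q) ≤
        c0 * Real.exp (-(c1 / 2) * n) / 2 := by
    have h1 : Filter.Tendsto (fun n : ℕ => (ν Set.univ).toReal *
        (4 * R * (1 / ‖((c D : K) : ℂ)‖)) ^ c1 / (1 - q) * (q * Real.exp (c1 / 2)) ^ n)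
        Filter.atTop (nhds 0) := by
      have := (tendsto_pow_atTop_nhds_zero_of_lt_one (r := q * Real.exp (c1 / 2)) (by positivity)
        hr).const_mul ((ν Set.univ).toReal * (4 * R * (1 / ‖((c D : K) : ℂ)‖)) ^ c1 / (1 - q))
      simpa using this
    have h2 := h1.eventually_le_const (show (0 : ℝ) < c0 / 2 by positivity)
    filter_upwards [h2] with n hn
    have h3 : (4 * R * ‖(B n : ℂ)‖) ^ c1 ≤ (4 * R * (1 / ‖((c D : K) : ℂ)‖)) ^ c1 * q ^ n := by
      have h4 : q ^ n = ((1 / 2 : ℝ) ^ n) ^ c1 := by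
        rw [hq, ← Real.rpow_natCast, ← Real.rpow_mul (by norm_num), ← Real.rpow_natCast (1 / 2),
          ← Real.rpow_mul (by norm_num), one_div, Real.inv_rpow (by norm_num),
          ← Real.rpow_neg (by norm_num)]
        congr 1
        ring
      rw [h4, ← Real.mul_rpow (by positivity) (by positivity)]
      apply Real.rpow_le_rpow (by positivity) _ hc1.le
      have h5 := mul_le_mul_of_nonneg_left (hBn n) (show (0 : ℝ) ≤ 4 * R by positivity)
      linarith
    have h6 : (ν Set.univ).toReal * (4 * R * ‖(B n : ℂ)‖) ^ c1 / (1 - q) ≤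
        (ν Set.univ).toReal * ((4 * R * (1 / ‖((c D : K) : ℂ)‖)) ^ c1 * q ^ n) / (1 - q) := by
      apply div_le_div_of_nonneg_right _ (by linarith)
      exact mul_le_mul_of_nonneg_left h3 hT
    refine h6.trans ?_
    have hE : Real.exp (-(c1 / 2) * n) = (Real.exp (c1 / 2) ^ n)⁻¹ := by
      rw [← Real.exp_nat_mul, ← Real.exp_neg]
      congr 1
      ring
    have hEpos : 0 < Real.exp (c1 / 2) ^ n := by positivity
    rw [hE]
    have h7 := mul_le_mul_of_nonneg_right hn (inv_pos.2 hEpos).le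
    have h8 : (ν Set.univ).toReal * (4 * R * (1 / ‖((c D : K) : ℂ)‖)) ^ c1 / (1 - q) *
        (q * Real.exp (c1 / 2)) ^ n * (Real.exp (c1 / 2) ^ n)⁻¹ =
        (ν Set.univ).toReal * ((4 * R * (1 / ‖((c D : K) : ℂ)‖)) ^ c1 * q ^ n) / (1 - q) := by
      rw [mul_pow]
      field_simp
    rw [h8] at h7
    refine h7.trans (le_of_eq ?_)
    ring
  have hx : ∀ᶠ n : ℕ in Filter.atTop, x0 ≤ 1 / (4 * R * ‖(B n : ℂ)‖) := by
    have h1 : Filter.Tendsto (fun n => 4 * R * ‖(B n : ℂ)‖) Filter.atTop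
        (nhdsWithin 0 (Set.Ioi 0)) := by
      rw [tendsto_nhdsWithin_iff]
      constructor
      · have := hBlim.const_mul (4 * R)
        simpa using this
      · exact Filter.Eventually.of_forall fun n => by
          have := hBn0 n
          show 0 < 4 * R * ‖(B n : ℂ)‖
          positivity
    have h2 := h1.inv_tendsto_nhdsGT_zero
    filter_upwards [h2.eventually_ge_atTop x0] with n hn
    rw [one_div]
    exact hn
  have hs : ∀ᶠ n : ℕ in Filter.atTop, 2 * R * ‖(B n : ℂ)‖ < 1 := by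
    have := hBlim.const_mul (2 * R)
    rw [mul_zero] at this
    exact this.eventually_lt_const (by norm_num)
  obtain ⟨n, hn1, hn2, hn3⟩ := (hloss.and (hx.and hs)).exists
  obtain ⟨b, hbne, hbn, hbw, hbl⟩ :=
    bootB_chain c1 x0 hc1 hprimes ν hν R hR (B n) (hBne n) hn2
  set h : ℝ := c0 * Real.exp (-(c1 / 2) * n) / 2 with hh
  have hhpos : 0 < h := by positivity
  have hgk : ∀ k, h ≤ (ν (EE R (b k))).toReal := by
    intro k
    have h1 := hbl k
    have h2 := hlow n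
    have h3 : c0 * Real.exp (-(c1 / 2) * n) = 2 * h := by rw [hh]; ring
    rw [h3] at h2
    have h4 := h1.trans hn1
    linarith
  have hblim : Filter.Tendsto (fun k => ‖(b k : ℂ)‖) Filter.atTop (nhds 0) := by
    have h1 : Filter.Tendsto (fun k : ℕ => ‖(B n : ℂ)‖ / 2 ^ k) Filter.atTop (nhds 0) := by
      have := (tendsto_pow_atTop_nhds_zero_of_lt_one (r := (1 / 2 : ℝ)) (by norm_num)
        (by norm_num)).const_mul (‖(B n : ℂ)‖)
      simp only [mul_zero, one_div, inv_pow] at this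
      simpa [div_eq_mul_inv] using this
    exact squeeze_zero (fun k => norm_nonneg _) hbn h1
  have hcop' : IsCoprime (star gpi) (star (star gpi)) := by
    rw [star_star]
    exact bootB_cop_gpi.symm
  have key : ∀ a : ℕ, ∀ ε : ℝ, 0 < ε →
      ∀ᶠ k in Filter.atTop, h - ε ≤ (ν (EE R (b k / 5 ^ a))).toReal := by
    intro a
    induction a with
    | zero =>
      intro ε hε
      refine Filter.Eventually.of_forall fun k => ?_
      have := hgk k
      simp only [pow_zero, div_one]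
      linarith
    | succ a ih =>
      have h5 : ∀ k, b k / 5 ^ a ≠ 0 := fun k =>
        div_ne_zero (hbne k) (pow_ne_zero _ (by norm_num))
      have hl : Filter.Tendsto (fun k => ‖((b k / 5 ^ a : K) : ℂ)‖) Filter.atTop (nhds 0) := by
        have h1 : (fun k => ‖((b k / 5 ^ a : K) : ℂ)‖) = fun k => ‖(b k : ℂ)‖ * (1 / 5 ^ a) := by
          funext k
          have e5 : ((5 : K) : ℂ) = 5 := rfl
          have e6 : ((b k / 5 ^ a : K) : ℂ) = (b k : ℂ) / ((5 : K) : ℂ) ^ a := by simp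
          rw [e6, e5, norm_div, norm_pow, Complex.norm_ofNat]
          ring
        rw [h1]
        have := hblim.mul_const (1 / 5 ^ a : ℝ)
        simpa using this
      have h6 := bootB_div ν hν R hR (fun k => b k / 5 ^ a) h5 hl gpi bootB_cop_gpi h ih
      have h7 : ∀ k, b k / 5 ^ a / c gpi ≠ 0 := fun k =>
        div_ne_zero (h5 k) (c_ne_zero gpi_ne_zero)
      have hl2 : Filter.Tendsto (fun k => ‖((b k / 5 ^ a / c gpi : K) : ℂ)‖) Filter.atTop
          (nhds 0) := by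
        have h1 : (fun k => ‖((b k / 5 ^ a / c gpi : K) : ℂ)‖) =
            fun k => ‖((b k / 5 ^ a : K) : ℂ)‖ * (1 / ‖((c gpi : K) : ℂ)‖) := by
          funext k
          simp [div_eq_mul_inv]
        rw [h1]
        have := hl.mul_const (1 / ‖((c gpi : K) : ℂ)‖)
        simpa using this
      have h8 := bootB_div ν hν R hR (fun k => b k / 5 ^ a / c gpi) h7 hl2 (star gpi) hcop' h h6
      intro ε hε
      filter_upwards [h8 ε hε] with k hk
      have h9 : b k / 5 ^ a / c gpi / c (star gpi) = b k / 5 ^ (a + 1) := by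
        rw [div_div, c_gpi_mul, div_div, ← pow_succ]
      rw [h9] at hk
      exact hk
  refine ⟨D * gpi ^ n, hMne n, ?_⟩
  refine boot_inf ν R hR (B n) (hBne n) hn3 (h / 2) (by positivity) ?_
  intro a
  obtain ⟨k, hk⟩ := (key a (h / 2) (by positivity)).exists
  have h1 : EE R (b k / 5 ^ a) ⊆ EE R (B n / 5 ^ a) := by
    apply EE_anti
    rintro v ⟨z, rfl⟩
    obtain ⟨w, hw⟩ := hbw k
    refine ⟨w * z, ?_⟩
    rw [hw, map_mul]
    ring
  have h2 : (ν (EE R (b k / 5 ^ a))).toReal ≤ (ν (EE R (B n / 5 ^ a))).toReal :=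
    ENNReal.toReal_mono (measure_ne_top _ _) (measure_mono h1)
  linarith
end Pool.Agent.H56
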