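import Mathlib
set_option autoImplicit false

/-! Averages of a cosine over the orbit of an irrational rotation of the circle. -/

namespace Pool.Agent.H56

open MeasureTheory Filter Topology

/-- The period is positive. -/
theorem circle_fact : Fact (0 < 2 * Real.pi) := ⟨Real.two_pi_pos⟩

attribute [local instance] circle_fact

/-- The additive circle of length `2π`. -/
abbrev CircT : Type := AddCircle (2 * Real.pi)

/-- The mean value of a continuous function. -/
noncomputable def circleInt (f : C(CircT, ℂ)) : ℂ := ∫ t, f t ∂(AddCircle.haarAddCircle)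

/-- The average over an orbit. -/
noncomputable def circleAvg (θ : CircT) (n : ℕ) (f : C(CircT, ℂ)) : ℂ :=
  (∑ k ∈ Finset.range n, f (k • θ)) / n

theorem circle_integrable (f : C(CircT, ℂ)) :
    Integrable (fun t => f t) (AddCircle.haarAddCircle (T := 2 * Real.pi)) :=
  f.continuous.integrable_of_hasCompactSupport (HasCompactSupport.of_compactSpace f)

theorem circleInt_add (f g : C(CircT, ℂ)) : circleInt (f + g) = circleInt f + circleInt g := by
  unfold circleInt
  simp only [ContinuousMap.add_apply]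
  exact integral_add (circle_integrable f) (circle_integrable g)

theorem circleInt_smul (a : ℂ) (f : C(CircT, ℂ)) : circleInt (a • f) = a * circleInt f := by
  unfold circleInt
  simp only [ContinuousMap.smul_apply, smul_eq_mul]
  exact integral_const_mul a _

theorem circleInt_sub (f g : C(CircT, ℂ)) : circleInt (f - g) = circleInt f - circleInt g := by
  unfold circleInt
  simp only [ContinuousMap.sub_apply]
  exact integral_sub (circle_integrable f) (circle_integrable g)

theorem norm_circleInt_le (f : C(CircT, ℂ)) : ‖circleInt f‖ ≤ ‖f‖ := by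
  unfold circleInt
  refine (norm_integral_le_of_norm_le_const (C := ‖f‖)
    (Eventually.of_forall fun t => f.norm_coe_le_norm t)).trans ?_
  simp

theorem circleAvg_add (θ : CircT) (n : ℕ) (f g : C(CircT, ℂ)) :
    circleAvg θ n (f + g) = circleAvg θ n f + circleAvg θ n g := by
  unfold circleAvg
  simp only [ContinuousMap.add_apply, Finset.sum_add_distrib, add_div]

theorem circleAvg_sub (θ : CircT) (n : ℕ) (f g : C(CircT, ℂ)) :
    circleAvg θ n (f - g) = circleAvg θ n f - circleAvg θ n g := by
  unfold circleAvg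
  simp only [ContinuousMap.sub_apply, Finset.sum_sub_distrib, sub_div]

theorem circleAvg_smul (θ : CircT) (n : ℕ) (a : ℂ) (f : C(CircT, ℂ)) :
    circleAvg θ n (a • f) = a * circleAvg θ n f := by
  unfold circleAvg
  simp only [ContinuousMap.smul_apply, smul_eq_mul, ← Finset.mul_sum, mul_div_assoc]

theorem norm_circleAvg_le (θ : CircT) (n : ℕ) (f : C(CircT, ℂ)) : ‖circleAvg θ n f‖ ≤ ‖f‖ := by
  unfold circleAvg
  rw [norm_div, Complex.norm_natCast]
  rcases Nat.eq_zero_or_pos n with rfl | hn
  · simp
  have hn' : (0 : ℝ) < n := by exact_mod_cast hn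
  rw [div_le_iff₀ hn']
  refine (norm_sum_le _ _).trans ?_
  refine (Finset.sum_le_card_nsmul _ _ ‖f‖ fun k _ => f.norm_coe_le_norm _).trans ?_
  rw [Finset.card_range, nsmul_eq_mul, mul_comm]

theorem circle_fourier (ψ : ℂ) (hroot : ∀ n : ℕ, 0 < n → ψ ^ n ≠ 1) (θ : CircT)
    (hθ : ((AddCircle.toCircle θ : Circle) : ℂ) = ψ) (m : ℤ) :
    Tendsto (fun n => circleAvg θ n (fourier m)) atTop (𝓝 (circleInt (fourier m))) := by
  have hψ0 : ψ ≠ 0 := by
    intro h
    have h1 : ‖((AddCircle.toCircle θ : Circle) : ℂ)‖ = 1 := Circle.norm_coe _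
    rw [hθ, h, norm_zero] at h1
    exact zero_ne_one h1
  have hval : ∀ k : ℕ, (fourier m : C(CircT, ℂ)) (k • θ) = (ψ ^ m) ^ k := by
    intro k
    rw [fourier_apply, AddCircle.toCircle_zsmul, AddCircle.toCircle_nsmul, Circle.coe_zpow,
      Circle.coe_pow, hθ, ← zpow_natCast, ← zpow_natCast, ← zpow_mul, ← zpow_mul, mul_comm]
  rcases eq_or_ne m 0 with rfl | hm
  · have h1 : circleInt (fourier 0) = 1 := by
      unfold circleInt
      simp
    rw [h1]
    refine tendsto_const_nhds.congr' ?_
    filter_upwards [eventually_gt_atTop 0] with n hn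
    unfold circleAvg
    have : (n : ℂ) ≠ 0 := by exact_mod_cast hn.ne'
    simp [this]
  · have h1 : circleInt (fourier m) = 0 := by
      unfold circleInt
      exact integral_eq_zero_of_add_right_eq_neg
        (fourier_add_half_inv_index hm Real.two_pi_pos)
    rw [h1]
    have hw : ψ ^ m ≠ 1 := by
      intro h
      obtain ⟨j, hj | hj⟩ := m.eq_nat_or_neg
      · rw [hj, zpow_natCast] at h
        refine hroot j ?_ h
        rcases Nat.eq_zero_or_pos j with rfl | h'
        · exact absurd hj (by simpa using hm)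
        · exact h'
      · rw [hj, zpow_neg, zpow_natCast, inv_eq_one] at h
        refine hroot j ?_ h
        rcases Nat.eq_zero_or_pos j with rfl | h'
        · exact absurd hj (by simpa using hm)
        · exact h'
    have hnorm : ‖ψ ^ m‖ = 1 := by
      rw [← hθ, ← Circle.coe_zpow, Circle.norm_coe]
    have hb : ∀ n, ‖circleAvg θ n (fourier m)‖ ≤ (2 / ‖ψ ^ m - 1‖) / n := by
      intro n
      unfold circleAvg
      rw [Finset.sum_congr rfl fun k _ => hval k, geom_sum_eq hw, norm_div, norm_div,
        Complex.norm_natCast]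
      gcongr
      refine (norm_sub_le _ _).trans ?_
      rw [norm_pow, hnorm, one_pow, norm_one]
      norm_num
    refine squeeze_zero_norm hb ?_
    exact tendsto_const_nhds.div_atTop tendsto_natCast_atTop_atTop

theorem circle_weyl (ψ : ℂ) (hroot : ∀ n : ℕ, 0 < n → ψ ^ n ≠ 1) (θ : CircT)
    (hθ : ((AddCircle.toCircle θ : Circle) : ℂ) = ψ) (f : C(CircT, ℂ)) :
    Tendsto (fun n => circleAvg θ n f) atTop (𝓝 (circleInt f)) := by
  have hspan : ∀ g ∈ Submodule.span ℂ (Set.range (fourier (T := 2 * Real.pi))),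
      Tendsto (fun n => circleAvg θ n g) atTop (𝓝 (circleInt g)) := by
    intro g hg
    induction hg using Submodule.span_induction with
    | mem x hx =>
      obtain ⟨m, rfl⟩ := hx
      exact circle_fourier ψ hroot θ hθ m
    | zero =>
      have h1 := circle_fourier ψ hroot θ hθ 0
      have h2 := h1.const_mul 0
      have e1 : ∀ n, circleAvg θ n 0 = 0 * circleAvg θ n (fourier 0) := fun n => by
        rw [← circleAvg_smul, zero_smul]
      have e2 : circleInt 0 = 0 * circleInt (fourier 0) := by
        rw [← circleInt_smul, zero_smul]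
      rw [e2]
      simp_rw [e1]
      exact h2
    | add x y _ _ hx hy =>
      rw [circleInt_add]
      simp_rw [circleAvg_add]
      exact hx.add hy
    | smul a x _ hx =>
      rw [circleInt_smul]
      simp_rw [circleAvg_smul]
      exact hx.const_mul a
  have hf : f ∈ closure ((Submodule.span ℂ (Set.range (fourier (T := 2 * Real.pi)))) :
      Set C(CircT, ℂ)) := by
    have h1 := span_fourier_closure_eq_top (T := 2 * Real.pi)
    have h2 : f ∈ (Submodule.span ℂ (Set.range (fourier (T := 2 * Real.pi)))).topologicalClosure := by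
      rw [h1]
      trivial
    exact h2
  rw [Metric.tendsto_atTop]
  intro ε hε
  obtain ⟨g, hg, hfg⟩ := Metric.mem_closure_iff.1 hf (ε / 3) (by positivity)
  obtain ⟨N, hN⟩ := Metric.tendsto_atTop.1 (hspan g hg) (ε / 3) (by positivity)
  refine ⟨N, fun n hn => ?_⟩
  have h1 := hN n hn
  have h2 : ‖circleAvg θ n (f - g)‖ ≤ ‖f - g‖ := norm_circleAvg_le θ n _
  have h3 : ‖circleInt (f - g)‖ ≤ ‖f - g‖ := norm_circleInt_le _
  rw [dist_eq_norm] at hfg h1 ⊢
  have e : circleAvg θ n f - circleInt f =
      circleAvg θ n (f - g) - circleInt (f - g) + (circleAvg θ n g - circleInt g) := by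
    rw [circleAvg_sub, circleInt_sub]
    ring
  rw [e]
  refine lt_of_le_of_lt (norm_add_le _ _) ?_
  have h4 := norm_sub_le (circleAvg θ n (f - g)) (circleInt (f - g))
  linarith

/-- The cosine as a continuous function on the circle. -/
noncomputable def circleCos (ξ : ℂ) : C(CircT, ℂ) where
  toFun t := ((Real.cos (2 * Real.pi * (ξ * ((AddCircle.toCircle t : Circle) : ℂ)).re) : ℝ) : ℂ)
  continuous_toFun := by
    have h : Continuous fun t : CircT => ((AddCircle.toCircle t : Circle) : ℂ) :=
      continuous_subtype_val.comp AddCircle.continuous_toCircle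
    fun_prop

/-- The limit function. -/
noncomputable def circleJ (x : ℝ) : ℝ :=
  ∫ t, Real.cos (2 * Real.pi * ((x : ℂ) * ((AddCircle.toCircle t : Circle) : ℂ)).re)
    ∂(AddCircle.haarAddCircle (T := 2 * Real.pi))

theorem circle_cont (ξ : ℂ) : Continuous fun t : CircT =>
    Real.cos (2 * Real.pi * (ξ * ((AddCircle.toCircle t : Circle) : ℂ)).re) := by
  have h : Continuous fun t : CircT => ((AddCircle.toCircle t : Circle) : ℂ) :=
    continuous_subtype_val.comp AddCircle.continuous_toCircle
  fun_prop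

theorem circleInt_cos (ξ : ℂ) : circleInt (circleCos ξ) =
    ((∫ t, Real.cos (2 * Real.pi * (ξ * ((AddCircle.toCircle t : Circle) : ℂ)).re)
      ∂(AddCircle.haarAddCircle (T := 2 * Real.pi)) : ℝ) : ℂ) := by
  unfold circleInt circleCos
  simp only [ContinuousMap.coe_mk]
  exact integral_ofReal

theorem circle_rot (ξ : ℂ) :
    ∫ t, Real.cos (2 * Real.pi * (ξ * ((AddCircle.toCircle t : Circle) : ℂ)).re)
      ∂(AddCircle.haarAddCircle (T := 2 * Real.pi)) = circleJ ‖ξ‖ := by
  rcases eq_or_ne ξ 0 with rfl | hξ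
  · unfold circleJ
    simp
  · obtain ⟨θ, hθ⟩ : ∃ θ : CircT, ((AddCircle.toCircle θ : Circle) : ℂ) = ξ / ‖ξ‖ := by
      have h1 : ‖ξ / (‖ξ‖ : ℂ)‖ = 1 := by
        rw [norm_div, Complex.norm_real, norm_norm, div_self (norm_ne_zero_iff.2 hξ)]
      refine ⟨(AddCircle.homeomorphCircle Real.two_pi_pos.ne').symm
        ⟨ξ / ‖ξ‖, by simpa [Submonoid.unitSphere] using h1⟩, ?_⟩
      rw [← AddCircle.homeomorphCircle_apply Real.two_pi_pos.ne', Homeomorph.apply_symm_apply]
    unfold circleJ
    have h2 := integral_add_right_eq_self (μ := AddCircle.haarAddCircle (T := 2 * Real.pi))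
      (fun t => Real.cos (2 * Real.pi * (((‖ξ‖ : ℝ) : ℂ) *
        ((AddCircle.toCircle t : Circle) : ℂ)).re)) θ
    rw [← h2]
    refine integral_congr_ae (Eventually.of_forall fun t => ?_)
    simp only
    rw [AddCircle.toCircle_add, Circle.coe_mul, hθ]
    have h3 : (‖ξ‖ : ℂ) ≠ 0 := by
      exact_mod_cast norm_ne_zero_iff.2 hξ
    congr 3
    field_simp

theorem circleJ_abs (x : ℝ) : |circleJ x| ≤ 1 := by
  unfold circleJ
  rw [← Real.norm_eq_abs]
  refine (norm_integral_le_of_norm_le_const (C := 1)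
    (Eventually.of_forall fun t => ?_)).trans ?_
  · rw [Real.norm_eq_abs]
    exact Real.abs_cos_le_one _
  · simp

theorem circleJ_zero_lim : Tendsto circleJ (𝓝 0) (𝓝 1) := by
  have hlow : ∀ x : ℝ, 1 - (2 * Real.pi * x) ^ 2 / 2 ≤ circleJ x := by
    intro x
    unfold circleJ
    have h1 : ∫ _t : CircT, (1 - (2 * Real.pi * x) ^ 2 / 2)
        ∂(AddCircle.haarAddCircle (T := 2 * Real.pi)) = 1 - (2 * Real.pi * x) ^ 2 / 2 := by
      simp
    rw [← h1]
    refine integral_mono (integrable_const _)
      ((circle_cont (x : ℂ)).integrable_of_hasCompactSupport (HasCompactSupport.of_compactSpace _)) ?_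
    intro t
    simp only
    refine le_trans ?_ (Real.one_sub_sq_div_two_le_cos)
    rw [Complex.re_ofReal_mul]
    have h2 : |((AddCircle.toCircle t : Circle) : ℂ).re| ≤ 1 := by
      refine (Complex.abs_re_le_norm _).trans ?_
      rw [Circle.norm_coe]
    have h3 : (((AddCircle.toCircle t : Circle) : ℂ).re) ^ 2 ≤ 1 := by
      rw [← sq_abs]
      exact pow_le_one₀ (abs_nonneg _) h2
    have h4 : (2 * Real.pi * (x * ((AddCircle.toCircle t : Circle) : ℂ).re)) ^ 2 ≤
        (2 * Real.pi * x) ^ 2 := by
      have : (2 * Real.pi * (x * ((AddCircle.toCircle t : Circle) : ℂ).re)) ^ 2 =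
          (2 * Real.pi * x) ^ 2 * (((AddCircle.toCircle t : Circle) : ℂ).re) ^ 2 := by ring
      rw [this]
      exact mul_le_of_le_one_right (sq_nonneg _) h3
    linarith
  have hlim : Tendsto (fun x : ℝ => 1 - (2 * Real.pi * x) ^ 2 / 2) (𝓝 0) (𝓝 1) := by
    have h : Continuous fun x : ℝ => 1 - (2 * Real.pi * x) ^ 2 / 2 := by fun_prop
    have h2 := h.tendsto 0
    simpa using h2
  exact tendsto_of_tendsto_of_tendsto_of_le_of_le hlim tendsto_const_nhds hlow
    fun x => (le_abs_self _).trans (circleJ_abs x)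

/-- The function `1/√(1-s²)` on `(-1, 1]`. -/
noncomputable def circleDens (s : ℝ) : ℂ :=
  Set.indicator (Set.Ioc (-1 : ℝ) 1) (fun s => ((√(1 - s ^ 2)⁻¹ : ℝ) : ℂ)) s

theorem circleJ_eq (x : ℝ) : circleJ x =
    (1 / Real.pi) * (∫ v : ℝ, Real.fourierChar (-(v * x)) • circleDens v).re := by
  -- to the interval
  have h1 : circleJ x = (2 * Real.pi)⁻¹ *
      ∫ t in (0 : ℝ)..(2 * Real.pi), Real.cos (2 * Real.pi * (x * Real.cos t)) := by
    unfold circleJ
    rw [AddCircle.integral_haarAddCircle, smul_eq_mul]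
    congr 1
    rw [← AddCircle.intervalIntegral_preimage (2 * Real.pi) 0, zero_add]
    refine intervalIntegral.integral_congr fun t _ => ?_
    rw [AddCircle.toCircle_apply_mk, Complex.re_ofReal_mul, Circle.coe_exp]
    congr 3
    have : (2 * Real.pi / (2 * Real.pi) * t : ℝ) = t := by
      rw [div_self Real.two_pi_pos.ne', one_mul]
    rw [this, Complex.exp_ofReal_mul_I_re]
  have hcont : Continuous fun t : ℝ => Real.cos (2 * Real.pi * (x * Real.cos t)) := by fun_prop
  have h2 : ∫ t in (0 : ℝ)..(2 * Real.pi), Real.cos (2 * Real.pi * (x * Real.cos t)) =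
      2 * ∫ t in (0 : ℝ)..Real.pi, Real.cos (2 * Real.pi * (x * Real.cos t)) := by
    rw [← intervalIntegral.integral_add_adjacent_intervals (b := Real.pi)
      (hcont.intervalIntegrable _ _) (hcont.intervalIntegrable _ _)]
    have h3 := intervalIntegral.integral_comp_add_right (a := 0) (b := Real.pi)
      (fun t => Real.cos (2 * Real.pi * (x * Real.cos t))) Real.pi
    rw [zero_add, show Real.pi + Real.pi = 2 * Real.pi by ring] at h3
    rw [← h3]
    have h4 : ∀ t : ℝ, Real.cos (2 * Real.pi * (x * Real.cos (t + Real.pi))) =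
        Real.cos (2 * Real.pi * (x * Real.cos t)) := by
      intro t
      rw [Real.cos_add_pi, show 2 * Real.pi * (x * -Real.cos t) =
        -(2 * Real.pi * (x * Real.cos t)) by ring, Real.cos_neg]
    simp_rw [h4]
    ring
  have h5 : ∫ t in (0 : ℝ)..Real.pi, Real.cos (2 * Real.pi * (x * Real.cos t)) =
      ∫ s in (-1 : ℝ)..1, Real.cos (2 * Real.pi * (x * s)) * √(1 - s ^ 2)⁻¹ := by
    rw [← Polynomial.Chebyshev.integral_measureT_eq_integral_cos
      (f := fun s => Real.cos (2 * Real.pi * (x * s))), Polynomial.Chebyshev.integral_measureT]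
  have hint : IntegrableOn (fun s : ℝ => √(1 - s ^ 2)⁻¹) (Set.Ioc (-1) 1) := by
    have := Polynomial.Chebyshev.intervalIntegrable_sqrt_one_sub_sq_inv
    rwa [intervalIntegrable_iff_integrableOn_Ioc_of_le (by norm_num)] at this
  have hint2 : Integrable circleDens := by
    unfold circleDens
    rw [integrable_indicator_iff measurableSet_Ioc]
    exact hint.ofReal
  have h6 : (∫ v : ℝ, Real.fourierChar (-(v * x)) • circleDens v).re =
      ∫ s in (-1 : ℝ)..1, Real.cos (2 * Real.pi * (x * s)) * √(1 - s ^ 2)⁻¹ := by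
    rw [intervalIntegral.integral_of_le (by norm_num)]
    have hI : Integrable (fun v : ℝ => Real.fourierChar (-(v * x)) • circleDens v) := by
      have h := (Real.fourierIntegral_convergent_iff x (f := circleDens)).2 hint2
      refine h.congr (Eventually.of_forall fun v => ?_)
      simp only [RCLike.inner_apply, conj_trivial]
      rw [mul_comm]
    have h7 := integral_re hI
    simp only [RCLike.re_to_complex] at h7
    rw [← h7, ← integral_indicator measurableSet_Ioc]
    refine integral_congr_ae (Eventually.of_forall fun s => ?_)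
    simp only [circleDens]
    by_cases hs : s ∈ Set.Ioc (-1 : ℝ) 1
    · rw [Set.indicator_of_mem hs, Set.indicator_of_mem hs, Circle.smul_def, smul_eq_mul,
        Complex.re_mul_ofReal]
      congr 1
      rw [Real.fourierChar_apply, Complex.exp_ofReal_mul_I_re]
      rw [show 2 * Real.pi * -(s * x) = -(2 * Real.pi * (x * s)) by ring, Real.cos_neg]
    · rw [Set.indicator_of_notMem hs, Set.indicator_of_notMem hs, smul_zero, Complex.zero_re]
  rw [h1, h2, h5, h6]
  have := Real.pi_pos
  field_simp

theorem circleJ_top_lim : Tendsto circleJ atTop (𝓝 0) := by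
  have h1 := (Real.tendsto_integral_exp_smul_cocompact circleDens).mono_left
    (atTop_le_cocompact (α := ℝ))
  have h2 := (Complex.continuous_re.tendsto 0).comp h1
  have h3 := h2.const_mul (1 / Real.pi)
  simp only [Complex.zero_re, mul_zero] at h3
  refine h3.congr fun x => ?_
  rw [circleJ_eq]
  rfl

theorem circle_avg (ψ : ℂ) (hψ : ‖ψ‖ = 1) (hroot : ∀ n : ℕ, 0 < n → ψ ^ n ≠ 1) :
    ∃ J : ℝ → ℝ, (∀ x, |J x| ≤ 1) ∧ Filter.Tendsto J Filter.atTop (nhds 0) ∧
      Filter.Tendsto J (nhds 0) (nhds 1) ∧
      ∀ ξ : ℂ, Filter.Tendsto (fun n : ℕ => (∑ k ∈ Finset.range n,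
        Real.cos (2 * Real.pi * (ξ * ψ ^ k).re)) / n) Filter.atTop (nhds (J ‖ξ‖)) := by
  refine ⟨circleJ, circleJ_abs, circleJ_top_lim, circleJ_zero_lim, ?_⟩
  intro ξ
  obtain ⟨θ, hθ⟩ : ∃ θ : CircT, ((AddCircle.toCircle θ : Circle) : ℂ) = ψ := by
    refine ⟨(AddCircle.homeomorphCircle Real.two_pi_pos.ne').symm
      ⟨ψ, by simpa [Submonoid.unitSphere] using hψ⟩, ?_⟩
    rw [← AddCircle.homeomorphCircle_apply Real.two_pi_pos.ne', Homeomorph.apply_symm_apply]
  have h1 := circle_weyl ψ hroot θ hθ (circleCos ξ)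
  rw [circleInt_cos, circle_rot] at h1
  have h2 := (Complex.continuous_re.tendsto _).comp h1
  rw [Complex.ofReal_re] at h2
  refine h2.congr fun n => ?_
  simp only [Function.comp, circleAvg, circleCos, ContinuousMap.coe_mk]
  rw [← Complex.ofReal_sum, ← Complex.ofReal_natCast, ← Complex.ofReal_div, Complex.ofReal_re]
  congr 1
  refine Finset.sum_congr rfl fun k _ => ?_
  rw [AddCircle.toCircle_nsmul, Circle.coe_pow, hθ]

end Pool.Agent.H56
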