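import Pool.Agent.H56.Basic
set_option autoImplicit false
open MeasureTheory Complex
namespace Pool.Agent.H56
theorem mS_le (S : Set K) : mS S ≤ (inferInstance : MeasurableSpace X) := by
  unfold mS
  refine iSup₂_le fun v _ => ?_
  exact (measurable_pi_apply v).comap_le

theorem ModCond_coord_measurable (S : Set K) (v : K) (hv : v ∈ S) :
    Measurable[mS S] (fun χ : X => χ v) := by
  rw [measurable_iff_comap_le]
  exact le_iSup₂_of_le (f := fun (v : K) (_ : v ∈ S) =>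
    MeasurableSpace.comap (fun χ : X => χ v) inferInstance) v hv le_rfl

theorem ModCond_ev_measurable (S : Set K) (v : K) (hv : v ∈ S) :
    Measurable[mS S] (ev v) := by
  have hc0 : Continuous (fun z : Circle => (z : ℂ)) := continuous_induced_dom
  have hc : Measurable (fun z : Circle => (z : ℂ)) := hc0.measurable
  have h : ev v = (fun z : Circle => (z : ℂ)) ∘ (fun χ : X => χ v) := rfl
  rw [h]
  exact hc.comp (ModCond_coord_measurable S v hv)

theorem ModCond_ev_stronglyMeasurable (S : Set K) (v : K) (hv : v ∈ S) :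
    StronglyMeasurable[mS S] (ev v) :=
  (ModCond_ev_measurable S v hv).stronglyMeasurable

theorem ModCond_comap_rho (u : K) (S : Set K) :
    mS ((fun v => u * v) '' S) = (mS S).comap (rho u) := by
  unfold mS
  simp only [MeasurableSpace.comap_iSup, MeasurableSpace.comap_comp]
  rw [iSup_image]
  rfl

theorem condExp_comp_rho (μ : Measure X) [IsFiniteMeasure μ] (u : K) (hu : u ≠ 0)
    (hinv : μ.map (rho u) = μ) (S : Set K) (f : X → ℂ) (hf : Integrable f μ) :
    (μ[f | mS S]) ∘ rho u =ᵐ[μ] μ[f ∘ rho u | mS ((fun v => u * v) '' S)] := by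
  have hf' : Integrable (f ∘ rho u) μ := by
    apply Integrable.comp_measurable _ (measurable_rho u)
    rw [hinv]
    exact hf
  have hg' : Integrable ((μ[f | mS S]) ∘ rho u) μ := by
    apply Integrable.comp_measurable _ (measurable_rho u)
    rw [hinv]
    exact integrable_condExp
  refine ae_eq_condExp_of_forall_setIntegral_eq (mS_le _) hf' (fun s _ _ => hg'.integrableOn) ?_ ?_
  · intro s hs _
    rw [ModCond_comap_rho] at hs
    obtain ⟨t, ht, rfl⟩ := hs
    have ht' : MeasurableSet t := mS_le S t ht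
    have key : ∀ g : X → ℂ, Integrable g μ →
        ∫ x in rho u ⁻¹' t, (g ∘ rho u) x ∂μ = ∫ x in t, g x ∂μ := by
      intro g hg
      have h1 := setIntegral_map (μ := μ) (g := rho u) (f := g) ht'
        (by rw [hinv]; exact hg.aestronglyMeasurable) (measurable_rho u).aemeasurable
      rw [hinv] at h1
      exact h1.symm
    rw [key _ integrable_condExp, key f hf]
    exact setIntegral_condExp (mS_le S) hf ht
  · apply StronglyMeasurable.aestronglyMeasurable
    have h1 : StronglyMeasurable[mS S] (μ[f | mS S]) := stronglyMeasurable_condExp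
    refine h1.comp_measurable ?_
    rw [ModCond_comap_rho]
    exact comap_measurable _

theorem ModCond_pull_out (μ : Measure X) [IsFiniteMeasure μ] (S : Set K) (f g : X → ℂ)
    (hf : StronglyMeasurable[mS S] f) (hfg : Integrable (fun χ => f χ * g χ) μ)
    (hg : Integrable g μ) :
    μ[fun χ => f χ * g χ | mS S] =ᵐ[μ] fun χ => f χ * (μ[g | mS S]) χ :=
  condExp_bilin_of_stronglyMeasurable_left (ContinuousLinearMap.mul ℝ ℂ) hf hfg hg

theorem condExp_ev_add (μ : Measure X) [IsFiniteMeasure μ] (hhom : ∀ᵐ χ ∂μ, χ ∈ Hm)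
    (S : Set K) (v w : K) (hw : w ∈ S) :
    μ[ev (v + w) | mS S] =ᵐ[μ] fun χ => ev w χ * (μ[ev v | mS S]) χ := by
  have h1 : ev (v + w) =ᵐ[μ] fun χ => ev w χ * ev v χ := by
    filter_upwards [hhom] with χ hχ
    rw [ev_add hχ, mul_comm]
  have h2 : Integrable (fun χ => ev w χ * ev v χ) μ :=
    (integrable_congr h1).1 (integrable_ev μ (v + w))
  exact (condExp_congr_ae h1).trans
    (ModCond_pull_out μ S (ev w) (ev v) (ModCond_ev_stronglyMeasurable S w hw) h2
      (integrable_ev μ v))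

theorem norm_condExp_ev_le (μ : Measure X) [IsFiniteMeasure μ] (S : Set K) (v : K) :
    ∀ᵐ χ ∂μ, ‖(μ[ev v | mS S]) χ‖ ≤ 1 :=
  ae_bdd_norm_condExp_of_ae_bdd_norm (Filter.Eventually.of_forall fun χ => by simp)

theorem ModCond_condExp_aesm (μ : Measure X) [IsFiniteMeasure μ] (S : Set K) (v : K) :
    AEStronglyMeasurable (μ[ev v | mS S]) μ :=
  (stronglyMeasurable_condExp.mono (mS_le S)).aestronglyMeasurable

theorem integral_conj_mul_condExp (μ : Measure X) [IsFiniteMeasure μ] (S : Set K) (v : K) :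
    ∫ χ, (starRingEnd ℂ) (ev v χ) * (μ[ev v | mS S]) χ ∂μ =
      ((∫ χ, ‖(μ[ev v | mS S]) χ‖ ^ 2 ∂μ : ℝ) : ℂ) := by
  have hint : Integrable (fun χ => (μ[ev v | mS S]) χ * (starRingEnd ℂ) (ev v χ)) μ := by
    refine Integrable.of_bound ((ModCond_condExp_aesm μ S v).mul
      (Complex.continuous_conj.comp_aestronglyMeasurable
        (stronglyMeasurable_ev v).aestronglyMeasurable)) 1 ?_
    filter_upwards [norm_condExp_ev_le μ S v] with χ hχ
    rw [norm_mul, RCLike.norm_conj, norm_ev, mul_one]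
    exact hχ
  have hconj : Integrable (fun χ => (starRingEnd ℂ) (ev v χ)) μ := by
    refine Integrable.of_bound (Complex.continuous_conj.comp_aestronglyMeasurable
        (stronglyMeasurable_ev v).aestronglyMeasurable) 1 ?_
    filter_upwards with χ
    rw [RCLike.norm_conj, norm_ev]
  have h1 : μ[fun χ => (μ[ev v | mS S]) χ * (starRingEnd ℂ) (ev v χ) | mS S] =ᵐ[μ]
      fun χ => (μ[ev v | mS S]) χ * (μ[fun χ => (starRingEnd ℂ) (ev v χ) | mS S]) χ :=
    ModCond_pull_out μ S _ _ stronglyMeasurable_condExp hint hconj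
  have h2 : (Complex.conjCLE : ℂ →L[ℝ] ℂ) ∘ μ[ev v | mS S] =ᵐ[μ]
      μ[(Complex.conjCLE : ℂ →L[ℝ] ℂ) ∘ ev v | mS S] :=
    ContinuousLinearMap.comp_condExp_comm (integrable_ev μ v) _
  have h3 : ∫ χ, (starRingEnd ℂ) (ev v χ) * (μ[ev v | mS S]) χ ∂μ =
      ∫ χ, (μ[ev v | mS S]) χ * (starRingEnd ℂ) (ev v χ) ∂μ := by
    congr 1
    funext χ
    ring
  have h6 : ((∫ χ, ‖(μ[ev v | mS S]) χ‖ ^ 2 ∂μ : ℝ) : ℂ) =
      ∫ χ, ((‖(μ[ev v | mS S]) χ‖ ^ 2 : ℝ) : ℂ) ∂μ := integral_ofReal.symm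
  rw [h3, ← integral_condExp (mS_le S), h6]
  apply integral_congr_ae
  filter_upwards [h1, h2] with χ h1 h2
  rw [h1]
  have h4 : (μ[fun χ => (starRingEnd ℂ) (ev v χ) | mS S]) χ =
      (starRingEnd ℂ) ((μ[ev v | mS S]) χ) := by
    have h5 : ((Complex.conjCLE : ℂ →L[ℝ] ℂ) ∘ ev v) = fun χ => (starRingEnd ℂ) (ev v χ) := rfl
    rw [h5] at h2
    rw [← h2]
    rfl
  rw [h4, Complex.mul_conj, Complex.normSq_eq_norm_sq]

theorem ModCond_cauchy (μ : Measure X) [IsFiniteMeasure μ] (h : X → ℝ) (hh : Integrable h μ)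
    (hh2 : Integrable (fun χ => h χ ^ 2) μ) :
    (∫ χ, h χ ∂μ) ^ 2 ≤ (μ Set.univ).toReal * ∫ χ, h χ ^ 2 ∂μ := by
  set m : ℝ := (μ Set.univ).toReal with hm
  set I : ℝ := ∫ χ, h χ ∂μ with hI
  have hm0 : 0 ≤ m := ENNReal.toReal_nonneg
  rcases hm0.eq_or_lt with h0 | hpos
  · have h1 : μ = 0 := by
      have h2 : μ Set.univ = 0 := by
        have := (ENNReal.toReal_eq_zero_iff _).1 h0.symm
        rcases this with h | h
        · exact h
        · exact absurd h (measure_ne_top μ _)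
      exact Measure.measure_univ_eq_zero.1 h2
    have h3 : I = 0 := by
      rw [hI, h1]
      simp
    rw [h3, ← h0]
    simp
  · have h1 : 0 ≤ ∫ χ, (m * h χ - I) ^ 2 ∂μ := integral_nonneg fun χ => sq_nonneg _
    have h2 : ∫ χ, (m * h χ - I) ^ 2 ∂μ = m ^ 2 * ∫ χ, h χ ^ 2 ∂μ - m * I ^ 2 := by
      have h3 : (fun χ => (m * h χ - I) ^ 2) =
          fun χ => (m ^ 2 * h χ ^ 2 - (2 * m * I) * h χ) + I ^ 2 := by
        funext χ
        ring
      have e1 : ∫ χ, (m ^ 2 * h χ ^ 2 - 2 * m * I * h χ + I ^ 2) ∂μ =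
          ∫ χ, (m ^ 2 * h χ ^ 2 - 2 * m * I * h χ) ∂μ + ∫ _, I ^ 2 ∂μ :=
        integral_add ((hh2.const_mul _).sub (hh.const_mul _)) (integrable_const _)
      have e2 : ∫ χ, (m ^ 2 * h χ ^ 2 - 2 * m * I * h χ) ∂μ =
          ∫ χ, m ^ 2 * h χ ^ 2 ∂μ - ∫ χ, 2 * m * I * h χ ∂μ :=
        integral_sub (hh2.const_mul _) (hh.const_mul _)
      rw [h3, e1, e2, integral_const_mul, integral_const_mul, integral_const]
      simp only [smul_eq_mul, Measure.real]
      rw [← hm, ← hI]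
      ring
    rw [h2] at h1
    have h4 : 0 ≤ m * (m * ∫ χ, h χ ^ 2 ∂μ - I ^ 2) := by
      have : m ^ 2 * ∫ χ, h χ ^ 2 ∂μ - m * I ^ 2 = m * (m * ∫ χ, h χ ^ 2 ∂μ - I ^ 2) := by ring
      rw [← this]
      exact h1
    have h5 := nonneg_of_mul_nonneg_right h4 hpos
    linarith

theorem sq_norm_integral_le (μ : Measure X) [IsFiniteMeasure μ] (S : Set K) (v : K) :
    ‖∫ χ, ev v χ ∂μ‖ ^ 2 ≤ (μ Set.univ).toReal * ∫ χ, ‖(μ[ev v | mS S]) χ‖ ^ 2 ∂μ := by
  have h0 : ∫ χ, ev v χ ∂μ = ∫ χ, (μ[ev v | mS S]) χ ∂μ := (integral_condExp (mS_le S)).symm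
  have hint : Integrable (fun χ => ‖(μ[ev v | mS S]) χ‖) μ := integrable_condExp.norm
  have hint2 : Integrable (fun χ => ‖(μ[ev v | mS S]) χ‖ ^ 2) μ := by
    refine Integrable.of_bound ((ModCond_condExp_aesm μ S v).norm.pow 2) 1 ?_
    filter_upwards [norm_condExp_ev_le μ S v] with χ hχ
    rw [norm_pow, norm_norm]
    exact pow_le_one₀ (norm_nonneg _) hχ
  have h1 : ‖∫ χ, ev v χ ∂μ‖ ≤ ∫ χ, ‖(μ[ev v | mS S]) χ‖ ∂μ := by
    rw [h0]
    exact norm_integral_le_integral_norm _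
  calc ‖∫ χ, ev v χ ∂μ‖ ^ 2 ≤ (∫ χ, ‖(μ[ev v | mS S]) χ‖ ∂μ) ^ 2 :=
        pow_le_pow_left₀ (norm_nonneg _) h1 2
    _ ≤ _ := ModCond_cauchy μ _ hint hint2

theorem Gk_add (μ : Measure X) [IsFiniteMeasure μ] (hhom : ∀ᵐ χ ∂μ, χ ∈ Hm) (k : ℤ) (v w : K)
    (hw : w ∈ Qpi k) : Gk μ k (v + w) =ᵐ[μ] Gk μ k v := by
  filter_upwards [hhom, condExp_ev_add μ hhom (Qpi k : Set K) v w hw] with χ hχ h1
  unfold Gk
  rw [h1, ev_add hχ, map_mul]
  have h2 := ev_mul_conj w χ
  calc (starRingEnd ℂ) (ev v χ) * (starRingEnd ℂ) (ev w χ) *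
        (ev w χ * (μ[ev v | mS (Qpi k : Set K)]) χ)
      = (ev w χ * (starRingEnd ℂ) (ev w χ)) *
        ((starRingEnd ℂ) (ev v χ) * (μ[ev v | mS (Qpi k : Set K)]) χ) := by ring
    _ = _ := by rw [h2, one_mul]

theorem norm_Gk_le (μ : Measure X) [IsFiniteMeasure μ] (k : ℤ) (v : K) :
    ∀ᵐ χ ∂μ, ‖Gk μ k v χ‖ ≤ 1 := by
  filter_upwards [norm_condExp_ev_le μ (Qpi k : Set K) v] with χ hχ
  unfold Gk
  rw [norm_mul, RCLike.norm_conj, norm_ev, one_mul]
  exact hχ

theorem integrable_Gk (μ : Measure X) [IsFiniteMeasure μ] (k : ℤ) (v : K) :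
    Integrable (Gk μ k v) μ := by
  refine Integrable.of_bound ?_ 1 (norm_Gk_le μ k v)
  exact (Complex.continuous_conj.comp_aestronglyMeasurable
    (stronglyMeasurable_ev v).aestronglyMeasurable).mul
      (ModCond_condExp_aesm μ (Qpi k : Set K) v)
end Pool.Agent.H56
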