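import Pool.Agent.H56.ModStr

/-!
# The coset argument
-/

set_option autoImplicit false
open MeasureTheory Complex
namespace Pool.Agent.H56

theorem coset_not_dvd_star_pow (n : ℕ) : ¬ gpi ∣ star gpi ^ n := by
  induction n with
  | zero => simpa using not_gpi_dvd_one
  | succ n ih =>
    intro h
    rw [pow_succ] at h
    rcases gpi_prime_aux _ _ h with h | h
    · exact ih h
    · rw [gpi_dvd_iff] at h
      revert h
      decide

theorem coset_un_pow_ne_one (n : ℕ) (hn : 0 < n) : un gpi ^ n ≠ 1 := by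
  intro h1
  have h2 : c (star gpi ^ n) = c (gpi ^ n) := by
    unfold un at h1
    rw [div_pow, div_eq_one_iff_eq (pow_ne_zero _ (c_ne_zero (star_ne_zero' gpi_ne_zero)))] at h1
    rw [map_pow, map_pow, h1]
  have h3 := c_injective h2
  apply coset_not_dvd_star_pow n
  rw [h3]
  exact dvd_pow_self _ hn.ne'

theorem coset_un_pow_injective : Function.Injective fun n : ℕ => un gpi ^ n := by
  have key : ∀ i j : ℕ, i ≤ j → un gpi ^ i = un gpi ^ j → i = j := by
    intro i j hij h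
    by_contra hne
    have h0 : un gpi ≠ 0 := un_ne_zero gpi_ne_zero
    apply coset_un_pow_ne_one (j - i) (by omega)
    have h1 : un gpi ^ i * un gpi ^ (j - i) = un gpi ^ i * 1 := by
      rw [← pow_add, mul_one, h]
      congr 1
      omega
    exact mul_left_cancel₀ (pow_ne_zero _ h0) h1
  intro i j h
  rcases le_total i j with hij | hij
  · exact key i j hij h
  · exact (key j i hij h.symm).symm

theorem Qi_neg {x : K} (hx : x ∈ Qi) : -x ∈ Qi := by
  obtain ⟨z, n, hn, rfl⟩ := hx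
  exact ⟨-z, n, hn, by rw [map_neg, neg_div]⟩

theorem Qi_add {x y : K} (hx : x ∈ Qi) (hy : y ∈ Qi) : x + y ∈ Qi := by
  obtain ⟨z, n, hn, rfl⟩ := hx
  obtain ⟨w, m, hm, rfl⟩ := hy
  have hn' : (n : K) ≠ 0 := by exact_mod_cast hn.ne'
  have hm' : (m : K) ≠ 0 := by exact_mod_cast hm.ne'
  refine ⟨(m : GaussianInt) * z + (n : GaussianInt) * w, n * m, Nat.mul_pos hn hm, ?_⟩
  push_cast
  rw [map_add, map_mul, map_mul, map_natCast, map_natCast]
  field_simp

theorem Qi_sub {x y : K} (hx : x ∈ Qi) (hy : y ∈ Qi) : x - y ∈ Qi := by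
  rw [sub_eq_add_neg]
  exact Qi_add hx (Qi_neg hy)

theorem Qi_inv {x : K} (hx : x ∈ Qi) : x⁻¹ ∈ Qi := by
  obtain ⟨z, n, hn, rfl⟩ := hx
  by_cases hz : z = 0
  · subst hz
    exact ⟨0, 1, one_pos, by simp⟩
  · refine ⟨(n : GaussianInt) * star z, z.norm.toNat, norm_toNat_pos hz, ?_⟩
    rw [← natCast_norm, map_mul, map_natCast]
    have h1 := c_ne_zero hz
    have h2 := c_ne_zero (star_ne_zero' hz)
    have hn' : (n : K) ≠ 0 := by exact_mod_cast hn.ne'
    field_simp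

theorem Qi_c (z : GaussianInt) : c z ∈ Qi := ⟨z, 1, one_pos, by simp⟩

theorem Qi_pow {x : K} (hx : x ∈ Qi) (n : ℕ) : x ^ n ∈ Qi := by
  induction n with
  | zero => simpa using Qi_c 1
  | succ n ih => rw [pow_succ]; exact Qi_mul ih hx

/-- a character in two rotated cosets is structured -/
theorem coset_mem_Str {χ χ0 : X} (hχ : χ ∈ Hm) (M : GaussianInt) (hM : M ≠ 0) {i j : ℕ}
    (hij : i ≠ j) (hi : rho (un gpi ^ i) χ / χ0 ∈ Einf (1 / c M))
    (hj : rho (un gpi ^ j) χ / χ0 ∈ Einf (1 / c M)) : χ ∈ Str := by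
  obtain ⟨-, ξ, hξ⟩ := hi
  obtain ⟨-, ξ', hξ'⟩ := hj
  have hcM := c_ne_zero hM
  set q : K := un gpi ^ i - un gpi ^ j with hq
  have hq0 : q ≠ 0 := by
    intro h
    exact hij (coset_un_pow_injective (sub_eq_zero.1 h))
  have hqQ : q ∈ Qi := Qi_sub (Qi_pow (un_mem_Qi _) _) (Qi_pow (un_mem_Qi _) _)
  have h1 : rho (q / c M) χ ∈ Str := by
    refine ⟨1, one_pos, Hm_rho hχ _, (ξ - ξ') / ((c M : K) : ℂ), ?_⟩
    rintro v ⟨z, k, rfl⟩
    have hm : (1 / c M * c z / 5 ^ k : K) ∈ latInf (1 / c M) := ⟨z, k, rfl⟩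
    have e1 := hξ _ hm
    have e2 := hξ' _ hm
    rw [Pi.div_apply, rho_apply] at e1 e2
    have e3 : q / c M * (((1 : ℕ) : K) * c z / 5 ^ k) =
        un gpi ^ i * (1 / c M * c z / 5 ^ k) - un gpi ^ j * (1 / c M * c z / 5 ^ k) := by
      rw [hq]
      push_cast
      ring
    rw [rho_apply, e3, Hm_sub hχ]
    have e4 : χ (un gpi ^ i * (1 / c M * c z / 5 ^ k)) / χ (un gpi ^ j * (1 / c M * c z / 5 ^ k)) =
        (χ (un gpi ^ i * (1 / c M * c z / 5 ^ k)) / χ0 (1 / c M * c z / 5 ^ k)) /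
        (χ (un gpi ^ j * (1 / c M * c z / 5 ^ k)) / χ0 (1 / c M * c z / 5 ^ k)) := by
      rw [div_div_div_cancel_right]
    rw [e4, e1, e2, ← E_sub]
    congr 1
    rw [← Complex.sub_re, ← sub_mul]
    congr 1
    have e5 : ((1 / c M * c z / 5 ^ k : K) : ℂ) =
        (((1 : ℕ) : K) * c z / 5 ^ k : K) / ((c M : K) : ℂ) := by
      have : (1 / c M * c z / 5 ^ k : K) = (((1 : ℕ) : K) * c z / 5 ^ k : K) / c M := by
        push_cast
        field_simp
      rw [this]
      simp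
    rw [e5]
    ring
  have h2 := str_rho_mul hχ (Qi_mul (Qi_inv hqQ) (Qi_c M)) h1
  have h3 : q⁻¹ * c M * (q / c M) = 1 := by
    field_simp
  rw [h3, rho_one] at h2
  exact h2

theorem coset (μ : Measure X) [IsFiniteMeasure μ] (hinv : InvQ μ) (hhom : ∀ᵐ χ ∂μ, χ ∈ Hm)
    (M : GaussianInt) (hM : M ≠ 0) (h : quo μ (Einf (1 / c M)) ≠ 0) : μ Str ≠ 0 := by
  rw [quo_apply μ (measurableSet_Einf _)] at h
  -- Fubini
  obtain ⟨χ0, hχ0⟩ : ∃ χ0 : X, μ {χ : X | χ / χ0 ∈ Einf (1 / c M)} ≠ 0 := by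
    by_contra hno
    push Not at hno
    apply h
    have hm : MeasurableSet {p : X × X | p.1 / p.2 ∈ Einf (1 / c M)} :=
      measurable_div_X (measurableSet_Einf _)
    rw [Measure.prod_apply_symm hm]
    have h1 : ∀ y : X, μ ((fun x => (x, y)) ⁻¹' {p : X × X | p.1 / p.2 ∈ Einf (1 / c M)}) = 0 :=
      fun y => hno y
    rw [lintegral_congr h1, lintegral_zero]
  set S : Set X := {χ : X | χ / χ0 ∈ Einf (1 / c M)} with hS
  have hSm : MeasurableSet S := by
    have : Measurable fun χ : X => χ / χ0 := (continuous_id.div' continuous_const).measurable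
    exact this (measurableSet_Einf _)
  have hmeas : ∀ i : ℕ, μ (rho (un gpi ^ i) ⁻¹' S) = μ S := by
    intro i
    rw [← un_pow]
    exact hinv.measure_preimage (pow_ne_zero _ gpi_ne_zero) hSm
  by_contra hStr
  -- the rotates are pairwise almost disjoint
  have hdisj : Pairwise (Function.onFun (AEDisjoint μ) fun i : ℕ => rho (un gpi ^ i) ⁻¹' S) := by
    intro i j hij
    show μ _ = 0
    have h1 : ∀ᵐ χ ∂μ, χ ∉ Str := measure_eq_zero_iff_ae_notMem.1 hStr
    rw [measure_eq_zero_iff_ae_notMem]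
    filter_upwards [h1, hhom] with χ h2 h3 h4
    exact h2 (coset_mem_Str h3 M hM hij h4.1 h4.2)
  have h1 := measure_iUnion₀ hdisj
    (fun i => ((measurable_rho (un gpi ^ i)) hSm).nullMeasurableSet)
  simp only [hmeas] at h1
  rw [ENNReal.tsum_const_eq_top_of_ne_zero hχ0] at h1
  exact measure_ne_top μ _ h1
end Pool.Agent.H56
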