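import Pool.Agent.H56.Basic
set_option autoImplicit false
open MeasureTheory Complex
namespace Pool.Agent.H56

/-- restriction of a map to `S` -/
def dense_r (S : Set K) (χ : X) : (S → Circle) := fun s => χ s

theorem dense_measurable_r (S : Set K) : Measurable (dense_r S) :=
  measurable_pi_lambda _ fun s => measurable_pi_apply (s : K)

theorem dense_mS_eq (S : Set K) : mS S = MeasurableSpace.comap (dense_r S) inferInstance := by
  unfold mS
  rw [show (inferInstance : MeasurableSpace (S → Circle)) = MeasurableSpace.pi from rfl]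
  unfold MeasurableSpace.pi
  rw [MeasurableSpace.comap_iSup, iSup_subtype']
  congr 1
  funext s
  rw [MeasurableSpace.comap_comp]
  rfl

/-- the character of the group algebra of `S` given by `χ` -/
noncomputable def dense_hom (S : AddSubgroup K) (χ : X) (h : χ ∈ Hm) :
    Multiplicative S →* ℂ where
  toFun v := ev ((Multiplicative.toAdd v : S) : K) χ
  map_one' := by
    show ev ((0 : S) : K) χ = 1
    rw [AddSubgroup.coe_zero]
    exact ev_zero h
  map_mul' v w := by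
    show ev ((Multiplicative.toAdd v + Multiplicative.toAdd w : S) : K) χ = _
    rw [AddSubgroup.coe_add]
    exact ev_add h _ _

/-- being a trigonometric polynomial with frequencies in `S`, on `Hm` -/
def DenseT (S : AddSubgroup K) (φ : X → ℂ) : Prop :=
  ∃ p : AddMonoidAlgebra ℂ S, ∀ (χ : X) (h : χ ∈ Hm),
    φ χ = AddMonoidAlgebra.lift ℂ ℂ S (dense_hom S χ h) p

theorem DenseT.add {S : AddSubgroup K} {φ ψ : X → ℂ} (h : DenseT S φ) (h' : DenseT S ψ) :
    DenseT S (fun χ => φ χ + ψ χ) := by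
  obtain ⟨p, hp⟩ := h
  obtain ⟨q, hq⟩ := h'
  refine ⟨p + q, fun χ hχ => ?_⟩
  rw [map_add, ← hp χ hχ, ← hq χ hχ]

theorem DenseT.mul {S : AddSubgroup K} {φ ψ : X → ℂ} (h : DenseT S φ) (h' : DenseT S ψ) :
    DenseT S (fun χ => φ χ * ψ χ) := by
  obtain ⟨p, hp⟩ := h
  obtain ⟨q, hq⟩ := h'
  refine ⟨p * q, fun χ hχ => ?_⟩
  rw [map_mul, ← hp χ hχ, ← hq χ hχ]

theorem DenseT.const (S : AddSubgroup K) (r : ℂ) : DenseT S (fun _ => r) := by
  refine ⟨algebraMap ℂ _ r, fun χ hχ => ?_⟩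
  rw [AlgHom.commutes]
  rfl

theorem dense_lift_single (S : AddSubgroup K) (χ : X) (h : χ ∈ Hm) (s : S) (a : ℂ) :
    AddMonoidAlgebra.lift ℂ ℂ S (dense_hom S χ h) (AddMonoidAlgebra.single s a)
      = a * ev (s : K) χ := by
  rw [AddMonoidAlgebra.lift_single]
  rfl

theorem DenseT.ev (S : AddSubgroup K) (s : S) : DenseT S (fun χ => ev (s : K) χ) := by
  refine ⟨AddMonoidAlgebra.single s 1, fun χ hχ => ?_⟩
  rw [dense_lift_single, one_mul]

theorem DenseT.conj_ev (S : AddSubgroup K) (s : S) :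
    DenseT S (fun χ => (starRingEnd ℂ) (Pool.Agent.H56.ev (s : K) χ)) := by
  refine ⟨AddMonoidAlgebra.single (-s) 1, fun χ hχ => ?_⟩
  rw [dense_lift_single, one_mul, AddSubgroup.coe_neg, ev_neg hχ]

theorem DenseT.exists_sum {S : AddSubgroup K} {φ : X → ℂ} (h : DenseT S φ) :
    ∃ (W : Finset K) (a : K → ℂ), (∀ w ∈ W, w ∈ S) ∧
      ∀ χ ∈ Hm, φ χ = ∑ w ∈ W, a w * Pool.Agent.H56.ev w χ := by
  classical
  obtain ⟨p, hp⟩ := h
  refine ⟨p.coeff.support.image (fun s : S => (s : K)),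
    fun w => if hw : w ∈ S then p.coeff ⟨w, hw⟩ else 0, ?_, ?_⟩
  · intro w hw
    obtain ⟨s, _, rfl⟩ := Finset.mem_image.1 hw
    exact s.2
  · intro χ hχ
    rw [hp χ hχ, AddMonoidAlgebra.lift_apply, Finset.sum_image (fun x _ y _ h => Subtype.ext h)]
    unfold Finsupp.sum
    apply Finset.sum_congr rfl
    intro s _
    simp only [SetLike.coe_mem, dif_pos, smul_eq_mul]
    rfl

/-- coordinate functions -/
noncomputable def dense_coord (S : Set K) (s : S) : C((S → Circle), ℂ) :=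
  ⟨fun z => (z s : ℂ), continuous_induced_dom.comp (continuous_apply s)⟩

/-- algebra generated by the coordinates -/
noncomputable def dense_A (S : Set K) : StarSubalgebra ℂ C((S → Circle), ℂ) :=
  StarAlgebra.adjoin ℂ (Set.range (dense_coord S))

theorem dense_A_T (S : AddSubgroup K) {f : C((↥(S : Set K) → Circle), ℂ)}
    (hf : f ∈ dense_A (S : Set K)) :
    DenseT S (fun χ => f (dense_r (S : Set K) χ)) ∧
      DenseT S (fun χ => (starRingEnd ℂ) (f (dense_r (S : Set K) χ))) := by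
  unfold dense_A at hf
  induction hf using StarAlgebra.adjoin_induction with
  | mem x hx =>
    obtain ⟨s, rfl⟩ := hx
    exact ⟨DenseT.ev S s, DenseT.conj_ev S s⟩
  | algebraMap r => exact ⟨DenseT.const S r, DenseT.const S ((starRingEnd ℂ) r)⟩
  | add x y _ _ h1 h2 =>
    refine ⟨h1.1.add h2.1, ?_⟩
    have := h1.2.add h2.2
    simpa [map_add] using this
  | mul x y _ _ h1 h2 =>
    refine ⟨h1.1.mul h2.1, ?_⟩
    have := h1.2.mul h2.2
    simpa [map_mul] using this
  | star x _ h =>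
    refine ⟨h.2, ?_⟩
    have := h.1
    simpa using this

theorem dense_A_top (S : Set K) : (dense_A S).topologicalClosure = ⊤ := by
  apply ContinuousMap.starSubalgebra_topologicalClosure_eq_top_of_separatesPoints
  intro x y hxy
  obtain ⟨s, hs⟩ := Function.ne_iff.1 hxy
  refine ⟨dense_coord S s, ⟨dense_coord S s, StarAlgebra.subset_adjoin _ _ ⟨s, rfl⟩, rfl⟩, ?_⟩
  intro h
  exact hs (Circle.ext h)

theorem dense_integral_sq {μ : Measure X} {f : X → ℂ} (hf : MemLp f 2 μ) {η : ℝ}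
    (hη : 0 ≤ η) (h : eLpNorm f 2 μ ≤ ENNReal.ofReal η) : ∫ χ, ‖f χ‖ ^ 2 ∂μ ≤ η ^ 2 := by
  have h1 := hf.eLpNorm_eq_integral_rpow_norm (by norm_num) (by norm_num)
  rw [h1] at h
  have h2 := (ENNReal.ofReal_le_ofReal_iff hη).1 h
  have e2 : (2 : ENNReal).toReal = 2 := by norm_num
  rw [e2] at h2
  have h3 : ∫ χ, ‖f χ‖ ^ (2 : ℝ) ∂μ = ∫ χ, ‖f χ‖ ^ 2 ∂μ := by
    apply integral_congr_ae
    filter_upwards with χ
    norm_cast
  rw [h3] at h2
  have h4 : 0 ≤ ∫ χ, ‖f χ‖ ^ 2 ∂μ := integral_nonneg fun χ => by positivity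
  have h5 := pow_le_pow_left₀ (Real.rpow_nonneg h4 _) h2 2
  have h6 : ((∫ χ, ‖f χ‖ ^ 2 ∂μ) ^ (2 : ℝ)⁻¹) ^ 2 = ∫ χ, ‖f χ‖ ^ 2 ∂μ := by
    rw [← Real.rpow_natCast, ← Real.rpow_mul h4]
    norm_num
  rwa [h6] at h5

theorem exists_trig_approx (μ : Measure X) [IsFiniteMeasure μ] (hhom : ∀ᵐ χ ∂μ, χ ∈ Hm)
    (S : AddSubgroup K) (g : X → ℂ) (hg : StronglyMeasurable[mS (S : Set K)] g)
    (hg2 : MemLp g 2 μ) (ε : ℝ) (hε : 0 < ε) :
    ∃ (W : Finset K) (a : K → ℂ), (∀ w ∈ W, w ∈ S) ∧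
      ∫ χ, ‖g χ - ∑ w ∈ W, a w * ev w χ‖ ^ 2 ∂μ ≤ ε := by
  have hr := dense_measurable_r (S : Set K)
  rw [dense_mS_eq] at hg
  obtain ⟨G, hGm, hGe⟩ := hg.measurable.exists_eq_measurable_comp
  set ν := μ.map (dense_r (S : Set K)) with hν
  have : IsFiniteMeasure ν := by rw [hν]; infer_instance
  have hG2 : MemLp G 2 ν := by
    rw [hν, memLp_map_measure_iff hGm.aestronglyMeasurable hr.aemeasurable, ← hGe]
    exact hg2
  set η := Real.sqrt ε / 2 with hηdef
  have hη : 0 < η := by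
    rw [hηdef]
    positivity
  obtain ⟨f0b, hf0, _⟩ := hG2.exists_boundedContinuous_eLpNorm_sub_le (ε := ENNReal.ofReal η)
    (by norm_num) (by simpa using hη)
  set f0 : C((↥(S : Set K) → Circle), ℂ) := f0b.toContinuousMap with hf0def
  have hf0e : (⇑f0b : (↥(S : Set K) → Circle) → ℂ) = f0 := rfl
  rw [hf0e] at hf0
  -- uniform approximation by the algebra
  set c0 : ℝ := (μ Set.univ).toReal + 1 with hc0
  have hc0pos : 0 < c0 := by positivity
  set δ : ℝ := η / c0 with hδ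
  have hδpos : 0 < δ := by positivity
  have hmem : f0 ∈ (dense_A (S : Set K)).topologicalClosure := by
    rw [dense_A_top]
    trivial
  have hcl : f0 ∈ closure (dense_A (S : Set K) :
      Set C((↥(S : Set K) → Circle), ℂ)) := hmem
  obtain ⟨f, hfA, hfd⟩ := Metric.mem_closure_iff.1 hcl δ hδpos
  obtain ⟨W, a, hW, ha⟩ := (dense_A_T S hfA).1.exists_sum
  refine ⟨W, a, hW, ?_⟩
  -- estimate in L2 norm
  set φ : X → ℂ := fun χ => f (dense_r (S : Set K) χ) with hφ
  have hφm : StronglyMeasurable φ :=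
    (f.continuous.stronglyMeasurable).comp_measurable hr
  have hφ2 : MemLp φ 2 μ := by
    apply MemLp.of_bound hφm.aestronglyMeasurable ‖f‖
    filter_upwards with χ
    exact f.norm_coe_le_norm _
  have h1 : ∫ χ, ‖g χ - ∑ w ∈ W, a w * ev w χ‖ ^ 2 ∂μ = ∫ χ, ‖(g - φ) χ‖ ^ 2 ∂μ := by
    apply integral_congr_ae
    filter_upwards [hhom] with χ hχ
    rw [Pi.sub_apply, ← ha χ hχ]
  rw [h1]
  have h2 : eLpNorm (g - (fun χ => f0 (dense_r (S : Set K) χ))) 2 μ ≤ ENNReal.ofReal η := by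
    have h3 : eLpNorm (G - ⇑f0) 2 ν = eLpNorm ((G - ⇑f0) ∘ dense_r (S : Set K)) 2 μ := by
      rw [hν]
      apply eLpNorm_map_measure _ hr.aemeasurable
      exact (hGm.sub f0.continuous.measurable).aestronglyMeasurable
    rw [h3] at hf0
    convert hf0 using 2
    rw [hGe]
    rfl
  have h4 : eLpNorm ((fun χ => f0 (dense_r (S : Set K) χ)) - φ) 2 μ ≤ ENNReal.ofReal η := by
    have h5 : ∀ᵐ χ ∂μ, ‖((fun χ => f0 (dense_r (S : Set K) χ)) - φ) χ‖ ≤ δ := by
      filter_upwards with χ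
      rw [Pi.sub_apply, ← dist_eq_norm]
      exact (ContinuousMap.dist_apply_le_dist (f := f0)
        (g := f) (dense_r (S : Set K) χ)).trans hfd.le
    refine (eLpNorm_le_of_ae_bound h5).trans ?_
    have e2 : (2 : ENNReal).toReal = 2 := by norm_num
    rw [e2]
    have h6 : μ Set.univ ^ (2 : ℝ)⁻¹ ≤ ENNReal.ofReal c0 := by
      have h7 : μ Set.univ = ENNReal.ofReal (μ Set.univ).toReal :=
        (ENNReal.ofReal_toReal (measure_ne_top _ _)).symm
      rw [h7, ENNReal.ofReal_rpow_of_nonneg ENNReal.toReal_nonneg (by norm_num)]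
      apply ENNReal.ofReal_le_ofReal
      have h8 : (0:ℝ) ≤ (μ Set.univ).toReal := ENNReal.toReal_nonneg
      calc (μ Set.univ).toReal ^ (2:ℝ)⁻¹ ≤ c0 ^ (2:ℝ)⁻¹ := by
            apply Real.rpow_le_rpow h8 (by rw [hc0]; linarith) (by norm_num)
        _ ≤ c0 ^ (1:ℝ) := by
            apply Real.rpow_le_rpow_of_exponent_le (by rw [hc0]; linarith) (by norm_num)
        _ = c0 := Real.rpow_one _
    calc μ Set.univ ^ (2 : ℝ)⁻¹ * ENNReal.ofReal δ ≤ ENNReal.ofReal c0 * ENNReal.ofReal δ := by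
          gcongr
      _ = ENNReal.ofReal η := by
          rw [← ENNReal.ofReal_mul hc0pos.le, hδ]
          congr 1
          field_simp
  have hf02 : MemLp (fun χ => f0 (dense_r (S : Set K) χ)) 2 μ := by
    apply MemLp.of_bound
      ((f0.continuous.stronglyMeasurable).comp_measurable hr).aestronglyMeasurable ‖f0‖
    filter_upwards with χ
    exact f0.norm_coe_le_norm _
  have h9 : eLpNorm (g - φ) 2 μ ≤ ENNReal.ofReal (Real.sqrt ε) := by
    have h10 : g - φ = (g - (fun χ => f0 (dense_r (S : Set K) χ)))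
        + ((fun χ => f0 (dense_r (S : Set K) χ)) - φ) := by
      rw [sub_add_sub_cancel]
    rw [h10]
    calc _ ≤ _ := eLpNorm_add_le (hg2.sub hf02).aestronglyMeasurable
            (hf02.sub hφ2).aestronglyMeasurable (by norm_num)
      _ ≤ ENNReal.ofReal η + ENNReal.ofReal η := by gcongr
      _ = ENNReal.ofReal (Real.sqrt ε) := by
          rw [← ENNReal.ofReal_add hη.le hη.le, hηdef]
          congr 1
          ring
  have h11 := dense_integral_sq (hg2.sub hφ2) (Real.sqrt_nonneg ε) h9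
  rwa [Real.sq_sqrt hε.le] at h11

end Pool.Agent.H56
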