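import Pool.Agent.H56.ModCond
set_option autoImplicit false
open MeasureTheory Complex
namespace Pool.Agent.H56

theorem equi_mem_Qpi {k : ℤ} {v : K} :
    v ∈ Qpi k ↔ ∃ a s : GaussianInt, ¬ gpi ∣ s ∧ v = c gpi ^ k * c a / c s := Iff.rfl

theorem equi_not_dvd_star : ¬ gpi ∣ star gpi := by
  rw [gpi_dvd_iff]
  decide

theorem equi_ne_zero {s : GaussianInt} (hs : ¬ gpi ∣ s) : s ≠ 0 := by
  rintro rfl
  exact hs (dvd_zero _)

theorem equi_image (k : ℤ) (e : ℕ) (a s : GaussianInt) (ha : ¬ gpi ∣ a) (hs : ¬ gpi ∣ s) :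
    (fun v => (c gpi ^ e * c a / c s) * v) '' (Qpi k : Set K) = (Qpi (k + e) : Set K) := by
  have ha0 := c_ne_zero (equi_ne_zero ha)
  have hs0 := c_ne_zero (equi_ne_zero hs)
  have hp0 := c_ne_zero gpi_ne_zero
  ext v
  rw [Set.mem_image]
  constructor
  · rintro ⟨w, hw, rfl⟩
    obtain ⟨b, t, ht, rfl⟩ := equi_mem_Qpi.1 hw
    have ht0 := c_ne_zero (equi_ne_zero ht)
    refine equi_mem_Qpi.2 ⟨a * b, s * t, fun h => (gpi_prime_aux _ _ h).elim hs ht, ?_⟩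
    rw [zpow_add₀ hp0, zpow_natCast, map_mul, map_mul]
    field_simp
  · intro hv
    obtain ⟨b, t, ht, rfl⟩ := equi_mem_Qpi.1 hv
    have ht0 := c_ne_zero (equi_ne_zero ht)
    refine ⟨c gpi ^ k * c (s * b) / c (a * t), equi_mem_Qpi.2 ⟨s * b, a * t,
      fun h => (gpi_prime_aux _ _ h).elim ha ht, rfl⟩, ?_⟩
    rw [zpow_add₀ hp0, zpow_natCast, map_mul, map_mul]
    field_simp

theorem equi_Gk (μ : Measure X) [IsFiniteMeasure μ] (u : K) (hu : u ≠ 0)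
    (hinv : μ.map (rho u) = μ) (k k' : ℤ)
    (him : (fun v => u * v) '' (Qpi k : Set K) = (Qpi k' : Set K)) (v : K) :
    Gk μ k v ∘ rho u =ᵐ[μ] Gk μ k' (u * v) := by
  have h1 := condExp_comp_rho μ u hu hinv (Qpi k : Set K) (ev v) (integrable_ev μ v)
  rw [him, ev_comp_rho] at h1
  filter_upwards [h1] with χ hχ
  simp only [Function.comp_apply] at hχ ⊢
  unfold Gk
  rw [hχ, ev_rho]

/-- The residue modulo `2 + i`. -/
theorem equi_residue (a s : GaussianInt) (ha : ¬ gpi ∣ a) (hs : ¬ gpi ∣ s) :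
    ∃ e : ℕ, (e = 1 ∨ e = 2 ∨ e = 3 ∨ e = 4) ∧ gpi ∣ a - (e : GaussianInt) * s := by
  rw [gpi_dvd_iff] at ha hs
  set x := a.re - 2 * a.im with hx
  set y := s.re - 2 * s.im with hy
  have key : ∃ e : ℕ, (e = 1 ∨ e = 2 ∨ e = 3 ∨ e = 4) ∧ (5 : ℤ) ∣ x - e * y := by
    have h1 : ∃ x0 : ℤ, ∃ r : ℤ, x = 5 * x0 + r ∧ (r = 1 ∨ r = 2 ∨ r = 3 ∨ r = 4) := by
      refine ⟨x / 5, x % 5, (Int.mul_ediv_add_emod x 5).symm, ?_⟩
      have : x % 5 ≠ 0 := fun h => ha (Int.dvd_of_emod_eq_zero h)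
      omega
    have h2 : ∃ y0 : ℤ, ∃ r : ℤ, y = 5 * y0 + r ∧ (r = 1 ∨ r = 2 ∨ r = 3 ∨ r = 4) := by
      refine ⟨y / 5, y % 5, (Int.mul_ediv_add_emod y 5).symm, ?_⟩
      have : y % 5 ≠ 0 := fun h => hs (Int.dvd_of_emod_eq_zero h)
      omega
    obtain ⟨x0, r, h3, h4⟩ := h1
    obtain ⟨y0, r', h5, h6⟩ := h2
    rcases h4 with h4 | h4 | h4 | h4 <;> rcases h6 with h6 | h6 | h6 | h6 <;> subst h4 <;>
      subst h6 <;>
      first
      | exact ⟨1, by simp, by push_cast; omega⟩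
      | exact ⟨2, by simp, by push_cast; omega⟩
      | exact ⟨3, by simp, by push_cast; omega⟩
      | exact ⟨4, by simp, by push_cast; omega⟩
  obtain ⟨e, he, hd⟩ := key
  refine ⟨e, he, ?_⟩
  rw [gpi_dvd_iff]
  have h7 : (a - (e : GaussianInt) * s).re - 2 * (a - (e : GaussianInt) * s).im = x - e * y := by
    simp [Zsqrtd.re_mul, Zsqrtd.im_mul, hx, hy]
    ring
  rw [h7]
  exact hd

theorem equi_perm (F : ℕ → ℂ) (e : ℕ) (he : e = 1 ∨ e = 2 ∨ e = 3 ∨ e = 4) :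
    ∑ j ∈ Finset.range 5, F ((j * e) % 5) = ∑ j ∈ Finset.range 5, F j := by
  rcases he with rfl | rfl | rfl | rfl <;> simp [Finset.sum_range_succ] <;> ring

/-- The average over multiples of an element of valuation `k - 1`. -/
theorem equi_sum (μ : Measure X) [IsFiniteMeasure μ] (hhom : ∀ᵐ χ ∂μ, χ ∈ Hm) (k : ℤ)
    (a s : GaussianInt) (ha : ¬ gpi ∣ a) (hs : ¬ gpi ∣ s) (t : K)
    (ht : t = c a / c s * c gpi ^ (k - 1)) :
    (fun χ => (1 / 5 : ℂ) * ∑ j ∈ Finset.range 5, Gk μ k ((j : K) * t) χ) =ᵐ[μ] pk μ k := by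
  obtain ⟨e, he, b, hb⟩ := equi_residue a s ha hs
  have hs0 := c_ne_zero (equi_ne_zero hs)
  have hp0 := c_ne_zero gpi_ne_zero
  have h1 : ∀ j : ℕ, Gk μ k ((j : K) * t) =ᵐ[μ]
      Gk μ k ((((j * e) % 5 : ℕ) : K) * c gpi ^ (k - 1)) := by
    intro j
    have h2 : (j : K) * t - (((j * e) % 5 : ℕ) : K) * c gpi ^ (k - 1) ∈ Qpi k := by
      refine equi_mem_Qpi.2 ⟨j * b + star gpi * ((j * e / 5 : ℕ) : GaussianInt) * s, s, hs, ?_⟩
      have h3 : c a = c gpi * c b + (e : K) * c s := by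
        have h4 : a = gpi * b + (e : GaussianInt) * s := by
          rw [← hb]
          ring
        rw [h4, map_add, map_mul, map_mul, map_natCast]
      have h5 : (((j * e) % 5 : ℕ) : K) = (j : K) * e - 5 * ((j * e / 5 : ℕ) : K) := by
        have h6 : ((5 * (j * e / 5) + (j * e) % 5 : ℕ) : K) = ((j * e : ℕ) : K) := by
          rw [Nat.div_add_mod]
        push_cast at h6
        linear_combination h6
      have h7 : c gpi ^ k = c gpi ^ (k - 1) * c gpi := by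
        rw [← zpow_add_one₀ hp0]
        congr 1
        ring
      rw [ht, h3, h5, h7, map_add, map_mul, map_mul, map_mul, map_natCast, map_natCast,
        ← c_gpi_mul]
      field_simp
      ring
    have h8 := Gk_add μ hhom k ((((j * e) % 5 : ℕ) : K) * c gpi ^ (k - 1)) _ h2
    rw [add_sub_cancel] at h8
    exact h8
  have h9 : ∀ᵐ χ ∂μ, ∀ j ∈ Finset.range 5, Gk μ k ((j : K) * t) χ =
      Gk μ k ((((j * e) % 5 : ℕ) : K) * c gpi ^ (k - 1)) χ := by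
    rw [Filter.eventually_all_finset]
    intro j _
    exact h1 j
  filter_upwards [h9] with χ hχ
  unfold pk
  rw [Finset.sum_congr rfl hχ]
  congr 1
  exact equi_perm (fun j => Gk μ k ((j : K) * c gpi ^ (k - 1)) χ) e he

theorem equi_pk (μ : Measure X) [IsFiniteMeasure μ] (hhom : ∀ᵐ χ ∂μ, χ ∈ Hm)
    (u : K) (hinv : μ.map (rho u) = μ) (k : ℤ) (e : ℕ)
    (a s : GaussianInt) (ha : ¬ gpi ∣ a) (hs : ¬ gpi ∣ s) (hu : u = c gpi ^ e * c a / c s) :
    pk μ k ∘ rho u =ᵐ[μ] pk μ (k + e) := by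
  have ha0 := c_ne_zero (equi_ne_zero ha)
  have hs0 := c_ne_zero (equi_ne_zero hs)
  have hp0 := c_ne_zero gpi_ne_zero
  have hu0 : u ≠ 0 := by
    rw [hu]
    exact div_ne_zero (mul_ne_zero (pow_ne_zero _ hp0) ha0) hs0
  have him : (fun v => u * v) '' (Qpi k : Set K) = (Qpi (k + e) : Set K) := by
    rw [hu]
    exact equi_image k e a s ha hs
  have h1 : ∀ᵐ χ ∂μ, ∀ j ∈ Finset.range 5, (Gk μ k ((j : K) * c gpi ^ (k - 1)) ∘ rho u) χ =
      Gk μ (k + e) (u * ((j : K) * c gpi ^ (k - 1))) χ := by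
    rw [Filter.eventually_all_finset]
    intro j _
    exact equi_Gk μ u hu0 hinv k (k + e) him _
  have h2 := equi_sum μ hhom (k + e) a s ha hs (u * c gpi ^ (k - 1)) (by
    rw [hu, show k + (e : ℤ) - 1 = (e : ℤ) + (k - 1) by ring, zpow_add₀ hp0, zpow_natCast]
    ring)
  filter_upwards [h1, h2] with χ h3 h4
  rw [← h4]
  have h5 : (pk μ k ∘ rho u) χ = (1 / 5 : ℂ) * ∑ j ∈ Finset.range 5,
      (Gk μ k ((j : K) * c gpi ^ (k - 1)) ∘ rho u) χ := rfl
  rw [h5, Finset.sum_congr rfl h3]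
  congr 1
  refine Finset.sum_congr rfl fun j _ => ?_
  congr 1
  ring

theorem pk_comp_unit (μ : Measure X) [IsFiniteMeasure μ] (hinv : InvQ μ)
    (hhom : ∀ᵐ χ ∂μ, χ ∈ Hm) (z : GaussianInt) (hz1 : ¬ gpi ∣ z) (hz2 : ¬ gpi ∣ star z) (k : ℤ) :
    pk μ k ∘ rho (un z) =ᵐ[μ] pk μ k := by
  have h := equi_pk μ hhom (un z) (hinv z (equi_ne_zero hz1)) k 0 z (star z) hz1 hz2 (by
    simp [un])
  simpa using h

theorem pk_comp_gpi (μ : Measure X) [IsFiniteMeasure μ] (hinv : InvQ μ)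
    (hhom : ∀ᵐ χ ∂μ, χ ∈ Hm) (k : ℤ) :
    pk μ k ∘ rho (un gpi) =ᵐ[μ] pk μ (k + 1) := by
  have h := equi_pk μ hhom (un gpi) (hinv gpi gpi_ne_zero) k 1 1 (star gpi) not_gpi_dvd_one
    equi_not_dvd_star (by simp [un])
  simpa using h

theorem equi_not_isUnit : ¬ IsUnit gpi := fun h => not_gpi_dvd_one h.dvd

/-- every nonzero Gaussian integer is a power of `gpi`, times a power of `star gpi`, times an
integer coprime to both -/
theorem exists_factor (z : GaussianInt) (hz : z ≠ 0) : ∃ (a b : ℕ) (w : GaussianInt),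
    ¬ gpi ∣ w ∧ ¬ gpi ∣ star w ∧ z = gpi ^ a * star gpi ^ b * w := by
  have h1 : FiniteMultiplicity gpi z := FiniteMultiplicity.of_not_isUnit equi_not_isUnit hz
  obtain ⟨z1, hz1, hd1⟩ := h1.exists_eq_pow_mul_and_not_dvd
  have hz10 : z1 ≠ 0 := equi_ne_zero hd1
  have hnu : ¬ IsUnit (star gpi) := by
    intro h
    apply equi_not_isUnit
    have := h.star
    rwa [star_star] at this
  have h2 : FiniteMultiplicity (star gpi) z1 := FiniteMultiplicity.of_not_isUnit hnu hz10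
  obtain ⟨w, hw, hd2⟩ := h2.exists_eq_pow_mul_and_not_dvd
  refine ⟨multiplicity gpi z, multiplicity (star gpi) z1, w, ?_, ?_, ?_⟩
  · intro h
    apply hd1
    rw [hw]
    exact h.mul_left _
  · rintro ⟨y, hy⟩
    apply hd2
    refine ⟨star y, ?_⟩
    rw [← star_star w, hy, star_mul, mul_comm]
  · rw [mul_assoc, ← hw]
    exact hz1

end Pool.Agent.H56
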