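import Pool.Agent.H56.ModLower
import Pool.Agent.H56.ModEqui
set_option autoImplicit false
open MeasureTheory Complex
namespace Pool.Agent.H56

theorem det_measurable_Gk (μ : Measure X) (k : ℤ) (v : K) : Measurable (Gk μ k v) := by
  unfold Gk
  have h1 : Measurable (μ[ev v | mS (Qpi k : Set K)]) :=
    (stronglyMeasurable_condExp.mono (mS_le _)).measurable
  have h2 : Measurable fun χ : X => (starRingEnd ℂ) (ev v χ) :=
    Complex.continuous_conj.measurable.comp (measurable_ev v)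
  exact h2.mul h1

theorem det_measurable_pk (μ : Measure X) (k : ℤ) : Measurable (pk μ k) := by
  unfold pk
  exact (Finset.measurable_fun_sum _ fun j _ => det_measurable_Gk μ k _).const_mul _

theorem det_norm_pk_le (μ : Measure X) [IsFiniteMeasure μ] (k : ℤ) :
    ∀ᵐ χ ∂μ, ‖pk μ k χ‖ ≤ 1 := by
  have h : ∀ᵐ χ ∂μ, ∀ j : ℕ, ‖Gk μ k ((j : K) * c gpi ^ (k - 1)) χ‖ ≤ 1 :=
    ae_all_iff.2 fun j => norm_Gk_le μ k _
  filter_upwards [h] with χ hχ
  unfold pk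
  rw [norm_mul]
  have h1 : ‖∑ j ∈ Finset.range 5, Gk μ k ((j : K) * c gpi ^ (k - 1)) χ‖ ≤ 5 := by
    refine (norm_sum_le _ _).trans ?_
    calc ∑ j ∈ Finset.range 5, ‖Gk μ k ((j : K) * c gpi ^ (k - 1)) χ‖
        ≤ ∑ j ∈ Finset.range 5, (1 : ℝ) := Finset.sum_le_sum fun j _ => hχ j
      _ = 5 := by simp
  have h2 : ‖(1 / 5 : ℂ)‖ = 1 / 5 := by norm_num
  rw [h2]
  linarith

/-- The decreasing limit of the products. -/
noncomputable def detLim (μ : Measure X) (s : ℤ) (χ : X) : ENNReal :=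
  ⨅ m : ℕ, ∏ i ∈ Finset.range m, ‖pk μ (s - i) χ‖ₑ

theorem det_measurable_prod (μ : Measure X) (s : ℤ) (m : ℕ) :
    Measurable fun χ : X => ∏ i ∈ Finset.range m, ‖pk μ (s - i) χ‖ₑ :=
  Finset.measurable_fun_prod _ fun _ _ => (det_measurable_pk μ _).enorm

theorem det_measurable_lim (μ : Measure X) (s : ℤ) : Measurable (detLim μ s) :=
  Measurable.iInf fun m => det_measurable_prod μ s m

theorem det_ae_le (μ : Measure X) [IsFiniteMeasure μ] : ∀ᵐ χ ∂μ, ∀ k : ℤ, ‖pk μ k χ‖ₑ ≤ 1 := by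
  refine ae_all_iff.2 fun k => ?_
  filter_upwards [det_norm_pk_le μ k] with χ h
  rw [← ofReal_norm]
  exact ENNReal.ofReal_le_one.2 h

theorem det_antitone {μ : Measure X} {χ : X} (h : ∀ k : ℤ, ‖pk μ k χ‖ₑ ≤ 1) (s : ℤ) :
    Antitone fun m : ℕ => ∏ i ∈ Finset.range m, ‖pk μ (s - i) χ‖ₑ := by
  refine antitone_nat_of_succ_le fun m => ?_
  rw [Finset.prod_range_succ]
  exact mul_le_of_le_one_right' (h _)

theorem det_lim_shift {μ : Measure X} {χ : X} (h : ∀ k : ℤ, ‖pk μ k χ‖ₑ ≤ 1) :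
    detLim μ 1 χ = ‖pk μ 1 χ‖ₑ * detLim μ 0 χ := by
  unfold detLim
  rw [← (det_antitone h 1).iInf_nat_add 1, ENNReal.mul_iInf (fun h0 => by simp at h0)]
  refine iInf_congr fun m => ?_
  have e0 : (1 : ℤ) - ((0 : ℕ) : ℤ) = 1 := by simp
  have e1 : ∀ i : ℕ, (1 : ℤ) - ((i + 1 : ℕ) : ℤ) = 0 - (i : ℤ) := by
    intro i
    push_cast
    ring
  rw [Finset.prod_range_succ', mul_comm, e0]
  simp only [e1]

theorem det_lim_le_one (μ : Measure X) (s : ℤ) (χ : X) : detLim μ s χ ≤ 1 :=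
  (iInf_le _ 0).trans (by simp)

/-- The action preserves the measure. -/
theorem det_mp {μ : Measure X} {u : K} (h : μ.map (rho u) = μ) : MeasurePreserving (rho u) μ μ :=
  ⟨measurable_rho u, h⟩

theorem det_lim_comp {μ : Measure X} [IsFiniteMeasure μ] {u : K} {s t : ℤ}
    (h : ∀ i : ℕ, pk μ (s - i) ∘ rho u =ᵐ[μ] pk μ (t - i)) :
    detLim μ s ∘ rho u =ᵐ[μ] detLim μ t := by
  filter_upwards [ae_all_iff.2 h] with χ hχ
  unfold detLim
  simp only [Function.comp_apply]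
  refine iInf_congr fun m => Finset.prod_congr rfl fun i _ => ?_
  rw [← hχ i, Function.comp_apply]

theorem det_lintegral_lim (μ : Measure X) [IsFiniteMeasure μ] (hinv : InvQ μ)
    (hhom : ∀ᵐ χ ∂μ, χ ∈ Hm) (v : GaussianInt) (hv : ¬ gpi ∣ v)
    (hne : ∫ χ, ev (c v) χ ∂μ ≠ 0) : ∫⁻ χ, detLim μ 0 χ ∂μ ≠ 0 := by
  have hmain : ∀ m : ℕ, ENNReal.ofReal (4 / 5 * ‖∫ χ, ev (c v) χ ∂μ‖ ^ 2) ≤
      μ Set.univ * ∫⁻ χ, ∏ i ∈ Finset.range (m + 1), ‖pk μ (0 - i) χ‖ₑ ∂μ := by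
    intro m
    have h1 := lower_bound μ hinv hhom v hv m
    have h2 := enorm_integral_le_lintegral_enorm (μ := μ)
      (fun χ : X => ∏ i ∈ Finset.range (m + 1), pk μ (0 - i) χ)
    calc ENNReal.ofReal (4 / 5 * ‖∫ χ, ev (c v) χ ∂μ‖ ^ 2)
        ≤ ENNReal.ofReal ((μ Set.univ).toReal *
            ‖∫ χ, ∏ i ∈ Finset.range (m + 1), pk μ (0 - i) χ ∂μ‖) := ENNReal.ofReal_le_ofReal h1
      _ = μ Set.univ * ‖∫ χ, ∏ i ∈ Finset.range (m + 1), pk μ (0 - i) χ ∂μ‖ₑ := by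
          rw [ENNReal.ofReal_mul ENNReal.toReal_nonneg,
            ENNReal.ofReal_toReal (measure_ne_top _ _), ofReal_norm]
      _ ≤ μ Set.univ * ∫⁻ χ, ‖∏ i ∈ Finset.range (m + 1), pk μ (0 - i) χ‖ₑ ∂μ := by
          gcongr
      _ = _ := by
          congr 1
          refine lintegral_congr fun χ => ?_
          simp only [← ofReal_norm, norm_prod]
          rw [ENNReal.ofReal_prod_of_nonneg fun i _ => norm_nonneg _]
  have hpos : 0 < 4 / 5 * ‖∫ χ, ev (c v) χ ∂μ‖ ^ 2 := by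
    have := norm_pos_iff.2 hne
    positivity
  have hae := det_ae_le μ
  have hlim : ∫⁻ χ, detLim μ 0 χ ∂μ =
      ⨅ m : ℕ, ∫⁻ χ, ∏ i ∈ Finset.range m, ‖pk μ (0 - i) χ‖ₑ ∂μ := by
    unfold detLim
    refine lintegral_iInf_ae (fun m => det_measurable_prod μ 0 m) (fun m => ?_) ?_
    · filter_upwards [hae] with χ hχ
      exact det_antitone hχ 0 (Nat.le_succ m)
    · simp
  intro h0
  rw [hlim] at h0
  have hcon : ENNReal.ofReal (4 / 5 * ‖∫ χ, ev (c v) χ ∂μ‖ ^ 2) ≤ 0 := by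
    have h3 : ENNReal.ofReal (4 / 5 * ‖∫ χ, ev (c v) χ ∂μ‖ ^ 2) ≤
        ⨅ m : ℕ, μ Set.univ * ∫⁻ χ, ∏ i ∈ Finset.range m, ‖pk μ (0 - i) χ‖ₑ ∂μ := by
      refine le_iInf fun m => (hmain m).trans ?_
      gcongr μ Set.univ * ?_
      refine lintegral_mono_ae ?_
      filter_upwards [hae] with χ hχ
      exact det_antitone hχ 0 (Nat.le_succ m)
    rw [← ENNReal.mul_iInf (fun h1 => absurd h1 (measure_ne_top _ _)), h0, mul_zero] at h3
    exact h3
  exact absurd hcon (not_le.2 (ENNReal.ofReal_pos.2 hpos))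

theorem det_lim_inv (μ : Measure X) [IsFiniteMeasure μ] (hinv : InvQ μ)
    (hhom : ∀ᵐ χ ∂μ, χ ∈ Hm) :
    (∀ z : GaussianInt, z ≠ 0 → detLim μ 0 ∘ rho (un z) =ᵐ[μ] detLim μ 0) ∧
      detLim μ 1 =ᵐ[μ] detLim μ 0 := by
  have hae := det_ae_le μ
  have hg := det_mp (hinv gpi gpi_ne_zero)
  have h1 : detLim μ 0 ∘ rho (un gpi) =ᵐ[μ] detLim μ 1 := by
    refine det_lim_comp fun i => ?_
    have h := pk_comp_gpi μ hinv hhom (0 - i)
    have e : (0 - (i : ℤ) + 1) = 1 - i := by ring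
    rwa [e] at h
  have hle : detLim μ 1 ≤ᵐ[μ] detLim μ 0 := by
    filter_upwards [hae] with χ hχ
    rw [det_lim_shift hχ]
    exact mul_le_of_le_one_left' (hχ 1)
  have hfin : ∀ s : ℤ, ∫⁻ χ, detLim μ s χ ∂μ ≠ ⊤ := by
    intro s
    refine ne_top_of_le_ne_top (measure_ne_top μ Set.univ) ?_
    calc ∫⁻ χ, detLim μ s χ ∂μ ≤ ∫⁻ _, 1 ∂μ := lintegral_mono fun χ => det_lim_le_one μ s χ
      _ = _ := by simp
  have h10 : detLim μ 1 =ᵐ[μ] detLim μ 0 := by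
    refine ae_eq_of_ae_le_of_lintegral_le hle (hfin 1) (det_measurable_lim μ 0).aemeasurable ?_
    rw [← hg.lintegral_comp (det_measurable_lim μ 0)]
    exact (lintegral_congr_ae h1).le
  refine ⟨?_, h10⟩
  have hpsi : detLim μ 0 ∘ rho (un gpi) =ᵐ[μ] detLim μ 0 := h1.trans h10
  -- closure of the set of good rotations under multiplication
  have hmul : ∀ u w : K, μ.map (rho w) = μ → detLim μ 0 ∘ rho u =ᵐ[μ] detLim μ 0 →
      detLim μ 0 ∘ rho w =ᵐ[μ] detLim μ 0 → detLim μ 0 ∘ rho (w * u) =ᵐ[μ] detLim μ 0 := by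
    intro u w hw hu1 hw1
    rw [← rho_comp, ← Function.comp_assoc]
    exact ((det_mp hw).quasiMeasurePreserving.ae_eq_comp hu1).trans hw1
  have hstar : detLim μ 0 ∘ rho (un (star gpi)) =ᵐ[μ] detLim μ 0 := by
    have h2 := (det_mp (hinv (star gpi) (star_ne_zero' gpi_ne_zero))).quasiMeasurePreserving.ae_eq_comp
      hpsi
    rw [Function.comp_assoc, rho_comp, un_star, inv_mul_cancel₀ (un_ne_zero gpi_ne_zero), rho_one,
      Function.comp_id] at h2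
    rw [un_star]
    exact h2.symm
  have hpow : ∀ z : GaussianInt, z ≠ 0 → detLim μ 0 ∘ rho (un z) =ᵐ[μ] detLim μ 0 →
      ∀ n : ℕ, detLim μ 0 ∘ rho (un (z ^ n)) =ᵐ[μ] detLim μ 0 := by
    intro z hz hz1 n
    induction n with
    | zero => simp
    | succ n ih =>
      rw [pow_succ, un_mul]
      exact hmul _ _ (hinv _ (pow_ne_zero n hz)) hz1 ih
  intro z hz
  obtain ⟨a, b, w, hw1, hw2, rfl⟩ := exists_factor z hz
  have hw0 : w ≠ 0 := by
    rintro rfl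
    exact hw1 (dvd_zero _)
  have hw : detLim μ 0 ∘ rho (un w) =ᵐ[μ] detLim μ 0 :=
    det_lim_comp fun i => pk_comp_unit μ hinv hhom w hw1 hw2 _
  have hab : gpi ^ a * star gpi ^ b ≠ 0 :=
    mul_ne_zero (pow_ne_zero a gpi_ne_zero) (pow_ne_zero b (star_ne_zero' gpi_ne_zero))
  rw [un_mul, un_mul]
  refine hmul _ _ (by rw [← un_mul]; exact hinv _ hab) hw ?_
  exact hmul _ _ (hinv _ (pow_ne_zero a gpi_ne_zero))
    (hpow _ (star_ne_zero' gpi_ne_zero) hstar b) (hpow _ gpi_ne_zero hpsi a)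

/-- Five complex numbers of modulus at most one, one of which is `1`, whose average has modulus one
are all equal to one. -/
theorem det_average {f : ℕ → ℂ} (hf : ∀ j, ‖f j‖ ≤ 1) (h0 : f 0 = 1)
    (h : ‖(1 / 5 : ℂ) * ∑ j ∈ Finset.range 5, f j‖ = 1) : f 1 = 1 := by
  rw [norm_mul] at h
  have h2 : ‖(1 / 5 : ℂ)‖ = 1 / 5 := by norm_num
  rw [h2] at h
  have h5 : ‖∑ j ∈ Finset.range 5, f j‖ = 5 := by linarith
  have e : ∑ j ∈ Finset.range 5, f j = (f 0 + f 1) + (f 2 + f 3 + f 4) := by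
    simp only [Finset.sum_range_succ, Finset.sum_range_zero]
    ring
  rw [e] at h5
  have h3 : ‖f 2 + f 3 + f 4‖ ≤ 3 := by
    have := norm_add₃_le (a := f 2) (b := f 3) (c := f 4)
    linarith [hf 2, hf 3, hf 4]
  have h4 : 2 ≤ ‖f 0 + f 1‖ := by
    have := norm_add_le (f 0 + f 1) (f 2 + f 3 + f 4)
    linarith
  rw [h0] at h4
  have h6 : ‖f 1‖ ^ 2 ≤ 1 := by
    have := hf 1
    have := norm_nonneg (f 1)
    nlinarith
  have h7 : 4 ≤ ‖1 + f 1‖ ^ 2 := by nlinarith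
  rw [← Complex.normSq_eq_norm_sq, Complex.normSq_apply] at h6 h7
  simp only [Complex.add_re, Complex.one_re, Complex.add_im, Complex.one_im, zero_add] at h7
  have h8 : (f 1).re = 1 := by nlinarith [mul_self_nonneg (f 1).im, mul_self_nonneg ((f 1).re - 1)]
  have h9 : (f 1).im = 0 := by
    rw [h8] at h6
    nlinarith [mul_self_nonneg (f 1).im]
  exact Complex.ext h8 h9

theorem det_Gk_zero (μ : Measure X) [IsFiniteMeasure μ] (hhom : ∀ᵐ χ ∂μ, χ ∈ Hm) (k : ℤ) :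
    Gk μ k 0 =ᵐ[μ] fun _ => 1 := by
  have h1 : ev 0 =ᵐ[μ] fun _ => (1 : ℂ) := by
    filter_upwards [hhom] with χ hχ
    exact ev_zero hχ
  have h2 : μ[ev 0 | mS (Qpi k : Set K)] =ᵐ[μ] fun _ => (1 : ℂ) := by
    refine (condExp_congr_ae h1).trans ?_
    rw [condExp_const (mS_le _)]
  filter_upwards [h1, h2] with χ hχ1 hχ2
  unfold Gk
  rw [hχ1, hχ2]
  simp

theorem det (μ : Measure X) [IsFiniteMeasure μ] (hinv : InvQ μ) (hhom : ∀ᵐ χ ∂μ, χ ∈ Hm)
    (v : GaussianInt) (hv : ¬ gpi ∣ v) (hne : ∫ χ, ev (c v) χ ∂μ ≠ 0) :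
    ∃ A : Set X, MeasurableSet A ∧ μ A ≠ 0 ∧ InvQ (μ.restrict A) ∧
      ∀ ε : ℝ, 0 < ε → ∃ (W : Finset K) (a : K → ℂ), (∀ w ∈ W, w ∈ Qpi 1) ∧
        ∫ χ in A, ‖ev 1 χ - ∑ w ∈ W, a w * ev w χ‖ ^ 2 ∂μ ≤ ε := by
  obtain ⟨hlim, h10⟩ := det_lim_inv μ hinv hhom
  have hae := det_ae_le μ
  set A : Set X := {χ | detLim μ 0 χ ≠ 0} with hA
  have hAm : MeasurableSet A :=
    (det_measurable_lim μ 0) (measurableSet_singleton (0 : ENNReal)).compl
  refine ⟨A, hAm, ?_, ?_, ?_⟩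
  · intro h0
    apply det_lintegral_lim μ hinv hhom v hv hne
    rw [lintegral_eq_zero_iff (det_measurable_lim μ 0)]
    exact h0
  · intro z hz
    refine Measure.ext fun S hS => ?_
    rw [Measure.map_apply (measurable_rho _) hS, Measure.restrict_apply (measurable_rho _ hS),
      Measure.restrict_apply hS]
    have h1 : (rho (un z) ⁻¹' S ∩ A : Set X) =ᵐ[μ] (rho (un z) ⁻¹' (S ∩ A) : Set X) := by
      filter_upwards [hlim z hz] with χ hχ
      apply propext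
      change (rho (un z) χ ∈ S ∧ detLim μ 0 χ ≠ 0) ↔
        (rho (un z) χ ∈ S ∧ detLim μ 0 (rho (un z) χ) ≠ 0)
      rw [← hχ]
      rfl
    rw [measure_congr h1]
    exact hinv.measure_preimage hz (hS.inter hAm)
  · intro ε hε
    -- the conditional expectation of `ev 1` equals `ev 1` on `A`
    set g : X → ℂ := μ[ev 1 | mS (Qpi 1 : Set K)] with hg
    have hgA : ∀ᵐ χ ∂μ, χ ∈ A → g χ = ev 1 χ := by
      have hG : ∀ᵐ χ ∂μ, ∀ j : ℕ, ‖Gk μ 1 ((j : K) * c gpi ^ ((1 : ℤ) - 1)) χ‖ ≤ 1 :=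
        ae_all_iff.2 fun j => norm_Gk_le μ 1 _
      filter_upwards [hae, h10, hG, det_Gk_zero μ hhom 1] with χ h1 h2 h3 h4 hχ
      rw [det_lim_shift h1] at h2
      have h5 : ‖pk μ 1 χ‖ₑ = 1 := by
        have h6 : detLim μ 0 χ ≠ ⊤ := ne_top_of_le_ne_top ENNReal.one_ne_top (det_lim_le_one _ _ _)
        have h7 : ‖pk μ 1 χ‖ₑ * detLim μ 0 χ = 1 * detLim μ 0 χ := by rw [h2, one_mul]
        exact (ENNReal.mul_left_inj hχ h6).1 h7
      have h6 : ‖pk μ 1 χ‖ = 1 := by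
        rw [← toReal_enorm, h5, ENNReal.toReal_one]
      unfold pk at h6
      have h7 : Gk μ 1 (((1 : ℕ) : K) * c gpi ^ ((1 : ℤ) - 1)) χ = 1 := by
        refine det_average (f := fun j : ℕ => Gk μ 1 ((j : K) * c gpi ^ ((1 : ℤ) - 1)) χ) h3 ?_ h6
        simp only [Nat.cast_zero, zero_mul]
        exact h4
      have h8 : Gk μ 1 1 χ = 1 := by
        have e : (((1 : ℕ) : K) * c gpi ^ ((1 : ℤ) - 1)) = 1 := by simp
        rwa [e] at h7
      unfold Gk at h8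
      change (starRingEnd ℂ) (ev 1 χ) * g χ = 1 at h8
      have h9 := ev_mul_conj 1 χ
      calc g χ = (ev 1 χ * (starRingEnd ℂ) (ev 1 χ)) * g χ := by rw [h9, one_mul]
        _ = ev 1 χ * ((starRingEnd ℂ) (ev 1 χ) * g χ) := by ring
        _ = ev 1 χ := by rw [h8, mul_one]
    have hgm : StronglyMeasurable[mS (Qpi 1 : Set K)] g := stronglyMeasurable_condExp
    have hgb := norm_condExp_ev_le μ (Qpi 1 : Set K) 1
    have hgm' : AEStronglyMeasurable g μ := (hgm.mono (mS_le _)).aestronglyMeasurable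
    have hg2 : MemLp g 2 μ := MemLp.of_bound hgm' 1 hgb
    obtain ⟨W, a, hW, hle⟩ := exists_trig_approx μ hhom (Qpi 1) g hgm hg2 ε hε
    refine ⟨W, a, hW, ?_⟩
    have h1 : ∫ χ in A, ‖ev 1 χ - ∑ w ∈ W, a w * ev w χ‖ ^ 2 ∂μ =
        ∫ χ in A, ‖g χ - ∑ w ∈ W, a w * ev w χ‖ ^ 2 ∂μ := by
      refine setIntegral_congr_ae hAm ?_
      filter_upwards [hgA] with χ h2 h3
      rw [h2 h3]
    rw [h1]
    refine (setIntegral_le_integral ?_ ?_).trans hle
    · have hs : StronglyMeasurable fun χ : X => ∑ w ∈ W, a w * ev w χ :=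
        Finset.stronglyMeasurable_fun_sum _ fun w _ => (stronglyMeasurable_ev w).const_mul _
      refine Integrable.of_bound ((hgm'.sub hs.aestronglyMeasurable).norm.pow 2)
        ((1 + ∑ w ∈ W, ‖a w‖) ^ 2) ?_
      filter_upwards [hgb] with χ h2
      rw [Real.norm_eq_abs, abs_of_nonneg (by positivity)]
      gcongr
      refine (norm_sub_le _ _).trans (add_le_add h2 ?_)
      refine (norm_sum_le _ _).trans (Finset.sum_le_sum fun w _ => ?_)
      rw [norm_mul, norm_ev, mul_one]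
    · exact Filter.Eventually.of_forall fun χ => by positivity

end Pool.Agent.H56
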