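import Pool.Agent.H56.ModSqrt
set_option autoImplicit false
open MeasureTheory Complex
namespace Pool.Agent.H56

theorem disc_exists_sqrt (d : ℚ) (hd : 0 < d) : ∃ r : K, (r : ℂ) = (Real.sqrt d : ℝ) := by
  have h1 : IsAlgebraic ℚ ((Real.sqrt d : ℝ) : ℂ) := by
    have h2 : IsAlgebraic ℚ ((((Real.sqrt d : ℝ) : ℂ)) ^ 2) := by
      have h3 : (((Real.sqrt d : ℝ) : ℂ)) ^ 2 = algebraMap ℚ ℂ d := by
        rw [← Complex.ofReal_pow, Real.sq_sqrt (by exact_mod_cast hd.le)]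
        simp
      rw [h3]
      exact isAlgebraic_algebraMap d
    exact h2.of_pow (by norm_num)
  exact ⟨⟨_, mem_algebraicClosure_iff.2 h1⟩, rfl⟩

theorem disc_str_subset_Hm {χ : X} (h : χ ∈ Str) : χ ∈ Hm := by
  obtain ⟨N, -, h1, -⟩ := h
  exact h1

theorem disc_Qi_mul {a b : K} (ha : a ∈ Qi) (hb : b ∈ Qi) : a * b ∈ Qi := by
  obtain ⟨z, n, hn, rfl⟩ := ha
  obtain ⟨w, m, hm, rfl⟩ := hb
  refine ⟨z * w, n * m, Nat.mul_pos hn hm, ?_⟩
  rw [map_mul, Nat.cast_mul, mul_div_mul_comm]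

theorem disc_I_mem_Qi : iK ∈ Qi := by
  refine ⟨⟨0, 1⟩, 1, one_pos, ?_⟩
  rw [c_apply]
  simp

theorem disc_neg_mem_Qi {a : K} (ha : a ∈ Qi) : -a ∈ Qi := by
  obtain ⟨z, n, hn, rfl⟩ := ha
  exact ⟨-z, n, hn, by rw [map_neg, neg_div]⟩

/-- almost every structured character stays structured -/
theorem disc_ae_iff (μ : Measure X) [IsFiniteMeasure μ] (hinv : InvK μ)
    (hhom : ∀ᵐ χ ∂μ, χ ∈ Hm) (d : ℚ) (hd : 0 < d) (r : K) (hr : (r : ℂ) = (Real.sqrt d : ℝ))
    (α β u : K) (hα : α ∈ Qi) (hβ : β ∈ Qi) (hu : u = α + β * r) (hu1 : ‖(u : ℂ)‖ = 1) :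
    (rho u ⁻¹' Str : Set X) =ᵐ[μ] (Str : Set X) := by
  have h1 : ∀ᵐ χ ∂μ, χ ∈ Str → χ ∈ (rho u ⁻¹' Str : Set X) := by
    have h2 := null_sqrt μ hinv hhom d hd r hr
    have h3 : ∀ᵐ χ ∂μ, χ ∉ {χ | χ ∈ Str ∧ rho r χ ∉ Str} := measure_eq_zero_iff_ae_notMem.1 h2
    filter_upwards [h3] with χ hχ hS
    have h4 : rho r χ ∈ Str := by
      by_contra h5
      exact hχ ⟨hS, h5⟩
    have hH := disc_str_subset_Hm hS
    have h5 : rho (β * r) χ ∈ Str := str_rho_mul hH hβ h4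
    have h6 : rho (α * 1) χ ∈ Str := str_rho_mul hH hα (by simpa using hS)
    rw [mul_one] at h6
    show rho u χ ∈ Str
    rw [hu]
    exact str_rho_add hH h6 h5
  have h2 : (Str : Set X) ≤ᵐ[μ] (rho u ⁻¹' Str : Set X) := h1
  have h3 : μ (rho u ⁻¹' Str) = μ Str := hinv.measure_preimage hu1 measurableSet_Str
  exact (ae_eq_of_ae_subset_of_measure_ge h2 h3.le
    measurableSet_Str.nullMeasurableSet (measure_ne_top μ _)).symm

/-- the size of `ev v - 1` on `Str` -/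
noncomputable def discI (μ : Measure X) (v : K) : ℝ := ∫ χ in Str, ‖ev v χ - 1‖ ^ 2 ∂μ

theorem disc_integrable (μ : Measure X) [IsFiniteMeasure μ] (v : K) :
    Integrable (fun χ => ‖ev v χ - 1‖ ^ 2) μ := by
  refine Integrable.of_bound (C := 4) ?_ (Filter.Eventually.of_forall fun χ => ?_)
  · exact ((((continuous_ev v).sub continuous_const).norm).pow 2).aestronglyMeasurable
  · rw [Real.norm_eq_abs, abs_of_nonneg (by positivity)]
    have h1 : ‖ev v χ - 1‖ ≤ 2 := by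
      calc ‖ev v χ - 1‖ ≤ ‖ev v χ‖ + ‖(1 : ℂ)‖ := norm_sub_le _ _
        _ = 2 := by rw [norm_ev, norm_one]; norm_num
    nlinarith [norm_nonneg (ev v χ - 1)]

theorem discI_nonneg (μ : Measure X) (v : K) : 0 ≤ discI μ v :=
  integral_nonneg fun χ => by positivity

theorem discI_mul (μ : Measure X) [IsFiniteMeasure μ] (hinv : InvK μ)
    (u v : K) (hu1 : ‖(u : ℂ)‖ = 1) (h : (rho u ⁻¹' Str : Set X) =ᵐ[μ] (Str : Set X)) :
    discI μ (u * v) = discI μ v := by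
  unfold discI
  have h1 : ∫ χ in Str, ‖ev v χ - 1‖ ^ 2 ∂μ = ∫ χ in Str, ‖ev v χ - 1‖ ^ 2 ∂(μ.map (rho u)) := by
    rw [hinv u hu1]
  have h2 : Continuous (fun χ : X => ‖ev v χ - 1‖ ^ 2) :=
    (((continuous_ev v).sub continuous_const).norm).pow 2
  have h3 := setIntegral_map (μ := μ) (f := fun χ : X => ‖ev v χ - 1‖ ^ 2) measurableSet_Str
    h2.aestronglyMeasurable (measurable_rho u).aemeasurable
  rw [h1, h3]
  exact (setIntegral_congr_set h).symm

theorem discI_add (μ : Measure X) [IsFiniteMeasure μ] (v w : K) :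
    discI μ (v + w) ≤ 2 * discI μ v + 2 * discI μ w := by
  unfold discI
  rw [← integral_const_mul, ← integral_const_mul, ← integral_add
    (((disc_integrable μ v).integrableOn).const_mul 2)
    (((disc_integrable μ w).integrableOn).const_mul 2)]
  refine setIntegral_mono_on (disc_integrable μ _).integrableOn
    ((((disc_integrable μ v).integrableOn).const_mul 2).add
    (((disc_integrable μ w).integrableOn).const_mul 2)) measurableSet_Str ?_
  intro χ hχ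
  have hH := disc_str_subset_Hm hχ
  rw [ev_add hH]
  have h1 : ‖ev v χ * ev w χ - 1‖ ≤ ‖ev v χ - 1‖ + ‖ev w χ - 1‖ := by
    have h2 : ev v χ * ev w χ - 1 = (ev v χ - 1) * ev w χ + (ev w χ - 1) := by ring
    rw [h2]
    refine (norm_add_le _ _).trans ?_
    rw [norm_mul, norm_ev, mul_one]
  have h3 : ‖ev v χ * ev w χ - 1‖ ^ 2 ≤ (‖ev v χ - 1‖ + ‖ev w χ - 1‖) ^ 2 := by
    gcongr
  refine h3.trans ?_
  show _ ≤ 2 * ‖ev v χ - 1‖ ^ 2 + 2 * ‖ev w χ - 1‖ ^ 2
  nlinarith [sq_nonneg (‖ev v χ - 1‖ - ‖ev w χ - 1‖)]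

/-- the pieces of `Str` -/
def discS (n : ℕ) : Set X :=
  {χ | χ ∈ Hm ∧ ∃ ξ : ℂ, ‖ξ‖ ≤ n ∧ RealOn χ ξ (latInf ((n.factorial : ℕ) : K))}

theorem disc_latInf_mono {N M : ℕ} (h : N ∣ M) : latInf (M : K) ⊆ latInf (N : K) := by
  obtain ⟨k, rfl⟩ := h
  rintro v ⟨z, j, rfl⟩
  refine ⟨k * z, j, ?_⟩
  rw [map_mul, map_natCast, Nat.cast_mul]
  ring

theorem discS_mono : Monotone discS := by
  intro n m h χ hχ
  obtain ⟨h1, ξ, h2, h3⟩ := hχ
  refine ⟨h1, ξ, h2.trans (by exact_mod_cast h), fun v hv => h3 v ?_⟩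
  exact disc_latInf_mono (Nat.factorial_dvd_factorial h) hv

theorem iUnion_discS : ⋃ n, discS n = Str := by
  ext χ
  simp only [Set.mem_iUnion]
  constructor
  · rintro ⟨n, h1, ξ, h2, h3⟩
    exact ⟨n.factorial, Nat.factorial_pos n, h1, ξ, h3⟩
  · rintro ⟨N, hN, h1, ξ, h2⟩
    obtain ⟨m, hm⟩ := exists_nat_ge ‖ξ‖
    refine ⟨max N m, h1, ξ, hm.trans (by exact_mod_cast le_max_right N m), fun v hv => h2 v ?_⟩
    refine disc_latInf_mono ?_ hv
    exact Nat.dvd_factorial hN (le_max_left N m)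

theorem measurableSet_discS (n : ℕ) : MeasurableSet (discS n) :=
  measurableSet_Hm.inter (isClosed_realOn _ _).measurableSet

theorem discI_small (μ : Measure X) [IsFiniteMeasure μ] (ε : ℝ) (hε : 0 < ε) :
    ∃ N : ℕ, 0 < N ∧ ∃ δ : ℝ, 0 < δ ∧ ∀ v : K, v ∈ latInf (N : K) → ‖(v : ℂ)‖ < δ →
      discI μ v ≤ ε := by
  have h1 : Filter.Tendsto (fun n => μ (discS n)) Filter.atTop (nhds (μ Str)) := by
    rw [← iUnion_discS]
    exact tendsto_measure_iUnion_atTop discS_mono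
  have h2 : Filter.Tendsto (fun n => (μ (discS n)).toReal) Filter.atTop (nhds (μ Str).toReal) :=
    (ENNReal.tendsto_toReal (measure_ne_top μ _)).comp h1
  obtain ⟨n, hn⟩ := (h2.eventually (lt_mem_nhds
    (show (μ Str).toReal - ε / 8 < (μ Str).toReal by linarith))).exists
  have hT : 0 ≤ (μ Set.univ).toReal := ENNReal.toReal_nonneg
  -- choose δ with (2π n δ)^2 T ≤ ε/2
  obtain ⟨δ, hδ, hδ2⟩ : ∃ δ : ℝ, 0 < δ ∧ (2 * Real.pi * (n * δ)) ^ 2 * (μ Set.univ).toReal ≤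
      ε / 2 := by
    have h3 : Filter.Tendsto (fun δ : ℝ => (2 * Real.pi * (n * δ)) ^ 2 * (μ Set.univ).toReal)
        (nhdsWithin 0 (Set.Ioi 0)) (nhds 0) := by
      have h4 : Filter.Tendsto (fun δ : ℝ => (2 * Real.pi * (n * δ)) ^ 2 * (μ Set.univ).toReal)
          (nhds 0) (nhds ((2 * Real.pi * (n * 0)) ^ 2 * (μ Set.univ).toReal)) := by
        apply Continuous.tendsto
        fun_prop
      simp only [mul_zero, ne_eq, OfNat.ofNat_ne_zero, not_false_eq_true, zero_pow,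
        zero_mul] at h4
      exact h4.mono_left nhdsWithin_le_nhds
    have h5 := h3.eventually (ge_mem_nhds (show (0 : ℝ) < ε / 2 by linarith))
    have h6 := h5.and (self_mem_nhdsWithin : Set.Ioi (0 : ℝ) ∈ nhdsWithin 0 (Set.Ioi 0))
    obtain ⟨δ, h7, h8⟩ := h6.exists
    exact ⟨δ, h8, h7⟩
  refine ⟨n.factorial, Nat.factorial_pos n, δ, hδ, fun v hv hvδ => ?_⟩
  have hsub : discS n ⊆ Str := by
    rw [← iUnion_discS]
    exact Set.subset_iUnion _ n
  unfold discI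
  have h3 : (∫ χ in Str, ‖ev v χ - 1‖ ^ 2 ∂μ) = (∫ χ in discS n, ‖ev v χ - 1‖ ^ 2 ∂μ) +
      ∫ χ in Str \ discS n, ‖ev v χ - 1‖ ^ 2 ∂μ := by
    rw [← setIntegral_union Set.disjoint_sdiff_right
      (measurableSet_Str.diff (measurableSet_discS n)) (disc_integrable μ v).integrableOn
      (disc_integrable μ v).integrableOn, Set.union_sdiff_cancel hsub]
  rw [h3]
  have h4 : (∫ χ in discS n, ‖ev v χ - 1‖ ^ 2 ∂μ) ≤ ε / 2 := by
    have h5 : (∫ χ in discS n, ‖ev v χ - 1‖ ^ 2 ∂μ) ≤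
        ∫ χ in discS n, (2 * Real.pi * (n * δ)) ^ 2 ∂μ := by
      refine setIntegral_mono_on (disc_integrable μ _).integrableOn
        (integrable_const _).integrableOn (measurableSet_discS n) ?_
      rintro χ ⟨hH, ξ, hξ, hr⟩
      have h6 : ‖ev v χ - 1‖ ≤ 2 * Real.pi * (n * δ) := by
        unfold ev
        rw [hr v hv]
        refine (norm_E_sub_one_le _).trans ?_
        have h7 : |(ξ * (v : ℂ)).re| ≤ n * δ := by
          refine (Complex.abs_re_le_norm _).trans ?_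
          rw [norm_mul]
          gcongr
        have := Real.pi_pos
        gcongr
      gcongr
    refine h5.trans ?_
    rw [setIntegral_const, smul_eq_mul]
    have h6 : μ.real (discS n) ≤ (μ Set.univ).toReal :=
      ENNReal.toReal_mono (measure_ne_top μ _) (measure_mono (Set.subset_univ _))
    calc μ.real (discS n) * (2 * Real.pi * (n * δ)) ^ 2
        ≤ (μ Set.univ).toReal * (2 * Real.pi * (n * δ)) ^ 2 := by gcongr
      _ ≤ ε / 2 := by rw [mul_comm]; exact hδ2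
  have h5 : (∫ χ in Str \ discS n, ‖ev v χ - 1‖ ^ 2 ∂μ) ≤ ε / 2 := by
    have h6 : (∫ χ in Str \ discS n, ‖ev v χ - 1‖ ^ 2 ∂μ) ≤ ∫ χ in Str \ discS n, (4 : ℝ) ∂μ := by
      refine setIntegral_mono_on (disc_integrable μ _).integrableOn
        (integrable_const _).integrableOn (measurableSet_Str.diff (measurableSet_discS n)) ?_
      intro χ _
      have h1 : ‖ev v χ - 1‖ ≤ 2 := by
        calc ‖ev v χ - 1‖ ≤ ‖ev v χ‖ + ‖(1 : ℂ)‖ := norm_sub_le _ _
          _ = 2 := by rw [norm_ev, norm_one]; norm_num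
      nlinarith [norm_nonneg (ev v χ - 1)]
    refine h6.trans ?_
    rw [setIntegral_const, smul_eq_mul]
    have h7 : μ.real (Str \ discS n) = (μ Str).toReal - (μ (discS n)).toReal := by
      exact measureReal_sdiff hsub (measurableSet_discS n)
    rw [h7]
    linarith
  linarith

/-- all small elements of `ℚ(i)` have small `discI` -/
theorem discI_small_Qi (μ : Measure X) [IsFiniteMeasure μ] (hinv : InvK μ)
    (hhom : ∀ᵐ χ ∂μ, χ ∈ Hm) (ε : ℝ) (hε : 0 < ε) :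
    ∃ δ : ℝ, 0 < δ ∧ ∀ v : K, v ∈ Qi → ‖(v : ℂ)‖ < δ → discI μ v ≤ ε := by
  obtain ⟨N, hN, δ, hδ, h⟩ := discI_small μ (ε / 4) (by linarith)
  obtain ⟨k, hk⟩ : ∃ k : ℕ, (N : ℝ) / 5 ^ k < δ := by
    obtain ⟨k, hk⟩ := pow_unbounded_of_one_lt ((N : ℝ) / δ) (show (1 : ℝ) < 5 by norm_num)
    refine ⟨k, ?_⟩
    rw [div_lt_iff₀ (by positivity)]
    rw [div_lt_iff₀ hδ] at hk
    linarith
  have hN' : (0 : ℝ) < N := by exact_mod_cast hN
  set v0 : K := (N : K) / 5 ^ k with hv0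
  have hv0c : (v0 : ℂ) = (((N : ℝ) / 5 ^ k : ℝ) : ℂ) := by
    rw [hv0]
    push_cast
    rfl
  have hv0n : ‖(v0 : ℂ)‖ = (N : ℝ) / 5 ^ k := by
    rw [hv0c, Complex.norm_real, Real.norm_eq_abs, abs_of_pos (by positivity)]
  have hI0 : discI μ v0 ≤ ε / 4 := by
    refine h v0 ⟨1, k, ?_⟩ ?_
    · rw [map_one, mul_one]
    · rw [hv0n]
      exact hk
  refine ⟨2 * ((N : ℝ) / 5 ^ k), by positivity, fun v hv hvn => ?_⟩
  rcases eq_or_ne v 0 with rfl | hv0'
  · have h1 : discI μ 0 = 0 := by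
      unfold discI
      rw [setIntegral_congr_fun (g := fun _ => (0 : ℝ)) measurableSet_Str]
      · simp
      · intro χ hχ
        simp [ev_zero (disc_str_subset_Hm hχ)]
    rw [h1]
    exact hε.le
  obtain ⟨z, n, hn, hvz⟩ := hv
  have hz : z ≠ 0 := by
    rintro rfl
    apply hv0'
    rw [hvz]
    simp
  have hnz : (0 : ℤ) < z.norm := by
    exact GaussianInt.norm_pos.2 hz
  have hnormv : ‖(v : ℂ)‖ ^ 2 = (z.norm : ℝ) / n ^ 2 := by
    rw [hvz]
    have h1 : ((c z / (n : K) : K) : ℂ) = (c z : K) / (n : ℂ) := by push_cast; rfl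
    rw [h1, norm_div, div_pow, coe_c, Complex.norm_natCast]
    congr 1
    rw [← Complex.normSq_eq_norm_sq]
    exact (GaussianInt.intCast_real_norm z).symm
  -- the rational number d
  set d : ℚ := 4 * ((N : ℚ) / 5 ^ k) ^ 2 * n ^ 2 / z.norm - 1 with hd
  have hnz' : (0 : ℝ) < z.norm := by exact_mod_cast hnz
  have hn' : (0 : ℝ) < n := by exact_mod_cast hn
  have hdR : (d : ℝ) = 4 * ((N : ℝ) / 5 ^ k) ^ 2 / ‖(v : ℂ)‖ ^ 2 - 1 := by
    rw [hnormv, hd]
    push_cast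
    field_simp
  have hvpos : 0 < ‖(v : ℂ)‖ := norm_pos_iff.2 (coe_ne_zero hv0')
  have hdpos : 0 < d := by
    have h1 : (0 : ℝ) < d := by
      rw [hdR, sub_pos, lt_div_iff₀ (by positivity), one_mul]
      nlinarith
    exact_mod_cast h1
  obtain ⟨r, hr⟩ := disc_exists_sqrt d hdpos
  have hdR0 : (0 : ℝ) ≤ d := by exact_mod_cast hdpos.le
  -- the two units
  set a : K := v / (2 * v0) with ha
  have hv0ne : v0 ≠ 0 := by
    intro h0
    rw [h0] at hv0n
    simp only [ZeroMemClass.coe_zero, norm_zero] at hv0n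
    have : (0 : ℝ) < (N : ℝ) / 5 ^ k := by positivity
    linarith
  have haQ : a ∈ Qi := by
    refine ⟨z * 5 ^ k, n * (2 * N), by positivity, ?_⟩
    rw [ha, hvz, hv0, map_mul, map_pow, map_ofNat]
    have : (N : K) ≠ 0 := by exact_mod_cast hN.ne'
    have : (n : K) ≠ 0 := by exact_mod_cast hn.ne'
    push_cast
    field_simp
  have hnorma : ‖(a : ℂ)‖ ^ 2 * (1 + d) = 1 := by
    have h1 : ‖(a : ℂ)‖ = ‖(v : ℂ)‖ / (2 * ((N : ℝ) / 5 ^ k)) := by
      rw [ha]
      have h2 : ((v / (2 * v0) : K) : ℂ) = (v : ℂ) / (2 * (v0 : ℂ)) := by push_cast; rfl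
      rw [h2, norm_div, norm_mul, hv0n]
      simp
    rw [h1, hdR]
    have h3 : (0 : ℝ) < (N : ℝ) / 5 ^ k := by positivity
    field_simp
    ring
  have hunit : ∀ s : ℝ, s ^ 2 = 1 → ‖(a : ℂ) * (1 + s * (Complex.I * (r : ℂ)))‖ = 1 := by
    intro s hs
    have h1 : ‖(a : ℂ) * (1 + s * (Complex.I * (r : ℂ)))‖ ^ 2 = 1 := by
      rw [norm_mul, mul_pow]
      have h2 : ‖(1 : ℂ) + s * (Complex.I * (r : ℂ))‖ ^ 2 = 1 + d := by
        rw [← Complex.normSq_eq_norm_sq, hr, Complex.normSq_apply]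
        have h3 : ((1 : ℂ) + s * (Complex.I * ((Real.sqrt d : ℝ) : ℂ))).re = 1 := by simp
        have h4 : ((1 : ℂ) + s * (Complex.I * ((Real.sqrt d : ℝ) : ℂ))).im = s * Real.sqrt d := by
          simp
        rw [h3, h4]
        have h5 := Real.mul_self_sqrt hdR0
        nlinarith
      rw [h2, hnorma]
    have h2 := norm_nonneg ((a : ℂ) * (1 + s * (Complex.I * (r : ℂ))))
    nlinarith
  have hplus : discI μ ((a + a * iK * r) * v0) = discI μ v0 := by
    have hu1 : ‖((a + a * iK * r : K) : ℂ)‖ = 1 := by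
      have := hunit 1 (by norm_num)
      rw [← this]
      congr 1
      push_cast
      rw [coe_iK]
      ring
    exact discI_mul μ hinv _ v0 hu1 (disc_ae_iff μ hinv hhom d hdpos r hr a (a * iK) _ haQ
      (disc_Qi_mul haQ disc_I_mem_Qi) rfl hu1)
  have hminus : discI μ ((a + -(a * iK) * r) * v0) = discI μ v0 := by
    have hu1 : ‖((a + -(a * iK) * r : K) : ℂ)‖ = 1 := by
      have := hunit (-1) (by norm_num)
      rw [← this]
      congr 1
      push_cast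
      rw [coe_iK]
      ring
    exact discI_mul μ hinv _ v0 hu1 (disc_ae_iff μ hinv hhom d hdpos r hr a (-(a * iK)) _ haQ
      (disc_neg_mem_Qi (disc_Qi_mul haQ disc_I_mem_Qi)) rfl hu1)
  have hsum : v = (a + a * iK * r) * v0 + (a + -(a * iK) * r) * v0 := by
    have h1 : (a + a * iK * r) * v0 + (a + -(a * iK) * r) * v0 = a * (2 * v0) := by ring
    rw [h1, ha, div_mul_cancel₀]
    exact mul_ne_zero two_ne_zero hv0ne
  calc discI μ v = discI μ ((a + a * iK * r) * v0 + (a + -(a * iK) * r) * v0) := by rw [← hsum]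
    _ ≤ 2 * discI μ ((a + a * iK * r) * v0) + 2 * discI μ ((a + -(a * iK) * r) * v0) :=
        discI_add μ _ _
    _ ≤ ε := by rw [hplus, hminus]; linarith

/-- approximation of elements of `ℚ(i)` by `latInf N` -/
theorem disc_exists_approx (v : K) (N : ℕ) (hN : 0 < N) (δ : ℝ) (hδ : 0 < δ) :
    ∃ w : K, w ∈ latInf (N : K) ∧ ‖((v - w : K) : ℂ)‖ < δ := by
  obtain ⟨k, hk⟩ := pow_unbounded_of_one_lt ((N : ℝ) / δ) (show (1 : ℝ) < 5 by norm_num)
  have hN' : (0 : ℝ) < N := by exact_mod_cast hN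
  set y : ℂ := (v : ℂ) * 5 ^ k / N with hy
  refine ⟨(N : K) * c ⟨round y.re, round y.im⟩ / 5 ^ k, ⟨_, k, rfl⟩, ?_⟩
  have h1 : ((v - (N : K) * c ⟨round y.re, round y.im⟩ / 5 ^ k : K) : ℂ) =
      (N : ℂ) / 5 ^ k * (y - ((round y.re : ℂ) + (round y.im : ℂ) * Complex.I)) := by
    have h2 : ((c ⟨round y.re, round y.im⟩ : K) : ℂ) =
        (round y.re : ℂ) + (round y.im : ℂ) * Complex.I := by
      rw [coe_c, GaussianInt.toComplex_def]
    push_cast
    rw [h2, hy]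
    have : (N : ℂ) ≠ 0 := by exact_mod_cast hN.ne'
    have h5 : ((5 : K) : ℂ) = 5 := rfl
    rw [h5]
    field_simp
  rw [h1, norm_mul]
  have h3 : ‖(N : ℂ) / 5 ^ k‖ = (N : ℝ) / 5 ^ k := by
    rw [norm_div, Complex.norm_natCast, norm_pow]
    simp
  have h4 : ‖y - ((round y.re : ℂ) + (round y.im : ℂ) * Complex.I)‖ ≤ 1 := by
    have h5 : ‖y - ((round y.re : ℂ) + (round y.im : ℂ) * Complex.I)‖ ≤
        |(y - ((round y.re : ℂ) + (round y.im : ℂ) * Complex.I)).re| +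
        |(y - ((round y.re : ℂ) + (round y.im : ℂ) * Complex.I)).im| :=
      Complex.norm_le_abs_re_add_abs_im _
    have h6 : (y - ((round y.re : ℂ) + (round y.im : ℂ) * Complex.I)).re = y.re - round y.re := by
      simp
    have h7 : (y - ((round y.re : ℂ) + (round y.im : ℂ) * Complex.I)).im = y.im - round y.im := by
      simp
    rw [h6, h7] at h5
    have h8 := abs_sub_round y.re
    have h9 := abs_sub_round y.im
    linarith
  rw [h3]
  have h5 : (N : ℝ) / 5 ^ k < δ := by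
    rw [div_lt_iff₀ (by positivity)]
    rw [div_lt_iff₀ hδ] at hk
    linarith
  calc (N : ℝ) / 5 ^ k * ‖y - ((round y.re : ℂ) + (round y.im : ℂ) * Complex.I)‖
      ≤ (N : ℝ) / 5 ^ k * 1 := by gcongr
    _ < δ := by linarith

theorem disc_latInf_subset_Qi {N : ℕ} {v : K} (h : v ∈ latInf (N : K)) : v ∈ Qi := by
  obtain ⟨z, k, rfl⟩ := h
  refine ⟨N * z, 5 ^ k, by positivity, ?_⟩
  rw [map_mul, map_natCast]
  push_cast
  rfl

theorem disc_sub_mem_Qi {a b : K} (ha : a ∈ Qi) (hb : b ∈ Qi) : a - b ∈ Qi := by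
  obtain ⟨z, n, hn, rfl⟩ := ha
  obtain ⟨w, m, hm, rfl⟩ := hb
  refine ⟨z * m - w * n, n * m, Nat.mul_pos hn hm, ?_⟩
  have : (n : K) ≠ 0 := by exact_mod_cast hn.ne'
  have : (m : K) ≠ 0 := by exact_mod_cast hm.ne'
  rw [map_sub, map_mul, map_mul, map_natCast, map_natCast]
  push_cast
  field_simp

theorem disc_ae_ext (μ : Measure X) [IsFiniteMeasure μ] (hinv : InvK μ)
    (hhom : ∀ᵐ χ ∂μ, χ ∈ Hm) (v : K) (hv : v ∈ Qi) (N : ℕ) (hN : 0 < N) :
    ∀ᵐ χ ∂(μ.restrict Str), ∀ ξ : ℂ, RealOn χ ξ (latInf (N : K)) → χ v = E ((ξ * (v : ℂ)).re) := by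
  -- a sequence of approximations
  have h1 : ∀ n : ℕ, ∃ w : K, w ∈ latInf (N : K) ∧ ‖((v - w : K) : ℂ)‖ < 1 / (n + 1) ∧
      discI μ (v - w) ≤ 1 / (n + 1) := by
    intro n
    obtain ⟨δ, hδ, h⟩ := discI_small_Qi μ hinv hhom (1 / (n + 1)) (by positivity)
    obtain ⟨w, hw, hwd⟩ := disc_exists_approx v N hN (min δ (1 / (n + 1)))
      (lt_min hδ (by positivity))
    exact ⟨w, hw, hwd.trans_le (min_le_right _ _), h _
      (disc_sub_mem_Qi hv (disc_latInf_subset_Qi hw)) (hwd.trans_le (min_le_left _ _))⟩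
  choose w hw1 hw2 hw3 using h1
  have hlim : Filter.Tendsto (fun n : ℕ => (1 : ℝ) / (n + 1)) Filter.atTop (nhds 0) :=
    tendsto_one_div_add_atTop_nhds_zero_nat
  have hlp : Filter.Tendsto (fun n => eLpNorm (fun χ => ev (v - w n) χ - 1) 2 (μ.restrict Str))
      Filter.atTop (nhds 0) := by
    have h2 : ∀ n, eLpNorm (fun χ => ev (v - w n) χ - 1) 2 (μ.restrict Str) =
        ENNReal.ofReal ((discI μ (v - w n)) ^ (1 / 2 : ℝ)) := by
      intro n
      have hm : MemLp (fun χ => ev (v - w n) χ - 1) 2 (μ.restrict Str) := by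
        refine MemLp.of_bound ?_ 2 (Filter.Eventually.of_forall fun χ => ?_)
        · exact ((continuous_ev _).sub continuous_const).aestronglyMeasurable
        · calc ‖ev (v - w n) χ - 1‖ ≤ ‖ev (v - w n) χ‖ + ‖(1 : ℂ)‖ := norm_sub_le _ _
            _ ≤ 2 := by rw [norm_ev, norm_one]; norm_num
      rw [hm.eLpNorm_eq_integral_rpow_norm (by norm_num) (by norm_num)]
      simp only [ENNReal.toReal_ofNat, Real.rpow_ofNat, discI]
      rw [one_div]
    simp_rw [h2]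
    rw [← ENNReal.ofReal_zero]
    refine (ENNReal.continuous_ofReal.tendsto 0).comp ?_
    have h3 : Filter.Tendsto (fun n => discI μ (v - w n)) Filter.atTop (nhds 0) :=
      squeeze_zero (fun n => discI_nonneg μ _) hw3 hlim
    have h4 := h3.rpow_const (p := (1 / 2 : ℝ)) (Or.inr (by norm_num))
    rwa [Real.zero_rpow (by norm_num)] at h4
  have hmeas : TendstoInMeasure (μ.restrict Str) (fun n χ => ev (v - w n) χ) Filter.atTop
      (fun _ => (1 : ℂ)) := by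
    refine tendstoInMeasure_of_tendsto_eLpNorm (p := 2) (by norm_num) ?_ ?_ ?_
    · exact fun n => (continuous_ev _).aestronglyMeasurable
    · exact aestronglyMeasurable_const
    · exact hlp
  obtain ⟨ns, hns, hae⟩ := hmeas.exists_seq_tendsto_ae
  have hStr : ∀ᵐ χ ∂(μ.restrict Str), χ ∈ Str := ae_restrict_mem measurableSet_Str
  filter_upwards [hae, hStr] with χ hχ hS ξ hξ
  have hH := disc_str_subset_Hm hS
  -- χ v = χ (v - w n) * E (Re ξ w n)
  have h5 : ∀ n, ev v χ = ev (v - w (ns n)) χ * (E ((ξ * ((w (ns n) : K) : ℂ)).re) : ℂ) := by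
    intro n
    have h6 : ev (w (ns n)) χ = (E ((ξ * ((w (ns n) : K) : ℂ)).re) : ℂ) := by
      unfold ev
      rw [hξ _ (hw1 _)]
    rw [← h6, ← ev_add hH, sub_add_cancel]
  have h6 : Filter.Tendsto (fun n => ((w (ns n) : K) : ℂ)) Filter.atTop (nhds (v : ℂ)) := by
    have h7 : Filter.Tendsto (fun n => ‖((v - w (ns n) : K) : ℂ)‖) Filter.atTop (nhds 0) :=
      squeeze_zero (fun n => norm_nonneg _) (fun n => (hw2 (ns n)).le)
        (hlim.comp hns.tendsto_atTop)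
    have h8 := tendsto_zero_iff_norm_tendsto_zero.2 h7
    have h9 := h8.const_sub (v : ℂ)
    rw [sub_zero] at h9
    refine h9.congr fun n => ?_
    push_cast
    ring
  have h7 : Filter.Tendsto (fun n => ev (v - w (ns n)) χ *
      (E ((ξ * ((w (ns n) : K) : ℂ)).re) : ℂ)) Filter.atTop
      (nhds (1 * (E ((ξ * (v : ℂ)).re) : ℂ))) := by
    refine hχ.mul ?_
    have h8 : Continuous (fun y : ℂ => ((E ((ξ * y).re) : Circle) : ℂ)) :=
      continuous_induced_dom.comp (continuous_E.comp (by fun_prop))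
    exact (h8.tendsto _).comp h6
  have h8 : Filter.Tendsto (fun _ : ℕ => ev v χ) Filter.atTop
      (nhds (1 * (E ((ξ * (v : ℂ)).re) : ℂ))) := by
    refine h7.congr fun n => ?_
    exact (h5 n).symm
  have h9 := tendsto_nhds_unique tendsto_const_nhds h8
  rw [one_mul] at h9
  exact Circle.ext h9

theorem thmB (μ : Measure X) [IsFiniteMeasure μ] (hinv : InvK μ) (hhom : ∀ᵐ χ ∂μ, χ ∈ Hm) :
    μ (Str \ RealQ) = 0 := by
  have h1 : ∀ᵐ χ ∂(μ.restrict Str), ∀ v : K, ∀ N : ℕ, v ∈ Qi → 0 < N →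
      ∀ ξ : ℂ, RealOn χ ξ (latInf (N : K)) → χ v = E ((ξ * (v : ℂ)).re) := by
    rw [ae_all_iff]
    intro v
    rw [ae_all_iff]
    intro N
    by_cases hv : v ∈ Qi
    · by_cases hN : 0 < N
      · filter_upwards [disc_ae_ext μ hinv hhom v hv N hN] with χ hχ _ _
        exact hχ
      · exact Filter.Eventually.of_forall fun χ _ h => absurd h hN
    · exact Filter.Eventually.of_forall fun χ h => absurd h hv
  have h2 : ∀ᵐ χ ∂μ, χ ∈ Str → χ ∈ RealQ := by
    rw [ae_restrict_iff' measurableSet_Str] at h1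
    filter_upwards [h1] with χ hχ hS
    obtain ⟨N, hN, hH, ξ, hξ⟩ := hS
    exact ⟨hH, ξ, fun v hv => hχ ⟨N, hN, hH, ξ, hξ⟩ v N hv hN ξ hξ⟩
  rw [measure_eq_zero_iff_ae_notMem]
  filter_upwards [h2] with χ hχ hχ2
  exact hχ2.2 (hχ hχ2.1)
end Pool.Agent.H56
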