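import Pool.Agent.H56.ModProd
set_option autoImplicit false
open MeasureTheory Complex
namespace Pool.Agent.H56

theorem lower_coprime_star : IsCoprime gpi (star gpi) :=
  ⟨⟨1, -1⟩, -1, by decide⟩

theorem lower_coprime (v : GaussianInt) (hv : ¬ gpi ∣ v) : IsCoprime v gpi := by
  rw [gpi_dvd_iff] at hv
  have h5 : Prime (5 : ℤ) := Int.prime_iff_natAbs_prime.2 (by norm_num)
  have h1 : IsCoprime (v.re - 2 * v.im) (5 : ℤ) :=
    ((Irreducible.coprime_iff_not_dvd h5.irreducible).2 hv).symm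
  obtain ⟨a, b, hab⟩ := h1
  -- v = (re - 2 im) + im * gpi
  refine ⟨(a : GaussianInt), b * star gpi - a * v.im, ?_⟩
  have h2 : v = ((v.re - 2 * v.im : ℤ) : GaussianInt) + v.im * gpi := by
    apply Zsqrtd.ext
    · simp [gpi]
      ring
    · simp [gpi]
  have h3 : (a : GaussianInt) * ((v.re - 2 * v.im : ℤ) : GaussianInt) + b * 5 = 1 := by
    have := congrArg (fun n : ℤ => (n : GaussianInt)) hab
    push_cast at this ⊢
    exact this
  have h4 := gpi_mul_star
  calc (a : GaussianInt) * v + (b * star gpi - a * v.im) * gpi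
      = a * (((v.re - 2 * v.im : ℤ) : GaussianInt) + v.im * gpi) +
        (b * star gpi - a * v.im) * gpi := by rw [← h2]
    _ = a * ((v.re - 2 * v.im : ℤ) : GaussianInt) + b * (gpi * star gpi) := by ring
    _ = 1 := by rw [h4]; exact h3

theorem exists_rotation (v : GaussianInt) (hv : ¬ gpi ∣ v) (m : ℕ) (t : GaussianInt)
    (ht : ¬ gpi ∣ t) :
    ∃ z : GaussianInt, z ≠ 0 ∧ c t / c gpi ^ m - un z * c v ∈ Qpi 0 := by
  have h1 : IsCoprime (star gpi ^ m * v) (gpi ^ (m + 1)) :=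
    IsCoprime.mul_left (lower_coprime_star.symm.pow) ((lower_coprime v hv).pow_right)
  obtain ⟨x, y, hxy⟩ := h1
  have h2 : IsCoprime (gpi ^ (m + 1)) (star gpi ^ (m + 1)) := lower_coprime_star.pow
  obtain ⟨a, b, hab⟩ := h2
  set w : GaussianInt := a * gpi ^ (m + 1) + t * x * (b * star gpi ^ (m + 1)) with hw
  -- w ≡ 1 mod star gpi ^ (m+1)
  have h3 : w - 1 = star gpi ^ (m + 1) * (b * (t * x - 1)) := by
    rw [hw]
    linear_combination hab
  -- w ≡ t x mod gpi ^ (m + 1)
  have h4 : w - t * x = gpi ^ (m + 1) * (a * (1 - t * x)) := by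
    rw [hw]
    linear_combination (t * x) * hab
  -- star w ≡ 1
  have h5 : star w - 1 = gpi ^ (m + 1) * star (b * (t * x - 1)) := by
    have := congrArg star h3
    rw [star_sub, star_one, star_mul, star_pow, star_star] at this
    rw [this, mul_comm]
  have h6 : ¬ gpi ∣ star w := by
    intro h
    have h7 : gpi ∣ star w - 1 := by
      rw [h5]
      exact Dvd.dvd.mul_right (dvd_pow_self _ (Nat.succ_ne_zero m)) _
    exact not_gpi_dvd_one ((dvd_sub_right h).1 h7)
  have hwne : w ≠ 0 := by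
    intro h0
    apply h6
    rw [h0, star_zero]
    exact dvd_zero _
  have hπ : c gpi ≠ 0 := c_ne_zero gpi_ne_zero
  have hsw : c (star w) ≠ 0 := c_ne_zero (star_ne_zero' hwne)
  refine ⟨star gpi ^ m * w, mul_ne_zero (pow_ne_zero _ (star_ne_zero' gpi_ne_zero)) hwne, ?_⟩
  -- numerator
  have h7 : ∃ q : GaussianInt, t * star w - star gpi ^ m * w * v = gpi ^ m * q := by
    refine ⟨gpi * (t * star (b * (t * x - 1)) - star gpi ^ m * v * (a * (1 - t * x)) +
      t * y), ?_⟩
    have h8 : star w = 1 + gpi ^ (m + 1) * star (b * (t * x - 1)) := by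
      rw [← h5]; ring
    have h9 : w = t * x + gpi ^ (m + 1) * (a * (1 - t * x)) := by
      rw [← h4]; ring
    rw [h8]
    conv_lhs => rw [h9]
    rw [pow_succ]
    rw [pow_succ] at hxy
    linear_combination (-t) * hxy
  obtain ⟨q, hq⟩ := h7
  refine ⟨q, star w, h6, ?_⟩
  have h8 : un (star gpi ^ m * w) = c (star gpi) ^ m * c w / (c gpi ^ m * c (star w)) := by
    unfold un
    rw [star_mul, star_pow, star_star, map_mul, map_mul, map_pow, map_pow,
      mul_comm (c (star w))]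
  rw [h8, zpow_zero, one_mul]
  have h9 := congrArg c hq
  rw [map_sub, map_mul, map_mul, map_mul, map_mul, map_pow, map_pow] at h9
  field_simp
  linear_combination h9

theorem lower_digit (m : ℕ) (d : Fin (m + 1) → Fin 5) :
    digit 0 d = c (∑ i : Fin (m + 1), ((d i : ℕ) : GaussianInt) * gpi ^ (m - (i : ℕ))) /
      c gpi ^ (m + 1) := by
  have hπ : c gpi ≠ 0 := c_ne_zero gpi_ne_zero
  unfold digit
  rw [map_sum, Finset.sum_div]
  refine Finset.sum_congr rfl fun i _ => ?_
  rw [map_mul, map_natCast, map_pow, mul_div_assoc]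
  congr 1
  rw [← zpow_natCast, ← zpow_natCast, ← zpow_sub₀ hπ]
  congr 1
  have : (i : ℕ) ≤ m := Nat.lt_succ_iff.1 i.2
  push_cast [Nat.cast_sub this]
  ring

theorem lower_not_dvd (m : ℕ) (d : Fin (m + 1) → Fin 5) (hd : d (Fin.last m) ≠ 0) :
    ¬ gpi ∣ ∑ i : Fin (m + 1), ((d i : ℕ) : GaussianInt) * gpi ^ (m - (i : ℕ)) := by
  intro h
  rw [Fin.sum_univ_castSucc] at h
  have h1 : gpi ∣ ∑ i : Fin m, ((d i.castSucc : ℕ) : GaussianInt) *
      gpi ^ (m - ((i.castSucc : Fin (m + 1)) : ℕ)) := by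
    refine Finset.dvd_sum fun i _ => ?_
    refine Dvd.dvd.mul_left ?_ _
    refine dvd_pow_self _ ?_
    have := i.2
    simp only [Fin.val_castSucc]
    omega
  have h2 := (dvd_add_right h1).1 h
  simp only [Fin.val_last, Nat.sub_self, pow_zero, mul_one] at h2
  rw [gpi_dvd_iff] at h2
  simp only [Zsqrtd.re_natCast, Zsqrtd.im_natCast, mul_zero, sub_zero] at h2
  have h3 : (5 : ℕ) ∣ (d (Fin.last m) : ℕ) := by exact_mod_cast h2
  have h4 : (d (Fin.last m) : ℕ) < 5 := (d (Fin.last m)).2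
  have h5 : (d (Fin.last m) : ℕ) = 0 := Nat.eq_zero_of_dvd_of_lt h3 h4
  exact hd (Fin.ext h5)

theorem lower_card (m : ℕ) :
    (Finset.univ.filter fun d : Fin (m + 1) → Fin 5 => d (Fin.last m) ≠ 0).card = 5 ^ m * 4 := by
  classical
  have h1 : (Finset.univ.filter fun d : Fin (m + 1) → Fin 5 => d (Fin.last m) ≠ 0) =
      Fintype.piFinset (fun i : Fin (m + 1) =>
        if i = Fin.last m then (Finset.univ.erase (0 : Fin 5)) else Finset.univ) := by
    ext d
    simp only [Finset.mem_filter, Finset.mem_univ, true_and, Fintype.mem_piFinset]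
    constructor
    · intro h i
      by_cases hi : i = Fin.last m
      · subst hi
        simp [h]
      · simp [hi]
    · intro h
      have := h (Fin.last m)
      simpa using this
  rw [h1, Fintype.card_piFinset, Fin.prod_univ_castSucc]
  simp [Fin.castSucc_ne_last]

theorem lower_bound (μ : Measure X) [IsFiniteMeasure μ] (hinv : InvQ μ)
    (hhom : ∀ᵐ χ ∂μ, χ ∈ Hm) (v : GaussianInt) (hv : ¬ gpi ∣ v) (m : ℕ) :
    4 / 5 * ‖∫ χ, ev (c v) χ ∂μ‖ ^ 2 ≤
      (μ Set.univ).toReal * ‖∫ χ, ∏ i ∈ Finset.range (m + 1), pk μ (0 - i) χ ∂μ‖ := by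
  set A : ℝ := ‖∫ χ, ev (c v) χ ∂μ‖ ^ 2 with hA
  set T : ℝ := (μ Set.univ).toReal with hT
  have hT0 : 0 ≤ T := ENNReal.toReal_nonneg
  -- the energies
  set f : (Fin (m + 1) → Fin 5) → ℝ := fun d =>
    ∫ χ, ‖(μ[ev (digit 0 d) | mS (Qpi 0 : Set K)]) χ‖ ^ 2 ∂μ with hf
  have hf0 : ∀ d, 0 ≤ f d := fun d => integral_nonneg fun χ => by positivity
  have h1 : ∫ χ, ∏ i ∈ Finset.range (m + 1), pk μ (0 - i) χ ∂μ =
      (((1 / 5) ^ (m + 1) * ∑ d, f d : ℝ) : ℂ) := by
    rw [integral_congr_ae (prod_pk μ hhom 0 (m + 1)), integral_const_mul,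
      integral_finsetSum _ (fun d _ => integrable_Gk μ 0 _)]
    push_cast
    congr 1
    refine Finset.sum_congr rfl fun d _ => ?_
    have := integral_conj_mul_condExp μ (Qpi 0 : Set K) (digit 0 d)
    rw [← this]
    rfl
  have h2 : ∀ d : Fin (m + 1) → Fin 5, d (Fin.last m) ≠ 0 → A ≤ T * f d := by
    intro d hd
    obtain ⟨z, hz, hmem⟩ := exists_rotation v hv (m + 1) _ (lower_not_dvd m d hd)
    rw [← lower_digit] at hmem
    have h3 : digit 0 d = un z * c v + (digit 0 d - un z * c v) := by ring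
    have h4 := condExp_ev_add μ hhom (Qpi 0 : Set K) (un z * c v) (digit 0 d - un z * c v) hmem
    rw [← h3] at h4
    have h5 : f d = ∫ χ, ‖(μ[ev (un z * c v) | mS (Qpi 0 : Set K)]) χ‖ ^ 2 ∂μ := by
      refine integral_congr_ae ?_
      filter_upwards [h4] with χ hχ
      rw [hχ, norm_mul, norm_ev, one_mul]
    have h6 := sq_norm_integral_le μ (Qpi 0 : Set K) (un z * c v)
    rw [← h5] at h6
    have h7 : ∫ χ, ev (un z * c v) χ ∂μ = ∫ χ, ev (c v) χ ∂μ := by
      conv_rhs => rw [← hinv z hz]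
      rw [integral_map (measurable_rho _).aemeasurable
        (stronglyMeasurable_ev _).aestronglyMeasurable]
      rfl
    rw [h7] at h6
    exact h6
  have h3 : (5 ^ m * 4 : ℝ) * A ≤ T * ∑ d, f d := by
    calc (5 ^ m * 4 : ℝ) * A
        = ∑ d ∈ (Finset.univ.filter fun d : Fin (m + 1) → Fin 5 => d (Fin.last m) ≠ 0), A := by
          rw [Finset.sum_const, lower_card, nsmul_eq_mul]
          push_cast
          ring
      _ ≤ ∑ d ∈ (Finset.univ.filter fun d : Fin (m + 1) → Fin 5 => d (Fin.last m) ≠ 0),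
          T * f d := by
          refine Finset.sum_le_sum fun d hd => h2 d ?_
          simpa using hd
      _ ≤ ∑ d, T * f d := Finset.sum_le_sum_of_subset_of_nonneg (Finset.subset_univ _)
          fun d _ _ => mul_nonneg hT0 (hf0 d)
      _ = T * ∑ d, f d := by rw [Finset.mul_sum]
  have hs0 : 0 ≤ ∑ d, f d := Finset.sum_nonneg fun d _ => hf0 d
  rw [h1, Complex.norm_real, Real.norm_eq_abs, abs_of_nonneg (by positivity)]
  calc 4 / 5 * A = (1 / 5) ^ (m + 1) * ((5 ^ m * 4 : ℝ) * A) := by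
        rw [pow_succ, one_div, inv_pow]
        field_simp
    _ ≤ (1 / 5) ^ (m + 1) * (T * ∑ d, f d) := by gcongr
    _ = T * ((1 / 5) ^ (m + 1) * ∑ d, f d) := by ring
end Pool.Agent.H56
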