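import Pool.Agent.H56.ModStep
set_option autoImplicit false
open MeasureTheory Complex
namespace Pool.Agent.H56

namespace ModNames

/-! ### Pigeonhole -/

theorem pigeon {Ω T : Type*} [MeasurableSpace Ω] (μ : Measure Ω) [IsFiniteMeasure μ]
    [MeasurableSpace T] [MeasurableSingletonClass T] (name : Ω → T)
    (hname : Measurable name) (G : Set Ω) (hG : MeasurableSet G) (S : Finset T)
    (hS : ∀ x ∈ G, name x ∈ S) (P : Set (Ω × Ω))
    (hP : ∀ x ∈ G, ∀ y ∈ G, name x = name y → (x, y) ∈ P) :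
    μ.real G ^ 2 ≤ (S.card : ℝ) * (μ.prod μ).real P := by
  classical
  set A : T → Set Ω := fun s => G ∩ name ⁻¹' {s} with hA
  have hAm : ∀ s, MeasurableSet (A s) := fun s => hG.inter (hname (measurableSet_singleton s))
  have h1 : μ.real G ≤ ∑ s ∈ S, μ.real (A s) := by
    have h2 : G ⊆ ⋃ s ∈ S, A s := by
      intro x hx
      simp only [Set.mem_iUnion]
      exact ⟨name x, hS x hx, hx, rfl⟩
    exact (measureReal_mono h2 (measure_ne_top _ _)).trans (measureReal_biUnion_finset_le _ _)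
  have h3 : ∑ s ∈ S, μ.real (A s) ^ 2 ≤ (μ.prod μ).real P := by
    have h4 : ∑ s ∈ S, μ.real (A s) ^ 2 = (μ.prod μ).real (⋃ s ∈ S, A s ×ˢ A s) := by
      rw [measureReal_biUnion_finset]
      · refine Finset.sum_congr rfl fun s _ => ?_
        rw [measureReal_prod_prod, sq]
      · intro s _ s' _ hss'
        rw [Function.onFun, Set.disjoint_left]
        rintro ⟨x, y⟩ h h'
        apply hss'
        have h5 : name x = s := h.1.2
        have h6 : name x = s' := h'.1.2
        rw [← h5, h6]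
      · intro s _
        exact (hAm s).prod (hAm s)
    rw [h4]
    refine measureReal_mono ?_ (measure_ne_top _ _)
    intro p hp
    simp only [Set.mem_iUnion] at hp
    obtain ⟨s, -, ⟨hx1, hx2⟩, ⟨hy1, hy2⟩⟩ := hp
    refine hP p.1 hx1 p.2 hy1 ?_
    rw [show name p.1 = s from hx2, show name p.2 = s from hy2]
  calc μ.real G ^ 2 ≤ (∑ s ∈ S, μ.real (A s)) ^ 2 := by
        gcongr
    _ ≤ (S.card : ℝ) * ∑ s ∈ S, μ.real (A s) ^ 2 := sq_sum_le_card_mul_sum_sq
    _ ≤ _ := by gcongr

/-! ### Cells -/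

/-- The cell of mesh `1 / N` containing `z`. -/
noncomputable def cell (N : ℕ) (z : ℂ) : ℤ × ℤ := (⌊(N : ℝ) * z.re⌋, ⌊(N : ℝ) * z.im⌋)

theorem measurable_cell (N : ℕ) : Measurable (cell N) := by
  unfold cell
  fun_prop

/-- The cells meeting the unit disc. -/
noncomputable def cells (N : ℕ) : Finset (ℤ × ℤ) := Finset.Icc (-(N : ℤ)) N ×ˢ Finset.Icc (-(N : ℤ)) N

theorem card_cells (N : ℕ) : (cells N).card = (2 * N + 1) ^ 2 := by
  unfold cells
  rw [Finset.card_product, Int.card_Icc, sq]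
  congr 1 <;> omega

theorem floor_mem (N : ℕ) (x : ℝ) (hx : |x| ≤ 1) : ⌊(N : ℝ) * x⌋ ∈ Finset.Icc (-(N : ℤ)) N := by
  obtain ⟨h1, h2⟩ := abs_le.1 hx
  have hN : (0 : ℝ) ≤ N := Nat.cast_nonneg N
  rw [Finset.mem_Icc]
  constructor
  · rw [Int.le_floor]
    push_cast
    nlinarith
  · have h3 : (⌊(N : ℝ) * x⌋ : ℝ) ≤ N := (Int.floor_le _).trans (by nlinarith)
    exact_mod_cast h3

theorem cell_mem (N : ℕ) (z : ℂ) (hz : ‖z‖ = 1) : cell N z ∈ cells N := by
  unfold cell cells
  rw [Finset.mem_product]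
  exact ⟨floor_mem N _ ((Complex.abs_re_le_norm z).trans hz.le),
    floor_mem N _ ((Complex.abs_im_le_norm z).trans hz.le)⟩

theorem cell_close (N : ℕ) (hN : 0 < N) (z w : ℂ) (h : cell N z = cell N w) :
    ‖z - w‖ ^ 2 ≤ 2 / (N : ℝ) ^ 2 := by
  unfold cell at h
  rw [Prod.mk.injEq] at h
  obtain ⟨h1, h2⟩ := h
  have hN' : (0 : ℝ) < N := Nat.cast_pos.2 hN
  have key : ∀ x y : ℝ, ⌊(N : ℝ) * x⌋ = ⌊(N : ℝ) * y⌋ → (x - y) ^ 2 ≤ 1 / (N : ℝ) ^ 2 := by
    intro x y hxy
    have h3 := Int.abs_sub_lt_one_of_floor_eq_floor hxy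
    rw [le_div_iff₀ (by positivity), ← mul_pow, ← sq_abs]
    have h4 : (x - y) * N = N * x - N * y := by ring
    rw [h4]
    have h5 := abs_nonneg ((N : ℝ) * x - N * y)
    nlinarith
  rw [Complex.sq_norm, Complex.normSq_apply, Complex.sub_re, Complex.sub_im]
  have h5 := key _ _ h1
  have h6 := key _ _ h2
  have h7 : (2 : ℝ) / (N : ℝ) ^ 2 = 1 / (N : ℝ) ^ 2 + 1 / (N : ℝ) ^ 2 := by ring
  rw [h7, ← sq, ← sq]
  exact add_le_add h5 h6

/-! ### Counting -/

/-- The values of a component of a name. -/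
noncomputable def vals : Finset ((ℤ × ℤ) × Bool) := insert ((0, 0), false) (cells 4 ×ˢ {true})

theorem mem_vals_false : ((((0 : ℤ), (0 : ℤ)), false) : (ℤ × ℤ) × Bool) ∈ vals := by
  rw [vals, Finset.mem_insert]
  exact Or.inl rfl

theorem mem_vals_true (x : ℤ × ℤ) (hx : x ∈ cells 4) : ((x, true) : (ℤ × ℤ) × Bool) ∈ vals := by
  rw [vals, Finset.mem_insert]
  right
  rw [Finset.mem_product]
  exact ⟨hx, Finset.mem_singleton_self true⟩

theorem sum_vals (t : ℝ) : ∑ x ∈ vals, (if x.2 = true then t else 1) = 1 + 81 * t := by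
  unfold vals
  rw [Finset.sum_insert, Finset.sum_product]
  · simp only [Finset.sum_singleton, if_true, Finset.sum_const, card_cells]
    simp
  · simp

attribute [irreducible] vals

/-- The admissible lists of components. -/
noncomputable def lists (n : ℕ) (e : ℝ) : Finset (Fin n → (ℤ × ℤ) × Bool) :=
  open scoped Classical in
  (Fintype.piFinset fun _ => vals).filter
    fun f => ((Finset.univ.filter fun j => (f j).2 = true).card : ℝ) ≤ e * n

theorem card_lists (n : ℕ) (e t : ℝ) (ht0 : 0 < t) (ht1 : t < 1) :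
    ((lists n e).card : ℝ) * t ^ (e * n) ≤ (1 + 81 * t) ^ n := by
  classical
  have h1 : ∑ f ∈ Fintype.piFinset (fun _ : Fin n => vals),
      ∏ j : Fin n, (if (f j).2 = true then t else 1) = (1 + 81 * t) ^ n := by
    rw [← Finset.prod_univ_sum (fun _ : Fin n => vals) (fun _ x => if x.2 = true then t else 1)]
    simp only [sum_vals]
    simp
  rw [← h1]
  calc ((lists n e).card : ℝ) * t ^ (e * n) = ∑ _f ∈ lists n e, t ^ (e * n) := by
        rw [Finset.sum_const, nsmul_eq_mul]
    _ ≤ ∑ f ∈ lists n e, ∏ j : Fin n, (if (f j).2 = true then t else 1) := by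
        refine Finset.sum_le_sum fun f hf => ?_
        unfold lists at hf
        rw [Finset.mem_filter] at hf
        rw [Finset.prod_ite, Finset.prod_const, Finset.prod_const_one, mul_one,
          ← Real.rpow_natCast]
        exact Real.rpow_le_rpow_of_exponent_ge ht0 ht1.le hf.2
    _ ≤ _ := by
        refine Finset.sum_le_sum_of_subset_of_nonneg ?_ ?_
        · unfold lists
          exact Finset.filter_subset _ _
        · intro f _ _
          refine Finset.prod_nonneg fun j _ => ?_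
          split_ifs
          · exact ht0.le
          · exact zero_le_one

/-! ### The main estimate -/

/-- The difference between `e_1` and its approximation. -/
noncomputable def hdiff (W : Finset K) (a : K → ℂ) (χ : X) : ℂ := ev 1 χ - ∑ w ∈ W, a w * ev w χ

theorem continuous_hdiff (W : Finset K) (a : K → ℂ) : Continuous (hdiff W a) := by
  unfold hdiff
  refine (continuous_ev 1).sub ?_
  exact continuous_finsetSum _ fun w _ => continuous_const.mul (continuous_ev w)

theorem norm_hdiff_le (W : Finset K) (a : K → ℂ) (χ : X) :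
    ‖hdiff W a χ‖ ≤ 1 + ∑ w ∈ W, ‖a w‖ := by
  unfold hdiff
  refine (norm_sub_le _ _).trans ?_
  rw [norm_ev]
  gcongr
  refine (norm_sum_le _ _).trans ?_
  gcongr with w hw
  rw [norm_mul, norm_ev, mul_one]

/-- The bad set at the place `j`. -/
def Bad (W : Finset K) (a : K → ℂ) (j : ℕ) : Set X :=
  {χ | 1 / 4 < ‖hdiff W a (rho (un (star gpi) ^ j) χ)‖}

theorem measurableSet_Bad (W : Finset K) (a : K → ℂ) (j : ℕ) : MeasurableSet (Bad W a j) :=
  (isOpen_lt continuous_const
    (((continuous_hdiff W a).comp (continuous_rho _)).norm)).measurableSet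

theorem measure_Bad (μ : Measure X) [IsFiniteMeasure μ] (hinv : InvQ μ) (W : Finset K) (a : K → ℂ)
    (ε : ℝ) (hε : ∫ χ, ‖ev 1 χ - ∑ w ∈ W, a w * ev w χ‖ ^ 2 ∂μ ≤ ε) (j : ℕ) :
    μ.real (Bad W a j) ≤ 16 * ε := by
  have h1 : Bad W a j = rho (un ((star gpi) ^ j)) ⁻¹' (Bad W a 0) := by
    ext χ
    simp [Bad, un_pow]
  have h2 : μ.real (Bad W a j) = μ.real (Bad W a 0) := by
    rw [h1, measureReal_def, hinv.measure_preimage
      (pow_ne_zero j (star_ne_zero' gpi_ne_zero)) (measurableSet_Bad W a 0), measureReal_def]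
  rw [h2]
  have h3 : μ.real (Bad W a 0) ≤ μ.real {χ | 1 / 16 ≤ ‖hdiff W a χ‖ ^ 2} := by
    refine measureReal_mono ?_ (measure_ne_top _ _)
    intro χ hχ
    have h4 : 1 / 4 < ‖hdiff W a χ‖ := by simpa [Bad] using hχ
    show 1 / 16 ≤ ‖hdiff W a χ‖ ^ 2
    nlinarith
  have h5 := mul_meas_ge_le_integral_of_nonneg (μ := μ) (f := fun χ => ‖hdiff W a χ‖ ^ 2)
    (Filter.Eventually.of_forall fun χ => by positivity)
    (Integrable.of_bound (C := (1 + ∑ w ∈ W, ‖a w‖) ^ 2)
      (((continuous_hdiff W a).norm.pow 2).aestronglyMeasurable)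
      (Filter.Eventually.of_forall fun χ => by
        rw [Real.norm_of_nonneg (by positivity)]
        exact pow_le_pow_left₀ (norm_nonneg _) (norm_hdiff_le W a χ) 2)) (1 / 16)
  have h6 : ∫ χ, ‖hdiff W a χ‖ ^ 2 ∂μ ≤ ε := hε
  linarith

/-- The number of bad places. -/
noncomputable def nbad (W : Finset K) (a : K → ℂ) (n : ℕ) (χ : X) : ℝ :=
  ∑ j : Fin n, (Bad W a ((j : ℕ) + 1)).indicator (fun _ => (1 : ℝ)) χ

theorem measurable_nbad (W : Finset K) (a : K → ℂ) (n : ℕ) : Measurable (nbad W a n) := by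
  unfold nbad
  exact Finset.measurable_sum _ fun j _ => measurable_const.indicator (measurableSet_Bad W a _)

/-- The good set. -/
def Good (W : Finset K) (a : K → ℂ) (n : ℕ) (e : ℝ) : Set X := {χ | χ ∈ Hm ∧ nbad W a n χ ≤ e * n}

theorem measurableSet_Good (W : Finset K) (a : K → ℂ) (n : ℕ) (e : ℝ) :
    MeasurableSet (Good W a n e) :=
  measurableSet_Hm.inter (measurableSet_le (measurable_nbad W a n) measurable_const)

theorem measure_Good (μ : Measure X) [IsFiniteMeasure μ] (hinv : InvQ μ)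
    (hhom : ∀ᵐ χ ∂μ, χ ∈ Hm) (W : Finset K) (a : K → ℂ)
    (ε : ℝ) (hε : ∫ χ, ‖ev 1 χ - ∑ w ∈ W, a w * ev w χ‖ ^ 2 ∂μ ≤ ε) (n : ℕ) (e : ℝ) (he : 0 < e) :
    μ.real Set.univ - 16 * ε / e ≤ μ.real (Good W a n e) := by
  have hε0 : 0 ≤ ε := le_trans (integral_nonneg fun χ => by positivity) hε
  have h1 : μ.real {χ | e * n < nbad W a n χ} ≤ 16 * ε / e := by
    rcases Nat.eq_zero_or_pos n with rfl | hn
    · have h2 : {χ : X | e * (0 : ℕ) < nbad W a 0 χ} = ∅ := by
        ext χ
        simp [nbad]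
      rw [h2, measureReal_empty]
      positivity
    · have hn' : (0 : ℝ) < n := Nat.cast_pos.2 hn
      have h3 := mul_meas_ge_le_integral_of_nonneg (μ := μ) (f := nbad W a n)
        (Filter.Eventually.of_forall fun χ => by
          show 0 ≤ nbad W a n χ
          unfold nbad
          exact Finset.sum_nonneg fun j _ => Set.indicator_nonneg (fun _ _ => zero_le_one) _)
        (by
          unfold nbad
          exact integrable_finsetSum _ fun j _ =>
            (integrable_const (1 : ℝ)).indicator (measurableSet_Bad W a _)) (e * n)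
      have h4 : ∫ χ, nbad W a n χ ∂μ ≤ n * (16 * ε) := by
        unfold nbad
        rw [integral_finsetSum]
        · calc ∑ j : Fin n, ∫ χ, (Bad W a ((j : ℕ) + 1)).indicator (fun _ => (1 : ℝ)) χ ∂μ
              ≤ ∑ _j : Fin n, 16 * ε := by
                refine Finset.sum_le_sum fun j _ => ?_
                rw [integral_indicator_const _ (measurableSet_Bad W a _), smul_eq_mul, mul_one]
                exact measure_Bad μ hinv W a ε hε _
            _ = n * (16 * ε) := by simp
        · intro j _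
          exact (integrable_const (1 : ℝ)).indicator (measurableSet_Bad W a _)
      have h5 : μ.real {χ | e * n < nbad W a n χ} ≤ μ.real {χ | e * n ≤ nbad W a n χ} := by
        refine measureReal_mono ?_ (measure_ne_top _ _)
        intro χ hχ
        have h6 : e * n < nbad W a n χ := hχ
        exact h6.le
      rw [le_div_iff₀ he]
      have h6 : e * n * μ.real {χ | e * n < nbad W a n χ} ≤ n * (16 * ε) :=
        (mul_le_mul_of_nonneg_left h5 (by positivity)).trans (h3.trans h4)
      have h7 : n * (μ.real {χ | e * n < nbad W a n χ} * e) ≤ n * (16 * ε) := by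
        calc _ = e * n * μ.real {χ | e * n < nbad W a n χ} := by ring
          _ ≤ _ := h6
      exact le_of_mul_le_mul_left h7 hn'
  have h8 : μ.real Set.univ ≤ μ.real (Good W a n e) + μ.real {χ | e * n < nbad W a n χ} := by
    have h9 : μ (Set.univ : Set X) ≤ μ (Good W a n e ∪ {χ | e * n < nbad W a n χ}) := by
      refine measure_mono_ae ?_
      filter_upwards [hhom] with χ hχ _
      by_cases h : nbad W a n χ ≤ e * n
      · exact Or.inl ⟨hχ, h⟩
      · exact Or.inr (not_le.1 h)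
    have h10 : μ.real (Set.univ : Set X) ≤ μ.real (Good W a n e ∪ {χ | e * n < nbad W a n χ}) :=
      ENNReal.toReal_mono (measure_ne_top _ _) h9
    exact h10.trans (measureReal_union_le _ _)
  linarith

open scoped Classical in
/-- The name of a character. -/
noncomputable def name (W : Finset K) (a : K → ℂ) (D : GaussianInt) (N n : ℕ) (χ : X) :
    (ℤ × ℤ) × (ℤ × ℤ) × (Fin n → (ℤ × ℤ) × Bool) :=
  (cell N (ev (1 / c D) χ), cell N (ev (iK / c D) χ), fun j =>
    if χ ∈ Bad W a ((j : ℕ) + 1) then (cell 4 (ev (un (star gpi) ^ ((j : ℕ) + 1)) χ), true)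
    else ((0, 0), false))

theorem measurable_name (W : Finset K) (a : K → ℂ) (D : GaussianInt) (N n : ℕ) :
    Measurable (name W a D N n) := by
  classical
  unfold name
  refine ((measurable_cell N).comp (measurable_ev _)).prodMk
    (((measurable_cell N).comp (measurable_ev _)).prodMk (measurable_pi_lambda _ fun j => ?_))
  refine Measurable.ite (measurableSet_Bad W a _) ?_ measurable_const
  exact ((measurable_cell 4).comp (measurable_ev _)).prodMk measurable_const

theorem name_list (W : Finset K) (a : K → ℂ) (D : GaussianInt) (N n : ℕ) (χ : X) (j : Fin n) :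
    (name W a D N n χ).2.2 j ∈ vals := by
  by_cases h : χ ∈ Bad W a ((j : ℕ) + 1)
  · have hz : cell 4 (ev (un (star gpi) ^ ((j : ℕ) + 1)) χ) ∈ cells 4 :=
      cell_mem 4 (ev (un (star gpi) ^ ((j : ℕ) + 1)) χ) (norm_ev _ _)
    have h1 : (name W a D N n χ).2.2 j =
        (cell 4 (ev (un (star gpi) ^ ((j : ℕ) + 1)) χ), true) := if_pos h
    rw [h1]
    exact mem_vals_true _ hz
  · have h1 : (name W a D N n χ).2.2 j = ((0, 0), false) := if_neg h
    rw [h1]
    exact mem_vals_false

theorem name_count (W : Finset K) (a : K → ℂ) (D : GaussianInt) (N n : ℕ) (χ : X) :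
    ((Finset.univ.filter fun j => ((name W a D N n χ).2.2 j).2 = true).card : ℝ)
      = nbad W a n χ := by
  unfold nbad
  rw [Finset.card_filter]
  push_cast
  refine Finset.sum_congr rfl fun j _ => ?_
  by_cases h : χ ∈ Bad W a ((j : ℕ) + 1)
  · have h1 : (name W a D N n χ).2.2 j =
        (cell 4 (ev (un (star gpi) ^ ((j : ℕ) + 1)) χ), true) := if_pos h
    rw [h1, Set.indicator_of_mem h]
    simp
  · have h1 : (name W a D N n χ).2.2 j = ((0, 0), false) := if_neg h
    rw [h1, Set.indicator_of_notMem h]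
    simp

theorem name_mem (W : Finset K) (a : K → ℂ) (D : GaussianInt) (N n : ℕ) (e : ℝ) (χ : X)
    (hχ : χ ∈ Good W a n e) :
    name W a D N n χ ∈ cells N ×ˢ cells N ×ˢ lists n e := by
  rw [Finset.mem_product, Finset.mem_product]
  refine ⟨cell_mem N _ (norm_ev _ _), cell_mem N _ (norm_ev _ _), ?_⟩
  unfold lists
  rw [Finset.mem_filter, Fintype.mem_piFinset]
  refine ⟨fun j => name_list W a D N n χ j, ?_⟩
  have h1 := name_count W a D N n χ
  have h2 := hχ.2
  rw [← h1] at h2
  convert h2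

end ModNames

open ModNames in
theorem names (μ : Measure X) [IsFiniteMeasure μ] (hinv : InvQ μ) (hhom : ∀ᵐ χ ∂μ, χ ∈ Hm)
    (h0 : μ ≠ 0)
    (happ : ∀ ε : ℝ, 0 < ε → ∃ (W : Finset K) (a : K → ℂ), (∀ w ∈ W, w ∈ Qpi 1) ∧
        ∫ χ, ‖ev 1 χ - ∑ w ∈ W, a w * ev w χ‖ ^ 2 ∂μ ≤ ε)
    (κ : ℝ) (hκ : 0 < κ) :
    ∃ D : GaussianInt, D ≠ 0 ∧ ∃ R : ℝ, 0 < R ∧ ∃ c0 : ℝ, 0 < c0 ∧ ∀ n : ℕ,
      c0 * Real.exp (-κ * n) ≤ (quo μ (EE R (1 / c (D * gpi ^ n)))).toReal := by
  classical
  set m : ℝ := μ.real Set.univ with hm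
  have hm0 : 0 < m := by
    rw [hm, measureReal_def]
    exact ENNReal.toReal_pos (by simpa using h0) (measure_ne_top _ _)
  -- the parameters
  obtain ⟨t, ht0, ht1, ht⟩ : ∃ t : ℝ, 0 < t ∧ t < 1 ∧ 1 + 81 * t ≤ Real.exp (κ / 2) := by
    have h1 : 0 < Real.exp (κ / 2) - 1 := by
      have := Real.add_one_lt_exp (x := κ / 2) (by positivity)
      linarith
    refine ⟨min (1 / 2) ((Real.exp (κ / 2) - 1) / 81), by positivity, ?_, ?_⟩
    · exact (min_le_left _ _).trans_lt (by norm_num)
    · have h2 := min_le_right (1 / 2) ((Real.exp (κ / 2) - 1) / 81)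
      linarith
  obtain ⟨e, he0, he⟩ : ∃ e : ℝ, 0 < e ∧ Real.exp (-(κ / 2)) = t ^ e := by
    have h1 : Real.log t < 0 := Real.log_neg ht0 ht1
    refine ⟨-(κ / 2) / Real.log t, div_pos_of_neg_of_neg (by linarith) h1, ?_⟩
    rw [Real.rpow_def_of_pos ht0, mul_div_cancel₀ _ h1.ne]
  set ε : ℝ := e * m / 32 with hε
  have hε0 : 0 < ε := by positivity
  obtain ⟨W, a, hW, hint⟩ := happ ε hε0
  obtain ⟨D, hD, R, hR, r, hr, hdet⟩ := names_det W a hW
  have hD0 : D ≠ 0 := by
    rintro rfl
    exact hD (dvd_zero _)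
  obtain ⟨N, hN⟩ := exists_nat_gt (2 / r)
  have hNpos : 0 < N := by
    have h1 : (0 : ℝ) < N := lt_trans (by positivity) hN
    exact_mod_cast h1
  have hNR : (0 : ℝ) < N := Nat.cast_pos.2 hNpos
  have hclose : ∀ z w : ℂ, cell N z = cell N w → ‖z - w‖ ≤ r := by
    intro z w h
    have h1 := cell_close N hNpos z w h
    have h2 : 2 / (N : ℝ) < r := by
      rw [div_lt_iff₀ hNR]
      rw [div_lt_iff₀ hr] at hN
      linarith
    have h3 : ‖z - w‖ ^ 2 ≤ (2 / (N : ℝ)) ^ 2 := by
      refine h1.trans ?_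
      rw [div_pow]
      gcongr
      norm_num
    exact (abs_le_of_sq_le_sq' h3 (by positivity)).2.trans h2.le
  have hclose4 : ∀ z w : ℂ, cell 4 z = cell 4 w → ‖z - w‖ ≤ 3 / 8 := by
    intro z w h
    have h1 := cell_close 4 (by norm_num) z w h
    have h3 : ‖z - w‖ ^ 2 ≤ (3 / 8 : ℝ) ^ 2 := by
      refine h1.trans ?_
      norm_num
    exact (abs_le_of_sq_le_sq' h3 (by norm_num)).2
  refine ⟨D, hD0, R, hR, (m / 2) ^ 2 / ((2 * N + 1) ^ 2) ^ 2, by positivity, fun n => ?_⟩
  -- the names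
  have hkey := pigeon μ (name W a D N n) (measurable_name W a D N n) (Good W a n e)
    (measurableSet_Good W a n e) (cells N ×ˢ cells N ×ˢ lists n e) ?_
    {p : X × X | p.1 / p.2 ∈ EE R (1 / c (D * gpi ^ n))} ?_
  · have hGood : m / 2 ≤ μ.real (Good W a n e) := by
      have h1 := measure_Good μ hinv hhom W a ε hint n e he0
      have h2 : 16 * ε / e = m / 2 := by
        rw [hε]
        field_simp
        norm_num
      rw [h2] at h1
      linarith
    have hquo : (quo μ (EE R (1 / c (D * gpi ^ n)))).toReal =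
        (μ.prod μ).real {p : X × X | p.1 / p.2 ∈ EE R (1 / c (D * gpi ^ n))} := by
      rw [quo_apply μ (measurableSet_EE _ _), measureReal_def]
    rw [hquo]
    set Q : ℝ := (μ.prod μ).real {p : X × X | p.1 / p.2 ∈ EE R (1 / c (D * gpi ^ n))} with hQ
    have hQ0 : 0 ≤ Q := measureReal_nonneg
    rw [Finset.card_product, Finset.card_product, card_cells] at hkey
    push_cast at hkey
    have hlists : ((lists n e).card : ℝ) ≤ Real.exp (κ * n) := by
      have h1 := card_lists n e t ht0 ht1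
      have h2 : t ^ (e * n) = Real.exp (-(κ / 2) * n) := by
        rw [Real.rpow_mul ht0.le, ← he, ← Real.exp_mul]
      have h3 : (1 + 81 * t) ^ n ≤ Real.exp (κ / 2 * n) := by
        calc (1 + 81 * t) ^ n ≤ Real.exp (κ / 2) ^ n := pow_le_pow_left₀ (by positivity) ht n
          _ = Real.exp (κ / 2 * n) := by rw [← Real.exp_nat_mul, mul_comm]
      rw [h2] at h1
      have h4 : ((lists n e).card : ℝ) * Real.exp (-(κ / 2) * n) ≤ Real.exp (κ / 2 * n) :=
        h1.trans h3
      have h5 : Real.exp (-(κ / 2) * n) * Real.exp (κ / 2 * n) = 1 := by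
        rw [← Real.exp_add]
        simp
      have h6 : Real.exp (κ * n) = Real.exp (κ / 2 * n) * Real.exp (κ / 2 * n) := by
        rw [← Real.exp_add]
        congr 1
        ring
      rw [h6]
      calc ((lists n e).card : ℝ)
          = ((lists n e).card : ℝ) * Real.exp (-(κ / 2) * n) * Real.exp (κ / 2 * n) := by
            rw [mul_assoc, h5, mul_one]
        _ ≤ Real.exp (κ / 2 * n) * Real.exp (κ / 2 * n) := by gcongr
    have h1 : (m / 2) ^ 2 ≤ ((2 * N + 1) ^ 2 * ((2 * N + 1) ^ 2 * Real.exp (κ * n))) * Q := by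
      calc (m / 2) ^ 2 ≤ μ.real (Good W a n e) ^ 2 := by gcongr
        _ ≤ _ := hkey
        _ ≤ _ := by gcongr
    have h2 : Real.exp (-κ * n) * Real.exp (κ * n) = 1 := by
      rw [← Real.exp_add]
      simp
    have h3 : 0 < Real.exp (-κ * n) := Real.exp_pos _
    rw [div_mul_eq_mul_div, div_le_iff₀ (by positivity)]
    calc (m / 2) ^ 2 * Real.exp (-κ * n)
        ≤ (((2 * N + 1) ^ 2 * ((2 * N + 1) ^ 2 * Real.exp (κ * n))) * Q) * Real.exp (-κ * n) := by
          gcongr
      _ = Q * ((2 * N + 1) ^ 2) ^ 2 * (Real.exp (-κ * n) * Real.exp (κ * n)) := by ring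
      _ = Q * ((2 * N + 1) ^ 2) ^ 2 := by rw [h2, mul_one]
  · -- names lie in the finite set
    exact fun χ hχ => name_mem W a D N n e χ hχ
  · -- two characters with the same name
    intro χ hχ χ' hχ' hname
    simp only [name, Prod.mk.injEq] at hname
    obtain ⟨hn1, hn2, hn3⟩ := hname
    refine hdet n χ χ' hχ.1 hχ'.1 (hclose _ _ hn1) (hclose _ _ hn2) ?_
    intro j hj1 hj2
    have h3 := congrFun hn3 ⟨j - 1, by omega⟩
    simp only [Nat.sub_add_cancel hj1] at h3
    have hrw : ∀ ψ : X, hdiff W a (rho (un (star gpi) ^ j) ψ) =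
        ev (un (star gpi) ^ j) ψ - ∑ w ∈ W, a w * ev (un (star gpi) ^ j * w) ψ := by
      intro ψ
      simp [hdiff, ev_rho]
    by_cases hb : χ ∈ Bad W a j
    · rw [if_pos hb] at h3
      by_cases hb' : χ' ∈ Bad W a j
      · rw [if_pos hb', Prod.mk.injEq] at h3
        exact Or.inl (hclose4 _ _ h3.1)
      · rw [if_neg hb', Prod.mk.injEq] at h3
        exact absurd h3.2 (by simp)
    · rw [if_neg hb] at h3
      by_cases hb' : χ' ∈ Bad W a j
      · rw [if_pos hb', Prod.mk.injEq] at h3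
        exact absurd h3.2 (by simp)
      · right
        rw [← hrw, ← hrw]
        exact ⟨not_lt.1 hb, not_lt.1 hb'⟩

end Pool.Agent.H56
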