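import Mathlib
set_option autoImplicit false
namespace Pool.Agent.H56

/-- The number of `m ∈ [1, M]` in a residue class. -/
theorem modPrimes_card_class (M q : ℕ) (r : ℤ) :
    ((Finset.Icc 1 M).filter (fun m : ℕ => (q : ℤ) ∣ (m : ℤ) - r)).card ≤ M / q + 1 := by
  classical
  have h := Finset.card_le_card_of_injOn (s := (Finset.Icc 1 M).filter
    (fun m : ℕ => (q : ℤ) ∣ (m : ℤ) - r)) (t := Finset.range (M / q + 1)) (fun m => m / q) ?_ ?_
  · simpa using h
  · intro m hm
    simp only [Finset.coe_filter, Finset.mem_Icc, Set.mem_ofPred_eq] at hm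
    simp only [Finset.coe_range, Set.mem_Iio]
    exact Nat.lt_succ_of_le (Nat.div_le_div_right hm.1.2)
  · intro m hm m' hm' hmm
    simp only [Finset.coe_filter, Finset.mem_Icc, Set.mem_ofPred_eq] at hm hm'
    simp only at hmm
    have h1 : (q : ℤ) ∣ (m : ℤ) - (m' : ℤ) := by
      have := dvd_sub hm.2 hm'.2
      simpa using this
    have h2 : m ≡ m' [MOD q] := by
      rw [← Int.natCast_modEq_iff]
      exact (Int.modEq_iff_dvd.2 (by simpa using h1)).symm
    have h3 : m % q = m' % q := h2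
    have h4 := Nat.div_add_mod m q
    have h5 := Nat.div_add_mod m' q
    rw [← h4, ← h5, hmm, h3]

/-- `4 m² + 1 ≡ 0` has at most two solutions modulo an odd prime power. -/
theorem modPrimes_two_classes {p : ℕ} (hp : p.Prime) (hp2 : p ≠ 2) (e : ℕ) (a b : ℤ)
    (ha : ((p ^ e : ℕ) : ℤ) ∣ 4 * a ^ 2 + 1) (hb : ((p ^ e : ℕ) : ℤ) ∣ 4 * b ^ 2 + 1) :
    ((p ^ e : ℕ) : ℤ) ∣ a - b ∨ ((p ^ e : ℕ) : ℤ) ∣ a - (-b) := by
  rcases Nat.eq_zero_or_pos e with rfl | he
  · left; simp
  have hpi : Prime (p : ℤ) := Nat.prime_iff_prime_int.1 hp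
  have hpdvd : (p : ℤ) ∣ ((p ^ e : ℕ) : ℤ) := by
    push_cast
    exact dvd_pow_self _ (by omega)
  have hp2' : ¬ (p : ℤ) ∣ 2 := by
    intro h
    have h' : p ∣ 2 := by exact_mod_cast h
    exact hp2 ((Nat.prime_dvd_prime_iff_eq hp Nat.prime_two).1 h')
  have hpa : ¬ (p : ℤ) ∣ a := by
    intro h
    have h1 : (p : ℤ) ∣ 4 * a ^ 2 + 1 := hpdvd.trans ha
    have h2 : (p : ℤ) ∣ 4 * a ^ 2 := (dvd_pow h two_ne_zero).mul_left 4
    have h3 : (p : ℤ) ∣ 1 := (dvd_add_right h2).1 h1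
    exact hpi.not_dvd_one h3
  have hprod : ((p ^ e : ℕ) : ℤ) ∣ (a - b) * (a - (-b)) := by
    have h1 : ((p ^ e : ℕ) : ℤ) ∣ 4 * ((a - b) * (a - (-b))) := by
      have := dvd_sub ha hb
      have h2 : 4 * a ^ 2 + 1 - (4 * b ^ 2 + 1) = 4 * ((a - b) * (a - (-b))) := by ring
      rwa [h2] at this
    have hcop : IsCoprime ((p ^ e : ℕ) : ℤ) 4 := by
      push_cast
      apply IsCoprime.pow_left
      have h4 : (4 : ℤ) = 2 ^ 2 := by norm_num
      rw [h4]
      apply IsCoprime.pow_right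
      exact (hpi.coprime_iff_not_dvd).2 hp2'
    exact hcop.dvd_of_dvd_mul_left h1
  by_cases h : (p : ℤ) ∣ a - b
  · left
    have h' : ¬ (p : ℤ) ∣ a - (-b) := by
      intro h2
      have h3 : (p : ℤ) ∣ 2 * a := by
        have := dvd_add h h2
        have h4 : a - b + (a - (-b)) = 2 * a := by ring
        rwa [h4] at this
      rcases hpi.dvd_or_dvd h3 with h4 | h4
      · exact hp2' h4
      · exact hpa h4
    have hcop : IsCoprime ((p ^ e : ℕ) : ℤ) (a - (-b)) := by
      push_cast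
      apply IsCoprime.pow_left
      exact (hpi.coprime_iff_not_dvd).2 (by simpa using h')
    exact hcop.dvd_of_dvd_mul_right hprod
  · right
    have hcop : IsCoprime ((p ^ e : ℕ) : ℤ) (a - b) := by
      push_cast
      apply IsCoprime.pow_left
      exact (hpi.coprime_iff_not_dvd).2 h
    exact hcop.dvd_of_dvd_mul_left hprod

theorem modPrimes_card_root {p : ℕ} (hp : p.Prime) (hp2 : p ≠ 2) (e M : ℕ) :
    ((Finset.Icc 1 M).filter (fun m : ℕ => p ^ e ∣ 4 * m ^ 2 + 1)).card ≤ 2 * (M / p ^ e + 1) := by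
  classical
  by_cases hne : ((Finset.Icc 1 M).filter (fun m : ℕ => p ^ e ∣ 4 * m ^ 2 + 1)).Nonempty
  · obtain ⟨m0, hm0⟩ := hne
    have h0 := (Finset.mem_filter.1 hm0).2
    have hsub : (Finset.Icc 1 M).filter (fun m : ℕ => p ^ e ∣ 4 * m ^ 2 + 1) ⊆
        (Finset.Icc 1 M).filter (fun m : ℕ => ((p ^ e : ℕ) : ℤ) ∣ (m : ℤ) - (m0 : ℤ)) ∪
        (Finset.Icc 1 M).filter (fun m : ℕ => ((p ^ e : ℕ) : ℤ) ∣ (m : ℤ) - (-(m0 : ℤ))) := by
      intro m hm
      rw [Finset.mem_filter] at hm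
      rw [Finset.mem_union, Finset.mem_filter, Finset.mem_filter]
      have h1 : ((p ^ e : ℕ) : ℤ) ∣ 4 * (m : ℤ) ^ 2 + 1 := by exact_mod_cast hm.2
      have h2 : ((p ^ e : ℕ) : ℤ) ∣ 4 * (m0 : ℤ) ^ 2 + 1 := by exact_mod_cast h0
      rcases modPrimes_two_classes hp hp2 e _ _ h1 h2 with h3 | h3
      · exact Or.inl ⟨hm.1, h3⟩
      · exact Or.inr ⟨hm.1, h3⟩
    refine (Finset.card_le_card hsub).trans ((Finset.card_union_le _ _).trans ?_)
    have h1 := modPrimes_card_class M (p ^ e) (m0 : ℤ)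
    have h2 := modPrimes_card_class M (p ^ e) (-(m0 : ℤ))
    omega
  · rw [Finset.not_nonempty_iff_eq_empty] at hne
    rw [hne]
    simp

/-- The product `∏ (4 m² + 1)`. -/
def modPrimes_P (M : ℕ) : ℕ := ∏ m ∈ Finset.Icc 1 M, (4 * m ^ 2 + 1)

theorem modPrimes_P_ne (M : ℕ) : modPrimes_P M ≠ 0 :=
  Finset.prod_ne_zero_iff.2 fun m _ => by positivity

theorem modPrimes_P_lower (M : ℕ) : 4 ^ M * (M.factorial) ^ 2 ≤ modPrimes_P M := by
  have h1 : 4 ^ M * (M.factorial) ^ 2 = ∏ m ∈ Finset.Icc 1 M, (4 * m ^ 2) := by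
    rw [Finset.prod_mul_distrib, Finset.prod_const, Nat.card_Icc, Finset.prod_pow,
      ← Finset.Ico_add_one_right_eq_Icc 1 M, Finset.prod_Ico_id_eq_factorial]
    simp
  rw [h1]
  exact Finset.prod_le_prod' fun m _ => Nat.le_succ _

theorem modPrimes_dvd_P {M p : ℕ} (hp : p.Prime) (h : p ∣ modPrimes_P M) :
    p % 4 = 1 ∧ p ≤ 4 * M ^ 2 + 1 := by
  obtain ⟨m, hm, hd⟩ := (Prime.dvd_finsetProd_iff hp.prime _).1 h
  rw [Finset.mem_Icc] at hm
  constructor
  · have hodd : p ≠ 2 := by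
      rintro rfl
      omega
    have h3 : p % 4 ≠ 3 := by
      have : Fact p.Prime := ⟨hp⟩
      apply ZMod.mod_four_ne_three_of_sq_eq_neg_one (y := ((2 * m : ℕ) : ZMod p))
      have : ((4 * m ^ 2 + 1 : ℕ) : ZMod p) = 0 := (ZMod.natCast_eq_zero_iff _ _).2 hd
      push_cast at this ⊢
      linear_combination this
    have h2 := hp.eq_two_or_odd
    omega
  · refine (Nat.le_of_dvd (by positivity) hd).trans ?_
    gcongr
    exact hm.2

theorem modPrimes_fact {M p : ℕ} (hp : p.Prime) (hp2 : p ≠ 2) :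
    (modPrimes_P M).factorization p ≤
      2 * (M.factorial).factorization p + 2 * Nat.log p (4 * M ^ 2 + 1) := by
  classical
  set b := Nat.log p (4 * M ^ 2 + 1) + 1 with hb
  have hfac : (M.factorial).factorization p = ∑ i ∈ Finset.Ico 1 b, M / p ^ i := by
    apply Nat.factorization_factorial hp
    rw [hb, Nat.lt_succ_iff]
    apply Nat.log_mono_right
    nlinarith [Nat.zero_le M]
  have h1 : (modPrimes_P M).factorization p =
      ∑ m ∈ Finset.Icc 1 M, (4 * m ^ 2 + 1).factorization p := by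
    unfold modPrimes_P
    rw [Nat.factorization_prod (fun m _ => by positivity)]
    simp
  have h2 : ∀ m ∈ Finset.Icc 1 M, (4 * m ^ 2 + 1).factorization p =
      ∑ i ∈ Finset.Ico 1 b, if p ^ i ∣ 4 * m ^ 2 + 1 then 1 else 0 := by
    intro m hm
    rw [Finset.mem_Icc] at hm
    rw [Nat.factorization_eq_card_pow_dvd_of_lt (b := b) hp (by positivity) ?_, Finset.card_filter]
    refine lt_of_le_of_lt ?_ (Nat.lt_pow_succ_log_self hp.one_lt (4 * M ^ 2 + 1))
    gcongr
    exact hm.2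
  rw [h1, Finset.sum_congr rfl h2, Finset.sum_comm]
  have h3 : ∀ i ∈ Finset.Ico 1 b, (∑ m ∈ Finset.Icc 1 M,
      if p ^ i ∣ 4 * m ^ 2 + 1 then 1 else 0) ≤ 2 * (M / p ^ i + 1) := by
    intro i _
    rw [← Finset.card_filter]
    exact modPrimes_card_root hp hp2 i M
  refine (Finset.sum_le_sum h3).trans ?_
  rw [hfac, Finset.mul_sum]
  have h4 : ∑ i ∈ Finset.Ico 1 b, 2 * (M / p ^ i + 1) =
      (∑ i ∈ Finset.Ico 1 b, 2 * (M / p ^ i)) + 2 * (b - 1) := by
    simp only [mul_add, mul_one, Finset.sum_add_distrib, Finset.sum_const, Nat.card_Ico,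
      smul_eq_mul]
    ring
  rw [h4]
  omega

theorem modPrimes_part_le (S : Finset ℕ) (n : ℕ) (hn : n ≠ 0) :
    ∏ p ∈ S, p ^ n.factorization p ≤ n := by
  classical
  have h1 : ∏ p ∈ S, p ^ n.factorization p = ∏ p ∈ S ∩ n.primeFactors, p ^ n.factorization p := by
    symm
    apply Finset.prod_subset Finset.inter_subset_left
    intro p hp hp'
    have : p ∉ n.primeFactors := fun h => hp' (Finset.mem_inter.2 ⟨hp, h⟩)
    rw [← Nat.support_factorization, Finsupp.notMem_support_iff] at this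
    rw [this, pow_zero]
  rw [h1]
  calc ∏ p ∈ S ∩ n.primeFactors, p ^ n.factorization p
      ≤ ∏ p ∈ n.primeFactors, p ^ n.factorization p := by
        apply Finset.prod_le_prod_of_subset_of_one_le' Finset.inter_subset_right
        intro p hp _
        exact Nat.one_le_pow _ _ (Nat.pos_of_mem_primeFactors hp)
    _ = n := Nat.prod_factorization_pow_eq_self hn

theorem modPrimes_key (M : ℕ) :
    4 ^ M ≤ (4 * M ^ 2 + 1) ^ (2 * (modPrimes_P M).primeFactors.card) := by
  classical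
  set S := (modPrimes_P M).primeFactors with hS
  have h1 : modPrimes_P M ≤ (M.factorial) ^ 2 * (4 * M ^ 2 + 1) ^ (2 * S.card) := by
    calc modPrimes_P M = ∏ p ∈ S, p ^ (modPrimes_P M).factorization p :=
          (Nat.prod_factorization_pow_eq_self (modPrimes_P_ne M)).symm
      _ ≤ ∏ p ∈ S, (p ^ (M.factorial).factorization p) ^ 2 * (4 * M ^ 2 + 1) ^ 2 := by
          apply Finset.prod_le_prod' 
          intro p hp
          have hpp := Nat.prime_of_mem_primeFactors hp
          have hpd := Nat.dvd_of_mem_primeFactors hp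
          have hp4 := modPrimes_dvd_P hpp hpd
          have hp2 : p ≠ 2 := by
            rintro rfl
            omega
          calc p ^ (modPrimes_P M).factorization p
              ≤ p ^ (2 * (M.factorial).factorization p + 2 * Nat.log p (4 * M ^ 2 + 1)) :=
                Nat.pow_le_pow_right hpp.pos (modPrimes_fact hpp hp2)
            _ = (p ^ (M.factorial).factorization p) ^ 2 *
                  (p ^ Nat.log p (4 * M ^ 2 + 1)) ^ 2 := by
                rw [pow_add, mul_comm 2, pow_mul, mul_comm 2, pow_mul]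
            _ ≤ (p ^ (M.factorial).factorization p) ^ 2 * (4 * M ^ 2 + 1) ^ 2 := by
                gcongr
                exact Nat.pow_log_le_self p (by positivity)
      _ = (∏ p ∈ S, p ^ (M.factorial).factorization p) ^ 2 * (4 * M ^ 2 + 1) ^ (2 * S.card) := by
          rw [Finset.prod_mul_distrib, Finset.prod_pow, Finset.prod_const, ← pow_mul]
      _ ≤ (M.factorial) ^ 2 * (4 * M ^ 2 + 1) ^ (2 * S.card) := by
          gcongr
          exact modPrimes_part_le S _ (Nat.factorial_ne_zero M)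
  have h2 := (modPrimes_P_lower M).trans h1
  rw [mul_comm (4 ^ M)] at h2
  exact Nat.le_of_mul_le_mul_left h2 (by positivity)

theorem primes_lower : ∃ c1 : ℝ, 0 < c1 ∧ ∃ x0 : ℝ, ∀ x : ℝ, x0 ≤ x →
    x ^ c1 ≤ (((Finset.range (⌊x⌋₊ + 1)).filter (fun p => p.Prime ∧ p % 4 = 1)).card : ℝ) := by
  classical
  refine ⟨1 / 4, by norm_num, ?_⟩
  -- `log x ≤ (log 2 / 4) x ^ (1/4)` eventually
  have hlog : ∀ᶠ x : ℝ in Filter.atTop, Real.log x ≤ (Real.log 2 / 4) * x ^ (1 / 4 : ℝ) := by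
    have h := (isLittleO_log_rpow_atTop (r := 1 / 4) (by norm_num)).bound
      (c := Real.log 2 / 4) (by positivity)
    filter_upwards [h, Filter.eventually_ge_atTop 1] with x hx hx1
    rw [Real.norm_of_nonneg (Real.log_nonneg hx1),
      Real.norm_of_nonneg (Real.rpow_nonneg (by linarith) _)] at hx
    exact hx
  obtain ⟨x1, hx1⟩ := Filter.eventually_atTop.1 hlog
  refine ⟨max x1 400, fun x hx => ?_⟩
  have hx1' : x1 ≤ x := (le_max_left _ _).trans hx
  have hx100 : (400 : ℝ) ≤ x := (le_max_right _ _).trans hx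
  have hlogx := hx1 x hx1'
  set k := ((Finset.range (⌊x⌋₊ + 1)).filter (fun p => p.Prime ∧ p % 4 = 1)).card with hk
  set M : ℕ := ⌊Real.sqrt x / 3⌋₊ with hM
  have hs10 : (20 : ℝ) ≤ Real.sqrt x := by
    rw [show (20 : ℝ) = Real.sqrt 400 by
      rw [show (400 : ℝ) = 20 ^ 2 by norm_num, Real.sqrt_sq (by norm_num)]]
    exact Real.sqrt_le_sqrt hx100
  have hM1 : (M : ℝ) ≤ Real.sqrt x / 3 := Nat.floor_le (by positivity)
  have hM2 : Real.sqrt x / 4 ≤ (M : ℝ) := by
    have := Nat.lt_floor_add_one (Real.sqrt x / 3)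
    rw [← hM] at this
    linarith
  have hsq : Real.sqrt x ^ 2 = x := Real.sq_sqrt (by linarith)
  have hMx : ((4 * M ^ 2 + 1 : ℕ) : ℝ) ≤ x := by
    push_cast
    nlinarith [hM1, hs10, hsq, Nat.cast_nonneg (α := ℝ) M]
  have hSk : (modPrimes_P M).primeFactors.card ≤ k := by
    apply Finset.card_le_card
    intro p hp
    have hpp := Nat.prime_of_mem_primeFactors hp
    have hp4 := modPrimes_dvd_P hpp (Nat.dvd_of_mem_primeFactors hp)
    rw [Finset.mem_filter, Finset.mem_range]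
    refine ⟨?_, hpp, hp4.1⟩
    rw [Nat.lt_succ_iff]
    apply Nat.le_floor
    calc (p : ℝ) ≤ ((4 * M ^ 2 + 1 : ℕ) : ℝ) := by exact_mod_cast hp4.2
      _ ≤ x := hMx
  have hkey := modPrimes_key M
  have h1 : (4 : ℝ) ^ M ≤ x ^ (2 * k) := by
    calc (4 : ℝ) ^ M = ((4 ^ M : ℕ) : ℝ) := by push_cast; ring
      _ ≤ (((4 * M ^ 2 + 1) ^ (2 * (modPrimes_P M).primeFactors.card) : ℕ) : ℝ) := by
          exact_mod_cast hkey
      _ = ((4 * M ^ 2 + 1 : ℕ) : ℝ) ^ (2 * (modPrimes_P M).primeFactors.card) := by push_cast; ring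
      _ ≤ x ^ (2 * (modPrimes_P M).primeFactors.card) := by gcongr
      _ ≤ x ^ (2 * k) := by
          apply pow_le_pow_right₀ (by linarith)
          omega
  have h2 : (M : ℝ) * Real.log 4 ≤ (2 * k : ℝ) * Real.log x := by
    have := Real.log_le_log (by positivity) h1
    rw [Real.log_pow, Real.log_pow] at this
    push_cast at this
    exact this
  have hlog4 : Real.log 4 = 2 * Real.log 2 := by
    rw [show (4 : ℝ) = 2 ^ 2 by norm_num, Real.log_pow]
    norm_num
  have hlog2 : 0 < Real.log 2 := Real.log_pos (by norm_num)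
  have hlogxpos : 0 < Real.log x := Real.log_pos (by linarith)
  have h3 : (M : ℝ) * Real.log 2 ≤ (k : ℝ) * Real.log x := by
    rw [hlog4] at h2
    linarith
  -- `sqrt x = x^(1/4) * x^(1/4)`
  set y := x ^ (1 / 4 : ℝ) with hy
  have hy0 : 0 < y := Real.rpow_pos_of_pos (by linarith) _
  have hyy : y * y = Real.sqrt x := by
    rw [hy, ← Real.rpow_add (by linarith), Real.sqrt_eq_rpow]
    norm_num
  have h4 : y * Real.log x ≤ (k : ℝ) * Real.log x := by
    refine le_trans ?_ h3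
    calc y * Real.log x ≤ y * ((Real.log 2 / 4) * y) := by gcongr
      _ = (Real.sqrt x / 4) * Real.log 2 := by rw [← hyy]; ring
      _ ≤ (M : ℝ) * Real.log 2 := by
        gcongr
  exact le_of_mul_le_mul_right h4 hlogxpos
end Pool.Agent.H56
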