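import Pool.Agent.H56.ModDense
import Pool.Agent.H56.ModCond
set_option autoImplicit false
open MeasureTheory Complex
namespace Pool.Agent.H56

theorem modProd_Qpi_succ (k : ℤ) {v : K} (hv : v ∈ Qpi (k + 1)) : v ∈ Qpi k := by
  obtain ⟨a, s, hs, rfl⟩ := hv
  refine ⟨gpi * a, s, hs, ?_⟩
  rw [zpow_add_one₀ (c_ne_zero gpi_ne_zero), map_mul]
  ring

theorem modProd_mS_mono {S T : Set K} (h : S ⊆ T) : mS S ≤ mS T := by
  unfold mS
  exact iSup₂_le fun v hv => le_iSup₂_of_le v (h hv) le_rfl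

theorem modProd_pow_mem (k : ℤ) (j : ℕ) : (j : K) * c gpi ^ k ∈ Qpi k := by
  refine ⟨(j : GaussianInt), 1, not_gpi_dvd_one, ?_⟩
  simp [mul_comm]

theorem modProd_five_mem (k : ℤ) : (5 : K) * c gpi ^ k ∈ Qpi (k + 1) := by
  refine ⟨star gpi, 1, not_gpi_dvd_one, ?_⟩
  rw [zpow_add_one₀ (c_ne_zero gpi_ne_zero), ← c_gpi_mul, map_one]
  ring

theorem modProd_residue (g z : GaussianInt) (hg : ¬ gpi ∣ g) :
    ∃ (m : ℤ) (y : GaussianInt), z = gpi * y + (m : GaussianInt) * g := by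
  have h1 : ¬ (5 : ℤ) ∣ g.re - 2 * g.im := fun h => hg ((gpi_dvd_iff g).2 h)
  have hco : IsCoprime (g.re - 2 * g.im) (5 : ℤ) := by
    have h5 : Prime (5 : ℤ) := Int.prime_iff_natAbs_prime.2 (by norm_num)
    exact ((h5.coprime_iff_not_dvd).2 h1).symm
  obtain ⟨x, y, hxy⟩ := hco
  have h2 : gpi ∣ z - ((x * (z.re - 2 * z.im) : ℤ) : GaussianInt) * g := by
    rw [gpi_dvd_iff]
    refine ⟨y * (z.re - 2 * z.im), ?_⟩
    simp only [Zsqrtd.re_sub, Zsqrtd.im_sub, Zsqrtd.re_mul, Zsqrtd.im_mul, Zsqrtd.re_intCast,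
      Zsqrtd.im_intCast]
    linear_combination (z.re - 2 * z.im) * (-hxy)
  obtain ⟨w, hw⟩ := h2
  exact ⟨_, w, by rw [← hw]; ring⟩

theorem modProd_decomp (k : ℤ) {w : K} (hw : w ∈ Qpi k) :
    ∃ j0 : ℕ, j0 < 5 ∧ ∃ w' ∈ Qpi (k + 1), w = (j0 : K) * c gpi ^ k + w' := by
  obtain ⟨a, s, hs, rfl⟩ := hw
  obtain ⟨m, y, hmy⟩ := modProd_residue s a hs
  have hs0 : s ≠ 0 := by rintro rfl; exact hs (dvd_zero _)
  have hcs : c s ≠ 0 := c_ne_zero hs0
  have hm0 : 0 ≤ m % 5 := Int.emod_nonneg _ (by norm_num)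
  have hm5 : m % 5 < 5 := Int.emod_lt_of_pos _ (by norm_num)
  obtain ⟨j0, hj0⟩ := Int.eq_ofNat_of_zero_le hm0
  refine ⟨j0, by omega, _, ⟨y + star gpi * (m / 5 : ℤ) * s, s, hs, rfl⟩, ?_⟩
  have hm : (m : K) = (j0 : K) + 5 * ((m / 5 : ℤ) : K) := by
    have h1 : m = (j0 : ℤ) + 5 * (m / 5) := by omega
    have h2 : ((m : ℤ) : K) = (((j0 : ℤ) + 5 * (m / 5) : ℤ) : K) := by rw [← h1]
    rw [h2]
    push_cast
    ring
  rw [hmy, zpow_add_one₀ (c_ne_zero gpi_ne_zero)]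
  simp only [map_add, map_mul, map_intCast]
  rw [hm, ← c_gpi_mul]
  field_simp
  ring

theorem modProd_sum_shift (f : ℕ → ℂ) (j0 : ℕ) (hj0 : j0 < 5) :
    ∑ j ∈ Finset.range 5, f ((j + j0) % 5) = ∑ j ∈ Finset.range 5, f j := by
  interval_cases j0 <;> simp [Finset.sum_range_succ] <;> ring

/-- `Gk` only depends on the class of the point. -/
theorem modProd_Gk_shift (μ : Measure X) [IsFiniteMeasure μ] (hhom : ∀ᵐ χ ∂μ, χ ∈ Hm) (k : ℤ)
    (j j0 : ℕ) (hj : j < 5) (hj0 : j0 < 5) (w' : K) (hw' : w' ∈ Qpi (k + 1)) :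
    Gk μ (k + 1) ((j : K) * c gpi ^ k + ((j0 : K) * c gpi ^ k + w')) =ᵐ[μ]
      Gk μ (k + 1) ((((j + j0) % 5 : ℕ) : K) * c gpi ^ k) := by
  by_cases h : j + j0 < 5
  · have h1 : (j : K) * c gpi ^ k + ((j0 : K) * c gpi ^ k + w') =
        (((j + j0) % 5 : ℕ) : K) * c gpi ^ k + w' := by
      rw [Nat.mod_eq_of_lt h]
      push_cast
      ring
    rw [h1]
    exact Gk_add μ hhom _ _ _ hw'
  · have h1 : (j : K) * c gpi ^ k + ((j0 : K) * c gpi ^ k + w') =
        (((j + j0) % 5 : ℕ) : K) * c gpi ^ k + (5 * c gpi ^ k + w') := by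
      have h2 : (j + j0) % 5 = j + j0 - 5 := by omega
      have h3 : (j : K) + (j0 : K) = ((j + j0 - 5 : ℕ) : K) + 5 := by
        have : j + j0 = (j + j0 - 5) + 5 := by omega
        have h4 : ((j + j0 : ℕ) : K) = (((j + j0 - 5) + 5 : ℕ) : K) := by rw [← this]
        push_cast at h4
        exact h4
      rw [h2]
      linear_combination (c gpi ^ k) * h3
    rw [h1]
    exact Gk_add μ hhom _ _ _ (add_mem (modProd_five_mem k) hw')

/-- The defect of the product formula for one step. -/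
noncomputable def modProdPhi (μ : Measure X) (k : ℤ) (g : X → ℂ) (χ : X) : ℂ :=
  (1 / 5) * (∑ j ∈ Finset.range 5, (starRingEnd ℂ) (ev ((j : K) * c gpi ^ k) χ) *
    (μ[fun χ => ev ((j : K) * c gpi ^ k) χ * g χ | mS (Qpi (k + 1) : Set K)]) χ) -
    pk μ (k + 1) χ * g χ

theorem modProd_integrable_mul (μ : Measure X) [IsFiniteMeasure μ] (v : K) (g : X → ℂ)
    (hg : Integrable g μ) : Integrable (fun χ => ev v χ * g χ) μ := by
  refine hg.bdd_mul (c := 1) (stronglyMeasurable_ev v).aestronglyMeasurable ?_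
  exact Filter.Eventually.of_forall fun χ => by simp

theorem modProd_pk_norm (μ : Measure X) [IsFiniteMeasure μ] (k : ℤ) :
    ∀ᵐ χ ∂μ, ‖pk μ k χ‖ ≤ 1 := by
  have h : ∀ᵐ χ ∂μ, ∀ j : ℕ, ‖Gk μ k ((j : K) * c gpi ^ (k - 1)) χ‖ ≤ 1 :=
    ae_all_iff.2 fun j => norm_Gk_le μ k _
  filter_upwards [h] with χ hχ
  unfold pk
  rw [norm_mul]
  have h1 : ‖∑ j ∈ Finset.range 5, Gk μ k ((j : K) * c gpi ^ (k - 1)) χ‖ ≤ 5 := by
    refine (norm_sum_le _ _).trans ?_
    calc ∑ j ∈ Finset.range 5, ‖Gk μ k ((j : K) * c gpi ^ (k - 1)) χ‖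
        ≤ ∑ j ∈ Finset.range 5, (1 : ℝ) := Finset.sum_le_sum fun j _ => hχ j
      _ = 5 := by simp
  have h2 : ‖(1 / 5 : ℂ)‖ = 1 / 5 := by simp
  rw [h2]
  linarith

theorem modProd_Phi_norm (μ : Measure X) [IsFiniteMeasure μ] (k : ℤ) (g : X → ℂ) :
    ∀ᵐ χ ∂μ, ‖modProdPhi μ k g χ‖ ≤ (1 / 5) * (∑ j ∈ Finset.range 5,
      ‖(μ[fun χ => ev ((j : K) * c gpi ^ k) χ * g χ | mS (Qpi (k + 1) : Set K)]) χ‖) +
      ‖g χ‖ := by
  filter_upwards [modProd_pk_norm μ (k + 1)] with χ hχ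
  unfold modProdPhi
  refine (norm_sub_le _ _).trans (add_le_add ?_ ?_)
  · rw [norm_mul]
    have h2 : ‖(1 / 5 : ℂ)‖ = 1 / 5 := by simp
    rw [h2]
    refine mul_le_mul_of_nonneg_left ?_ (by norm_num)
    refine (norm_sum_le _ _).trans (Finset.sum_le_sum fun j _ => ?_)
    rw [norm_mul, RCLike.norm_conj, norm_ev, one_mul]
  · rw [norm_mul]
    calc ‖pk μ (k + 1) χ‖ * ‖g χ‖ ≤ 1 * ‖g χ‖ := mul_le_mul_of_nonneg_right hχ (norm_nonneg _)
      _ = ‖g χ‖ := one_mul _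

theorem modProd_Phi_integral (μ : Measure X) [IsFiniteMeasure μ] (k : ℤ) (g : X → ℂ)
    (hg : Integrable g μ) : ∫ χ, ‖modProdPhi μ k g χ‖ ∂μ ≤ 2 * ∫ χ, ‖g χ‖ ∂μ := by
  have h1 : ∫ χ, ‖modProdPhi μ k g χ‖ ∂μ ≤ ∫ χ, ((1 / 5) * (∑ j ∈ Finset.range 5,
      ‖(μ[fun χ => ev ((j : K) * c gpi ^ k) χ * g χ | mS (Qpi (k + 1) : Set K)]) χ‖) +
      ‖g χ‖) ∂μ := by
    refine integral_mono_of_nonneg (Filter.Eventually.of_forall fun χ => norm_nonneg _) ?_
      (modProd_Phi_norm μ k g)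
    refine Integrable.add ?_ hg.norm
    refine Integrable.const_mul ?_ _
    exact integrable_finsetSum _ fun j _ => integrable_condExp.norm
  refine h1.trans ?_
  rw [integral_add, integral_const_mul, integral_finsetSum]
  · have h2 : ∀ j ∈ Finset.range 5, ∫ χ, ‖(μ[fun χ => ev ((j : K) * c gpi ^ k) χ * g χ |
        mS (Qpi (k + 1) : Set K)]) χ‖ ∂μ ≤ ∫ χ, ‖g χ‖ ∂μ := by
      intro j _
      refine (integral_norm_condExp_le _).trans ?_
      refine le_of_eq (integral_congr_ae (Filter.Eventually.of_forall fun χ => ?_))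
      simp
    have h3 := Finset.sum_le_sum h2
    rw [Finset.sum_const, Finset.card_range, nsmul_eq_mul] at h3
    push_cast at h3
    linarith
  · exact fun j _ => integrable_condExp.norm
  · exact (integrable_finsetSum _ fun j _ => integrable_condExp.norm).const_mul _
  · exact hg.norm

theorem modProd_Phi_add (μ : Measure X) [IsFiniteMeasure μ] (k : ℤ) (g g' : X → ℂ)
    (hg : Integrable g μ) (hg' : Integrable g' μ) :
    modProdPhi μ k (fun χ => g χ + g' χ) =ᵐ[μ]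
      fun χ => modProdPhi μ k g χ + modProdPhi μ k g' χ := by
  have h : ∀ᵐ χ ∂μ, ∀ j : ℕ,
      (μ[fun χ => ev ((j : K) * c gpi ^ k) χ * (g χ + g' χ) | mS (Qpi (k + 1) : Set K)]) χ =
      (μ[fun χ => ev ((j : K) * c gpi ^ k) χ * g χ | mS (Qpi (k + 1) : Set K)]) χ +
      (μ[fun χ => ev ((j : K) * c gpi ^ k) χ * g' χ | mS (Qpi (k + 1) : Set K)]) χ := by
    refine ae_all_iff.2 fun j => ?_
    have h1 := condExp_add (modProd_integrable_mul μ ((j : K) * c gpi ^ k) g hg)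
      (modProd_integrable_mul μ ((j : K) * c gpi ^ k) g' hg') (mS (Qpi (k + 1) : Set K))
    have h2 : (fun χ => ev ((j : K) * c gpi ^ k) χ * (g χ + g' χ)) =
        (fun χ => ev ((j : K) * c gpi ^ k) χ * g χ) +
        (fun χ => ev ((j : K) * c gpi ^ k) χ * g' χ) := by
      funext χ
      simp [mul_add]
    rw [h2]
    filter_upwards [h1] with χ hχ
    rw [hχ]
    rfl
  filter_upwards [h] with χ hχ
  unfold modProdPhi
  simp only [hχ]
  simp only [mul_add, Finset.sum_add_distrib]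
  ring

theorem modProd_Phi_smul (μ : Measure X) [IsFiniteMeasure μ] (k : ℤ) (a : ℂ) (g : X → ℂ) :
    modProdPhi μ k (fun χ => a * g χ) =ᵐ[μ] fun χ => a * modProdPhi μ k g χ := by
  have h : ∀ᵐ χ ∂μ, ∀ j : ℕ,
      (μ[fun χ => ev ((j : K) * c gpi ^ k) χ * (a * g χ) | mS (Qpi (k + 1) : Set K)]) χ =
      a * (μ[fun χ => ev ((j : K) * c gpi ^ k) χ * g χ | mS (Qpi (k + 1) : Set K)]) χ := by
    refine ae_all_iff.2 fun j => ?_
    have h1 := condExp_smul (μ := μ) a (fun χ => ev ((j : K) * c gpi ^ k) χ * g χ)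
      (mS (Qpi (k + 1) : Set K))
    have h2 : (fun χ => ev ((j : K) * c gpi ^ k) χ * (a * g χ)) =
        a • (fun χ => ev ((j : K) * c gpi ^ k) χ * g χ) := by
      funext χ
      simp only [Pi.smul_apply, smul_eq_mul]
      ring
    rw [h2]
    filter_upwards [h1] with χ hχ
    rw [hχ]
    rfl
  filter_upwards [h] with χ hχ
  unfold modProdPhi
  simp only [hχ]
  rw [Finset.mul_sum, mul_sub, Finset.mul_sum, Finset.mul_sum]
  congr 1
  · refine Finset.sum_congr rfl fun j _ => ?_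
    ring
  · ring

theorem modProd_Phi_ev (μ : Measure X) [IsFiniteMeasure μ] (hhom : ∀ᵐ χ ∂μ, χ ∈ Hm) (k : ℤ)
    (w : K) (hw : w ∈ Qpi k) : modProdPhi μ k (ev w) =ᵐ[μ] 0 := by
  obtain ⟨j0, hj0, w', hw', hdec⟩ := modProd_decomp k hw
  have h1 : ∀ᵐ χ ∂μ, ∀ j : ℕ,
      (μ[fun χ => ev ((j : K) * c gpi ^ k) χ * ev w χ | mS (Qpi (k + 1) : Set K)]) χ =
      (μ[ev ((j : K) * c gpi ^ k + w) | mS (Qpi (k + 1) : Set K)]) χ := by
    refine ae_all_iff.2 fun j => ?_
    refine condExp_congr_ae ?_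
    filter_upwards [hhom] with χ hχ
    rw [ev_add hχ]
  have h2 : ∀ᵐ χ ∂μ, ∀ j : ℕ, j < 5 → Gk μ (k + 1) ((j : K) * c gpi ^ k + w) χ =
      Gk μ (k + 1) ((((j + j0) % 5 : ℕ) : K) * c gpi ^ k) χ := by
    refine ae_all_iff.2 fun j => ?_
    by_cases hj : j < 5
    · have h3 := modProd_Gk_shift μ hhom k j j0 hj hj0 w' hw'
      rw [← hdec] at h3
      filter_upwards [h3] with χ hχ _ using hχ
    · exact Filter.Eventually.of_forall fun χ h => absurd h hj
  filter_upwards [h1, h2, hhom] with χ h1 h2 h3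
  unfold modProdPhi
  have h4 : ∀ j ∈ Finset.range 5, (starRingEnd ℂ) (ev ((j : K) * c gpi ^ k) χ) *
      (μ[fun χ => ev ((j : K) * c gpi ^ k) χ * ev w χ | mS (Qpi (k + 1) : Set K)]) χ =
      Gk μ (k + 1) ((((j + j0) % 5 : ℕ) : K) * c gpi ^ k) χ * ev w χ := by
    intro j hj
    rw [h1 j, ← h2 j (Finset.mem_range.1 hj)]
    unfold Gk
    rw [ev_add h3, map_mul]
    have h5 := ev_mul_conj w χ
    linear_combination (-(starRingEnd ℂ) (ev ((j : K) * c gpi ^ k) χ) *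
      (μ[ev ((j : K) * c gpi ^ k + w) | mS (Qpi (k + 1) : Set K)]) χ) * h5
  rw [Finset.sum_congr rfl h4, ← Finset.sum_mul,
    modProd_sum_shift (fun i => Gk μ (k + 1) ((i : K) * c gpi ^ k) χ) j0 hj0]
  unfold pk
  rw [add_sub_cancel_right]
  simp only [Pi.zero_apply]
  ring

theorem modProd_Phi_trig (μ : Measure X) [IsFiniteMeasure μ] (hhom : ∀ᵐ χ ∂μ, χ ∈ Hm) (k : ℤ)
    (W : Finset K) (a : K → ℂ) (hW : ∀ w ∈ W, w ∈ Qpi k) :
    modProdPhi μ k (fun χ => ∑ w ∈ W, a w * ev w χ) =ᵐ[μ] 0 := by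
  classical
  induction W using Finset.induction_on with
  | empty =>
    have h1 := modProd_Phi_smul μ k 0 (fun _ => (0 : ℂ))
    simp only [Finset.sum_empty]
    simp only [zero_mul] at h1
    exact h1
  | insert w W hw ih =>
    have h1 := ih fun w' hw' => hW w' (Finset.mem_insert_of_mem hw')
    have h2 := modProd_Phi_ev μ hhom k w (hW w (Finset.mem_insert_self _ _))
    have h3 := modProd_Phi_smul μ k (a w) (ev w)
    have h4 := modProd_Phi_add μ k (fun χ => a w * ev w χ) (fun χ => ∑ w ∈ W, a w * ev w χ)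
      ((integrable_ev μ w).const_mul _)
      (integrable_finsetSum _ fun w _ => (integrable_ev μ w).const_mul _)
    simp only [Finset.sum_insert hw]
    filter_upwards [h1, h2, h3, h4] with χ h1 h2 h3 h4
    rw [h4, h1, h3, h2]
    simp

theorem modProd_Phi_eq_zero (μ : Measure X) [IsFiniteMeasure μ] (hhom : ∀ᵐ χ ∂μ, χ ∈ Hm)
    (k : ℤ) (g : X → ℂ) (hg : StronglyMeasurable[mS (Qpi k : Set K)] g) (hg2 : MemLp g 2 μ) :
    modProdPhi μ k g =ᵐ[μ] 0 := by
  have hgi : Integrable g μ := hg2.integrable (by norm_num)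
  have hPhi_int : ∀ f : X → ℂ, Integrable f μ → Integrable (modProdPhi μ k f) μ := by
    intro f hf
    have hmeas : AEStronglyMeasurable (modProdPhi μ k f) μ := by
      unfold modProdPhi
      refine AEStronglyMeasurable.sub ?_ ?_
      · refine AEStronglyMeasurable.const_mul ?_ _
        refine Finset.aestronglyMeasurable_fun_sum _ fun j _ => ?_
        refine AEStronglyMeasurable.mul ?_ integrable_condExp.aestronglyMeasurable
        exact (Complex.continuous_conj.comp (continuous_ev _)).aestronglyMeasurable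
      · refine AEStronglyMeasurable.mul ?_ hf.aestronglyMeasurable
        unfold pk
        refine AEStronglyMeasurable.const_mul ?_ _
        exact Finset.aestronglyMeasurable_fun_sum _ fun j _ =>
          (integrable_Gk μ _ _).aestronglyMeasurable
    refine Integrable.mono' (g := fun χ => (1 / 5) * (∑ j ∈ Finset.range 5,
      ‖(μ[fun χ => ev ((j : K) * c gpi ^ k) χ * f χ | mS (Qpi (k + 1) : Set K)]) χ‖) +
      ‖f χ‖) ?_ hmeas (modProd_Phi_norm μ k f)
    exact ((integrable_finsetSum _ fun j _ => integrable_condExp.norm).const_mul _).add hf.norm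
  have hzero : ∫ χ, ‖modProdPhi μ k g χ‖ ∂μ ≤ 0 := by
    refine le_of_forall_pos_le_add fun δ hδ => ?_
    rw [zero_add]
    set M : ℝ := μ.real Set.univ with hM
    have hM0 : 0 ≤ M := measureReal_nonneg
    obtain ⟨W, a, hW, hWa⟩ := exists_trig_approx μ hhom (Qpi k) g hg hg2
      (δ ^ 2 / (4 * (M + 1))) (by positivity)
    set P : X → ℂ := fun χ => ∑ w ∈ W, a w * ev w χ with hP
    have hPi : Integrable P μ :=
      integrable_finsetSum _ fun w _ => (integrable_ev μ w).const_mul _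
    have hPb : MemLp P 2 μ := by
      refine MemLp.of_bound hPi.aestronglyMeasurable (∑ w ∈ W, ‖a w‖) ?_
      refine Filter.Eventually.of_forall fun χ => ?_
      refine (norm_sum_le _ _).trans (Finset.sum_le_sum fun w _ => ?_)
      rw [norm_mul, norm_ev, mul_one]
    have hdi : Integrable (fun χ => g χ - P χ) μ := hgi.sub hPi
    have h1 := modProd_Phi_trig μ hhom k W a hW
    have h2 := modProd_Phi_add μ k (fun χ => g χ - P χ) P hdi hPi
    have h3 : ∫ χ, ‖modProdPhi μ k g χ‖ ∂μ = ∫ χ, ‖modProdPhi μ k (fun χ => g χ - P χ) χ‖ ∂μ := by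
      refine integral_congr_ae ?_
      simp only [sub_add_cancel] at h2
      filter_upwards [h1, h2] with χ h1 h2
      have h2' : modProdPhi μ k g χ = modProdPhi μ k (fun χ => g χ - P χ) χ +
          modProdPhi μ k P χ := h2
      have h1' : modProdPhi μ k P χ = 0 := h1
      rw [h2', h1', add_zero]
    rw [h3]
    refine (modProd_Phi_integral μ k _ hdi).trans ?_
    -- Cauchy-Schwarz
    have h4 : (∫ χ, ‖g χ - P χ‖ ∂μ) ^ 2 ≤ M * ∫ χ, ‖g χ - P χ‖ ^ 2 ∂μ := by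
      have hd2 : MemLp (fun χ => g χ - P χ) 2 μ := hg2.sub hPb
      have hn2 : Integrable (fun χ => ‖g χ - P χ‖ ^ 2) μ := by
        have := hd2.integrable_norm_pow (by norm_num)
        simpa using this
      -- 0 ≤ ∫ (‖d‖ - t)² for t = the mean
      by_cases hM' : M = 0
      · have hμ0 : μ = 0 := by
          have : μ Set.univ = 0 := by
            have := (measureReal_eq_zero_iff (by finiteness)).1 (hM ▸ hM')
            exact this
          exact Measure.measure_univ_eq_zero.1 this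
        rw [hM', hμ0]; simp
      · have hMp : 0 < M := lt_of_le_of_ne hM0 (Ne.symm hM')
        set I1 := ∫ χ, ‖g χ - P χ‖ ∂μ with hI1
        set I2 := ∫ χ, ‖g χ - P χ‖ ^ 2 ∂μ with hI2
        have h5 : 0 ≤ ∫ χ, (‖g χ - P χ‖ - I1 / M) ^ 2 ∂μ :=
          integral_nonneg fun χ => sq_nonneg _
        have h6 : ∫ χ, (‖g χ - P χ‖ - I1 / M) ^ 2 ∂μ =
            I2 - 2 * (I1 / M) * I1 + (I1 / M) ^ 2 * M := by
          have h7 : ∀ χ, (‖g χ - P χ‖ - I1 / M) ^ 2 =
              ‖g χ - P χ‖ ^ 2 - 2 * (I1 / M) * ‖g χ - P χ‖ + (I1 / M) ^ 2 := by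
            intro χ; ring
          simp_rw [h7]
          rw [integral_add, integral_sub, integral_const_mul, integral_const, smul_eq_mul,
            ← hI1, ← hI2, ← hM]
          · ring
          · exact hn2
          · exact hdi.norm.const_mul _
          · exact hn2.sub (hdi.norm.const_mul _)
          · exact integrable_const _
        rw [h6] at h5
        have h8 : I2 - 2 * (I1 / M) * I1 + (I1 / M) ^ 2 * M = (M * I2 - I1 ^ 2) / M := by
          field_simp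
          ring
        rw [h8] at h5
        have h9 : 0 ≤ M * I2 - I1 ^ 2 := by
          by_contra hneg
          push Not at hneg
          exact absurd h5 (not_le.2 (div_neg_of_neg_of_pos hneg hMp))
        linarith
    have h5 : (2 * ∫ χ, ‖g χ - P χ‖ ∂μ) ^ 2 ≤ δ ^ 2 := by
      have h6 : M * (δ ^ 2 / (4 * (M + 1))) ≤ δ ^ 2 / 4 := by
        have h7 : M * (δ ^ 2 / (4 * (M + 1))) = δ ^ 2 / 4 * (M / (M + 1)) := by
          field_simp
        rw [h7]
        have h8 : M / (M + 1) ≤ 1 := by rw [div_le_one (by positivity)]; linarith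
        nlinarith [sq_nonneg δ]
      have h7 : M * ∫ χ, ‖g χ - P χ‖ ^ 2 ∂μ ≤ M * (δ ^ 2 / (4 * (M + 1))) :=
        mul_le_mul_of_nonneg_left hWa hM0
      nlinarith
    have h6 : 0 ≤ 2 * ∫ χ, ‖g χ - P χ‖ ∂μ := by
      have : 0 ≤ ∫ χ, ‖g χ - P χ‖ ∂μ := integral_nonneg fun χ => norm_nonneg _
      linarith
    exact (sq_le_sq₀ h6 hδ.le).1 h5
  have h1 : ∫ χ, ‖modProdPhi μ k g χ‖ ∂μ = 0 :=
    le_antisymm hzero (integral_nonneg fun χ => norm_nonneg _)
  have h2 := (integral_eq_zero_iff_of_nonneg (fun χ => norm_nonneg _) (hPhi_int g hgi).norm).1 h1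
  filter_upwards [h2] with χ hχ
  simpa using hχ

theorem modProd_step (μ : Measure X) [IsFiniteMeasure μ] (hhom : ∀ᵐ χ ∂μ, χ ∈ Hm) (k : ℤ)
    (v : K) : ∀ᵐ χ ∂μ, pk μ (k + 1) χ * Gk μ k v χ =
      (1 / 5) * ∑ j ∈ Finset.range 5, Gk μ (k + 1) ((j : K) * c gpi ^ k + v) χ := by
  have hg : StronglyMeasurable[mS (Qpi k : Set K)] (μ[ev v | mS (Qpi k : Set K)]) :=
    stronglyMeasurable_condExp
  have hg2 : MemLp (μ[ev v | mS (Qpi k : Set K)]) 2 μ :=
    MemLp.of_bound integrable_condExp.aestronglyMeasurable 1 (norm_condExp_ev_le μ _ v)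
  have h0 := modProd_Phi_eq_zero μ hhom k _ hg hg2
  have h1 : ∀ᵐ χ ∂μ, ∀ j : ℕ,
      (μ[fun χ => ev ((j : K) * c gpi ^ k) χ * (μ[ev v | mS (Qpi k : Set K)]) χ |
        mS (Qpi (k + 1) : Set K)]) χ =
      (μ[ev ((j : K) * c gpi ^ k + v) | mS (Qpi (k + 1) : Set K)]) χ := by
    refine ae_all_iff.2 fun j => ?_
    have h2 := condExp_ev_add μ hhom (Qpi k : Set K) v ((j : K) * c gpi ^ k)
      (modProd_pow_mem k j)
    have h3 : μ[fun χ => ev ((j : K) * c gpi ^ k) χ * (μ[ev v | mS (Qpi k : Set K)]) χ |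
        mS (Qpi (k + 1) : Set K)] =ᵐ[μ]
        μ[μ[ev (v + (j : K) * c gpi ^ k) | mS (Qpi k : Set K)] | mS (Qpi (k + 1) : Set K)] :=
      condExp_congr_ae h2.symm
    have h4 : μ[μ[ev (v + (j : K) * c gpi ^ k) | mS (Qpi k : Set K)] |
        mS (Qpi (k + 1) : Set K)] =ᵐ[μ]
        μ[ev (v + (j : K) * c gpi ^ k) | mS (Qpi (k + 1) : Set K)] :=
      condExp_condExp_of_le (modProd_mS_mono fun v hv => modProd_Qpi_succ k hv) (mS_le _)
    rw [add_comm ((j : K) * c gpi ^ k) v]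
    exact h3.trans h4
  filter_upwards [h0, h1, hhom] with χ h0 h1 hχ
  unfold modProdPhi at h0
  simp only [h1, Pi.zero_apply] at h0
  have h5 : pk μ (k + 1) χ * (μ[ev v | mS (Qpi k : Set K)]) χ =
      (1 / 5) * ∑ j ∈ Finset.range 5, (starRingEnd ℂ) (ev ((j : K) * c gpi ^ k) χ) *
      (μ[ev ((j : K) * c gpi ^ k + v) | mS (Qpi (k + 1) : Set K)]) χ :=
    (sub_eq_zero.1 h0).symm
  unfold Gk
  calc pk μ (k + 1) χ * ((starRingEnd ℂ) (ev v χ) * (μ[ev v | mS (Qpi k : Set K)]) χ)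
      = (starRingEnd ℂ) (ev v χ) * (pk μ (k + 1) χ * (μ[ev v | mS (Qpi k : Set K)]) χ) := by ring
    _ = _ := by
      rw [h5, Finset.mul_sum, Finset.mul_sum, Finset.mul_sum]
      refine Finset.sum_congr rfl fun j _ => ?_
      rw [ev_add hχ, map_mul]
      ring

theorem modProd_digit_cons (k : ℤ) {m : ℕ} (j : Fin 5) (d : Fin m → Fin 5) :
    digit (k + 1) (Fin.cons j d : Fin (m + 1) → Fin 5) =
      ((j : ℕ) : K) * c gpi ^ k + digit k d := by
  unfold digit
  rw [Fin.sum_univ_succ]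
  congr 1
  · simp
  · refine Finset.sum_congr rfl fun i _ => ?_
    simp only [Fin.cons_succ, Fin.val_succ]
    congr 2
    push_cast
    ring

theorem prod_pk (μ : Measure X) [IsFiniteMeasure μ] (hhom : ∀ᵐ χ ∂μ, χ ∈ Hm) (k : ℤ) (m : ℕ) :
    (fun χ => ∏ i ∈ Finset.range m, pk μ (k - i) χ) =ᵐ[μ]
      fun χ => (1 / 5) ^ m * ∑ d : Fin m → Fin 5, Gk μ k (digit k d) χ := by
  induction m generalizing k with
  | zero =>
    have h1 : μ[ev 0 | mS (Qpi k : Set K)] =ᵐ[μ] fun _ => (1 : ℂ) := by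
      have h2 : ev 0 =ᵐ[μ] fun _ => (1 : ℂ) := by
        filter_upwards [hhom] with χ hχ
        exact ev_zero hχ
      refine (condExp_congr_ae h2).trans ?_
      rw [condExp_const (mS_le _)]
    filter_upwards [h1, hhom] with χ h1 hχ
    have h2 : ∀ d : Fin 0 → Fin 5, digit k d = 0 := by
      intro d
      simp [digit]
    simp only [Finset.range_zero, Finset.prod_empty, pow_zero, one_mul, h2]
    rw [Finset.univ_unique, Finset.sum_singleton]
    unfold Gk
    rw [h1, ev_zero hχ]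
    simp
  | succ m ih =>
    obtain ⟨k, rfl⟩ : ∃ k' : ℤ, k = k' + 1 := ⟨k - 1, by ring⟩
    have h1 := ih k
    have h2 : ∀ᵐ χ ∂μ, ∀ d : Fin m → Fin 5, pk μ (k + 1) χ * Gk μ k (digit k d) χ =
        (1 / 5) * ∑ j ∈ Finset.range 5, Gk μ (k + 1) ((j : K) * c gpi ^ k + digit k d) χ :=
      ae_all_iff.2 fun d => modProd_step μ hhom k (digit k d)
    filter_upwards [h1, h2] with χ h1 h2
    rw [Finset.prod_range_succ']
    have h3 : ∀ i ∈ Finset.range m, pk μ (k + 1 - ((i + 1 : ℕ) : ℤ)) χ = pk μ (k - i) χ := by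
      intro i _
      congr 1
      push_cast
      ring
    rw [Finset.prod_congr rfl h3]
    have h1' : ∏ i ∈ Finset.range m, pk μ (k - i) χ =
      (1 / 5) ^ m * ∑ d : Fin m → Fin 5, Gk μ k (digit k d) χ := h1
    rw [h1']
    have h4 : (k + 1 - ((0 : ℕ) : ℤ)) = k + 1 := by simp
    rw [h4]
    have h5 : ∑ d : Fin (m + 1) → Fin 5, Gk μ (k + 1) (digit (k + 1) d) χ =
        ∑ d : Fin m → Fin 5, ∑ j ∈ Finset.range 5,
          Gk μ (k + 1) ((j : K) * c gpi ^ k + digit k d) χ := by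
      rw [← (Fin.consEquiv (fun _ : Fin (m + 1) => Fin 5)).sum_comp]
      rw [Fintype.sum_prod_type, Finset.sum_comm]
      refine Finset.sum_congr rfl fun d _ => ?_
      rw [Finset.sum_range]
      refine Finset.sum_congr rfl fun j _ => ?_
      have h6 : (Fin.consEquiv (fun _ : Fin (m + 1) => Fin 5)) (j, d) =
        (Fin.cons j d : Fin (m + 1) → Fin 5) := rfl
      rw [h6, modProd_digit_cons]
    rw [h5, pow_succ, mul_assoc, mul_assoc, Finset.sum_mul, Finset.mul_sum (s := Finset.univ)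
      (a := (1 / 5 : ℂ))]
    congr 1
    refine Finset.sum_congr rfl fun d _ => ?_
    rw [← h2 d, mul_comm]

end Pool.Agent.H56
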