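import Pool.Agent.H56.ModStr
set_option autoImplicit false
open MeasureTheory Complex
namespace Pool.Agent.H56

theorem modSqrt_mem_Qi (p q : ℚ) : (p : K) + (q : K) * iK ∈ Qi := by
  refine ⟨⟨p.num * q.den, q.num * p.den⟩, p.den * q.den, Nat.mul_pos p.pos q.pos, ?_⟩
  rw [c_apply]
  have hp : (p.den : K) ≠ 0 := by exact_mod_cast p.den_ne_zero
  have hq : (q.den : K) ≠ 0 := by exact_mod_cast q.den_ne_zero
  have hp' : (p : K) = (p.num : K) / (p.den : K) := Rat.cast_def p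
  have hq' : (q : K) = (q.num : K) / (q.den : K) := Rat.cast_def q
  rw [hp', hq']
  push_cast
  field_simp

theorem modSqrt_iK_sq : iK ^ 2 = (-1 : K) := by
  rw [sq, iK_mul_iK]
  norm_num

/-- The unit `(1 + i m r) / (1 - i m r)`. -/
noncomputable def modSqrt_u (r : K) (m : ℕ) : K := (1 + iK * (m : K) * r) / (1 - iK * (m : K) * r)

theorem modSqrt_den_ne {d : ℚ} (hd : 0 < d) {r : K} (hr2 : r ^ 2 = (d : K)) (m : ℕ) :
    1 - iK * (m : K) * r ≠ 0 ∧ 1 + iK * (m : K) * r ≠ 0 := by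
  have h : (1 - iK * (m : K) * r) * (1 + iK * (m : K) * r) = ((1 + (m : ℚ) ^ 2 * d : ℚ) : K) := by
    push_cast
    have h1 := modSqrt_iK_sq
    linear_combination (-(m : K) ^ 2 * r ^ 2) * h1 + (m : K) ^ 2 * hr2
  have hpos : (1 + (m : ℚ) ^ 2 * d : ℚ) ≠ 0 := by positivity
  have h2 : ((1 + (m : ℚ) ^ 2 * d : ℚ) : K) ≠ 0 := by exact_mod_cast hpos
  rw [← h] at h2
  exact ⟨left_ne_zero_of_mul h2, right_ne_zero_of_mul h2⟩

theorem modSqrt_norm_u {d : ℚ} (hd : 0 < d) {r : K} (hr : (r : ℂ) = (Real.sqrt d : ℝ))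
    (hr2 : r ^ 2 = (d : K)) (m : ℕ) : ‖((modSqrt_u r m : K) : ℂ)‖ = 1 := by
  have h1 : ((modSqrt_u r m : K) : ℂ) =
      (1 + Complex.I * (m : ℂ) * (r : ℂ)) / (1 - Complex.I * (m : ℂ) * (r : ℂ)) := by
    unfold modSqrt_u
    push_cast
    simp [coe_iK]
  have h2 : (1 - Complex.I * (m : ℂ) * (r : ℂ)) =
      (starRingEnd ℂ) (1 + Complex.I * (m : ℂ) * (r : ℂ)) := by
    rw [hr]
    simp
    ring
  have h3 : (1 - Complex.I * (m : ℂ) * (r : ℂ)) ≠ 0 := by
    have := coe_ne_zero (modSqrt_den_ne hd hr2 m).1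
    intro h
    apply this
    rw [← h]
    simp [coe_iK]
  rw [h1, norm_div]
  have h4 : ‖(1 - Complex.I * (m : ℂ) * (r : ℂ))‖ = ‖(1 + Complex.I * (m : ℂ) * (r : ℂ))‖ := by
    rw [h2, RCLike.norm_conj]
  rw [← h4, div_self (norm_ne_zero_iff.2 h3)]

theorem modSqrt_decomp {d : ℚ} (hd : 0 < d) {r : K} (hr2 : r ^ 2 = (d : K)) {m m' : ℕ}
    (hm : m ≠ m') : ∃ α ∈ Qi, ∃ β ∈ Qi,
      modSqrt_u r m * r = α * modSqrt_u r m + β * modSqrt_u r m' := by
  -- rational data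
  set A : ℚ := 1 + m * m' * d with hA
  set B : ℚ := (m' : ℚ) - m with hB
  set N : ℚ := (1 + (m' : ℚ) ^ 2 * d) * (1 + (m : ℚ) ^ 2 * d) with hN
  have hA0 : A ≠ 0 := by positivity
  have hB0 : B ≠ 0 := by
    rw [hB, sub_ne_zero]
    exact_mod_cast hm.symm
  have hN0 : N ≠ 0 := by positivity
  set x : ℚ := (A ^ 2 - B ^ 2 * d) / N with hx
  set y : ℚ := 2 * A * B / N with hy
  have hy0 : y ≠ 0 := by
    rw [hy]
    positivity
  refine ⟨((0 : ℚ) : K) + ((x / y : ℚ) : K) * iK, modSqrt_mem_Qi _ _,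
    ((0 : ℚ) : K) + ((-1 / y : ℚ) : K) * iK, modSqrt_mem_Qi _ _, ?_⟩
  obtain ⟨h1, h2⟩ := modSqrt_den_ne hd hr2 m
  obtain ⟨h1', h2'⟩ := modSqrt_den_ne hd hr2 m'
  have hyK : (y : K) ≠ 0 := by exact_mod_cast hy0
  have hNK : (N : K) ≠ 0 := by exact_mod_cast hN0
  have hi := modSqrt_iK_sq
  -- `u_{m'} = (x + i y r) u_m`
  have key : modSqrt_u r m' = ((x : K) + iK * (y : K) * r) * modSqrt_u r m := by
    have hxK : (x : K) * (N : K) = (A : K) ^ 2 - (B : K) ^ 2 * (d : K) := by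
      rw [hx]
      push_cast
      field_simp
    have hyK' : (y : K) * (N : K) = 2 * (A : K) * (B : K) := by
      rw [hy]
      push_cast
      field_simp
    have hAK : (A : K) = 1 + (m : K) * (m' : K) * (d : K) := by
      rw [hA]
      push_cast
      ring
    have hBK : (B : K) = (m' : K) - (m : K) := by
      rw [hB]
      push_cast
      ring
    have hNK' : (N : K) = (1 + (m' : K) ^ 2 * (d : K)) * (1 + (m : K) ^ 2 * (d : K)) := by
      rw [hN]
      push_cast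
      ring
    have hN1 : (N : K) = ((1 - iK * (m' : K) * r) * (1 + iK * (m' : K) * r)) *
        ((1 - iK * (m : K) * r) * (1 + iK * (m : K) * r)) := by
      rw [hNK']
      have e1 : (1 - iK * (m' : K) * r) * (1 + iK * (m' : K) * r) = 1 + (m' : K) ^ 2 * (d : K) := by
        linear_combination (-(m' : K) ^ 2 * r ^ 2) * hi + (m' : K) ^ 2 * hr2
      have e2 : (1 - iK * (m : K) * r) * (1 + iK * (m : K) * r) = 1 + (m : K) ^ 2 * (d : K) := by
        linear_combination (-(m : K) ^ 2 * r ^ 2) * hi + (m : K) ^ 2 * hr2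
      rw [e1, e2]
    have hAB : (A : K) + iK * (B : K) * r = (1 + iK * (m' : K) * r) * (1 - iK * (m : K) * r) := by
      rw [hAK, hBK]
      linear_combination ((m : K) * (m' : K) * r ^ 2) * hi - ((m : K) * (m' : K)) * hr2
    have hsq : ((x : K) + iK * (y : K) * r) * (N : K) =
        ((1 + iK * (m' : K) * r) * (1 - iK * (m : K) * r)) ^ 2 := by
      rw [← hAB]
      linear_combination hxK + (iK * r) * hyK' - ((B : K) ^ 2 * r ^ 2) * hi + ((B : K) ^ 2) * hr2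
    have hw : (x : K) + iK * (y : K) * r =
        ((1 + iK * (m' : K) * r) * (1 - iK * (m : K) * r)) ^ 2 / (N : K) := by
      rw [eq_div_iff hNK]
      exact hsq
    rw [hw, hN1]
    unfold modSqrt_u
    have h1c : 1 - iK * r * (m : K) ≠ 0 := by
      rw [show iK * r * (m : K) = iK * (m : K) * r by ring]
      exact h1
    have h2c : 1 + iK * r * (m : K) ≠ 0 := by
      rw [show iK * r * (m : K) = iK * (m : K) * r by ring]
      exact h2
    field_simp
  rw [key]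
  push_cast
  field_simp
  linear_combination ((y : K) * r * modSqrt_u r m) * hi

/-- almost every structured character is also structured on `√d ℚ(i)` -/
theorem null_sqrt (μ : Measure X) [IsFiniteMeasure μ] (hinv : InvK μ)
    (hhom : ∀ᵐ χ ∂μ, χ ∈ Hm) (d : ℚ) (hd : 0 < d) (r : K) (hr : (r : ℂ) = (Real.sqrt d : ℝ)) :
    μ {χ | χ ∈ Str ∧ rho r χ ∉ Str} = 0 := by
  have hr2 : r ^ 2 = (d : K) := by
    apply Subtype.ext
    push_cast
    rw [hr]
    rw [← Complex.ofReal_pow, Real.sq_sqrt (by exact_mod_cast hd.le)]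
    simp
  set D : Set X := {χ | χ ∈ Str ∧ rho r χ ∉ Str} with hD
  have hDm : MeasurableSet D :=
    measurableSet_Str.inter ((measurable_rho r) measurableSet_Str).compl
  by_contra h0
  have hmeas : ∀ m : ℕ, μ (rho (modSqrt_u r m) ⁻¹' D) = μ D := fun m =>
    hinv.measure_preimage (modSqrt_norm_u hd hr hr2 m) hDm
  have hdisj : Pairwise (Function.onFun (AEDisjoint μ) fun m : ℕ => rho (modSqrt_u r m) ⁻¹' D) := by
    intro m m' hmm
    have hsub : (rho (modSqrt_u r m) ⁻¹' D) ∩ (rho (modSqrt_u r m') ⁻¹' D) ⊆ {χ | ¬ χ ∈ Hm} := by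
      rintro χ ⟨h1, h2⟩ hχ
      obtain ⟨h1a, h1b⟩ := h1
      obtain ⟨h2a, -⟩ := h2
      apply h1b
      obtain ⟨α, hα, β, hβ, heq⟩ := modSqrt_decomp hd hr2 hmm
      rw [rho_rho, heq]
      exact str_rho_add hχ (str_rho_mul hχ hα h1a) (str_rho_mul hχ hβ h2a)
    exact measure_mono_null hsub (ae_iff.1 hhom)
  have hU : μ (⋃ m : ℕ, rho (modSqrt_u r m) ⁻¹' D) = ∑' m : ℕ, μ (rho (modSqrt_u r m) ⁻¹' D) :=
    measure_iUnion₀ hdisj fun m => ((measurable_rho _) hDm).nullMeasurableSet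
  have htop : μ (⋃ m : ℕ, rho (modSqrt_u r m) ⁻¹' D) = ⊤ := by
    rw [hU]
    simp only [hmeas]
    exact ENNReal.tsum_const_eq_top_of_ne_zero h0
  exact measure_ne_top μ _ htop
end Pool.Agent.H56
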