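import Pool.Agent.H56.Basic
set_option autoImplicit false
open MeasureTheory Complex
namespace Pool.Agent.H56

theorem modStep_un_star_gpi : un (star gpi) = c (star gpi) / c gpi := by
  unfold un
  rw [star_star]

/-- A fifth root of unity close to `1` is `1`. -/
theorem modStep_fifth (z : ℂ) (hz : ‖z‖ = 1) (h5 : z ^ 5 = 1) (h : ‖z - 1‖ ≤ 3 / 4) : z = 1 := by
  by_contra hne
  have h1 : z - 1 ≠ 0 := sub_ne_zero.2 hne
  have h2 : (z - 1) * (z ^ 4 + z ^ 3 + z ^ 2 + z + 1) = 0 := by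
    have : (z - 1) * (z ^ 4 + z ^ 3 + z ^ 2 + z + 1) = z ^ 5 - 1 := by ring
    rw [this, h5, sub_self]
  have h3 : z ^ 4 + z ^ 3 + z ^ 2 + z + 1 = 0 := (mul_eq_zero.1 h2).resolve_left h1
  -- z⁴ = conj z, so |z⁴ - 1| = |z - 1|
  have h4 : z ^ 4 - 1 = -(z ^ 4) * (z - 1) := by
    have : -(z ^ 4) * (z - 1) = z ^ 4 - z ^ 5 := by ring
    rw [this, h5]
  have h6 : z ^ 3 - 1 = -(z ^ 3) * (z ^ 2 - 1) := by
    have : -(z ^ 3) * (z ^ 2 - 1) = z ^ 3 - z ^ 5 := by ring
    rw [this, h5]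
  have n2 : ‖z ^ 2 - 1‖ ≤ 2 * ‖z - 1‖ := by
    have : z ^ 2 - 1 = (z + 1) * (z - 1) := by ring
    rw [this, norm_mul]
    refine mul_le_mul_of_nonneg_right ?_ (norm_nonneg _)
    calc ‖z + 1‖ ≤ ‖z‖ + ‖(1 : ℂ)‖ := norm_add_le _ _
      _ = 2 := by rw [hz, norm_one]; norm_num
  have n4 : ‖z ^ 4 - 1‖ = ‖z - 1‖ := by
    rw [h4, norm_mul, norm_neg, norm_pow, hz, one_pow, one_mul]
  have n3 : ‖z ^ 3 - 1‖ ≤ 2 * ‖z - 1‖ := by
    rw [h6, norm_mul, norm_neg, norm_pow, hz, one_pow, one_mul]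
    exact n2
  have h7 : (5 : ℂ) = -((z ^ 4 - 1) + (z ^ 3 - 1) + (z ^ 2 - 1) + (z - 1)) := by
    linear_combination h3
  have h8 : (5 : ℝ) ≤ 6 * ‖z - 1‖ := by
    calc (5 : ℝ) = ‖(5 : ℂ)‖ := by simp
      _ = ‖(z ^ 4 - 1) + (z ^ 3 - 1) + (z ^ 2 - 1) + (z - 1)‖ := by rw [h7, norm_neg]
      _ ≤ ‖z ^ 4 - 1‖ + ‖z ^ 3 - 1‖ + ‖z ^ 2 - 1‖ + ‖z - 1‖ := by
          refine (norm_add_le _ _).trans (add_le_add ?_ le_rfl)
          refine (norm_add_le _ _).trans (add_le_add ?_ le_rfl)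
          exact norm_add_le _ _
      _ ≤ 6 * ‖z - 1‖ := by linarith
  linarith

theorem modStep_realChar_sub_one (ξ : ℂ) (v : K) :
    ‖ev v (realChar ξ) - 1‖ ≤ 2 * Real.pi * (‖ξ‖ * ‖(v : ℂ)‖) := by
  have h1 : ev v (realChar ξ) = (E ((ξ * (v : ℂ)).re) : ℂ) := rfl
  rw [h1]
  refine (norm_E_sub_one_le _).trans ?_
  refine mul_le_mul_of_nonneg_left ?_ (by positivity)
  calc |(ξ * (v : ℂ)).re| ≤ ‖ξ * (v : ℂ)‖ := Complex.abs_re_le_norm _
    _ = _ := norm_mul _ _

theorem modStep_ev_div_sub (χ χ' : X) (v : K) :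
    ‖ev v (χ / χ') - 1‖ = ‖ev v χ - ev v χ'‖ := by
  have h0 : ev v χ' ≠ 0 := by
    intro h
    have := norm_ev v χ'
    rw [h] at this
    simp at this
  have h1 : ev v (χ / χ') = ev v χ / ev v χ' := by
    simp [ev]
  rw [h1, div_sub_one h0, norm_div, norm_ev, div_one]

theorem modStep_residue (g z : GaussianInt) (hg : ¬ gpi ∣ g) :
    ∃ (m : ℤ) (y : GaussianInt), z = gpi * y + (m : GaussianInt) * g := by
  have h1 : ¬ (5 : ℤ) ∣ g.re - 2 * g.im := fun h => hg ((gpi_dvd_iff g).2 h)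
  have hco : IsCoprime (g.re - 2 * g.im) (5 : ℤ) := by
    have h5 : Prime (5 : ℤ) := Int.prime_iff_natAbs_prime.2 (by norm_num)
    exact ((h5.coprime_iff_not_dvd).2 h1).symm
  obtain ⟨x, y, hxy⟩ := hco
  have h2 : gpi ∣ z - ((x * (z.re - 2 * z.im) : ℤ) : GaussianInt) * g := by
    rw [gpi_dvd_iff]
    refine ⟨y * (z.re - 2 * z.im), ?_⟩
    simp only [Zsqrtd.re_sub, Zsqrtd.im_sub, Zsqrtd.re_mul, Zsqrtd.im_mul, Zsqrtd.re_intCast,
      Zsqrtd.im_intCast]
    linear_combination (z.re - 2 * z.im) * (-hxy)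
  obtain ⟨w, hw⟩ := h2
  exact ⟨_, w, by rw [← hw]; ring⟩

/-- If `θ` is real with small frequency on `ℤ[i] / (D π^j)` and `θ((π̄/π)^(j+1))` is close to `1`,
then `θ` is real with the same frequency on `ℤ[i] / (D π^(j+1))`. -/
theorem step_real (θ : X) (hθ : θ ∈ Hm) (R : ℝ) (hR : 2 * Real.pi * R ≤ 1 / 8)
    (D : GaussianInt) (hD : ¬ gpi ∣ D) (j : ℕ) (ξ : ℂ) (hξ : ‖ξ‖ ≤ R)
    (h : RealOn θ ξ (lat (1 / c (D * gpi ^ j))))
    (hv : ‖ev (un (star gpi) ^ (j + 1)) θ - 1‖ ≤ 5 / 8) :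
    RealOn θ ξ (lat (1 / c (D * gpi ^ (j + 1)))) := by
  have hD0 : D ≠ 0 := by rintro rfl; exact hD (dvd_zero _)
  have hcD : c D ≠ 0 := c_ne_zero hD0
  have hcg : c gpi ≠ 0 := c_ne_zero gpi_ne_zero
  have hcs : c (star gpi) ≠ 0 := c_ne_zero (star_ne_zero' gpi_ne_zero)
  set v : K := un (star gpi) ^ (j + 1) with hvdef
  have hv' : v = c (star gpi) ^ (j + 1) / c gpi ^ (j + 1) := by
    rw [hvdef, modStep_un_star_gpi, div_pow]
  have hnv : ‖((v : K) : ℂ)‖ = 1 := by
    have : ((v : K) : ℂ) = ((un (star gpi) : K) : ℂ) ^ (j + 1) := by rw [hvdef]; simp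
    rw [this, norm_pow, norm_un (star_ne_zero' gpi_ne_zero), one_pow]
  set θ' : X := θ / realChar ξ with hθ'
  have hθ'm : θ' ∈ Hm := Hm_div hθ (realChar_mem ξ)
  have htriv : ∀ w ∈ lat (1 / c (D * gpi ^ j)), θ' w = 1 := by
    intro w hw
    have h1 := h w hw
    simp only [hθ', Pi.div_apply, h1, realChar]
    exact div_self' _
  -- the value at `5 v`
  have h5v : (5 : ℕ) * v ∈ lat (1 / c (D * gpi ^ j)) := by
    refine ⟨D * star gpi ^ (j + 2), ?_⟩
    rw [hv']
    have h5 : ((5 : ℕ) : K) = c gpi * c (star gpi) := by rw [c_gpi_mul]; norm_num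
    rw [h5]
    simp only [map_mul, map_pow]
    field_simp
    ring
  have hζ5 : θ' v ^ 5 = 1 := by
    rw [← Hm_natCast_mul hθ'm]
    exact htriv _ h5v
  have hζ1 : ev v θ' = 1 := by
    refine modStep_fifth _ (norm_ev _ _) ?_ ?_
    · have : ev v θ' ^ 5 = ((θ' v ^ 5 : Circle) : ℂ) := by simp [ev]
      rw [this, hζ5]; simp
    · rw [hθ', modStep_ev_div_sub]
      have h1 := modStep_realChar_sub_one ξ v
      rw [hnv, mul_one] at h1
      have h2 : 2 * Real.pi * ‖ξ‖ ≤ 1 / 8 := by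
        refine le_trans ?_ hR
        exact mul_le_mul_of_nonneg_left hξ (by positivity)
      calc ‖ev v θ - ev v (realChar ξ)‖ = ‖(ev v θ - 1) - (ev v (realChar ξ) - 1)‖ := by
            congr 1; ring
        _ ≤ ‖ev v θ - 1‖ + ‖ev v (realChar ξ) - 1‖ := norm_sub_le _ _
        _ ≤ 3 / 4 := by linarith
  have hζ : θ' v = 1 := by
    apply Circle.ext
    simpa [ev] using hζ1
  -- decomposition of an element of the larger lattice
  rintro w ⟨z, rfl⟩
  have hg : ¬ gpi ∣ D * star gpi ^ (j + 1) := by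
    intro hdvd
    rcases gpi_prime_aux _ _ hdvd with h1 | h1
    · exact hD h1
    · have h2 : ∀ k : ℕ, ¬ gpi ∣ star gpi ^ k := by
        intro k
        induction k with
        | zero => rw [pow_zero]; exact not_gpi_dvd_one
        | succ k ih =>
          rw [pow_succ]
          intro h3
          rcases gpi_prime_aux _ _ h3 with h4 | h4
          · exact ih h4
          · rw [gpi_dvd_iff] at h4
            revert h4
            decide
      exact h2 _ h1
  obtain ⟨m, y, hmy⟩ := modStep_residue _ z hg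
  have hdec : 1 / c (D * gpi ^ (j + 1)) * c z = 1 / c (D * gpi ^ j) * c y + (m : K) * v := by
    rw [hmy, hv']
    simp only [map_add, map_mul, map_pow, map_intCast]
    field_simp
    ring
  have h1 : θ' (1 / c (D * gpi ^ (j + 1)) * c z) = 1 := by
    rw [hdec, hθ'm, Hm_intCast_mul hθ'm, hζ, one_zpow, mul_one]
    exact htriv _ ⟨y, rfl⟩
  have h2 : θ (1 / c (D * gpi ^ (j + 1)) * c z) =
      realChar ξ (1 / c (D * gpi ^ (j + 1)) * c z) := by
    have h3 : θ (1 / c (D * gpi ^ (j + 1)) * c z) /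
      realChar ξ (1 / c (D * gpi ^ (j + 1)) * c z) = 1 := h1
    exact div_eq_one.1 h3
  rw [h2]
  rfl

/-- A value of a character is `E` of a small number. -/
theorem modStep_exists_arg (z : Circle) : ∃ t : ℝ, |t| ≤ 1 / 2 ∧ z = E t := by
  refine ⟨Complex.arg (z : ℂ) / (2 * Real.pi), ?_, ?_⟩
  · have h1 := Complex.abs_arg_le_pi (z : ℂ)
    have h2 := Real.pi_pos
    rw [abs_div, abs_of_pos (by positivity : (0 : ℝ) < 2 * Real.pi), div_le_iff₀ (by positivity)]
    linarith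
  · unfold E
    have h2 := Real.pi_pos
    have h3 : 2 * Real.pi * (Complex.arg (z : ℂ) / (2 * Real.pi)) = Complex.arg (z : ℂ) := by
      field_simp
    rw [h3]
    exact (Circle.exp_arg z).symm

/-- The deterministic part of the names argument. -/
theorem names_det (W : Finset K) (a : K → ℂ) (hW : ∀ w ∈ W, w ∈ Qpi 1) :
    ∃ D : GaussianInt, ¬ gpi ∣ D ∧ ∃ R : ℝ, 0 < R ∧ ∃ r : ℝ, 0 < r ∧
      ∀ (n : ℕ) (χ χ' : X), χ ∈ Hm → χ' ∈ Hm →
        ‖ev (1 / c D) χ - ev (1 / c D) χ'‖ ≤ r →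
        ‖ev (iK / c D) χ - ev (iK / c D) χ'‖ ≤ r →
        (∀ j : ℕ, 1 ≤ j → j ≤ n →
          (‖ev (un (star gpi) ^ j) χ - ev (un (star gpi) ^ j) χ'‖ ≤ 3 / 8 ∨
          (‖ev (un (star gpi) ^ j) χ -
              ∑ w ∈ W, a w * ev (un (star gpi) ^ j * w) χ‖ ≤ 1 / 4 ∧
            ‖ev (un (star gpi) ^ j) χ' -
              ∑ w ∈ W, a w * ev (un (star gpi) ^ j * w) χ'‖ ≤ 1 / 4))) →
        χ / χ' ∈ EE R (1 / c (D * gpi ^ n)) := by
  classical
  -- a common denominator
  have hD : ∃ D : GaussianInt, ¬ gpi ∣ D ∧ ∀ w ∈ W, ∃ b : GaussianInt,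
      w = c gpi * c b / c D := by
    clear a
    induction W using Finset.induction_on with
    | empty => exact ⟨1, not_gpi_dvd_one, by simp⟩
    | insert w W hw ih =>
      obtain ⟨D, hD, hD'⟩ := ih (fun w' hw' => hW w' (Finset.mem_insert_of_mem hw'))
      obtain ⟨b, s, hs, hb⟩ := hW w (Finset.mem_insert_self _ _)
      have hs0 : s ≠ 0 := by rintro rfl; exact hs (dvd_zero _)
      have hD0 : D ≠ 0 := by rintro rfl; exact hD (dvd_zero _)
      have hcs : c s ≠ 0 := c_ne_zero hs0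
      have hcD : c D ≠ 0 := c_ne_zero hD0
      refine ⟨D * s, fun h => (gpi_prime_aux _ _ h).elim hD hs, ?_⟩
      intro w' hw'
      rcases Finset.mem_insert.1 hw' with rfl | hw'
      · refine ⟨b * D, ?_⟩
        rw [hb, zpow_one]
        simp only [map_mul]
        field_simp
      · obtain ⟨b', hb'⟩ := hD' w' hw'
        refine ⟨b' * s, ?_⟩
        rw [hb']
        simp only [map_mul]
        field_simp
  obtain ⟨D, hD, hDW⟩ := hD
  have hD0 : D ≠ 0 := by rintro rfl; exact hD (dvd_zero _)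
  have hcD : c D ≠ 0 := c_ne_zero hD0
  have hcg : c gpi ≠ 0 := c_ne_zero gpi_ne_zero
  have hpi := Real.pi_pos
  set S : ℝ := ∑ w ∈ W, ‖a w‖ * ‖(w : ℂ)‖ with hS
  have hS0 : 0 ≤ S := Finset.sum_nonneg fun w _ => by positivity
  set R : ℝ := 1 / (16 * Real.pi * (1 + S)) with hR
  have hRpos : 0 < R := by positivity
  have hR1 : 2 * Real.pi * R ≤ 1 / 8 := by
    rw [hR]
    have : 2 * Real.pi * (1 / (16 * Real.pi * (1 + S))) = 1 / 8 * (1 / (1 + S)) := by
      field_simp; ring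
    rw [this]
    have h1 : 1 / (1 + S) ≤ 1 := by
      rw [div_le_one (by positivity)]; linarith
    nlinarith
  have hR2 : 2 * Real.pi * R * S ≤ 1 / 8 := by
    rw [hR]
    have : 2 * Real.pi * (1 / (16 * Real.pi * (1 + S))) * S = 1 / 8 * (S / (1 + S)) := by
      field_simp; ring
    rw [this]
    have h1 : S / (1 + S) ≤ 1 := by
      rw [div_le_one (by positivity)]; linarith
    nlinarith
  have hnD : 0 < ‖((c D : K) : ℂ)‖ := norm_pos_iff.2 (coe_ne_zero hcD)
  refine ⟨D, hD, R, hRpos, R / ‖((c D : K) : ℂ)‖, by positivity, ?_⟩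
  intro n χ χ' hχ hχ' h1 hi hj
  set θ : X := χ / χ' with hθ
  have hθm : θ ∈ Hm := Hm_div hχ hχ'
  rw [← modStep_ev_div_sub, ← hθ] at h1 hi
  obtain ⟨α, hα, hα'⟩ := modStep_exists_arg (θ (1 / c D))
  obtain ⟨β, hβ, hβ'⟩ := modStep_exists_arg (θ (iK / c D))
  have hα2 : 4 * |α| ≤ R / ‖((c D : K) : ℂ)‖ := by
    refine (le_norm_E_sub_one hα).trans ?_
    rw [← hα']; exact h1
  have hβ2 : 4 * |β| ≤ R / ‖((c D : K) : ℂ)‖ := by
    refine (le_norm_E_sub_one hβ).trans ?_
    rw [← hβ']; exact hi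
  set ξ : ℂ := ((c D : K) : ℂ) * ((α : ℂ) - (β : ℂ) * Complex.I) with hξ
  have hξR : ‖ξ‖ ≤ R := by
    rw [hξ, norm_mul]
    have h2 : ‖(α : ℂ) - (β : ℂ) * Complex.I‖ ≤ |α| + |β| := by
      refine (norm_sub_le _ _).trans ?_
      rw [norm_mul, Complex.norm_I, mul_one, Complex.norm_real, Complex.norm_real,
        Real.norm_eq_abs, Real.norm_eq_abs]
    calc ‖((c D : K) : ℂ)‖ * ‖(α : ℂ) - (β : ℂ) * Complex.I‖
        ≤ ‖((c D : K) : ℂ)‖ * (|α| + |β|) := mul_le_mul_of_nonneg_left h2 hnD.le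
      _ ≤ ‖((c D : K) : ℂ)‖ * (R / ‖((c D : K) : ℂ)‖) := by
          refine mul_le_mul_of_nonneg_left ?_ hnD.le
          have : 0 ≤ R / ‖((c D : K) : ℂ)‖ := by positivity
          linarith
      _ = R := by field_simp
  have h0 : RealOn θ ξ (lat (1 / c (D * gpi ^ 0))) := by
    rintro w ⟨z, rfl⟩
    have hz : 1 / c (D * gpi ^ 0) * c z = (z.re : K) * (1 / c D) + (z.im : K) * (iK / c D) := by
      rw [pow_zero, mul_one, c_apply z]
      ring
    have h2 : θ (1 / c (D * gpi ^ 0) * c z) = E ((z.re : ℝ) * α + (z.im : ℝ) * β) := by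
      rw [hz, hθm, Hm_intCast_mul hθm, Hm_intCast_mul hθm, hα', hβ', E_add]
      congr 1
      · unfold E
        rw [← Circle.exp_zsmul]
        congr 1
        rw [zsmul_eq_mul]; ring
      · unfold E
        rw [← Circle.exp_zsmul]
        congr 1
        rw [zsmul_eq_mul]; ring
    rw [h2]
    congr 1
    have hcD' : ((c D : K) : ℂ) ≠ 0 := coe_ne_zero hcD
    have h3 : ξ * ((1 / c (D * gpi ^ 0) * c z : K) : ℂ) =
        ((α : ℂ) - (β : ℂ) * Complex.I) * ((z.re : ℂ) + (z.im : ℂ) * Complex.I) := by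
      rw [hz, hξ]
      push_cast
      rw [coe_iK]
      field_simp
    rw [h3]
    simp
    ring
  have hind : ∀ j : ℕ, j ≤ n → RealOn θ ξ (lat (1 / c (D * gpi ^ j))) := by
    intro j
    induction j with
    | zero => intro _; exact h0
    | succ j ih =>
      intro hjn
      have hre := ih (by omega)
      refine step_real θ hθm R hR1 D hD j ξ hξR hre ?_
      rw [hθ, modStep_ev_div_sub]
      rcases hj (j + 1) (by omega) hjn with h2 | ⟨h2, h3⟩
      · linarith
      · set v : K := un (star gpi) ^ (j + 1) with hvdef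
        have hnv : ‖((v : K) : ℂ)‖ = 1 := by
          have : ((v : K) : ℂ) = ((un (star gpi) : K) : ℂ) ^ (j + 1) := by rw [hvdef]; simp
          rw [this, norm_pow, norm_un (star_ne_zero' gpi_ne_zero), one_pow]
        have h4 : ‖(∑ w ∈ W, a w * ev (v * w) χ) - ∑ w ∈ W, a w * ev (v * w) χ'‖ ≤ 1 / 8 := by
          rw [← Finset.sum_sub_distrib]
          refine (norm_sum_le _ _).trans ?_
          refine le_trans (Finset.sum_le_sum
            (g := fun w => 2 * Real.pi * R * (‖a w‖ * ‖(w : ℂ)‖)) ?_) ?_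
          · intro w hw
            rw [← mul_sub, norm_mul]
            have h5 : ‖ev (v * w) χ - ev (v * w) χ'‖ ≤ 2 * Real.pi * (R * ‖(w : ℂ)‖) := by
              rw [← modStep_ev_div_sub, ← hθ]
              obtain ⟨b, hb⟩ := hDW w hw
              have h6 : v * w ∈ lat (1 / c (D * gpi ^ j)) := by
                refine ⟨star gpi ^ (j + 1) * b, ?_⟩
                rw [hb, hvdef, modStep_un_star_gpi, div_pow]
                simp only [map_mul, map_pow]
                field_simp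
                ring
              have h7 : ev (v * w) θ = ev (v * w) (realChar ξ) := by
                unfold ev
                rw [hre _ h6]
                rfl
              rw [h7]
              refine (modStep_realChar_sub_one ξ _).trans ?_
              refine mul_le_mul_of_nonneg_left ?_ (by positivity)
              have h8 : ‖((v * w : K) : ℂ)‖ = ‖(w : ℂ)‖ := by
                have : ((v * w : K) : ℂ) = (v : ℂ) * (w : ℂ) := by simp
                rw [this, norm_mul, hnv, one_mul]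
              rw [h8]
              exact mul_le_mul_of_nonneg_right hξR (norm_nonneg _)
            calc ‖a w‖ * ‖ev (v * w) χ - ev (v * w) χ'‖
                ≤ ‖a w‖ * (2 * Real.pi * (R * ‖(w : ℂ)‖)) :=
                  mul_le_mul_of_nonneg_left h5 (norm_nonneg _)
              _ = 2 * Real.pi * R * (‖a w‖ * ‖(w : ℂ)‖) := by ring
          · rw [← Finset.mul_sum]
            exact hR2
        calc ‖ev v χ - ev v χ'‖
            = ‖(ev v χ - ∑ w ∈ W, a w * ev (v * w) χ) -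
                (ev v χ' - ∑ w ∈ W, a w * ev (v * w) χ') +
                ((∑ w ∈ W, a w * ev (v * w) χ) - ∑ w ∈ W, a w * ev (v * w) χ')‖ := by
              congr 1; ring
          _ ≤ ‖(ev v χ - ∑ w ∈ W, a w * ev (v * w) χ) -
                (ev v χ' - ∑ w ∈ W, a w * ev (v * w) χ')‖ +
                ‖(∑ w ∈ W, a w * ev (v * w) χ) - ∑ w ∈ W, a w * ev (v * w) χ'‖ :=
              norm_add_le _ _
          _ ≤ (‖ev v χ - ∑ w ∈ W, a w * ev (v * w) χ‖ +
                ‖ev v χ' - ∑ w ∈ W, a w * ev (v * w) χ'‖) + 1 / 8 :=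
              add_le_add (norm_sub_le _ _) h4
          _ ≤ 5 / 8 := by linarith
  exact ⟨hθm, ξ, hξR, hind n le_rfl⟩

end Pool.Agent.H56
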