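import Pool.Agent.H56.Basic

/-!
# Structured characters
-/

set_option autoImplicit false
open MeasureTheory Complex
namespace Pool.Agent.H56

theorem latInf_natCast_mul {χ : X} {b : K} {ξ : ℂ} (h : RealOn χ ξ (latInf b)) (m : ℕ) :
    RealOn χ ξ (latInf ((m : K) * b)) := by
  rintro v ⟨z, k, rfl⟩
  apply h
  refine ⟨(m : GaussianInt) * z, k, ?_⟩
  rw [map_mul, map_natCast]
  ring

theorem str_rho_add {χ : X} (hχ : χ ∈ Hm) {b b' : K} (h : rho b χ ∈ Str) (h' : rho b' χ ∈ Str) :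
    rho (b + b') χ ∈ Str := by
  obtain ⟨N, hN, -, ξ, hξ⟩ := h
  obtain ⟨N', hN', -, ξ', hξ'⟩ := h'
  refine ⟨N' * N, Nat.mul_pos hN' hN, Hm_rho hχ _, ξ + ξ', ?_⟩
  have h1 := latInf_natCast_mul hξ N'
  have h2 := latInf_natCast_mul hξ' N
  intro v hv
  rw [Nat.cast_mul] at hv
  have e1 := h1 v hv
  rw [mul_comm] at hv
  have e2 := h2 v hv
  rw [rho_apply] at e1 e2 ⊢
  rw [add_mul, hχ, e1, e2, ← E_add]
  congr 1
  rw [add_mul, Complex.add_re]

theorem str_rho_mul {χ : X} (hχ : χ ∈ Hm) {b q : K} (hq : q ∈ Qi) (h : rho b χ ∈ Str) :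
    rho (q * b) χ ∈ Str := by
  obtain ⟨N, hN, -, ξ, hξ⟩ := h
  obtain ⟨z, n, hn, rfl⟩ := hq
  have hn' : (n : K) ≠ 0 := by exact_mod_cast hn.ne'
  refine ⟨N * n, Nat.mul_pos hN hn, Hm_rho hχ _, ξ * ((c z / n : K) : ℂ), ?_⟩
  rintro v ⟨w, k, rfl⟩
  have e1 := hξ ((N : K) * c (z * w) / 5 ^ k) ⟨z * w, k, rfl⟩
  rw [rho_apply] at e1 ⊢
  have e2 : c z / (n : K) * b * (((N * n : ℕ) : K) * c w / 5 ^ k) =
      b * ((N : K) * c (z * w) / 5 ^ k) := by
    rw [map_mul]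
    push_cast
    field_simp
  rw [e2, e1]
  congr 2
  have e3 : ((N : K) * c (z * w) / 5 ^ k) =
      (c z / n) * (((N * n : ℕ) : K) * c w / 5 ^ k) := by
    rw [map_mul]
    push_cast
    field_simp
  rw [e3, IntermediateField.coe_mul]
  ring

theorem natCast_norm (z : GaussianInt) :
    c z * c (star z) = ((z.norm.toNat : ℕ) : K) := by
  rw [← map_mul, ← map_natCast c]
  congr 1
  have h : (z.norm.toNat : ℤ) = z.norm := Int.toNat_of_nonneg (GaussianInt.norm_nonneg z)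
  have h2 : ((z.norm.toNat : ℕ) : GaussianInt) = ((z.norm.toNat : ℤ) : GaussianInt) :=
    (Int.cast_natCast _).symm
  rw [h2, h, Zsqrtd.norm_eq_mul_conj]

theorem norm_toNat_pos {z : GaussianInt} (hz : z ≠ 0) : 0 < z.norm.toNat := by
  have h := GaussianInt.norm_pos.2 hz
  omega

theorem un_mem_Qi (z : GaussianInt) : un z ∈ Qi := by
  by_cases hz : z = 0
  · subst hz
    exact ⟨0, 1, one_pos, by simp [un]⟩
  · refine ⟨z * z, z.norm.toNat, norm_toNat_pos hz, ?_⟩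
    rw [← natCast_norm, map_mul, un]
    have h1 := c_ne_zero hz
    have h2 := c_ne_zero (star_ne_zero' hz)
    field_simp

/-- `Str` is invariant under the rational rotations -/
theorem preimage_Str (z : GaussianInt) (hz : z ≠ 0) : rho (un z) ⁻¹' Str ∩ Hm = Str := by
  ext χ
  constructor
  · rintro ⟨h, hχ⟩
    have h1 := str_rho_mul hχ (un_mem_Qi (star z)) h
    rwa [un_star, inv_mul_cancel₀ (un_ne_zero hz), rho_one] at h1
  · intro h
    have hχ : χ ∈ Hm := by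
      obtain ⟨N, hN, h1, -⟩ := h
      exact h1
    refine ⟨?_, hχ⟩
    have h1 : rho 1 χ ∈ Str := by simpa using h
    have h2 := str_rho_mul hχ (un_mem_Qi z) h1
    simpa using h2

theorem Qi_mul {x y : K} (hx : x ∈ Qi) (hy : y ∈ Qi) : x * y ∈ Qi := by
  obtain ⟨z, n, hn, rfl⟩ := hx
  obtain ⟨w, m, hm, rfl⟩ := hy
  refine ⟨z * w, n * m, Nat.mul_pos hn hm, ?_⟩
  push_cast
  rw [map_mul]
  field_simp

theorem preimage_RealQ (z : GaussianInt) (hz : z ≠ 0) : rho (un z) ⁻¹' RealQ ∩ Hm = RealQ := by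
  have hu := un_ne_zero hz
  ext χ
  constructor
  · rintro ⟨⟨-, ξ, hξ⟩, hχ⟩
    refine ⟨hχ, ξ * ((un (star z) : K) : ℂ), fun v hv => ?_⟩
    have h1 := hξ _ (Qi_mul (un_mem_Qi (star z)) hv)
    rw [rho_apply, un_star, mul_inv_cancel_left₀ hu] at h1
    rw [h1, IntermediateField.coe_mul, un_star, mul_assoc]
  · rintro ⟨hχ, ξ, hξ⟩
    refine ⟨⟨Hm_rho hχ _, ξ * ((un z : K) : ℂ), fun v hv => ?_⟩, hχ⟩
    rw [rho_apply, hξ _ (Qi_mul (un_mem_Qi z) hv), IntermediateField.coe_mul, mul_assoc]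

theorem RealQ_subset_Str : RealQ ⊆ Str := by
  rintro χ ⟨hχ, ξ, hξ⟩
  refine ⟨1, one_pos, hχ, ξ, ?_⟩
  rintro v ⟨z, k, rfl⟩
  apply hξ
  exact ⟨z, 5 ^ k, by positivity, by push_cast; ring⟩
end Pool.Agent.H56
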