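import Pool.Agent.H56.ThmA
import Pool.Agent.H56.ModCircle
import Pool.Agent.H56.LP

/-!
# The contribution of the real characters
-/

set_option autoImplicit false

open MeasureTheory Complex

namespace Pool.Agent.H56

theorem natCast_mem_Qi (n : ℕ) : (n : K) ∈ Qi := ⟨n, 1, one_pos, by simp⟩

theorem c_mem_Qi (z : GaussianInt) : c z ∈ Qi := ⟨z, 1, one_pos, by simp⟩

theorem mul_mem_Qi {x y : K} (hx : x ∈ Qi) (hy : y ∈ Qi) : x * y ∈ Qi := by
  obtain ⟨z, n, hn, rfl⟩ := hx
  obtain ⟨w, m, hm, rfl⟩ := hy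
  refine ⟨z * w, n * m, Nat.mul_pos hn hm, ?_⟩
  push_cast
  rw [map_mul]
  field_simp

theorem pow_mem_Qi {x : K} (hx : x ∈ Qi) (n : ℕ) : x ^ n ∈ Qi := by
  induction n with
  | zero => simpa using c_mem_Qi 1
  | succ n ih => rw [pow_succ]; exact mul_mem_Qi ih hx

theorem integral_RealQ_rot (μ : Measure X) [IsFiniteMeasure μ] (hinv : InvQ μ)
    (hhom : ∀ᵐ χ ∂μ, χ ∈ Hm) (k : ℕ) (v : K) :
    ∫ χ in RealQ, ev (un gpi ^ k * v) χ ∂μ = ∫ χ in RealQ, ev v χ ∂μ := by
  have hz : gpi ^ k ≠ 0 := pow_ne_zero _ gpi_ne_zero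
  have h1 := map_restrict_eq μ _ (hinv _ hz) _ measurableSet_RealQ
    (preimage_RealQ_ae μ hhom _ hz)
  conv_rhs => rw [← h1]
  rw [integral_map (measurable_rho _).aemeasurable (stronglyMeasurable_ev v).aestronglyMeasurable,
    un_pow]
  rfl

/-- `gpi` does not divide powers of its conjugate. -/
theorem not_gpi_dvd_star_pow (n : ℕ) : ¬ gpi ∣ star gpi ^ n := by
  induction n with
  | zero => simpa using not_gpi_dvd_one
  | succ n ih =>
    intro h
    rw [pow_succ] at h
    rcases gpi_prime_aux _ _ h with h | h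
    · exact ih h
    · rw [gpi_dvd_iff] at h
      revert h
      decide

theorem un_gpi_pow_ne_one (n : ℕ) (hn : 0 < n) : ((un gpi : K) : ℂ) ^ n ≠ 1 := by
  intro h
  have h1 : (un gpi) ^ n = 1 := by
    apply Subtype.ext
    simpa using h
  have h2 : c (star gpi ^ n) = c (gpi ^ n) := by
    unfold un at h1
    rw [div_pow, div_eq_one_iff_eq (pow_ne_zero _ (c_ne_zero (star_ne_zero' gpi_ne_zero)))] at h1
    rw [map_pow, map_pow, h1]
  have h3 := c_injective h2
  apply not_gpi_dvd_star_pow n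
  rw [h3]
  exact dvd_pow_self _ hn.ne'

theorem real_lower (μ : Measure X) [IsProbabilityMeasure μ] (hinv : InvQ μ)
    (hhom : ∀ᵐ χ ∂μ, χ ∈ Hm) {s : ℕ} (w : Fin s → ℝ) (L : ℕ) (J : ℝ → ℝ)
    (hJ : ∀ ξ : ℂ, Filter.Tendsto (fun n : ℕ => (∑ k ∈ Finset.range n,
        Real.cos (2 * Real.pi * (ξ * ((un gpi : K) : ℂ) ^ k).re)) / n) Filter.atTop (nhds (J ‖ξ‖)))
    (η : ℝ) (hη : 0 ≤ η)
    (hLP : ∀ x : ℝ, 0 ≤ x → -η ≤ ∑ j : Fin s, w j * J (x * (L : ℝ) ^ (j : ℕ))) :
    -η ≤ ∑ j : Fin s, w j * (∫ χ in RealQ, ev ((L : K) ^ (j : ℕ)) χ ∂μ).re := by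
  classical
  set F : ℕ → X → ℝ := fun n χ => ∑ j : Fin s, w j *
    ((∑ k ∈ Finset.range n, (ev (un gpi ^ k * (L : K) ^ (j : ℕ)) χ).re) / n) with hF
  have hre : ∀ v : K, Measurable fun χ : X => (ev v χ).re := fun v =>
    Complex.measurable_re.comp (measurable_ev v)
  have hFm : ∀ n, Measurable (F n) := by
    intro n
    apply Finset.measurable_sum
    intro j _
    apply Measurable.const_mul
    apply Measurable.div_const
    apply Finset.measurable_sum
    intro k _
    exact hre _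
  have hint : ∀ v : K, Integrable (fun χ => (ev v χ).re) (μ.restrict RealQ) := fun v =>
    (integrable_ev (μ.restrict RealQ) v).re
  have hFint : ∀ n : ℕ, 0 < n → ∫ χ in RealQ, F n χ ∂μ =
      ∑ j : Fin s, w j * (∫ χ in RealQ, ev ((L : K) ^ (j : ℕ)) χ ∂μ).re := by
    intro n hn
    simp only [hF]
    rw [integral_finsetSum]
    · refine Finset.sum_congr rfl fun j _ => ?_
      rw [integral_const_mul, integral_div, integral_finsetSum]
      · congr 1
        have h1 : ∀ k ∈ Finset.range n,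
            ∫ χ in RealQ, (ev (un gpi ^ k * (L : K) ^ (j : ℕ)) χ).re ∂μ =
            (∫ χ in RealQ, ev ((L : K) ^ (j : ℕ)) χ ∂μ).re := by
          intro k _
          rw [← integral_RealQ_rot μ hinv hhom k]
          exact integral_re (integrable_ev (μ.restrict RealQ) _)
        rw [Finset.sum_congr rfl h1, Finset.sum_const, Finset.card_range, nsmul_eq_mul]
        have : (n : ℝ) ≠ 0 := by exact_mod_cast hn.ne'
        field_simp
      · intro k _
        exact hint _
    · intro j _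
      apply Integrable.const_mul
      apply Integrable.div_const
      exact integrable_finsetSum _ fun k _ => hint _
  -- the limit
  let ξf : X → ℂ := fun χ => if h : χ ∈ RealQ then h.2.choose else 0
  have hξ : ∀ χ ∈ RealQ, RealOn χ (ξf χ) Qi := by
    intro χ h
    simp only [ξf, h, dif_pos]
    exact h.2.choose_spec
  have hlim : ∀ χ ∈ RealQ, Filter.Tendsto (fun n => F n χ) Filter.atTop
      (nhds (∑ j : Fin s, w j * J (‖ξf χ‖ * (L : ℝ) ^ (j : ℕ)))) := by
    intro χ hχ
    simp only [hF]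
    apply tendsto_finsetSum
    intro j _
    apply Filter.Tendsto.const_mul
    have h1 := hJ (ξf χ * (L : ℂ) ^ (j : ℕ))
    have h2 : ‖ξf χ * (L : ℂ) ^ (j : ℕ)‖ = ‖ξf χ‖ * (L : ℝ) ^ (j : ℕ) := by
      rw [norm_mul, norm_pow, Complex.norm_natCast]
    rw [h2] at h1
    refine h1.congr fun n => ?_
    congr 1
    refine Finset.sum_congr rfl fun k _ => ?_
    have h3 := hξ χ hχ (un gpi ^ k * (L : K) ^ (j : ℕ))
      (mul_mem_Qi (pow_mem_Qi (un_mem_Qi gpi) k) (pow_mem_Qi (natCast_mem_Qi L) _))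
    rw [ev, h3, E_re]
    congr 2
    simp only [IntermediateField.coe_mul, IntermediateField.coe_pow]
    have h4 : ((L : K) : ℂ) = (L : ℂ) := by simp
    rw [h4]
    ring_nf
  have hdom := tendsto_integral_of_dominated_convergence (μ := μ.restrict RealQ) (F := F)
    (f := fun χ => ∑ j : Fin s, w j * J (‖ξf χ‖ * (L : ℝ) ^ (j : ℕ)))
    (bound := fun _ => ∑ j : Fin s, |w j|)
    (fun n => (hFm n).aestronglyMeasurable) (integrable_const _)
    (fun n => Filter.Eventually.of_forall fun χ => by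
      simp only [hF]
      rw [Real.norm_eq_abs]
      refine (Finset.abs_sum_le_sum_abs _ _).trans (Finset.sum_le_sum fun j _ => ?_)
      rw [abs_mul]
      refine mul_le_of_le_one_right (abs_nonneg _) ?_
      rcases Nat.eq_zero_or_pos n with rfl | hn
      · simp
      · have hn' : (0 : ℝ) < n := by exact_mod_cast hn
        rw [abs_div, abs_of_pos hn', div_le_one hn']
        calc |∑ k ∈ Finset.range n, (ev (un gpi ^ k * (L : K) ^ (j : ℕ)) χ).re|
            ≤ ∑ k ∈ Finset.range n, |(ev (un gpi ^ k * (L : K) ^ (j : ℕ)) χ).re| :=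
              Finset.abs_sum_le_sum_abs _ _
          _ ≤ ∑ k ∈ Finset.range n, (1 : ℝ) := Finset.sum_le_sum fun k _ =>
              (Complex.abs_re_le_norm _).trans (norm_ev _ _).le
          _ = n := by simp)
    ((ae_restrict_iff' measurableSet_RealQ).2 (Filter.Eventually.of_forall hlim))
  have hconst : Filter.Tendsto (fun n => ∫ χ in RealQ, F n χ ∂μ) Filter.atTop
      (nhds (∑ j : Fin s, w j * (∫ χ in RealQ, ev ((L : K) ^ (j : ℕ)) χ ∂μ).re)) := by
    apply tendsto_const_nhds.congr'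
    filter_upwards [Filter.eventually_gt_atTop 0] with n hn
    exact (hFint n hn).symm
  have heq := tendsto_nhds_unique hconst hdom
  rw [heq]
  have hlow : ∫ χ in RealQ, (-η) ∂μ ≤
      ∫ χ in RealQ, ∑ j : Fin s, w j * J (‖ξf χ‖ * (L : ℝ) ^ (j : ℕ)) ∂μ := by
    by_cases hint2 : Integrable (fun χ => ∑ j : Fin s, w j * J (‖ξf χ‖ * (L : ℝ) ^ (j : ℕ)))
        (μ.restrict RealQ)
    · exact integral_mono (integrable_const _) hint2 fun χ => hLP _ (norm_nonneg _)
    · rw [integral_undef hint2]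
      exact integral_nonpos fun χ => by simpa using hη
  refine le_trans ?_ hlow
  rw [integral_const, smul_eq_mul]
  have hle : (μ.restrict RealQ).real Set.univ ≤ 1 := by
    rw [measureReal_restrict_apply MeasurableSet.univ, Set.univ_inter]
    exact measureReal_le_one
  nlinarith [measureReal_nonneg (μ := μ.restrict RealQ) (s := Set.univ)]

end Pool.Agent.H56
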