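import Pool.Agent.H56.ModDet
import Pool.Agent.H56.ModNames
import Pool.Agent.H56.ModBootB
import Pool.Agent.H56.ModCoset
import Pool.Agent.H56.ModDisc

/-!
# A mean of an evaluation only sees the real characters
-/

set_option autoImplicit false

open MeasureTheory Complex

namespace Pool.Agent.H56

theorem thmA (μ : Measure X) [IsFiniteMeasure μ] (hinv : InvQ μ) (hhom : ∀ᵐ χ ∂μ, χ ∈ Hm)
    (v : GaussianInt) (hv : ¬ gpi ∣ v) (hne : ∫ χ, ev (c v) χ ∂μ ≠ 0) : μ Str ≠ 0 := by
  obtain ⟨A, hA, hA0, hAinv, happ⟩ := det μ hinv hhom v hv hne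
  obtain ⟨κ, hκ, hboot⟩ := boot
  have hhomA : ∀ᵐ χ ∂(μ.restrict A), χ ∈ Hm := ae_restrict_of_ae hhom
  have h0 : μ.restrict A ≠ 0 := by
    rwa [Ne, Measure.restrict_eq_zero]
  obtain ⟨D, hD, R, hR, c0, hc0, hn⟩ := names (μ.restrict A) hAinv hhomA h0 happ κ hκ
  obtain ⟨M, hM, hM0⟩ := hboot (quo (μ.restrict A)) hAinv.quo R hR D hD c0 hc0 hn
  have h1 := coset (μ.restrict A) hAinv hhomA M hM hM0
  intro h2
  exact h1 (le_antisymm ((Measure.restrict_apply_le _ _).trans h2.le) bot_le)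

/-- The restriction of an invariant measure to an almost invariant set is invariant. -/
theorem map_restrict_eq (μ : Measure X) (u : K) (h : μ.map (rho u) = μ) (S : Set X)
    (hS : MeasurableSet S) (hSu : rho u ⁻¹' S =ᵐ[μ] S) :
    (μ.restrict S).map (rho u) = μ.restrict S := by
  ext T hT
  rw [Measure.map_apply (measurable_rho u) hT, Measure.restrict_apply (measurable_rho u hT),
    Measure.restrict_apply hT]
  have h1 : μ (rho u ⁻¹' (T ∩ S)) = μ (T ∩ S) := by
    conv_rhs => rw [← h]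
    rw [Measure.map_apply (measurable_rho u) (hT.inter hS)]
  rw [← h1, Set.preimage_inter]
  apply measure_congr
  exact (Filter.EventuallyEq.refl _ _).inter hSu.symm

theorem preimage_Str_ae (μ : Measure X) (hhom : ∀ᵐ χ ∂μ, χ ∈ Hm) (z : GaussianInt)
    (hz : z ≠ 0) : rho (un z) ⁻¹' Str =ᵐ[μ] Str := by
  have h := preimage_Str z hz
  filter_upwards [hhom] with χ hχ
  have h1 : (χ ∈ rho (un z) ⁻¹' Str) = (χ ∈ Str) := by
    apply propext
    constructor
    · intro h2
      rw [← h]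
      exact ⟨h2, hχ⟩
    · intro h2
      rw [← h] at h2
      exact h2.1
  exact h1

theorem preimage_RealQ_ae (μ : Measure X) (hhom : ∀ᵐ χ ∂μ, χ ∈ Hm) (z : GaussianInt)
    (hz : z ≠ 0) : rho (un z) ⁻¹' RealQ =ᵐ[μ] RealQ := by
  have h := preimage_RealQ z hz
  filter_upwards [hhom] with χ hχ
  have h1 : (χ ∈ rho (un z) ⁻¹' RealQ) = (χ ∈ RealQ) := by
    apply propext
    constructor
    · intro h2
      rw [← h]
      exact ⟨h2, hχ⟩
    · intro h2
      rw [← h] at h2
      exact h2.1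
  exact h1

theorem integral_ev_eq (μ : Measure X) [IsFiniteMeasure μ] (hinv : InvK μ)
    (hhom : ∀ᵐ χ ∂μ, χ ∈ Hm) (v : GaussianInt) (hv : ¬ gpi ∣ v) :
    ∫ χ, ev (c v) χ ∂μ = ∫ χ in RealQ, ev (c v) χ ∂μ := by
  have h1 : InvQ (μ.restrict Strᶜ) := by
    intro z hz
    apply map_restrict_eq μ _ (hinv.invQ z hz) _ measurableSet_Str.compl
    have := preimage_Str_ae μ hhom z hz
    exact this.compl
  have h2 : ∫ χ in Strᶜ, ev (c v) χ ∂μ = 0 := by
    by_contra hne
    have h3 := thmA (μ.restrict Strᶜ) h1 (ae_restrict_of_ae hhom) v hv hne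
    apply h3
    rw [Measure.restrict_apply measurableSet_Str]
    simp
  have h3 : ∫ χ, ev (c v) χ ∂μ = ∫ χ in Str, ev (c v) χ ∂μ := by
    rw [← integral_add_compl measurableSet_Str (integrable_ev μ (c v)), h2, add_zero]
  rw [h3]
  apply setIntegral_congr_set
  have h4 := thmB μ hinv hhom
  have h5 : ∀ᵐ χ ∂μ, χ ∉ Str \ RealQ := measure_eq_zero_iff_ae_notMem.1 h4
  filter_upwards [h5] with χ hχ
  have h6 : (χ ∈ Str) = (χ ∈ RealQ) := by
    apply propext
    constructor
    · intro h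
      by_contra h'
      exact hχ ⟨h, h'⟩
    · intro h
      exact RealQ_subset_Str h
  exact h6

end Pool.Agent.H56
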